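import Mathlib
import Pool.Agent.Helper38.AutF.Autos

/-!
# Project STAB (MP_8358b8_al): basic automorphisms (copied from Helper38/AutF/Final3, Helper34/TOR/Defs, Api)

`T i (u, v)`: `x_i ↦ u⁻¹ x_i v` (`Helper38/AutF/Autos.lean`, with `T_self, T_ne, T_fix, T_conj, aut_ext, hom_eq_on_Sy, Sy_mono, of_mem_Sy`);
`Sy s`: words in the letters of `s`; `Sx i`: words without `x_i`; `eps i`: inversion of `x_i`; `pm σ`: permutation of the letters;
`R i j`: `x_i ↦ x_i x_j`; `dl i w`: `x_i ↦ w⁻¹ x_i w`.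
-/

set_option autoImplicit false

namespace STAB

open Helper38.AutF

/-- `Aut(F_n)` -/
abbrev AF (n : ℕ) := MulAut (FreeGroup (Fin n))

variable {n : ℕ}

/-! ### inversions -/

/-- the inversion of `x_i` -/
def epsHom (i : Fin n) : FreeGroup (Fin n) →* FreeGroup (Fin n) :=
  FreeGroup.lift (Function.update FreeGroup.of i (FreeGroup.of i)⁻¹)

theorem epsHom_self (i : Fin n) :
    epsHom i (FreeGroup.of i) = (FreeGroup.of i)⁻¹ := by simp [epsHom]

theorem epsHom_ne {i j : Fin n} (h : j ≠ i) :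
    epsHom i (FreeGroup.of j) = FreeGroup.of j := by simp [epsHom, h]

theorem epsHom_comp (i : Fin n) : (epsHom i).comp (epsHom i) = MonoidHom.id _ := by
  refine FreeGroup.ext_hom _ _ (fun j => ?_)
  by_cases hj : j = i
  · subst hj
    simp [epsHom_self]
  · simp [epsHom_ne hj]

/-- the inversion of `x_i` as an automorphism -/
def eps (i : Fin n) : AF n :=
  MonoidHom.toMulEquiv (epsHom i) (epsHom i) (epsHom_comp i) (epsHom_comp i)

theorem eps_self (i : Fin n) : eps i (FreeGroup.of i) = (FreeGroup.of i)⁻¹ := epsHom_self i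

theorem eps_ne {i j : Fin n} (h : j ≠ i) : eps i (FreeGroup.of j) = FreeGroup.of j := epsHom_ne h

theorem eps_fix (i : Fin n) {w : FreeGroup (Fin n)} (hw : w ∈ Sx i) : eps i w = w := by
  refine hom_eq_on_Sy (eps i).toMonoidHom (MonoidHom.id _) (fun j hj => ?_) hw
  exact epsHom_ne (by simpa using hj)

theorem eps_sq (i : Fin n) : eps i * eps i = 1 := by
  refine aut_ext (fun j => ?_)
  rw [MulAut.mul_apply]
  by_cases hj : j = i
  · subst hj
    rw [eps_self, map_inv, eps_self, inv_inv]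
    rfl
  · rw [eps_ne hj, eps_ne hj]
    rfl

/-! ### permutations -/

/-- permutation of the letters -/
def pm : Equiv.Perm (Fin n) →* AF n where
  toFun σ := FreeGroup.freeGroupCongr σ
  map_one' := by
    refine aut_ext (fun j => ?_)
    rfl
  map_mul' σ τ := by
    refine aut_ext (fun j => ?_)
    rfl

theorem pm_of (σ : Equiv.Perm (Fin n)) (j : Fin n) :
    pm σ (FreeGroup.of j) = FreeGroup.of (σ j) := by
  change FreeGroup.map σ (FreeGroup.of j) = _
  rw [FreeGroup.map.of]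

theorem pm_Sy (σ : Equiv.Perm (Fin n)) {s : Set (Fin n)} {w : FreeGroup (Fin n)} (hw : w ∈ Sy s) :
    pm σ w ∈ Sy (σ '' s) := by
  have : Sy s ≤ (Sy (σ '' s)).comap (pm σ : AF n).toMonoidHom := by
    unfold Sy
    rw [Subgroup.closure_le]
    rintro _ ⟨c, hc, rfl⟩
    change pm σ (FreeGroup.of c) ∈ Sy (σ '' s)
    rw [pm_of]
    exact of_mem_Sy ⟨c, hc, rfl⟩
  exact this hw

/-! ### transvections -/

/-- the letter `x_j` as a word without `x_i` (trivial if `j = i`) -/
def lx (i j : Fin n) : Sx i :=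
  if h : j = i then 1 else ⟨FreeGroup.of j, of_mem_Sx h⟩

theorem lx_self (i : Fin n) : lx i i = 1 := by simp [lx]

theorem lx_ne {i j : Fin n} (h : j ≠ i) :
    ((lx i j : Sx i) : FreeGroup (Fin n)) = FreeGroup.of j := by simp [lx, h]

/-- the transvection `x_i ↦ x_i x_j` -/
def R (i j : Fin n) : AF n := T i (1, lx i j)

theorem R_self {i j : Fin n} (h : j ≠ i) :
    R i j (FreeGroup.of i) = FreeGroup.of i * FreeGroup.of j := by
  rw [R, T_self]
  simp [lx_ne h]

theorem R_ne {i j c : Fin n} (h : c ≠ i) : R i j (FreeGroup.of c) = FreeGroup.of c := by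
  rw [R, T_ne h]

theorem R_fix {i j : Fin n} {w : FreeGroup (Fin n)} (hw : w ∈ Sx i) : R i j w = w := by
  rw [R, T_fix _ _ hw]

/-- `x_i ↦ w⁻¹ x_i w` -/
def dl (i : Fin n) : Sx i →* AF n := (T i).comp ((MonoidHom.id _).prod (MonoidHom.id _))

theorem dl_apply (i : Fin n) (w : Sx i) : dl i w = T i (w, w) := rfl

theorem dl_self (i : Fin n) (w : Sx i) :
    dl i w (FreeGroup.of i) = (w : FreeGroup (Fin n))⁻¹ * FreeGroup.of i * w := by
  rw [dl_apply, T_self]

theorem dl_fix (i : Fin n) (w : Sx i) {v : FreeGroup (Fin n)} (hv : v ∈ Sx i) : dl i w v = v := by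
  rw [dl_apply, T_fix _ _ hv]

theorem eps_conj (i : Fin n) (u : Sx i) :
    eps i * T i (1, u) * (eps i)⁻¹ = T i (u, 1) := by
  rw [mul_inv_eq_iff_eq_mul]
  refine aut_ext (fun j => ?_)
  rw [MulAut.mul_apply, MulAut.mul_apply]
  by_cases hj : j = i
  · subst hj
    rw [T_self, eps_self, map_inv, T_self]
    simp only [map_mul, OneMemClass.coe_one, inv_one, one_mul, mul_one,
      _root_.mul_inv_rev, inv_inv]
    rw [eps_fix j u.2, eps_self]
  · rw [T_ne hj, eps_ne hj, T_ne hj]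

/-! ### automorphisms preserving words -/

/-- a homomorphism of free groups maps `Sy s` into a subgroup if it maps the letters there -/
theorem map_Sy {s : Set (Fin n)} (φ : AF n) (P : Subgroup (FreeGroup (Fin n)))
    (h : ∀ c ∈ s, φ (FreeGroup.of c) ∈ P) {w : FreeGroup (Fin n)} (hw : w ∈ Sy s) : φ w ∈ P := by
  have : Sy s ≤ P.comap φ.toMonoidHom := by
    unfold Sy
    rw [Subgroup.closure_le]
    rintro _ ⟨c, hc, rfl⟩
    exact h c hc
  exact this hw

/-- an automorphism which fixes the letters of `s` fixes all words in them -/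
theorem fix_Sy {s : Set (Fin n)} (φ : AF n) (h : ∀ c ∈ s, φ (FreeGroup.of c) = FreeGroup.of c)
    {w : FreeGroup (Fin n)} (hw : w ∈ Sy s) : φ w = w :=
  hom_eq_on_Sy φ.toMonoidHom (MonoidHom.id _) (fun j hj => h j hj) hw

/-- automorphisms fixing `x_i` and preserving the words without `x_i` -/
def Sti (i : Fin n) : Subgroup (AF n) where
  carrier := {φ | φ (FreeGroup.of i) = FreeGroup.of i ∧ ∀ w, w ∈ Sx i ↔ φ w ∈ Sx i}
  mul_mem' := by
    rintro a b ⟨ha, ha'⟩ ⟨hb, hb'⟩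
    refine ⟨by rw [MulAut.mul_apply, hb, ha], fun w => ?_⟩
    rw [MulAut.mul_apply, ← ha', ← hb']
  one_mem' := ⟨rfl, fun _ => Iff.rfl⟩
  inv_mem' := by
    rintro a ⟨ha, ha'⟩
    refine ⟨?_, fun w => ?_⟩
    · have h := congrArg (a⁻¹ : AF n) ha
      rw [MulAut.inv_apply_self] at h
      exact h.symm
    · rw [ha' (a⁻¹ w), MulAut.apply_inv_self]

/-- criterion for membership in `Sti i` -/
theorem mem_Sti_of {i : Fin n} {φ : AF n} (h0 : φ (FreeGroup.of i) = FreeGroup.of i)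
    (h1 : ∀ c, c ≠ i → φ (FreeGroup.of c) ∈ Sx i)
    (h2 : ∀ c, c ≠ i → φ⁻¹ (FreeGroup.of c) ∈ Sx i) : φ ∈ Sti i := by
  refine ⟨h0, fun w => ⟨fun hw => ?_, fun hw => ?_⟩⟩
  · exact map_Sy φ (Sx i) (fun c hc => h1 c (by simpa using hc)) hw
  · have := map_Sy (φ⁻¹ : AF n) (Sx i) (fun c hc => h2 c (by simpa using hc)) hw
    rwa [MulAut.inv_apply_self] at this

theorem T_mem_Sti {i a : Fin n} (ha : i ≠ a) (p : Sx i × Sx i)
    (h1 : (p.1 : FreeGroup (Fin n)) ∈ Sx a) (h2 : (p.2 : FreeGroup (Fin n)) ∈ Sx a) :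
    T i p ∈ Sti a := by
  refine mem_Sti_of (T_ne ha.symm _) (fun c hc => ?_) (fun c hc => ?_)
  · by_cases h : c = i
    · subst h
      rw [T_self]
      exact mul_mem (mul_mem (inv_mem h1) (of_mem_Sx hc)) h2
    · rw [T_ne h]; exact of_mem_Sx hc
  · rw [← map_inv]
    by_cases h : c = i
    · subst h
      rw [T_self]
      refine mul_mem (mul_mem (inv_mem ?_) (of_mem_Sx hc)) ?_
      · simpa using h1
      · simpa using h2
    · rw [T_ne h]; exact of_mem_Sx hc

theorem lx_mem_Sx {i j a : Fin n} (h : a ≠ j) : ((lx i j : Sx i) : FreeGroup (Fin n)) ∈ Sx a := by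
  by_cases hj : j = i
  · subst hj
    rw [lx_self]; exact one_mem _
  · rw [lx_ne hj]; exact of_mem_Sx h.symm

theorem R_mem_Sti {i j a : Fin n} (hi : i ≠ a) (hj : j ≠ a) : R i j ∈ Sti a :=
  T_mem_Sti hi _ (one_mem _) (lx_mem_Sx hj.symm)

/-- the action of `Sti i` on `Sx i` -/
def act {i : Fin n} (σ : AF n) (hσ : σ ∈ Sti i) : Sx i →* Sx i :=
  ((σ : FreeGroup (Fin n) →* FreeGroup (Fin n)).comp (Sx i).subtype).codRestrict (Sx i)
    (fun w => (hσ.2 w).1 w.2)

theorem act_coe {i : Fin n} (σ : AF n) (hσ : σ ∈ Sti i) (w : Sx i) :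
    ((act σ hσ w : Sx i) : FreeGroup (Fin n)) = σ w := rfl

/-- conjugating `T i` by elements of `Sti i` -/
theorem Sti_conj {i : Fin n} (σ : AF n) (hσ : σ ∈ Sti i) (p : Sx i × Sx i) :
    σ * T i p * σ⁻¹ = T i (act σ hσ p.1, act σ hσ p.2) := by
  rw [mul_inv_eq_iff_eq_mul]
  exact T_conj σ hσ.1 (fun j hj => (hσ.2 _).1 (of_mem_Sx hj)) _ _ rfl rfl

end STAB
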