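import Mathlib
import Pool.Agent.Helper40.STAB.Base

/-!
# Project STAB (MP_8358b8_al): definitions

Memo: memo_MP_8358b8_al_STAB_helper40.md. Library: `Helper40/STAB/Base.lean` and `Helper38/AutF/Autos.lean`.
-/

set_option autoImplicit false

namespace STAB

open Helper38.AutF

variable {n : ℕ} {G : Type} [Group G]

/-- all chains of subgroups of `G` have length at most `r` -/
def ChainLE (G : Type) [Group G] (r : ℕ) : Prop := ∀ s : LTSeries (Subgroup G), s.length ≤ r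

/-- the automorphisms `φ` with `π ∘ φ = π` -/
def Gam (π : FreeGroup (Fin n) →* G) : Subgroup (AF n) where
  carrier := {φ | ∀ x, π (φ x) = π x}
  mul_mem' := by
    intro a b ha hb x
    rw [MulAut.mul_apply, ha, hb]
  one_mem' := by intro x; rfl
  inv_mem' := by
    intro a ha x
    have := ha (a⁻¹ x)
    rw [MulAut.apply_inv_self] at this
    exact this.symm

theorem mem_Gam {π : FreeGroup (Fin n) →* G} {φ : AF n} : φ ∈ Gam π ↔ ∀ x, π (φ x) = π x := Iff.rfl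

/-- it is enough to check the letters -/
theorem mem_Gam_of {π : FreeGroup (Fin n) →* G} {φ : AF n}
    (h : ∀ j, π (φ (FreeGroup.of j)) = π (FreeGroup.of j)) : φ ∈ Gam π := by
  intro x
  have : π.comp φ.toMonoidHom = π := FreeGroup.ext_hom _ _ h
  exact DFunLike.congr_fun this x

theorem T_mem_Gam {π : FreeGroup (Fin n) →* G} {i : Fin n} {p : Sx i × Sx i}
    (h : (π p.1)⁻¹ * π (FreeGroup.of i) * π p.2 = π (FreeGroup.of i)) : T i p ∈ Gam π := by
  refine mem_Gam_of (fun j => ?_)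
  by_cases hj : j = i
  · subst hj
    rw [T_self, map_mul, map_mul, map_inv]
    exact h
  · rw [T_ne hj]

theorem T_mem_Gam' {π : FreeGroup (Fin n) →* G} {i : Fin n} {p : Sx i × Sx i}
    (h1 : π p.1 = 1) (h2 : π p.2 = 1) : T i p ∈ Gam π :=
  T_mem_Gam (by rw [h1, h2, inv_one, one_mul, mul_one])

theorem dl_mem_Gam {π : FreeGroup (Fin n) →* G} {i : Fin n} (hi : π (FreeGroup.of i) = 1)
    (w : Sx i) : dl i w ∈ Gam π := by
  rw [dl_apply]
  exact T_mem_Gam (by rw [hi, mul_one, inv_mul_cancel])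

theorem R_mem_Gam {π : FreeGroup (Fin n) →* G} (i : Fin n) {j : Fin n}
    (hj : π (FreeGroup.of j) = 1) : R i j ∈ Gam π := by
  refine T_mem_Gam' (map_one π) ?_
  by_cases h : j = i
  · rw [h, lx_self]
    exact map_one π
  · rw [lx_ne h]
    exact hj

theorem eps_mem_Gam {π : FreeGroup (Fin n) →* G} {i : Fin n} (hi : π (FreeGroup.of i) = 1) :
    eps i ∈ Gam π := by
  refine mem_Gam_of (fun j => ?_)
  by_cases hj : j = i
  · subst hj
    rw [eps_self, map_inv, hi, inv_one]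
  · rw [eps_ne hj]

theorem pm_mem_Gam {π : FreeGroup (Fin n) →* G} {σ : Equiv.Perm (Fin n)}
    (h : ∀ j, π (FreeGroup.of (σ j)) = π (FreeGroup.of j)) : pm σ ∈ Gam π :=
  mem_Gam_of (fun j => by rw [pm_of, h])

/-- the words in the letters of `S` represent all elements of `G` under `π ∘ φ` -/
def GenOn (π : FreeGroup (Fin n) →* G) (φ : AF n) (S : Finset (Fin n)) : Prop :=
  ∀ g : G, ∃ w ∈ Sy (S : Set (Fin n)), π (φ w) = g

/-- normalised data: the letters of `I₀` (heavy) generate, the others (light) are mapped to `1` -/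
structure Dat (π : FreeGroup (Fin n) →* G) (I₀ : Finset (Fin n)) (r : ℕ) : Prop where
  chain : ChainLE G r
  gen : GenOn π 1 I₀
  light : ∀ z, z ∉ I₀ → π (FreeGroup.of z) = 1
  card : I₀.card ≤ r

/-! ### multiple transvections -/

/-- families of words without the letters of `D`, supported on `D` -/
def Ok (D : Finset (Fin n)) (u : Fin n → FreeGroup (Fin n)) : Prop :=
  (∀ i, u i ∈ Sy ((D : Set (Fin n))ᶜ)) ∧ ∀ i, i ∉ D → u i = 1

/-- the endomorphism `x_i ↦ (u i)⁻¹ x_i (w i)` -/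
def Me (u w : Fin n → FreeGroup (Fin n)) : FreeGroup (Fin n) →* FreeGroup (Fin n) :=
  FreeGroup.lift (fun i => (u i)⁻¹ * FreeGroup.of i * w i)

theorem Me_of (u w : Fin n → FreeGroup (Fin n)) (i : Fin n) :
    Me u w (FreeGroup.of i) = (u i)⁻¹ * FreeGroup.of i * w i := by
  simp [Me]

theorem Ok.one (D : Finset (Fin n)) : Ok D (1 : Fin n → FreeGroup (Fin n)) :=
  ⟨fun _ => one_mem _, fun _ _ => rfl⟩

theorem Ok.mul {D : Finset (Fin n)} {u v : Fin n → FreeGroup (Fin n)} (hu : Ok D u) (hv : Ok D v) :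
    Ok D (u * v) :=
  ⟨fun i => mul_mem (hu.1 i) (hv.1 i), fun i hi => by
    rw [Pi.mul_apply, hu.2 i hi, hv.2 i hi, one_mul]⟩

theorem Ok.inv {D : Finset (Fin n)} {u : Fin n → FreeGroup (Fin n)} (hu : Ok D u) : Ok D u⁻¹ :=
  ⟨fun i => inv_mem (hu.1 i), fun i hi => by rw [Pi.inv_apply, hu.2 i hi, inv_one]⟩

theorem Me_fix {D : Finset (Fin n)} {u w : Fin n → FreeGroup (Fin n)} (hu : Ok D u) (hw : Ok D w)
    {x : FreeGroup (Fin n)} (hx : x ∈ Sy ((D : Set (Fin n))ᶜ)) : Me u w x = x := by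
  refine hom_eq_on_Sy (Me u w) (MonoidHom.id _) (fun j hj => ?_) hx
  have hj' : j ∉ D := by simpa using hj
  rw [Me_of, hu.2 j hj', hw.2 j hj']
  simp

theorem Me_comp {D : Finset (Fin n)} {u w u' w' : Fin n → FreeGroup (Fin n)} (hu : Ok D u)
    (hw : Ok D w) (hu' : Ok D u') (hw' : Ok D w') :
    (Me u w).comp (Me u' w') = Me (u * u') (w * w') := by
  refine FreeGroup.ext_hom _ _ (fun j => ?_)
  rw [MonoidHom.comp_apply, Me_of, Me_of, map_mul, map_mul, map_inv, Me_of,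
    Me_fix hu hw (hu'.1 j), Me_fix hu hw (hw'.1 j), Pi.mul_apply, Pi.mul_apply]
  group

theorem Me_one : Me (1 : Fin n → FreeGroup (Fin n)) 1 = MonoidHom.id _ := by
  refine FreeGroup.ext_hom _ _ (fun j => ?_)
  rw [Me_of]
  simp

open Classical in
/-- the automorphism `x_i ↦ (u i)⁻¹ x_i (w i)` (`i ∈ D`), `u i, w i` words without the letters of
`D` (junk value `1` if `u, w` are not admissible) -/
noncomputable def Mm (D : Finset (Fin n)) (u w : Fin n → FreeGroup (Fin n)) : AF n :=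
  if h : Ok D u ∧ Ok D w then
    MonoidHom.toMulEquiv (Me u w) (Me u⁻¹ w⁻¹)
      (by rw [Me_comp h.1.inv h.2.inv h.1 h.2, inv_mul_cancel, inv_mul_cancel, Me_one])
      (by rw [Me_comp h.1 h.2 h.1.inv h.2.inv, mul_inv_cancel, mul_inv_cancel, Me_one])
  else 1

theorem Mm_apply {D : Finset (Fin n)} {u w : Fin n → FreeGroup (Fin n)} (hu : Ok D u)
    (hw : Ok D w) (x : FreeGroup (Fin n)) : Mm D u w x = Me u w x := by
  rw [Mm, dif_pos ⟨hu, hw⟩]
  rfl

theorem Mm_of {D : Finset (Fin n)} {u w : Fin n → FreeGroup (Fin n)} (hu : Ok D u)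
    (hw : Ok D w) (i : Fin n) : Mm D u w (FreeGroup.of i) = (u i)⁻¹ * FreeGroup.of i * w i := by
  rw [Mm_apply hu hw, Me_of]

theorem Mm_of_not {D : Finset (Fin n)} {u w : Fin n → FreeGroup (Fin n)} (hu : Ok D u)
    (hw : Ok D w) {i : Fin n} (hi : i ∉ D) : Mm D u w (FreeGroup.of i) = FreeGroup.of i := by
  rw [Mm_of hu hw, hu.2 i hi, hw.2 i hi]
  simp

theorem Mm_fix {D : Finset (Fin n)} {u w : Fin n → FreeGroup (Fin n)} (hu : Ok D u) (hw : Ok D w)
    {x : FreeGroup (Fin n)} (hx : x ∈ Sy ((D : Set (Fin n))ᶜ)) : Mm D u w x = x := by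
  rw [Mm_apply hu hw, Me_fix hu hw hx]

theorem Mm_mul {D : Finset (Fin n)} {u w u' w' : Fin n → FreeGroup (Fin n)} (hu : Ok D u)
    (hw : Ok D w) (hu' : Ok D u') (hw' : Ok D w') :
    Mm D u w * Mm D u' w' = Mm D (u * u') (w * w') := by
  ext x
  rw [MulAut.mul_apply, Mm_apply hu' hw', Mm_apply hu hw, Mm_apply (hu.mul hu') (hw.mul hw'),
    ← Me_comp hu hw hu' hw']
  rfl

theorem Mm_one (D : Finset (Fin n)) : Mm D 1 1 = 1 := by
  ext x
  rw [Mm_apply (Ok.one D) (Ok.one D), Me_one]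
  rfl

theorem Mm_inv {D : Finset (Fin n)} {u w : Fin n → FreeGroup (Fin n)} (hu : Ok D u)
    (hw : Ok D w) : (Mm D u w)⁻¹ = Mm D u⁻¹ w⁻¹ := by
  rw [inv_eq_iff_mul_eq_one, Mm_mul hu hw hu.inv hw.inv, mul_inv_cancel, mul_inv_cancel, Mm_one]

/-! ### the group part -/

/-- `K φ = K ψ` -/
def Sim (K : Subgroup (AF n)) (φ ψ : AF n) : Prop := ψ * φ⁻¹ ∈ K

/-- `K ≤ Γ`, and `K` contains all `φ T_i(u,v) φ⁻¹` with `πφ(u) = πφ(v) = 1` -/
structure AX (π : FreeGroup (Fin n) →* G) (K : Subgroup (AF n)) : Prop where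
  le : K ≤ Gam π
  kill : ∀ (φ : AF n) (i : Fin n) (p : Sx i × Sx i), π (φ p.1) = 1 → π (φ p.2) = 1 →
    φ * T i p * φ⁻¹ ∈ K

/-- signed permutations of the letters -/
def IsSg (τ : AF n) : Prop :=
  ∀ z, ∃ c, τ (FreeGroup.of z) = FreeGroup.of c ∨ τ (FreeGroup.of z) = (FreeGroup.of c)⁻¹

/-- products `M_Z(u,u) τ`, `u` words in the heavy letters, `τ` a signed permutation of the light
letters -/
def QQ (I₀ : Finset (Fin n)) : Set (AF n) :=
  {q | ∃ (u : Fin n → FreeGroup (Fin n)) (τ : AF n), Ok I₀ᶜ u ∧ IsSg τ ∧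
    (∀ j ∈ I₀, τ (FreeGroup.of j) = FreeGroup.of j) ∧ q = Mm I₀ᶜ u u * τ}

/-- `η = φ M_D(1,w) M_{D^c}(1,v)` -/
def Std (φ : AF n) (D : Finset (Fin n)) (η : AF n) : Prop :=
  ∃ w v : Fin n → FreeGroup (Fin n), Ok D w ∧ Ok Dᶜ v ∧ η = φ * Mm D 1 w * Mm Dᶜ 1 v

/-- the statement `P_A(φ)`, `A = α(I₀)` -/
def PA (K : Subgroup (AF n)) (I₀ : Finset (Fin n)) (φ : AF n) (α : Equiv.Perm (Fin n)) : Prop :=
  ∃ η q : AF n, Std φ (I₀.image α) η ∧ q ∈ QQ I₀ ∧ Sim K q (η * pm α)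

/-- the statement `P(φ)` -/
def PP (π : FreeGroup (Fin n) →* G) (K : Subgroup (AF n)) (I₀ : Finset (Fin n)) (φ : AF n) : Prop :=
  ∀ α : Equiv.Perm (Fin n), GenOn π φ (I₀.image α)ᶜ → PA K I₀ φ α

/-- the group generated by the transvections -/
def SA (n : ℕ) : Subgroup (AF n) := Subgroup.closure {g | ∃ (i : Fin n) (p : Sx i × Sx i), g = T i p}

/-! ### the representation part -/

/-- sign changes `ep`, permutations `sg` and transvections `R` of a set `Z` of letters, inside a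
group `Γ`, with the relations which are used -/
structure Sys (Z Γ : Type) [DecidableEq Z] [Group Γ] where
  ep : Z → Γ
  sg : Equiv.Perm Z →* Γ
  R : Z → Z → Γ
  ep_sq : ∀ i, ep i * ep i = 1
  ep_comm : ∀ i j, ep i * ep j = ep j * ep i
  sg_ep : ∀ (σ : Equiv.Perm Z) i, sg σ * ep i * (sg σ)⁻¹ = ep (σ i)
  sg_R : ∀ (σ : Equiv.Perm Z) i j, i ≠ j → sg σ * R i j * (sg σ)⁻¹ = R (σ i) (σ j)
  ep_R : ∀ l i j, l ≠ i → l ≠ j → i ≠ j → ep l * R i j = R i j * ep l
  ep_inv : ∀ i j, i ≠ j → ep j * R i j * ep j = (R i j)⁻¹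
  comm4 : ∀ i j s t, i ≠ j → s ≠ t → i ≠ s → i ≠ t → j ≠ s → j ≠ t → R i j * R s t = R s t * R i j
  comm3 : ∀ i j s, i ≠ j → s ≠ j → i ≠ s → R i j * R s j = R s j * R i j
  tri : ∀ i j l, i ≠ j → i ≠ l → j ≠ l → R j l * R i j = R i j * R i l * R j l
  left : ∀ i j t, i ≠ j → i ≠ t →
    (ep i * R i j * ep i) * R i t = R i t * (ep i * R i j * ep i)

section Coord
variable {Z Γ K : Type} [Fintype Z] [DecidableEq Z] [Group Γ] [Field K] {q : ℕ}

/-- coordinates in which the products of two sign changes and the even permutations are standard -/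
structure Coord (S : Sys Z Γ) (ρ : Γ →* Module.End K ((Fin q → K) × (Z → K))) : Prop where
  ep2 : ∀ a b, a ≠ b → ∀ (u : Fin q → K) (x : Z → K),
    ρ (S.ep a * S.ep b) (u, x) = (u, fun l => if l = a ∨ l = b then -x l else x l)
  even : ∀ σ : Equiv.Perm Z, Equiv.Perm.sign σ = 1 → ∀ (u : Fin q → K) (x : Z → K),
    ρ (S.sg σ) (u, x) = (u, fun l => x (σ⁻¹ l))

/-- type S: `e_i ↦ e_i + e_j`, `u ↦ u + c(u) e_j` -/
def TypeS (S : Sys Z Γ) (ρ : Γ →* Module.End K ((Fin q → K) × (Z → K)))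
    (c : (Fin q → K) →ₗ[K] K) : Prop :=
  ∀ i j, i ≠ j → ∀ (u : Fin q → K) (x : Z → K),
    ρ (S.R i j) (u, x) = (u, x + Pi.single j (c u + x i))

/-- type D: `e_j ↦ e_j + b - e_i` -/
def TypeD (S : Sys Z Γ) (ρ : Γ →* Module.End K ((Fin q → K) × (Z → K)))
    (b : Fin q → K) : Prop :=
  ∀ i j, i ≠ j → ∀ (u : Fin q → K) (x : Z → K),
    ρ (S.R i j) (u, x) = (u + x j • b, x - Pi.single i (x j))

end Coord

/-- the light letters -/
abbrev ZZ (I₀ : Finset (Fin n)) : Type := {z : Fin n // z ∉ I₀}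

/-- the system of sign changes, permutations and transvections of the light letters -/
structure Spec (π : FreeGroup (Fin n) →* G) (I₀ : Finset (Fin n)) (S : Sys (ZZ I₀) (Gam π)) :
    Prop where
  ep : ∀ z : ZZ I₀, (S.ep z : AF n) = eps (z : Fin n)
  sg : ∀ σ : Equiv.Perm (ZZ I₀), (S.sg σ : AF n) = pm (Equiv.Perm.ofSubtype σ)
  R : ∀ i j : ZZ I₀, i ≠ j → (S.R i j : AF n) = STAB.R (i : Fin n) (j : Fin n)

/-- transport of a representation -/
def cj {Γ K V W : Type} [Group Γ] [Field K] [AddCommGroup V] [Module K V] [AddCommGroup W]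
    [Module K W] (ρ : Γ →* Module.End K V) (Φ : V ≃ₗ[K] W) : Γ →* Module.End K W where
  toFun g := Φ.toLinearMap ∘ₗ ρ g ∘ₗ Φ.symm.toLinearMap
  map_one' := by
    ext v
    simp
  map_mul' g h := by
    ext v
    simp

theorem cj_apply {Γ K V W : Type} [Group Γ] [Field K] [AddCommGroup V] [Module K V]
    [AddCommGroup W] [Module K W] (ρ : Γ →* Module.End K V) (Φ : V ≃ₗ[K] W) (g : Γ) (w : W) :
    cj ρ Φ g w = Φ (ρ g (Φ.symm w)) := rfl

/-- the dual representation -/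
def du {Γ K V : Type} [Group Γ] [Field K] [AddCommGroup V] [Module K V]
    (ρ : Γ →* Module.End K V) : Γ →* Module.End K (Module.Dual K V) where
  toFun g := (ρ g⁻¹).dualMap
  map_one' := by
    ext f v
    simp
  map_mul' g h := by
    ext f v
    simp

theorem du_apply {Γ K V : Type} [Group Γ] [Field K] [AddCommGroup V] [Module K V]
    (ρ : Γ →* Module.End K V) (g : Γ) (f : Module.Dual K V) (v : V) :
    du ρ g f v = f (ρ g⁻¹ v) := rfl

/-- the decomposition of `V` under the products of two sign changes, multiplicity one -/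
structure Dec {Z Γ K V : Type} [Fintype Z] [DecidableEq Z] [Group Γ] [Field K] [AddCommGroup V]
    [Module K V] (S : Sys Z Γ) (ρ : Γ →* Module.End K V) (e : Z → V) : Prop where
  ne : ∀ l, e l ≠ 0
  neg : ∀ l b, b ≠ l → ρ (S.ep l * S.ep b) (e l) = -e l
  pos : ∀ l a b, a ≠ l → b ≠ l → ρ (S.ep a * S.ep b) (e l) = e l
  span : ∀ v, ∃ (v₀ : V) (x : Z → K), (∀ a b, ρ (S.ep a * S.ep b) v₀ = v₀) ∧
    v = v₀ + ∑ l, x l • e l

end STAB
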