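import Mathlib
import Pool.Agent.Helper40.STAB.Defs

/-!
# STAB-04 KerGen: from the transvections between killed letters to all killed words

`Λ` = the letters `c ≠ i`, `c ∉ J`; there are at least two.
PROOF. (1) For `c ≠ c'` in `Λ` the automorphism `g = T i (1, x_{c'})` has `θ ∘ g = θ` (letters). `R c' c * T i (1, x_{c'}) * (R c' c)⁻¹ = T i (1, x_{c'} x_c)`
(`Sti_conj`/`T_conj`), so `(T i (1, x_{c'}))⁻¹ * R c' c * T i (1, x_{c'}) * (R c' c)⁻¹ = T i (1, x_{c'}⁻¹ x_{c'} x_c) = T i (1, x_c)` is in `N` (product of a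
conjugate of `R c' c ∈ N` by `g⁻¹` and `(R c' c)⁻¹`). So `T i (1, x_c) ∈ N` for all `c ∈ Λ`; the same with `T i (x_{c'}, 1)` gives `T i (x_c, 1) ∈ N`.
(2) `V = {v : Sx i | T i (1, v) ∈ N}` is a subgroup of `Sx i`; if `g ∈ Sti i` and `θ ∘ g = θ` then `v ∈ V` implies `g v ∈ V` (`Sti_conj`, `hN`).
Take `g = T c (y⁻¹, y⁻¹)` (`c ∈ Λ`, `y ∈ Sy J`: `x_c ↦ y x_c y⁻¹`; `θ x_c = 1` so `θ ∘ g = θ`; `g ∈ Sti i` by `T_mem_Sti`): `y x_c y⁻¹ ∈ V`. Take
`g = T c (1, v)`, `v ∈ Sy J`, `θ v = 1`: `x_c v ∈ V`, so `v ∈ V`.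
(3) Every `v ∈ Sx i` is `v = m * y` with `m` in the subgroup generated by the `y x_c y⁻¹` (`c ∈ Λ`, `y ∈ Sy J`) and `y ∈ Sy J`: the set of these
products is closed under right multiplication by `x_c` (`m y x_c = m (y x_c y⁻¹) y`), `x_c⁻¹`, and by letters of `J` and their inverses
(`Subgroup.closure_induction_right`; `Sx i = Sy {i}ᶜ` is the closure of the letters `≠ i`, each in `Λ` or in `J`). `θ m = 1`, so if `θ v = 1` then
`θ y = 1` and `v = m y ∈ V`. The same for the left coordinate `{u | T i (u, 1) ∈ N}`. `T i p = T i (p.1, 1) * T i (1, p.2)`.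
It is convenient to prove (2)+(3) once for a homomorphism `t : Sx i →* AF n` with `g * t v * g⁻¹ = t (act g hg v)` for `g ∈ Sti i`.
-/

set_option autoImplicit false

namespace STAB

open Helper38.AutF

variable {n : ℕ} {G : Type} [Group G]

private theorem two_free {i : Fin n} {J : Finset (Fin n)} (h2 : J.card + 3 ≤ n) (c : Fin n) :
    ∃ c', c' ≠ i ∧ c' ∉ J ∧ c' ≠ c := by
  by_contra hcon
  push Not at hcon
  have h1 : (Finset.univ : Finset (Fin n)) ⊆ insert i (insert c J) := by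
    intro x _
    rw [Finset.mem_insert, Finset.mem_insert]
    by_cases hx : x = i
    · exact Or.inl hx
    · by_cases hxJ : x ∈ J
      · exact Or.inr (Or.inr hxJ)
      · exact Or.inr (Or.inl (hcon x hx hxJ))
  have h3 := Finset.card_le_card h1
  rw [Finset.card_univ, Fintype.card_fin] at h3
  have h4 := Finset.card_insert_le i (insert c J)
  have h5 := Finset.card_insert_le c J
  omega

private theorem ker_one (N : Subgroup (AF n)) (θ : FreeGroup (Fin n) →* G)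
    (hN : ∀ g : AF n, (∀ x, θ (g x) = θ x) → ∀ ν ∈ N, g * ν * g⁻¹ ∈ N) (i : Fin n)
    (J : Finset (Fin n)) (hi : i ∉ J)
    (hθ : ∀ c, c ≠ i → c ∉ J → θ (FreeGroup.of c) = 1)
    (hR : ∀ c c', c ≠ i → c ∉ J → c' ≠ i → c' ∉ J → c ≠ c' → R c c' ∈ N)
    (h2 : J.card + 3 ≤ n) (t : Sx i →* AF n)
    (ht : ∀ (g : AF n) (hg : g ∈ Sti i) (v : Sx i), g * t v * g⁻¹ = t (act g hg v))
    (htθ : ∀ v : Sx i, θ v = 1 → ∀ x, θ (t v x) = θ x) (v : Sx i) (hv : θ v = 1) : t v ∈ N := by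
  -- (1)
  have s1 : ∀ (c : Fin n) (hc : c ≠ i), c ∉ J → t ⟨FreeGroup.of c, of_mem_Sx hc⟩ ∈ N := by
    intro c hc hcJ
    obtain ⟨c', hc', hcJ', hcc⟩ := two_free (i := i) h2 c
    have hRN : R c' c ∈ N := hR c' c hc' hcJ' hc hcJ hcc
    have hSt : R c' c ∈ Sti i := R_mem_Sti hc' hc
    have e1 := ht (R c' c) hSt ⟨FreeGroup.of c', of_mem_Sx hc'⟩
    have e2 : act (R c' c) hSt ⟨FreeGroup.of c', of_mem_Sx hc'⟩ =
        ⟨FreeGroup.of c', of_mem_Sx hc'⟩ * ⟨FreeGroup.of c, of_mem_Sx hc⟩ := by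
      apply Subtype.ext
      rw [act_coe]
      exact R_self hcc.symm
    have hg : ∀ x, θ (((t ⟨FreeGroup.of c', of_mem_Sx hc'⟩)⁻¹ : AF n) x) = θ x := by
      rw [← map_inv]
      refine htθ _ ?_
      change θ (FreeGroup.of c')⁻¹ = 1
      rw [map_inv, hθ c' hc' hcJ', inv_one]
    have h3 := hN _ hg _ hRN
    have h4 : t ⟨FreeGroup.of c, of_mem_Sx hc⟩ =
        ((t ⟨FreeGroup.of c', of_mem_Sx hc'⟩)⁻¹ * R c' c *
          ((t ⟨FreeGroup.of c', of_mem_Sx hc'⟩)⁻¹)⁻¹) * (R c' c)⁻¹ := by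
      rw [inv_inv]
      have h5 : (t ⟨FreeGroup.of c', of_mem_Sx hc'⟩)⁻¹ * R c' c *
          t ⟨FreeGroup.of c', of_mem_Sx hc'⟩ * (R c' c)⁻¹ =
          (t ⟨FreeGroup.of c', of_mem_Sx hc'⟩)⁻¹ *
            (R c' c * t ⟨FreeGroup.of c', of_mem_Sx hc'⟩ * (R c' c)⁻¹) := by group
      rw [h5, e1, e2, map_mul]
      group
    rw [h4]
    exact mul_mem h3 (inv_mem hRN)
  -- (2)
  have s2 : ∀ (g : AF n) (hg : g ∈ Sti i), (∀ x, θ (g x) = θ x) → ∀ w : Sx i, t w ∈ N →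
      t (act g hg w) ∈ N := by
    intro g hg hgθ w hw
    rw [← ht g hg w]
    exact hN g hgθ _ hw
  have hJx : ∀ {a : Fin n}, a ∉ J → ∀ {y : FreeGroup (Fin n)}, y ∈ Sy (J : Set (Fin n)) → y ∈ Sx a :=
    fun ha y hy => Sy_le_Sx (by simpa using ha) hy
  have s3 : ∀ (c : Fin n) (_ : c ≠ i), c ∉ J → ∀ y (hy : y ∈ Sy (J : Set (Fin n))),
      ∃ h : y * FreeGroup.of c * y⁻¹ ∈ Sx i, t ⟨y * FreeGroup.of c * y⁻¹, h⟩ ∈ N := by
    intro c hc hcJ y hy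
    have hyi := hJx hi hy
    have hyc := hJx hcJ hy
    have hSt : T c (⟨y, hyc⟩⁻¹, ⟨y, hyc⟩⁻¹) ∈ Sti i :=
      T_mem_Sti hc _ (inv_mem hyi) (inv_mem hyi)
    have hG : ∀ x, θ (T c (⟨y, hyc⟩⁻¹, ⟨y, hyc⟩⁻¹) x) = θ x := by
      refine mem_Gam.1 (T_mem_Gam (π := θ) ?_)
      change (θ y⁻¹)⁻¹ * θ (FreeGroup.of c) * θ y⁻¹ = θ (FreeGroup.of c)
      rw [hθ c hc hcJ, mul_one, inv_mul_cancel]
    have h3 := s2 _ hSt hG _ (s1 c hc hcJ)
    have e : act (T c (⟨y, hyc⟩⁻¹, ⟨y, hyc⟩⁻¹)) hSt ⟨FreeGroup.of c, of_mem_Sx hc⟩ =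
        ⟨y * FreeGroup.of c * y⁻¹, mul_mem (mul_mem hyi (of_mem_Sx hc)) (inv_mem hyi)⟩ := by
      apply Subtype.ext
      rw [act_coe]
      change T c (⟨y, hyc⟩⁻¹, ⟨y, hyc⟩⁻¹) (FreeGroup.of c) = y * FreeGroup.of c * y⁻¹
      rw [T_self]
      change (y⁻¹)⁻¹ * FreeGroup.of c * y⁻¹ = _
      rw [inv_inv]
    rw [e] at h3
    exact ⟨_, h3⟩
  have s4 : ∀ y (hy : y ∈ Sy (J : Set (Fin n))), θ y = 1 → t ⟨y, hJx hi hy⟩ ∈ N := by
    intro y hy hyθ
    obtain ⟨c, hc, hcJ, -⟩ := two_free (i := i) h2 i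
    have hyc := hJx hcJ hy
    have hSt : T c (1, ⟨y, hyc⟩) ∈ Sti i := T_mem_Sti hc _ (one_mem _) (hJx hi hy)
    have hG : ∀ x, θ (T c (1, ⟨y, hyc⟩) x) = θ x :=
      mem_Gam.1 (T_mem_Gam' (π := θ) (map_one θ) hyθ)
    have h3 := s2 _ hSt hG _ (s1 c hc hcJ)
    have e : act (T c (1, ⟨y, hyc⟩)) hSt ⟨FreeGroup.of c, of_mem_Sx hc⟩ =
        ⟨FreeGroup.of c, of_mem_Sx hc⟩ * ⟨y, hJx hi hy⟩ := by
      apply Subtype.ext
      rw [act_coe]
      change T c (1, ⟨y, hyc⟩) (FreeGroup.of c) = FreeGroup.of c * y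
      rw [T_self]
      change (1 : FreeGroup (Fin n))⁻¹ * FreeGroup.of c * y = _
      rw [inv_one, one_mul]
    rw [e, map_mul] at h3
    have h4 := mul_mem (inv_mem (s1 c hc hcJ)) h3
    rwa [inv_mul_cancel_left] at h4
  -- (3)
  have s5 : ∀ w, w ∈ Sx i → ∃ (m : Sx i) (y : FreeGroup (Fin n)) (hy : y ∈ Sy (J : Set (Fin n))),
      t m ∈ N ∧ θ m = 1 ∧ w = m * y := by
    intro w hw
    unfold Sx Sy at hw
    induction hw using Subgroup.closure_induction_right with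
    | one => exact ⟨1, 1, one_mem _, by rw [map_one]; exact one_mem _, map_one θ, by simp⟩
    | mul_right w hw x hx ih =>
      obtain ⟨m, y, hy, h3, h4, h5⟩ := ih
      obtain ⟨c, hc, rfl⟩ := hx
      have hc' : c ≠ i := by simpa using hc
      by_cases hcJ : c ∈ J
      · refine ⟨m, y * FreeGroup.of c, mul_mem hy (of_mem_Sy (by simpa using hcJ)), h3, h4, ?_⟩
        rw [h5, mul_assoc]
      · obtain ⟨h6, h7⟩ := s3 c hc' hcJ y hy
        refine ⟨m * ⟨_, h6⟩, y, hy, by rw [map_mul]; exact mul_mem h3 h7, ?_, ?_⟩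
        · change θ (m * (y * FreeGroup.of c * y⁻¹)) = 1
          rw [map_mul, h4, one_mul, map_mul, map_mul, hθ c hc' hcJ, mul_one, map_inv,
            mul_inv_cancel]
        · change w * FreeGroup.of c = m * (y * FreeGroup.of c * y⁻¹) * y
          rw [h5]
          group
    | mul_inv_cancel w hw x hx ih =>
      obtain ⟨m, y, hy, h3, h4, h5⟩ := ih
      obtain ⟨c, hc, rfl⟩ := hx
      have hc' : c ≠ i := by simpa using hc
      by_cases hcJ : c ∈ J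
      · refine ⟨m, y * (FreeGroup.of c)⁻¹, mul_mem hy (inv_mem (of_mem_Sy (by simpa using hcJ))),
          h3, h4, ?_⟩
        rw [h5, mul_assoc]
      · obtain ⟨h6, h7⟩ := s3 c hc' hcJ y hy
        refine ⟨m * (⟨_, h6⟩ : Sx i)⁻¹, y, hy,
          by rw [map_mul, map_inv]; exact mul_mem h3 (inv_mem h7), ?_, ?_⟩
        · change θ (m * (y * FreeGroup.of c * y⁻¹)⁻¹) = 1
          rw [map_mul, h4, one_mul, map_inv, map_mul, map_mul, hθ c hc' hcJ, mul_one, map_inv,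
            mul_inv_cancel, inv_one]
        · change w * (FreeGroup.of c)⁻¹ = m * (y * FreeGroup.of c * y⁻¹)⁻¹ * y
          rw [h5]
          group
  obtain ⟨m, y, hy, h3, h4, h5⟩ := s5 v v.2
  have hyθ : θ y = 1 := by
    have h6 := hv
    rw [h5, map_mul, h4, one_mul] at h6
    exact h6
  have h7 : v = m * ⟨y, hJx hi hy⟩ := Subtype.ext h5
  rw [h7, map_mul]
  exact mul_mem h3 (s4 y hy hyθ)

theorem kernel_gen (N : Subgroup (AF n)) (θ : FreeGroup (Fin n) →* G)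
    (hN : ∀ g : AF n, (∀ x, θ (g x) = θ x) → ∀ ν ∈ N, g * ν * g⁻¹ ∈ N) (i : Fin n)
    (J : Finset (Fin n)) (hi : i ∉ J)
    (hθ : ∀ c, c ≠ i → c ∉ J → θ (FreeGroup.of c) = 1)
    (hR : ∀ c c', c ≠ i → c ∉ J → c' ≠ i → c' ∉ J → c ≠ c' → R c c' ∈ N)
    (h2 : J.card + 3 ≤ n) (p : Sx i × Sx i) (h1 : θ p.1 = 1) (h1' : θ p.2 = 1) : T i p ∈ N := by
  have hr : T i (1, p.2) ∈ N := by
    refine ker_one N θ hN i J hi hθ hR h2 ((T i).comp (MonoidHom.inr (Sx i) (Sx i))) ?_ ?_ p.2 h1'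
    · intro g hg v
      change g * T i (1, v) * g⁻¹ = T i (1, act g hg v)
      rw [Sti_conj g hg, map_one]
    · intro v hv
      exact mem_Gam.1 (T_mem_Gam' (π := θ) (map_one θ) hv)
  have hl : T i (p.1, 1) ∈ N := by
    refine ker_one N θ hN i J hi hθ hR h2 ((T i).comp (MonoidHom.inl (Sx i) (Sx i))) ?_ ?_ p.1 h1
    · intro g hg v
      change g * T i (v, 1) * g⁻¹ = T i (act g hg v, 1)
      rw [Sti_conj g hg, map_one]
    · intro v hv
      exact mem_Gam.1 (T_mem_Gam' (π := θ) hv (map_one θ))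
  have h3 : T i p = T i (p.1, 1) * T i (1, p.2) := by
    rw [← map_mul]
    congr 1
    ext <;> simp
  rw [h3]
  exact mul_mem hl hr

end STAB
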