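import Mathlib
import Pool.Agent.Helper40.STAB.Defs

/-!
# STAB-01 Chain: small generating sets of letters

PROOF of `gen_small`. By `Finset` induction on `S` prove: there are `I ⊆ S` with `(Sy I).map θ = (Sy S).map θ` and a series
`s : LTSeries (Subgroup G)` with `s.length = I.card` and `s.last = (Sy I).map θ`. `S = ∅`: `I = ∅`, the one-term series
(`RelSeries.singleton`). Insert `a`: `(Sy (insert a S)).map θ = (Sy S).map θ ⊔ closure {θ x_a}` (`Subgroup.map_closure` /
`Sy = closure`, `Set.image_insert_eq`, `Subgroup.closure_union`); if `θ x_a ∈ (Sy I).map θ` keep `I` and `s`, otherwise take `insert a I`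
and `s.snoc` (`RelSeries.snoc`). Then `I.card = s.length ≤ r`, and membership in the maps gives the words.
`chainLE_of_injective`: `LTSeries.map` with `Subgroup.map ι` (strictly monotone because `Subgroup.map_injective hι` and monotone).
-/

set_option autoImplicit false

namespace STAB

open Helper38.AutF

variable {n : ℕ} {G : Type} [Group G]

private theorem mapSyCl (θ : FreeGroup (Fin n) →* G) (s : Set (Fin n)) :
    (Sy s).map θ = Subgroup.closure ((fun j => θ (FreeGroup.of j)) '' s) := by
  unfold Sy
  rw [MonoidHom.map_closure, Set.image_image]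

private theorem gen_aux (f : Fin n → G) (S : Finset (Fin n)) :
    ∃ I ⊆ S, (∃ s : LTSeries (Subgroup G), s.length = I.card ∧
      s.last = Subgroup.closure (f '' (I : Set (Fin n)))) ∧
      Subgroup.closure (f '' (S : Set (Fin n))) = Subgroup.closure (f '' (I : Set (Fin n))) := by
  classical
  induction S using Finset.induction_on with
  | empty =>
    exact ⟨∅, Finset.Subset.refl _, ⟨RelSeries.singleton _ _, rfl, rfl⟩, rfl⟩
  | insert a S ha ih =>
    obtain ⟨I, hI, ⟨s, hs, hl⟩, hc⟩ := ih
    by_cases h : f a ∈ Subgroup.closure (f '' (I : Set (Fin n)))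
    · refine ⟨I, hI.trans (Finset.subset_insert a S), ⟨s, hs, hl⟩, ?_⟩
      rw [Finset.coe_insert, Set.image_insert_eq, Set.insert_eq, Subgroup.closure_union, hc,
        sup_eq_right, Subgroup.closure_le]
      exact Set.singleton_subset_iff.2 h
    · have haI : a ∉ I := fun h1 => h (Subgroup.subset_closure ⟨a, h1, rfl⟩)
      have hlt : s.last < Subgroup.closure (f '' ((insert a I : Finset (Fin n)) : Set (Fin n))) := by
        rw [hl, lt_iff_le_not_ge]
        refine ⟨Subgroup.closure_mono (Set.image_mono ?_), fun h1 => h (h1 ?_)⟩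
        · rw [Finset.coe_insert]
          exact Set.subset_insert _ _
        · exact Subgroup.subset_closure ⟨a, by simp, rfl⟩
      refine ⟨insert a I, Finset.insert_subset_insert a hI,
        ⟨s.snoc (Subgroup.closure (f '' ((insert a I : Finset (Fin n)) : Set (Fin n)))) hlt,
          ?_, ?_⟩, ?_⟩
      · rw [Finset.card_insert_of_notMem haI, ← hs]
        rfl
      · exact RelSeries.last_snoc _ _ _
      · rw [Finset.coe_insert, Set.image_insert_eq, Set.insert_eq, Subgroup.closure_union, hc,
          Finset.coe_insert, Set.image_insert_eq, Set.insert_eq, Subgroup.closure_union]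

theorem gen_small {r : ℕ} (hG : ChainLE G r) (θ : FreeGroup (Fin n) →* G) (S : Finset (Fin n)) :
    ∃ I ⊆ S, I.card ≤ r ∧
      ∀ w ∈ Sy (S : Set (Fin n)), ∃ w' ∈ Sy (I : Set (Fin n)), θ w' = θ w := by
  obtain ⟨I, hI, ⟨s, hs, -⟩, hc⟩ := gen_aux (fun j => θ (FreeGroup.of j)) S
  refine ⟨I, hI, by rw [← hs]; exact hG s, fun w hw => ?_⟩
  have h1 : θ w ∈ (Sy (S : Set (Fin n))).map θ := ⟨w, hw, rfl⟩
  rw [mapSyCl, hc, ← mapSyCl] at h1
  obtain ⟨w', hw', h2⟩ := h1
  exact ⟨w', hw', h2⟩

theorem chainLE_of_injective {r : ℕ} {H : Type} [Group H] (ι : H →* G)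
    (hι : Function.Injective ι) (hG : ChainLE G r) : ChainLE H r := by
  intro s
  have hm : StrictMono (Subgroup.map ι) :=
    Monotone.strictMono_of_injective (fun _ _ h => Subgroup.map_mono h)
      (Subgroup.map_injective hι)
  exact hG (s.map (Subgroup.map ι) hm)

end STAB
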