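import Mathlib
import Pool.Agent.Helper40.STAB.Defs

/-!
# STAB-02 MLem: identities for the multiple transvections `Mm D u w`

All identities are checked on the letters `x_j` (`aut_ext`), with `Mm_of`, `Mm_of_not`, `Mm_fix` (Defs.lean) and `T_self, T_ne, T_fix`.
* `Mm_congr`: `Mm_of` does not mention `D`.
* `Mm_comm`: on `x_j`, `j ∈ D` (so `j ∉ E`): both sides are `(u j)⁻¹ x_j (w j)` since `u j, w j` are fixed by `Mm E u' w'`. Same for `j ∈ E`.
* `Mm_conj`: as `T_conj`: `σ (Mm D u w (x_j)) = Mm D (σ u) (σ w) (σ x_j)`; for `j ∉ D`, `σ x_j` is a word without letters of `D`.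
* `Ok_conj`: `map_Sy` (Base.lean).
-/

set_option autoImplicit false

namespace STAB

open Helper38.AutF

variable {n : ℕ}

theorem Ok_single {i : Fin n} {u : FreeGroup (Fin n)} (hu : u ∈ Sx i) :
    Ok {i} (Pi.mulSingle i u) := by
  constructor
  · intro j
    rw [Finset.coe_singleton]
    by_cases hj : j = i
    · subst hj
      rw [Pi.mulSingle_eq_same]
      exact hu
    · rw [Pi.mulSingle_eq_of_ne hj]
      exact one_mem _
  · intro j hj
    rw [Pi.mulSingle_eq_of_ne (by simpa using hj)]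

theorem Mm_single (i : Fin n) (p : Sx i × Sx i) :
    Mm {i} (Pi.mulSingle i (p.1 : FreeGroup (Fin n))) (Pi.mulSingle i (p.2 : FreeGroup (Fin n))) =
      T i p := by
  refine aut_ext (fun j => ?_)
  rw [Mm_of (Ok_single p.1.2) (Ok_single p.2.2)]
  by_cases hj : j = i
  · subst hj
    rw [Pi.mulSingle_eq_same, Pi.mulSingle_eq_same, T_self]
  · rw [Pi.mulSingle_eq_of_ne hj, Pi.mulSingle_eq_of_ne hj, T_ne hj, inv_one, one_mul, mul_one]

theorem Mm_congr {D E : Finset (Fin n)} {u w : Fin n → FreeGroup (Fin n)} (hu : Ok D u)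
    (hw : Ok D w) (hu' : Ok E u) (hw' : Ok E w) : Mm D u w = Mm E u w := by
  refine aut_ext (fun j => ?_)
  rw [Mm_of hu hw, Mm_of hu' hw']

theorem Mm_comm {D E : Finset (Fin n)} (hDE : Disjoint D E)
    {u w u' w' : Fin n → FreeGroup (Fin n)} (hu : Ok D u) (hw : Ok D w) (hu' : Ok E u')
    (hw' : Ok E w') (h1 : ∀ i, u i ∈ Sy ((E : Set (Fin n))ᶜ))
    (h2 : ∀ i, w i ∈ Sy ((E : Set (Fin n))ᶜ)) (h3 : ∀ i, u' i ∈ Sy ((D : Set (Fin n))ᶜ))
    (h4 : ∀ i, w' i ∈ Sy ((D : Set (Fin n))ᶜ)) : Mm D u w * Mm E u' w' = Mm E u' w' * Mm D u w := by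
  refine aut_ext (fun j => ?_)
  rw [MulAut.mul_apply, MulAut.mul_apply, Mm_of hu' hw', Mm_of hu hw]
  simp only [map_mul, map_inv]
  rw [Mm_of hu' hw', Mm_of hu hw, Mm_fix hu hw (h3 j), Mm_fix hu hw (h4 j),
    Mm_fix hu' hw' (h1 j), Mm_fix hu' hw' (h2 j)]
  by_cases hj : j ∈ D
  · have hE : j ∉ E := Finset.disjoint_left.1 hDE hj
    rw [hu'.2 j hE, hw'.2 j hE]
    group
  · rw [hu.2 j hj, hw.2 j hj]
    group

/-- a word without letters of `D` and without letters of `E` -/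
private theorem mlem_inter {D E : Finset (Fin n)} {x : FreeGroup (Fin n)}
    (hD : x ∈ Sy ((D : Set (Fin n))ᶜ)) (hE : x ∈ Sy ((E : Set (Fin n))ᶜ)) :
    x ∈ Sy (((D ∪ E : Finset (Fin n)) : Set (Fin n))ᶜ) := by
  classical
  let ρ : FreeGroup (Fin n) →* FreeGroup (Fin n) :=
    FreeGroup.lift (fun j => if j ∈ E then 1 else FreeGroup.of j)
  have hρ : ∀ j, ρ (FreeGroup.of j) = if j ∈ E then 1 else FreeGroup.of j := fun j => by
    simp [ρ]
  have h1 : ρ x = x := by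
    refine hom_eq_on_Sy ρ (MonoidHom.id _) (fun j hj => ?_) hE
    have hj' : j ∉ E := by simpa using hj
    rw [hρ, if_neg hj']
    rfl
  have h2 : Sy ((D : Set (Fin n))ᶜ) ≤
      (Sy (((D ∪ E : Finset (Fin n)) : Set (Fin n))ᶜ)).comap ρ := by
    conv_lhs => unfold Sy
    rw [Subgroup.closure_le]
    rintro _ ⟨c, hc, rfl⟩
    change ρ (FreeGroup.of c) ∈ Sy (((D ∪ E : Finset (Fin n)) : Set (Fin n))ᶜ)
    rw [hρ]
    split_ifs with h
    · exact one_mem _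
    · refine of_mem_Sy ?_
      have hc' : c ∉ D := by simpa using hc
      simp [hc', h]
  rw [← h1]
  exact h2 hD

theorem Ok_union {D E : Finset (Fin n)} (hDE : Disjoint D E)
    {u u' : Fin n → FreeGroup (Fin n)} (hu : Ok D u) (hu' : Ok E u')
    (h1 : ∀ i, u i ∈ Sy ((E : Set (Fin n))ᶜ)) (h3 : ∀ i, u' i ∈ Sy ((D : Set (Fin n))ᶜ)) :
    Ok (D ∪ E) (u * u') := by
  constructor
  · intro i
    rw [Pi.mul_apply]
    exact mul_mem (mlem_inter (hu.1 i) (h1 i)) (mlem_inter (h3 i) (hu'.1 i))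
  · intro i hi
    rw [Finset.mem_union, not_or] at hi
    rw [Pi.mul_apply, hu.2 i hi.1, hu'.2 i hi.2, one_mul]

theorem Mm_union {D E : Finset (Fin n)} (hDE : Disjoint D E)
    {u w u' w' : Fin n → FreeGroup (Fin n)} (hu : Ok D u) (hw : Ok D w) (hu' : Ok E u')
    (hw' : Ok E w') (h1 : ∀ i, u i ∈ Sy ((E : Set (Fin n))ᶜ))
    (h2 : ∀ i, w i ∈ Sy ((E : Set (Fin n))ᶜ)) (h3 : ∀ i, u' i ∈ Sy ((D : Set (Fin n))ᶜ))
    (h4 : ∀ i, w' i ∈ Sy ((D : Set (Fin n))ᶜ)) :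
    Mm D u w * Mm E u' w' = Mm (D ∪ E) (u * u') (w * w') := by
  refine aut_ext (fun j => ?_)
  rw [MulAut.mul_apply, Mm_of hu' hw', Mm_of (Ok_union hDE hu hu' h1 h3)
    (Ok_union hDE hw hw' h2 h4)]
  simp only [map_mul, map_inv]
  rw [Mm_of hu hw, Mm_fix hu hw (h3 j), Mm_fix hu hw (h4 j), Pi.mul_apply, Pi.mul_apply]
  group

theorem Ok_conj {D : Finset (Fin n)} {u : Fin n → FreeGroup (Fin n)} (hu : Ok D u) (σ : AF n)
    (hσ : ∀ i, i ∉ D → σ (FreeGroup.of i) ∈ Sy ((D : Set (Fin n))ᶜ)) :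
    Ok D (fun i => σ (u i)) := by
  constructor
  · intro i
    exact map_Sy σ _ (fun c hc => hσ c (by simpa using hc)) (hu.1 i)
  · intro i hi
    simp only [hu.2 i hi, map_one]

theorem Mm_conj {D : Finset (Fin n)} {u w : Fin n → FreeGroup (Fin n)} (hu : Ok D u)
    (hw : Ok D w) (σ : AF n) (hσ1 : ∀ i ∈ D, σ (FreeGroup.of i) = FreeGroup.of i)
    (hσ : ∀ i, i ∉ D → σ (FreeGroup.of i) ∈ Sy ((D : Set (Fin n))ᶜ)) :
    σ * Mm D u w * σ⁻¹ = Mm D (fun i => σ (u i)) (fun i => σ (w i)) := by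
  rw [mul_inv_eq_iff_eq_mul]
  refine aut_ext (fun j => ?_)
  rw [MulAut.mul_apply, MulAut.mul_apply, Mm_of hu hw]
  simp only [map_mul, map_inv]
  by_cases hj : j ∈ D
  · rw [hσ1 j hj, Mm_of (Ok_conj hu σ hσ) (Ok_conj hw σ hσ)]
  · rw [Mm_fix (Ok_conj hu σ hσ) (Ok_conj hw σ hσ) (hσ j hj), hu.2 j hj, hw.2 j hj]
    simp

theorem Ok_pm {D : Finset (Fin n)} {u : Fin n → FreeGroup (Fin n)} (hu : Ok D u)
    (α : Equiv.Perm (Fin n)) : Ok (D.image α) (fun i => pm α (u (α⁻¹ i))) := by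
  constructor
  · intro i
    have h1 := pm_Sy α (hu.1 (α⁻¹ i))
    rw [Set.image_compl_eq α.bijective] at h1
    rw [Finset.coe_image]
    exact h1
  · intro i hi
    have h2 : α⁻¹ i ∉ D := by
      intro h3
      apply hi
      rw [Finset.mem_image]
      exact ⟨α⁻¹ i, h3, by simp⟩
    simp only [hu.2 _ h2, map_one]

theorem pm_Mm {D : Finset (Fin n)} {u w : Fin n → FreeGroup (Fin n)} (hu : Ok D u)
    (hw : Ok D w) (α : Equiv.Perm (Fin n)) :
    pm α * Mm D u w * (pm α)⁻¹ =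
      Mm (D.image α) (fun i => pm α (u (α⁻¹ i))) (fun i => pm α (w (α⁻¹ i))) := by
  rw [mul_inv_eq_iff_eq_mul]
  refine aut_ext (fun j => ?_)
  rw [MulAut.mul_apply, MulAut.mul_apply, Mm_of hu hw]
  simp only [map_mul, map_inv]
  have hj : α⁻¹ (α j) = j := by simp
  rw [pm_of, Mm_of (Ok_pm hu α) (Ok_pm hw α), hj]

end STAB
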