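import Mathlib
import Pool.Agent.Helper40.STAB.Defs
import Pool.Agent.Helper40.STAB.Chain
import Pool.Agent.Helper40.STAB.MLem

/-!
# STAB-03 Spread: all transvections between the killed letters are in the conjugated group

Write `θ φ = π ∘ φ`, `d = I₀.card ≤ r`.
PROOF. `gen_small` (for `θ = π ∘ φ`, `S = {i}ᶜ`) gives `J ⊆ {i}ᶜ`, `J.card ≤ r`, such that every value `π(φ w)`, `w` a word without `x_i`, is a
value of a word in the letters of `J`. `Λ = (insert i J)ᶜ`, `Λ.card ≥ n - 1 - r ≥ d + 2`. For `c ∈ Λ` choose `w c ∈ Sy J` with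
`π (φ (w c)) = (π (φ x_c))⁻¹`, `w c = 1` for `c ∉ Λ`; `β = Mm Λ 1 w` (`Ok Λ w` because `Sy J ≤ Sy Λᶜ`). `β` fixes `x_i` and preserves `Sx i`
(`mem_Sti_of`, letters; `β⁻¹ = Mm Λ 1 w⁻¹`), and `π (φ (β x_c)) = 1` for `c ∈ Λ`. Put `φ₁ = φ * β`. `π ∘ φ₁` is onto (`π` is onto by `hD.gen`, `φ₁`
is bijective), and kills `Λ`, so every element of `G` is `π (φ₁ y)` for a word `y ∈ Sy (insert i J)` (take any word and
delete the letters of `Λ`: the endomorphism `x_c ↦ 1 (c ∈ Λ)`, `x_j ↦ x_j`, does not change `π ∘ φ₁`).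
Let `c ≠ c'` in `Λ`. Choose `Λ₀ ⊆ Λ \ {c, c'}` with `Λ₀.card = d` (`Finset.exists_subset_card_eq`) and a permutation `σ` of `Fin n` with `σ '' I₀ = Λ₀`
(extend a bijection `I₀ ≃ Λ₀`, `Equiv.extendSubtype` or `Finset.exists_equiv...`; complements have the same cardinality).
`β₂ = Mm Λ₀ 1 z`, `z (σ j) ∈ Sy (insert i J)`, `π (φ₁ (z (σ j))) = π x_j` (`j ∈ I₀`), `z = 1` outside `Λ₀`. `β₃ = Mm (insert i J) 1 y`,
`y c₁ ∈ Sy Λ₀` for `c₁ ∈ insert i J` with `π (φ₁ β₂ (y c₁)) = (π (φ₁ β₂ x_{c₁}))⁻¹` (exists: `π (φ₁ β₂ x_{σ j}) = π x_j` for `j ∈ I₀` and these generate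
`G` by `hD.gen`; the word is `pm σ` of a word in `I₀`). Then `γ = φ₁ * β₂ * β₃ * pm σ` satisfies `π (γ x_j) = π x_j` for all `j`
(`j ∈ I₀`: `π (φ₁ β₂ x_{σ j})`; `j ∉ I₀`: `σ j ∉ Λ₀`, the value is `1`; three cases `σ j ∈ insert i J`, `σ j ∈ Λ \ Λ₀`), so `γ ∈ Gam π`
(`mem_Gam_of`). With `a = σ⁻¹ c`, `b = σ⁻¹ c'` (not in `I₀`): `pm σ * R a b * (pm σ)⁻¹ = R c c'` and `R c c'` commutes with `β₂` and `β₃`
(check on letters, or `Mm_comm` with `Mm_single`). So `γ * R a b * γ⁻¹ = φ₁ * R c c' * φ₁⁻¹`, which is in `K`.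
-/

set_option autoImplicit false

namespace STAB

open Helper38.AutF

variable {n r : ℕ} {G : Type} [Group G] {π : FreeGroup (Fin n) →* G} {I₀ : Finset (Fin n)}
  {K : Subgroup (AF n)}

private theorem sp_Mm1 {D : Finset (Fin n)} {w : Fin n → FreeGroup (Fin n)} (hw : Ok D w)
    (j : Fin n) : Mm D 1 w (FreeGroup.of j) = FreeGroup.of j * w j := by
  rw [Mm_of (Ok.one D) hw, Pi.one_apply, inv_one, one_mul]

private theorem sp_ai (σ : Equiv.Perm (Fin n)) (x : Fin n) : σ (σ⁻¹ x) = x :=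
  σ.apply_symm_apply x

private theorem sp_ia (σ : Equiv.Perm (Fin n)) (x : Fin n) : σ⁻¹ (σ x) = x :=
  σ.symm_apply_apply x

private theorem sp_comm {D : Finset (Fin n)} {w : Fin n → FreeGroup (Fin n)} (hw : Ok D w)
    {c c' : Fin n} (hcc : c' ≠ c) (hc : c ∉ D) (hc' : c' ∉ D) (h : ∀ j, w j ∈ Sx c) :
    Mm D 1 w * R c c' = R c c' * Mm D 1 w := by
  refine aut_ext (fun j => ?_)
  rw [MulAut.mul_apply, MulAut.mul_apply]
  by_cases hj : j = c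
  · subst hj
    rw [R_self hcc, map_mul, Mm_of_not (Ok.one D) hw hc, Mm_of_not (Ok.one D) hw hc',
      R_self hcc]
  · rw [R_ne hj, sp_Mm1 hw, map_mul, R_ne hj, R_fix (h j)]

private theorem sp_pm (σ : Equiv.Perm (Fin n)) {a b : Fin n} (hab : b ≠ a) :
    pm σ * R a b = R (σ a) (σ b) * pm σ := by
  have hab' : σ b ≠ σ a := fun h => hab (σ.injective h)
  refine aut_ext (fun j => ?_)
  rw [MulAut.mul_apply, MulAut.mul_apply, pm_of]
  by_cases hj : j = a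
  · subst hj
    rw [R_self hab, R_self hab', map_mul, pm_of, pm_of]
  · rw [R_ne hj, R_ne (fun h => hj (σ.injective h)), pm_of]

private theorem sp_gen (φ₁ : AF n) (A : Finset (Fin n)) (hk : ∀ c, c ∉ A → π (φ₁ (FreeGroup.of c)) = 1)
    (hs : ∀ g : G, ∃ w, π w = g) (g : G) : ∃ y ∈ Sy (A : Set (Fin n)), π (φ₁ y) = g := by
  classical
  obtain ⟨w, hw⟩ := hs g
  obtain ⟨E, hE⟩ : ∃ E : FreeGroup (Fin n) →* Sy (A : Set (Fin n)), E = FreeGroup.lift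
    (fun c => if h : c ∈ A then ⟨FreeGroup.of c, of_mem_Sy (by simpa using h)⟩ else 1) := ⟨_, rfl⟩
  have h1 : (π.comp φ₁.toMonoidHom).comp ((Sy (A : Set (Fin n))).subtype.comp E) =
      π.comp φ₁.toMonoidHom := by
    refine FreeGroup.ext_hom _ _ (fun j => ?_)
    show π (φ₁ ((E (FreeGroup.of j) : Sy (A : Set (Fin n))) : FreeGroup (Fin n))) =
      π (φ₁ (FreeGroup.of j))
    rw [hE, FreeGroup.lift_apply_of]
    by_cases hj : j ∈ A
    · rw [dif_pos hj]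
    · rw [dif_neg hj, hk j hj, OneMemClass.coe_one, map_one, map_one]
  refine ⟨E (φ₁⁻¹ w), (E (φ₁⁻¹ w)).2, ?_⟩
  have h2 := DFunLike.congr_fun h1 (φ₁⁻¹ w)
  have h3 : π (φ₁ (φ₁⁻¹ w)) = g := by rw [MulAut.apply_inv_self, hw]
  exact Eq.trans h2 h3

theorem spread (hD : Dat π I₀ r)
    (hK2 : ∀ γ ∈ Gam π, ∀ κ ∈ K, γ * κ * γ⁻¹ ∈ K)
    (hK3 : ∀ p q, p ∉ I₀ → q ∉ I₀ → p ≠ q → R p q ∈ K) (hn : 2 * r + 3 ≤ n) (φ : AF n)
    (i : Fin n) :
    ∃ (J : Finset (Fin n)) (β : AF n), i ∉ J ∧ J.card ≤ r ∧ β ∈ Sti i ∧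
      (∀ c, c ≠ i → c ∉ J → π (φ (β (FreeGroup.of c))) = 1) ∧
      ∀ c c', c ≠ i → c ∉ J → c' ≠ i → c' ∉ J → c ≠ c' →
        (φ * β) * R c c' * (φ * β)⁻¹ ∈ K := by
  classical
  obtain ⟨J, hJi, hJr, hJ⟩ := gen_small hD.chain (π.comp φ.toMonoidHom) ({i}ᶜ : Finset (Fin n))
  have hiJ : i ∉ J := fun h => by simpa using hJi h
  obtain ⟨A, hA⟩ : ∃ A, A = insert i J := ⟨_, rfl⟩
  have hAm : ∀ c, c ∈ A ↔ c = i ∨ c ∈ J := fun c => by rw [hA, Finset.mem_insert]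
  -- the words `w`
  have hex : ∀ c : Fin n, ∃ v : FreeGroup (Fin n), (c ∉ A → v ∈ Sy (J : Set (Fin n)) ∧
      π (φ v) = (π (φ (FreeGroup.of c)))⁻¹) ∧ (c ∈ A → v = 1) := by
    intro c
    by_cases hc : c ∈ A
    · exact ⟨1, fun h => absurd hc h, fun _ => rfl⟩
    · have hci : c ≠ i := fun h => hc ((hAm c).2 (Or.inl h))
      have hmem : (FreeGroup.of c)⁻¹ ∈ Sy ((({i}ᶜ : Finset (Fin n)) : Set (Fin n))) :=
        inv_mem (of_mem_Sy (by simpa using hci))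
      obtain ⟨v, hv, hv2⟩ := hJ _ hmem
      refine ⟨v, fun _ => ⟨hv, ?_⟩, fun h => absurd h hc⟩
      have h2 : π (φ v) = π (φ (FreeGroup.of c)⁻¹) := hv2
      rw [h2, map_inv, map_inv]
  choose w hw1 hw2 using hex
  have hJA : (J : Set (Fin n)) ⊆ ((Aᶜ : Finset (Fin n)) : Set (Fin n))ᶜ := by
    intro j hj
    have : j ∈ A := (hAm j).2 (Or.inr (by simpa using hj))
    simpa using this
  have hJi' : i ∉ (J : Set (Fin n)) := by simpa using hiJ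
  have hwok : Ok Aᶜ w := by
    refine ⟨fun c => ?_, fun c hc => hw2 c (by simpa using hc)⟩
    by_cases hc : c ∈ A
    · rw [hw2 c hc]; exact one_mem _
    · exact Sy_mono hJA (hw1 c hc).1
  have hwi : ∀ c, w c ∈ Sx i := by
    intro c
    by_cases hc : c ∈ A
    · rw [hw2 c hc]; exact one_mem _
    · exact Sy_le_Sx hJi' (hw1 c hc).1
  have hiA : i ∈ A := (hAm i).2 (Or.inl rfl)
  have hβ : Mm Aᶜ 1 w ∈ Sti i := by
    refine mem_Sti_of ?_ (fun c hc => ?_) (fun c hc => ?_)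
    · rw [sp_Mm1 hwok, hw2 i hiA, mul_one]
    · rw [sp_Mm1 hwok]
      exact mul_mem (of_mem_Sx hc) (hwi c)
    · rw [Mm_inv (Ok.one _) hwok, inv_one, sp_Mm1 hwok.inv]
      exact mul_mem (of_mem_Sx hc) (inv_mem (hwi c))
  have hkill : ∀ c, c ∉ A → π ((φ * Mm Aᶜ 1 w) (FreeGroup.of c)) = 1 := by
    intro c hc
    rw [MulAut.mul_apply, sp_Mm1 hwok, map_mul, map_mul, (hw1 c hc).2, mul_inv_cancel]
  have hnA : ∀ c, c ≠ i → c ∉ J → c ∉ A := by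
    intro c h1 h2 h3
    rcases (hAm c).1 h3 with h | h
    · exact h1 h
    · exact h2 h
  refine ⟨J, Mm Aᶜ 1 w, hiJ, hJr, hβ, fun c h1 h2 => ?_, ?_⟩
  · have := hkill c (hnA c h1 h2)
    rwa [MulAut.mul_apply] at this
  intro c c' hci hcJ hci' hcJ' hcc
  obtain ⟨φ₁, hφ₁⟩ : ∃ φ₁, φ₁ = φ * Mm Aᶜ 1 w := ⟨_, rfl⟩
  rw [← hφ₁] at hkill ⊢
  have hcA := hnA c hci hcJ
  have hcA' := hnA c' hci' hcJ'
  have hgen1 : ∀ g : G, ∃ u ∈ Sy (I₀ : Set (Fin n)), π u = g := fun g => hD.gen g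
  have hY := sp_gen φ₁ A hkill (fun g => (hgen1 g).imp fun u hu => hu.2)
  choose Yg hY1 hY2 using hY
  -- the set `Λ₀`
  have hAcard : A.card ≤ r + 1 := by
    rw [hA]
    exact (Finset.card_insert_le _ _).trans (by omega)
  have hbig : I₀.card ≤ (Aᶜ \ {c, c'}).card := by
    have h1 : Aᶜ.card = n - A.card := by rw [Finset.card_compl, Fintype.card_fin]
    have h2 : ({c, c'} : Finset (Fin n)).card ≤ 2 := Finset.card_le_two
    have h3 := Finset.le_card_sdiff ({c, c'} : Finset (Fin n)) Aᶜ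
    have := hD.card
    omega
  obtain ⟨L, hL, hLc⟩ := Finset.exists_subset_card_eq hbig
  have hLA : ∀ x ∈ L, x ∉ A := fun x hx => by
    have := (Finset.mem_sdiff.1 (hL hx)).1
    simpa using this
  have hLc1 : c ∉ L := fun h => by
    have := (Finset.mem_sdiff.1 (hL h)).2
    simp at this
  have hLc2 : c' ∉ L := fun h => by
    have := (Finset.mem_sdiff.1 (hL h)).2
    simp at this
  -- the permutation
  obtain ⟨σ, hσ1, hσ2⟩ : ∃ σ : Equiv.Perm (Fin n), (∀ j ∈ I₀, σ j ∈ L) ∧ ∀ j, j ∉ I₀ → σ j ∉ L := by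
    have e : {x // x ∈ I₀} ≃ {x // x ∈ L} := Finset.equivOfCardEq hLc.symm
    exact ⟨e.extendSubtype, fun j hj => e.extendSubtype_mem j hj,
      fun j hj => e.extendSubtype_not_mem j hj⟩
  -- `β₂`
  obtain ⟨z, hz⟩ : ∃ z : Fin n → FreeGroup (Fin n), z = fun x =>
    if x ∈ L then Yg (π (FreeGroup.of (σ⁻¹ x))) else 1 := ⟨_, rfl⟩
  have hzA : ∀ x, z x ∈ Sy (A : Set (Fin n)) := by
    intro x
    rw [hz]
    by_cases hx : x ∈ L
    · simp only [if_pos hx]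
      exact hY1 _
    · simp only [if_neg hx]
      exact one_mem _
  have hAL : (A : Set (Fin n)) ⊆ ((L : Set (Fin n)))ᶜ := by
    intro x hx hx2
    exact hLA x (by simpa using hx2) (by simpa using hx)
  have hLA' : (L : Set (Fin n)) ⊆ ((A : Set (Fin n)))ᶜ := by
    intro x hx hx2
    exact hLA x (by simpa using hx) (by simpa using hx2)
  have hzok : Ok L z := by
    refine ⟨fun x => Sy_mono hAL (hzA x), fun x hx => ?_⟩
    rw [hz]
    simp only [if_neg hx]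
  obtain ⟨β₂, hβ₂⟩ : ∃ β₂, β₂ = Mm L 1 z := ⟨_, rfl⟩
  have hb2 : ∀ j, β₂ (FreeGroup.of j) = FreeGroup.of j * z j := fun j => by
    rw [hβ₂, sp_Mm1 hzok]
  have hb2n : ∀ j, j ∉ L → β₂ (FreeGroup.of j) = FreeGroup.of j := fun j hj => by
    rw [hb2, hzok.2 j hj, mul_one]
  have hval : ∀ j ∈ I₀, π (φ₁ (β₂ (FreeGroup.of (σ j)))) = π (FreeGroup.of j) := by
    intro j hj
    rw [hb2, map_mul, map_mul, hkill _ (hLA _ (hσ1 j hj)), one_mul, hz]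
    simp only [if_pos (hσ1 j hj)]
    rw [hY2, sp_ia]
  have hvalw : ∀ u ∈ Sy (I₀ : Set (Fin n)), π (φ₁ (β₂ (pm σ u))) = π u := by
    intro u hu
    refine hom_eq_on_Sy (((π.comp φ₁.toMonoidHom).comp β₂.toMonoidHom).comp (pm σ : AF n).toMonoidHom)
      π (fun j hj => ?_) hu
    show π (φ₁ (β₂ (pm σ (FreeGroup.of j)))) = π (FreeGroup.of j)
    rw [pm_of]
    exact hval j (by simpa using hj)
  -- `β₃`
  have hyex : ∀ c₁ : Fin n, ∃ v ∈ Sy (L : Set (Fin n)), π (φ₁ (β₂ v)) =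
      (π (φ₁ (β₂ (FreeGroup.of c₁))))⁻¹ := by
    intro c₁
    obtain ⟨u, hu, hu2⟩ := hgen1 ((π (φ₁ (β₂ (FreeGroup.of c₁))))⁻¹)
    refine ⟨pm σ u, ?_, by rw [hvalw u hu, hu2]⟩
    refine Sy_mono ?_ (pm_Sy σ hu)
    rintro _ ⟨j, hj, rfl⟩
    have := hσ1 j (by simpa using hj)
    simpa using this
  choose y₀ hy1 hy2 using hyex
  obtain ⟨y, hy⟩ : ∃ y : Fin n → FreeGroup (Fin n), y = fun x => if x ∈ A then y₀ x else 1 :=
    ⟨_, rfl⟩
  have hyL : ∀ x, y x ∈ Sy (L : Set (Fin n)) := by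
    intro x
    rw [hy]
    by_cases hx : x ∈ A
    · simp only [if_pos hx]
      exact hy1 x
    · simp only [if_neg hx]
      exact one_mem _
  have hyok : Ok A y := by
    refine ⟨fun x => Sy_mono hLA' (hyL x), fun x hx => ?_⟩
    rw [hy]
    simp only [if_neg hx]
  obtain ⟨β₃, hβ₃⟩ : ∃ β₃, β₃ = Mm A 1 y := ⟨_, rfl⟩
  have hb3 : ∀ j, β₃ (FreeGroup.of j) = FreeGroup.of j * y j := fun j => by
    rw [hβ₃, sp_Mm1 hyok]
  have hb3n : ∀ j, j ∉ A → β₃ (FreeGroup.of j) = FreeGroup.of j := fun j hj => by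
    rw [hb3, hyok.2 j hj, mul_one]
  -- `γ`
  have hγ : φ₁ * β₂ * β₃ * pm σ ∈ Gam π := by
    refine mem_Gam_of (fun j => ?_)
    rw [MulAut.mul_apply, MulAut.mul_apply, MulAut.mul_apply, pm_of]
    by_cases hj : j ∈ I₀
    · rw [hb3n _ (hLA _ (hσ1 j hj)), hval j hj]
    · rw [hD.light j hj]
      by_cases hjA : σ j ∈ A
      · rw [hb3, map_mul, map_mul, map_mul]
        have h1 : y (σ j) = y₀ (σ j) := by
          rw [hy]
          simp only [if_pos hjA]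
        rw [h1, hy2, mul_inv_cancel]
      · rw [hb3n _ hjA, hb2n _ (hσ2 j hj), hkill _ hjA]
  have ha : σ⁻¹ c ∉ I₀ := fun h => by
    have := hσ1 _ h
    rw [sp_ai] at this
    exact hLc1 this
  have hb : σ⁻¹ c' ∉ I₀ := fun h => by
    have := hσ1 _ h
    rw [sp_ai] at this
    exact hLc2 this
  have hab : σ⁻¹ c ≠ σ⁻¹ c' := fun h => hcc (σ⁻¹.injective h)
  have hfin := hK2 _ hγ _ (hK3 _ _ ha hb hab)
  have hp := sp_pm σ hab.symm
  rw [sp_ai, sp_ai] at hp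
  have hc2 : β₂ * R c c' = R c c' * β₂ := by
    rw [hβ₂]
    exact sp_comm hzok hcc.symm hLc1 hLc2 (fun j => Sy_le_Sx (by simpa using hcA) (hzA j))
  have hc3 : β₃ * R c c' = R c c' * β₃ := by
    rw [hβ₃]
    exact sp_comm hyok hcc.symm hcA hcA' (fun j => Sy_le_Sx (by simpa using hLc1) (hyL j))
  have hcalc : φ₁ * β₂ * β₃ * pm σ * R (σ⁻¹ c) (σ⁻¹ c') * (φ₁ * β₂ * β₃ * pm σ)⁻¹ =
      φ₁ * R c c' * φ₁⁻¹ := by
    have h1 : φ₁ * β₂ * β₃ * pm σ * R (σ⁻¹ c) (σ⁻¹ c') =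
        φ₁ * R c c' * (β₂ * β₃ * pm σ) := by
      calc φ₁ * β₂ * β₃ * pm σ * R (σ⁻¹ c) (σ⁻¹ c')
          = φ₁ * β₂ * β₃ * (pm σ * R (σ⁻¹ c) (σ⁻¹ c')) := by group
        _ = φ₁ * β₂ * (β₃ * R c c') * pm σ := by rw [hp]; group
        _ = φ₁ * (β₂ * R c c') * β₃ * pm σ := by rw [hc3]; group
        _ = _ := by rw [hc2]; group
    rw [h1]
    group
  rw [hcalc] at hfin
  exact hfin

end STAB
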