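import Mathlib
import Pool.Agent.Helper40.STAB.Defs
import Pool.Agent.Helper40.STAB.Spread
import Pool.Agent.Helper40.STAB.KerGen

/-!
# STAB-05 A1: the killing property

PROOF. Given `φ, i, p` take `J, β` from `spread`. Put `φ₁ = φ * β`, `θ₁ = π ∘ φ₁`, `N = {g | φ₁ * g * φ₁⁻¹ ∈ K}` (`K.comap (MulAut.conj φ₁).toMonoidHom`).
`hN`: if `θ₁ ∘ g = θ₁` then `φ₁ * g * φ₁⁻¹ ∈ Gam π` (put `x = φ₁⁻¹ y`), so `φ₁ (g ν g⁻¹) φ₁⁻¹ = (φ₁ g φ₁⁻¹)(φ₁ ν φ₁⁻¹)(φ₁ g φ₁⁻¹)⁻¹ ∈ K` by `hK2`.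
`kernel_gen` (`J.card + 3 ≤ r + 3 ≤ n`) gives `φ₁ * T i p' * φ₁⁻¹ ∈ K` whenever `θ₁ p'.1 = θ₁ p'.2 = 1`. Take `p' = (act β⁻¹ _ p.1, act β⁻¹ _ p.2)`
(`β⁻¹ ∈ Sti i`): `T i p' = β⁻¹ * T i p * β` (`Sti_conj`), `θ₁ p'.1 = π (φ (β (β⁻¹ p.1))) = 1`, and `φ₁ * T i p' * φ₁⁻¹ = φ * T i p * φ⁻¹`.
-/

set_option autoImplicit false

namespace STAB

open Helper38.AutF

variable {n r : ℕ} {G : Type} [Group G] {π : FreeGroup (Fin n) →* G} {I₀ : Finset (Fin n)}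
  {K : Subgroup (AF n)}

theorem ax_of (hD : Dat π I₀ r) (hK1 : K ≤ Gam π)
    (hK2 : ∀ γ ∈ Gam π, ∀ κ ∈ K, γ * κ * γ⁻¹ ∈ K)
    (hK3 : ∀ p q, p ∉ I₀ → q ∉ I₀ → p ≠ q → R p q ∈ K) (hn : 2 * r + 3 ≤ n) : AX π K := by
  refine ⟨hK1, fun φ i p h1 h2 => ?_⟩
  obtain ⟨J, β, hiJ, hJ, hβ, hkill, hR⟩ := spread hD hK2 hK3 hn φ i
  have hβ' : β⁻¹ ∈ Sti i := inv_mem hβ
  have hmem : ∀ g : AF n, g ∈ K.comap (MulAut.conj (φ * β)).toMonoidHom ↔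
      (φ * β) * g * (φ * β)⁻¹ ∈ K := fun g => Iff.rfl
  have hN : ∀ g : AF n, (∀ x, (π.comp (φ * β).toMonoidHom) (g x) =
        (π.comp (φ * β).toMonoidHom) x) →
      ∀ ν ∈ K.comap (MulAut.conj (φ * β)).toMonoidHom,
        g * ν * g⁻¹ ∈ K.comap (MulAut.conj (φ * β)).toMonoidHom := by
    intro g hg ν hν
    rw [hmem] at hν ⊢
    have hG : (φ * β) * g * (φ * β)⁻¹ ∈ Gam π := by
      intro y
      have h3 := hg ((φ * β)⁻¹ y)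
      have h4 : (π.comp (φ * β).toMonoidHom) ((φ * β)⁻¹ y) = π y := by
        change π ((φ * β) ((φ * β)⁻¹ y)) = π y
        rw [MulAut.apply_inv_self]
      rw [h4] at h3
      exact h3
    have h5 := hK2 _ hG _ hν
    have h6 : (φ * β) * g * (φ * β)⁻¹ * ((φ * β) * ν * (φ * β)⁻¹) *
        ((φ * β) * g * (φ * β)⁻¹)⁻¹ = (φ * β) * (g * ν * g⁻¹) * (φ * β)⁻¹ := by
      group
    rw [h6] at h5
    exact h5
  have hval : ∀ w : Sx i, (π.comp (φ * β).toMonoidHom) (act β⁻¹ hβ' w : Sx i) = π (φ w) := by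
    intro w
    rw [act_coe]
    change π (φ (β (β⁻¹ (w : FreeGroup (Fin n))))) = π (φ w)
    rw [MulAut.apply_inv_self]
  have hT := kernel_gen (K.comap (MulAut.conj (φ * β)).toMonoidHom)
    (π.comp (φ * β).toMonoidHom) hN i J hiJ (fun c hc hcJ => hkill c hc hcJ)
    (fun c c' hc hcJ hc' hcJ' hcc => (hmem _).2 (hR c c' hc hcJ hc' hcJ' hcc)) (by omega)
    (act β⁻¹ hβ' p.1, act β⁻¹ hβ' p.2) (by rw [hval]; exact h1) (by rw [hval]; exact h2)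
  rw [hmem, ← Sti_conj β⁻¹ hβ' p] at hT
  have h7 : (φ * β) * (β⁻¹ * T i p * β⁻¹⁻¹) * (φ * β)⁻¹ = φ * T i p * φ⁻¹ := by
    group
  rw [h7] at hT
  exact hT

end STAB
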