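import Mathlib
import Pool.Agent.Helper40.STAB.Defs
import Pool.Agent.Helper40.STAB.MLem

/-!
# STAB-07 QSet: signed permutations and the set `QQ`

PROOF. `IsSg.inv`: `τ x_z = x_{c z}^{±1}` defines a map `c` which is injective (`τ` injective: `c z = c z'` gives `τ x_z = (τ x_{z'})^{±1}`, so
`x_z = x_{z'}^{±1}`, `z = z'`), hence surjective; so every letter is `τ (x_z^{±1})`. `isSg_finite`: `τ` is determined by the values
`τ x_z`, which lie in the finite set of letters and inverse letters (`aut_ext`; `Set.Finite.pi`, injectivity). `QQ_le`: check the letters with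
`mem_Gam_of`: for `j ∈ I₀` nothing moves; for `j ∉ I₀`, `τ x_j = x_c^{±1}` with `c ∉ I₀` (otherwise `τ x_j = τ x_c^{±1}`), and
`π ((u c)⁻¹ x_c u c) = 1`. `QQ_mul_dl`: `τ * dl z y * τ⁻¹ = dl c y'` (`y' = y` as a word, `τ x_z = x_c^{±1}`, `c ∉ I₀`, `τ y = y` because `y` is a word in the
heavy letters: `fix_Sy`); `dl c y' = Mm I₀ᶜ (mulSingle c y) (mulSingle c y)` (`Mm_single`, `Mm_congr`), then `Mm_mul`.
-/

set_option autoImplicit false

namespace STAB

open Helper38.AutF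

variable {n r : ℕ} {G : Type} [Group G] {π : FreeGroup (Fin n) →* G} {I₀ : Finset (Fin n)}

private theorem of_ne_inv (a b : Fin n) : FreeGroup.of a ≠ (FreeGroup.of b)⁻¹ := by
  intro h
  have h1 := congrArg (FreeGroup.lift (fun _ : Fin n => Multiplicative.ofAdd (1 : ℤ))) h
  rw [map_inv, FreeGroup.lift_apply_of, FreeGroup.lift_apply_of, ← ofAdd_neg] at h1
  have h2 : (1 : ℤ) = -1 := Multiplicative.ofAdd.injective h1
  omega

private theorem sg_inj {τ : AF n} {a b c : Fin n}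
    (ha : τ (FreeGroup.of a) = FreeGroup.of c ∨ τ (FreeGroup.of a) = (FreeGroup.of c)⁻¹)
    (hb : τ (FreeGroup.of b) = FreeGroup.of c ∨ τ (FreeGroup.of b) = (FreeGroup.of c)⁻¹) :
    a = b := by
  have key : ∀ x : FreeGroup (Fin n), τ (FreeGroup.of a) = τ x → FreeGroup.of a = x := fun x hx =>
    (MulEquiv.injective (τ : FreeGroup (Fin n) ≃* FreeGroup (Fin n))) hx
  rcases ha with ha | ha <;> rcases hb with hb | hb
  · exact FreeGroup.of_injective (key _ (by rw [ha, hb]))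
  · exact absurd (key (FreeGroup.of b)⁻¹ (by rw [map_inv, ha, hb, inv_inv])) (of_ne_inv a b)
  · exact absurd (key (FreeGroup.of b)⁻¹ (by rw [map_inv, ha, hb])) (of_ne_inv a b)
  · exact FreeGroup.of_injective (key _ (by rw [ha, hb]))

private theorem sg_light {τ : AF n} (hτ : IsSg τ)
    (h : ∀ j ∈ I₀, τ (FreeGroup.of j) = FreeGroup.of j) {z : Fin n} (hz : z ∉ I₀) :
    ∃ c, c ∉ I₀ ∧ (τ (FreeGroup.of z) = FreeGroup.of c ∨ τ (FreeGroup.of z) = (FreeGroup.of c)⁻¹) := by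
  obtain ⟨c, hc⟩ := hτ z
  refine ⟨c, fun hcI => ?_, hc⟩
  have h1 : z = c := sg_inj hc (Or.inl (h c hcI))
  rw [h1] at hz
  exact hz hcI

theorem IsSg.one : IsSg (1 : AF n) :=
  fun z => ⟨z, Or.inl rfl⟩

theorem IsSg.mul {σ τ : AF n} (hσ : IsSg σ) (hτ : IsSg τ) : IsSg (σ * τ) := by
  intro z
  obtain ⟨c, hc⟩ := hτ z
  obtain ⟨e, he⟩ := hσ c
  refine ⟨e, ?_⟩
  rw [MulAut.mul_apply]
  rcases hc with hc | hc <;> rcases he with he | he
  · left; rw [hc, he]
  · right; rw [hc, he]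
  · right; rw [hc, map_inv, he]
  · left; rw [hc, map_inv, he, inv_inv]

theorem IsSg.inv {τ : AF n} (hτ : IsSg τ) : IsSg τ⁻¹ := by
  choose c hc using hτ
  have hinj : Function.Injective c := by
    intro a b hab
    have h1 := hc a
    rw [hab] at h1
    exact sg_inj h1 (hc b)
  have hsurj := Finite.injective_iff_surjective.1 hinj
  intro z
  obtain ⟨w, rfl⟩ := hsurj z
  refine ⟨w, ?_⟩
  rcases hc w with h | h
  · left
    rw [← h, MulAut.inv_apply_self]
  · right
    have h1 : FreeGroup.of (c w) = τ (FreeGroup.of w)⁻¹ := by rw [map_inv, h, inv_inv]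
    rw [h1, MulAut.inv_apply_self]

theorem isSg_pm (α : Equiv.Perm (Fin n)) : IsSg (pm α : AF n) :=
  fun z => ⟨α z, Or.inl (pm_of α z)⟩

theorem isSg_eps (i : Fin n) : IsSg (eps i : AF n) := by
  intro z
  by_cases hz : z = i
  · subst hz
    exact ⟨z, Or.inr (eps_self z)⟩
  · exact ⟨z, Or.inl (eps_ne hz)⟩

theorem isSg_finite : {τ : AF n | IsSg τ}.Finite := by
  have hfin : (Set.pi Set.univ (fun _ : Fin n =>
      Set.range (FreeGroup.of : Fin n → FreeGroup (Fin n)) ∪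
        Set.range (fun c : Fin n => (FreeGroup.of c)⁻¹))).Finite :=
    Set.Finite.pi fun _ => (Set.finite_range _).union (Set.finite_range _)
  have hinj : Function.Injective (fun (τ : AF n) (z : Fin n) => τ (FreeGroup.of z)) := by
    intro σ τ h
    exact aut_ext fun j => congrFun h j
  refine (hfin.preimage hinj.injOn).subset ?_
  intro τ hτ z _
  obtain ⟨c, hc | hc⟩ := hτ z
  · exact Or.inl ⟨c, hc.symm⟩
  · exact Or.inr ⟨c, hc.symm⟩

theorem one_mem_QQ : (1 : AF n) ∈ QQ I₀ :=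
  ⟨1, 1, Ok.one _, IsSg.one, fun _ _ => rfl, by rw [Mm_one, one_mul]⟩

theorem sg_mem_QQ {τ : AF n} (hτ : IsSg τ)
    (h : ∀ j ∈ I₀, τ (FreeGroup.of j) = FreeGroup.of j) : τ ∈ QQ I₀ :=
  ⟨1, τ, Ok.one _, hτ, h, by rw [Mm_one, one_mul]⟩

theorem QQ_le (hD : Dat π I₀ r) {q : AF n} (hq : q ∈ QQ I₀) : q ∈ Gam π := by
  obtain ⟨u, τ, hu, hτ, hfix, rfl⟩ := hq
  refine mem_Gam_of (fun j => ?_)
  rw [MulAut.mul_apply]
  by_cases hj : j ∈ I₀
  · rw [hfix j hj, Mm_of_not hu hu (by simpa using hj)]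
  · obtain ⟨c, hc, h⟩ := sg_light hτ hfix hj
    have h1 : π (Mm I₀ᶜ u u (FreeGroup.of c)) = 1 := by
      rw [Mm_of hu hu, map_mul, map_mul, map_inv, hD.light c hc, mul_one, inv_mul_cancel]
    rw [hD.light j hj]
    rcases h with h | h
    · rw [h, h1]
    · rw [h, map_inv, map_inv, h1, inv_one]

theorem QQ_mul_sg {q τ : AF n} (hq : q ∈ QQ I₀) (hτ : IsSg τ)
    (h : ∀ j ∈ I₀, τ (FreeGroup.of j) = FreeGroup.of j) : q * τ ∈ QQ I₀ := by
  obtain ⟨u, σ, hu, hσ, hfix, rfl⟩ := hq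
  refine ⟨u, σ * τ, hu, hσ.mul hτ, fun j hj => ?_, by rw [mul_assoc]⟩
  rw [MulAut.mul_apply, h j hj, hfix j hj]

theorem QQ_mul_dl {q : AF n} (hq : q ∈ QQ I₀) {z : Fin n} (hz : z ∉ I₀) (y : Sx z)
    (hy : (y : FreeGroup (Fin n)) ∈ Sy (I₀ : Set (Fin n))) : q * dl z y ∈ QQ I₀ := by
  obtain ⟨u, τ, hu, hτ, hfix, rfl⟩ := hq
  obtain ⟨c, hc, hzc⟩ := sg_light hτ hfix hz
  have hyc : (y : FreeGroup (Fin n)) ∈ Sx c := Sy_le_Sx (by simpa using hc) hy
  have hτy : τ (y : FreeGroup (Fin n)) = y := fix_Sy τ (fun j hj => hfix j (by simpa using hj)) hy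
  have hconj : τ * dl z y = dl c ⟨y, hyc⟩ * τ := by
    refine aut_ext (fun j => ?_)
    rw [MulAut.mul_apply, MulAut.mul_apply]
    by_cases hj : j = z
    · subst hj
      rw [dl_self, map_mul, map_mul, map_inv, hτy]
      rcases hzc with h | h
      · rw [h, dl_self]
      · rw [h, map_inv, dl_self]
        simp only [_root_.mul_inv_rev, inv_inv, mul_assoc]
    · have h1 : dl z y (FreeGroup.of j) = FreeGroup.of j := dl_fix z y (of_mem_Sx hj)
      obtain ⟨e, he⟩ := hτ j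
      have hec : e ≠ c := by
        rintro rfl
        exact hj (sg_inj he hzc)
      have h2 : τ (FreeGroup.of j) ∈ Sx c := by
        rcases he with he | he
        · rw [he]
          exact of_mem_Sx hec
        · rw [he]
          exact inv_mem (of_mem_Sx hec)
      rw [h1, dl_fix c _ h2]
  have hok : Ok I₀ᶜ (Pi.mulSingle c (y : FreeGroup (Fin n))) := by
    constructor
    · intro i
      by_cases hi : i = c
      · subst hi
        rw [Pi.mulSingle_eq_same]
        refine Sy_mono ?_ hy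
        intro j hj
        simpa using hj
      · rw [Pi.mulSingle_eq_of_ne hi]
        exact one_mem _
    · intro i hi
      have hic : i ≠ c := by
        rintro rfl
        exact hi (by simpa using hc)
      rw [Pi.mulSingle_eq_of_ne hic]
  have hdl : dl c ⟨y, hyc⟩ = Mm I₀ᶜ (Pi.mulSingle c (y : FreeGroup (Fin n)))
      (Pi.mulSingle c (y : FreeGroup (Fin n))) := by
    rw [dl_apply, ← Mm_single]
    exact Mm_congr (Ok_single hyc) (Ok_single hyc) hok hok
  refine ⟨u * Pi.mulSingle c (y : FreeGroup (Fin n)), τ, hu.mul hok, hτ, hfix, ?_⟩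
  rw [mul_assoc, hconj, hdl, ← mul_assoc, Mm_mul hu hu hok hok]

end STAB
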