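import Mathlib
import Pool.Agent.Helper40.STAB.Defs
import Pool.Agent.Helper40.STAB.MLem

/-!
# STAB-06 Sim: the equivalence `K φ = K ψ` and changing words

PROOF. `sim_val`: `ψ = κ φ` with `κ ∈ K ≤ Gam π`. `sim_T`: `(φ T i p') (φ T i p)⁻¹ = φ T i (p' p⁻¹) φ⁻¹` (`T i` is a homomorphism), `hK.kill`.
`sim_Mm`: `(φ Mm D u' w') (φ Mm D u w)⁻¹ = φ Mm D (u' u⁻¹) (w' w⁻¹) φ⁻¹` (`Mm_mul`, `Mm_inv`). So it is enough: if `Ok D a`, `Ok D b` and
`π (φ (a i)) = π (φ (b i)) = 1` for all `i` then `φ * Mm D a b * φ⁻¹ ∈ K`. Induction on a finite set `S` of indices with `a i = b i = 1` for `i ∉ S`: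
split off one index `i`: `a = Pi.mulSingle i (a i) * a'`, `Mm D a b = Mm D (mulSingle i (a i)) (mulSingle i (b i)) * Mm D a' b'` (`Mm_mul`), and the
first factor is `T i (a i, b i)` (`Mm_congr`, `Mm_single`; `a i ∈ Sx i` since `i ∈ D` or `a i = 1`), killed by `hK.kill`.
-/

set_option autoImplicit false

namespace STAB

open Helper38.AutF

variable {n : ℕ} {G : Type} [Group G] {π : FreeGroup (Fin n) →* G} {K : Subgroup (AF n)}

theorem Sim.refl (φ : AF n) : Sim K φ φ := by
  unfold Sim
  rw [mul_inv_cancel]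
  exact one_mem K

theorem Sim.symm {φ ψ : AF n} (h : Sim K φ ψ) : Sim K ψ φ := by
  unfold Sim at h ⊢
  have := inv_mem h
  rwa [mul_inv_rev, inv_inv] at this

theorem Sim.trans {φ ψ χ : AF n} (h : Sim K φ ψ) (h' : Sim K ψ χ) : Sim K φ χ := by
  unfold Sim at h h' ⊢
  have := mul_mem h' h
  rwa [mul_assoc, inv_mul_cancel_left] at this

theorem Sim.mul {φ ψ : AF n} (h : Sim K φ ψ) (g : AF n) : Sim K (φ * g) (ψ * g) := by
  unfold Sim at h ⊢
  rwa [mul_inv_rev, mul_assoc, mul_inv_cancel_left]

theorem sim_val (hK : AX π K) {φ ψ : AF n} (h : Sim K φ ψ) (x : FreeGroup (Fin n)) :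
    π (ψ x) = π (φ x) := by
  have h1 := (hK.le h) (φ x)
  rwa [MulAut.mul_apply, MulAut.inv_apply_self] at h1

theorem sim_T (hK : AX π K) (φ : AF n) (i : Fin n) (p p' : Sx i × Sx i)
    (h1 : π (φ p.1) = π (φ p'.1)) (h2 : π (φ p.2) = π (φ p'.2)) :
    Sim K (φ * T i p) (φ * T i p') := by
  unfold Sim
  have h3 : φ * T i p' * (φ * T i p)⁻¹ = φ * T i (p' * p⁻¹) * φ⁻¹ := by
    rw [map_mul, map_inv]
    group
  rw [h3]
  refine hK.kill φ i _ ?_ ?_
  · simp only [Prod.fst_mul, Prod.fst_inv, Subgroup.coe_mul, Subgroup.coe_inv, map_mul, map_inv]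
    rw [h1, mul_inv_cancel]
  · simp only [Prod.snd_mul, Prod.snd_inv, Subgroup.coe_mul, Subgroup.coe_inv, map_mul, map_inv]
    rw [h2, mul_inv_cancel]

private theorem kill_Mm (hK : AX π K) (φ : AF n) {D : Finset (Fin n)} (S : Finset (Fin n)) :
    ∀ a b : Fin n → FreeGroup (Fin n), Ok D a → Ok D b → (∀ i, π (φ (a i)) = 1) →
      (∀ i, π (φ (b i)) = 1) → (∀ i, i ∉ S → a i = 1 ∧ b i = 1) → φ * Mm D a b * φ⁻¹ ∈ K := by
  induction S using Finset.induction_on with
  | empty =>
    intro a b _ _ _ _ h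
    have ha : a = 1 := funext fun i => (h i (Finset.notMem_empty i)).1
    have hb : b = 1 := funext fun i => (h i (Finset.notMem_empty i)).2
    rw [ha, hb, Mm_one, mul_one, mul_inv_cancel]
    exact one_mem K
  | insert i S hi ih =>
    intro a b ha hb ha1 hb1 h
    by_cases hD : i ∈ D
    · have hSx : Sy ((D : Set (Fin n))ᶜ) ≤ Sx i := Sy_le_Sx (by simpa using hD)
      have hsingle : ∀ c : Fin n → FreeGroup (Fin n), Ok D c → Ok D (Pi.mulSingle i (c i)) := by
        intro c hc
        refine ⟨fun j => ?_, fun j hj => ?_⟩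
        · by_cases hji : j = i
          · subst hji
            rw [Pi.mulSingle_eq_same]
            exact hc.1 _
          · rw [Pi.mulSingle_eq_of_ne hji]
            exact one_mem _
        · have hji : j ≠ i := fun h => hj (h ▸ hD)
          rw [Pi.mulSingle_eq_of_ne hji]
      have hupd : ∀ c : Fin n → FreeGroup (Fin n), Ok D c → Ok D (Function.update c i 1) := by
        intro c hc
        refine ⟨fun j => ?_, fun j hj => ?_⟩
        · by_cases hji : j = i
          · subst hji
            rw [Function.update_self]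
            exact one_mem _
          · rw [Function.update_of_ne hji]
            exact hc.1 _
        · have hji : j ≠ i := fun h => hj (h ▸ hD)
          rw [Function.update_of_ne hji]
          exact hc.2 j hj
      have hdec : ∀ c : Fin n → FreeGroup (Fin n),
          c = Pi.mulSingle i (c i) * Function.update c i 1 := by
        intro c
        funext j
        rw [Pi.mul_apply]
        by_cases hji : j = i
        · subst hji
          rw [Pi.mulSingle_eq_same, Function.update_self, mul_one]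
        · rw [Pi.mulSingle_eq_of_ne hji, Function.update_of_ne hji, one_mul]
      have hupd1 : ∀ c : Fin n → FreeGroup (Fin n), (∀ j, π (φ (c j)) = 1) →
          ∀ j, π (φ (Function.update c i 1 j)) = 1 := by
        intro c hc j
        by_cases hji : j = i
        · subst hji
          rw [Function.update_self, map_one, map_one]
        · rw [Function.update_of_ne hji]
          exact hc j
      have h1 : Mm D a b = T i (⟨a i, hSx (ha.1 i)⟩, ⟨b i, hSx (hb.1 i)⟩) *
          Mm D (Function.update a i 1) (Function.update b i 1) := by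
        have h2 := Mm_single i (⟨a i, hSx (ha.1 i)⟩, ⟨b i, hSx (hb.1 i)⟩)
        rw [← h2, ← Mm_congr (hsingle a ha) (hsingle b hb) (Ok_single (hSx (ha.1 i)))
          (Ok_single (hSx (hb.1 i))), Mm_mul (hsingle a ha) (hsingle b hb) (hupd a ha) (hupd b hb),
          ← hdec a, ← hdec b]
      have h3 : φ * Mm D a b * φ⁻¹ =
          (φ * T i (⟨a i, hSx (ha.1 i)⟩, ⟨b i, hSx (hb.1 i)⟩) * φ⁻¹) *
          (φ * Mm D (Function.update a i 1) (Function.update b i 1) * φ⁻¹) := by
        rw [h1]
        group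
      rw [h3]
      refine mul_mem (hK.kill φ i _ (ha1 i) (hb1 i)) ?_
      refine ih _ _ (hupd a ha) (hupd b hb) (hupd1 a ha1) (hupd1 b hb1) fun j hj => ?_
      by_cases hji : j = i
      · subst hji
        rw [Function.update_self, Function.update_self]
        exact ⟨rfl, rfl⟩
      · rw [Function.update_of_ne hji, Function.update_of_ne hji]
        exact h j (by simp [hji, hj])
    · refine ih a b ha hb ha1 hb1 fun j hj => ?_
      by_cases hji : j = i
      · subst hji
        exact ⟨ha.2 j hD, hb.2 j hD⟩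
      · exact h j (by simp [hji, hj])

theorem sim_Mm (hK : AX π K) (φ : AF n) {D : Finset (Fin n)}
    {u w u' w' : Fin n → FreeGroup (Fin n)} (hu : Ok D u) (hw : Ok D w) (hu' : Ok D u')
    (hw' : Ok D w') (h1 : ∀ i, π (φ (u i)) = π (φ (u' i))) (h2 : ∀ i, π (φ (w i)) = π (φ (w' i))) :
    Sim K (φ * Mm D u w) (φ * Mm D u' w') := by
  unfold Sim
  have h3 : φ * Mm D u' w' * (φ * Mm D u w)⁻¹ = φ * Mm D (u' * u⁻¹) (w' * w⁻¹) * φ⁻¹ := by
    rw [← Mm_mul hu' hw' hu.inv hw.inv, ← Mm_inv hu hw]
    group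
  rw [h3]
  refine kill_Mm hK φ Finset.univ _ _ (hu'.mul hu.inv) (hw'.mul hw.inv) ?_ ?_
    fun i hi => absurd (Finset.mem_univ i) hi
  · intro i
    rw [Pi.mul_apply, Pi.inv_apply, map_mul, map_mul, map_inv, map_inv, h1, mul_inv_cancel]
  · intro i
    rw [Pi.mul_apply, Pi.inv_apply, map_mul, map_mul, map_inv, map_inv, h2, mul_inv_cancel]

end STAB
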