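import Mathlib
import Pool.Agent.Helper40.STAB.Defs
import Pool.Agent.Helper40.STAB.MLem
import Pool.Agent.Helper40.STAB.Sim
import Pool.Agent.Helper40.STAB.QSet

/-!
# STAB-08 StdL: existence and uniqueness of the standard modifications `η = φ M_D(1,w) M_{D^c}(1,v)`

PROOF. `std_unique`: `η = φ Mm D 1 w Mm Dᶜ 1 v`, `η' = φ Mm D 1 w' Mm Dᶜ 1 v'`. For `a ∈ D`: `Mm Dᶜ 1 v` fixes `x_a`, so `π (η x_a) = π (φ x_a) π (φ (w a))`; hence
`π (φ (w a)) = π (φ (w' a))` for `a ∈ D`, and for `a ∉ D` both words are `1`. `sim_Mm`: `φ Mm D 1 w ~ φ Mm D 1 w' =: φ₂`, so `η ~ φ₂ Mm Dᶜ 1 v` (`Sim.mul`), with the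
same values (`sim_val`). For `c ∈ Dᶜ`: `π (φ₂ (x_c v_c)) = π (φ₂ (x_c v'_c))`, so `π (φ₂ v_c) = π (φ₂ v'_c)` and `sim_Mm` again.
`std_exists`: `D = I₀.image α`. For `a = α j`, `j ∈ I₀`: choose `w a ∈ Sy I` with `π (φ (w a)) = (π (φ x_a))⁻¹ * π x_j` (`hg`), `w = 1` outside `D`; `Sy I ≤ Sy Dᶜ`. Put
`φ₂ = φ Mm D 1 w`: `π (φ₂ x_{α j}) = π x_j` for `j ∈ I₀`. For `c ∉ D` choose `v c ∈ Sy D` with `π (φ₂ (v c)) = (π (φ₂ x_c))⁻¹`: by `hD.gen` there is `y ∈ Sy I₀` with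
`π y = (π (φ₂ x_c))⁻¹`, take `v c = pm α y` (`pm_Sy`; `π (φ₂ (pm α y)) = π y` since both homomorphisms agree on the letters of `I₀`, `hom_eq_on_Sy`).
Check `η pm α ∈ Gam π` on letters: `j ∈ I₀`: `η x_{α j} = φ₂ x_{α j}`; `j ∉ I₀`: `α j ∉ D`, value `1 = π x_j` (`hD.light`).
`std_sim`: `η' = φ' φ⁻¹ η`. `PA_elim`: the `η₀` in `PA` has `η₀ pm α ∈ Gam π` (`Sim K q (η₀ pm α)`, `QQ_le`, `hK.le`), so `η, η₀` have the same values (`x = pm α y`), `Sim K η₀ η`.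
-/

set_option autoImplicit false

namespace STAB

open Helper38.AutF

variable {n r : ℕ} {G : Type} [Group G] {π : FreeGroup (Fin n) →* G} {I₀ : Finset (Fin n)}
  {K : Subgroup (AF n)}

private theorem val_in {D : Finset (Fin n)} {w v : Fin n → FreeGroup (Fin n)} (hw : Ok D w)
    (hv : Ok Dᶜ v) (φ : AF n) {a : Fin n} (ha : a ∈ D) :
    π ((φ * Mm D 1 w * Mm Dᶜ 1 v) (FreeGroup.of a)) = π (φ (FreeGroup.of a)) * π (φ (w a)) := by
  rw [MulAut.mul_apply, MulAut.mul_apply, Mm_of_not (Ok.one _) hv (by simpa using ha),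
    Mm_of (Ok.one _) hw, Pi.one_apply, inv_one, one_mul, map_mul, map_mul]

private theorem val_out {D : Finset (Fin n)} {v : Fin n → FreeGroup (Fin n)}
    (hv : Ok D v) (φ : AF n) (a : Fin n) :
    π ((φ * Mm D 1 v) (FreeGroup.of a)) = π (φ (FreeGroup.of a)) * π (φ (v a)) := by
  rw [MulAut.mul_apply, Mm_of (Ok.one _) hv, Pi.one_apply, inv_one, one_mul, map_mul, map_mul]

theorem std_unique (hK : AX π K) {φ η η' : AF n} {D : Finset (Fin n)} (hη : Std φ D η)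
    (hη' : Std φ D η') (h : ∀ x, π (η x) = π (η' x)) : Sim K η η' := by
  obtain ⟨w, v, hw, hv, rfl⟩ := hη
  obtain ⟨w', v', hw', hv', rfl⟩ := hη'
  have h1 : ∀ i, π (φ (w i)) = π (φ (w' i)) := by
    intro i
    by_cases hi : i ∈ D
    · have h2 := h (FreeGroup.of i)
      rw [val_in hw hv φ hi, val_in hw' hv' φ hi] at h2
      exact mul_left_cancel h2
    · rw [hw.2 i hi, hw'.2 i hi]
  have s1 : Sim K (φ * Mm D 1 w) (φ * Mm D 1 w') :=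
    sim_Mm hK φ (Ok.one D) hw (Ok.one D) hw' (fun _ => rfl) h1
  have s2 := s1.mul (Mm Dᶜ 1 v)
  refine s2.trans (sim_Mm hK (φ * Mm D 1 w') (Ok.one _) hv (Ok.one _) hv' (fun _ => rfl) ?_)
  intro i
  have h3 : π ((φ * Mm D 1 w' * Mm Dᶜ 1 v) (FreeGroup.of i)) =
      π ((φ * Mm D 1 w' * Mm Dᶜ 1 v') (FreeGroup.of i)) := by
    rw [sim_val hK s2, h]
  rw [val_out hv, val_out hv'] at h3
  exact mul_left_cancel h3

theorem std_exists (hD : Dat π I₀ r) (φ : AF n) (α : Equiv.Perm (Fin n)) {I : Finset (Fin n)}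
    (hI : Disjoint I (I₀.image α)) (hg : GenOn π φ I) :
    ∃ w v : Fin n → FreeGroup (Fin n), Ok (I₀.image α) w ∧ Ok (I₀.image α)ᶜ v ∧
      (∀ i, w i ∈ Sy (I : Set (Fin n))) ∧
      φ * Mm (I₀.image α) 1 w * Mm (I₀.image α)ᶜ 1 v * pm α ∈ Gam π := by
  classical
  obtain ⟨D, hDD⟩ : ∃ D, D = I₀.image α := ⟨_, rfl⟩
  rw [← hDD] at hI ⊢
  have hw0 : ∀ a : Fin n, ∃ x : FreeGroup (Fin n), x ∈ Sy (I : Set (Fin n)) ∧
      (a ∈ D → π (φ x) = (π (φ (FreeGroup.of a)))⁻¹ * π (FreeGroup.of (α⁻¹ a))) ∧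
      (a ∉ D → x = 1) := by
    intro a
    by_cases ha : a ∈ D
    · obtain ⟨x, hx, hx2⟩ := hg ((π (φ (FreeGroup.of a)))⁻¹ * π (FreeGroup.of (α⁻¹ a)))
      exact ⟨x, hx, fun _ => hx2, fun h => absurd ha h⟩
    · exact ⟨1, one_mem _, fun h => absurd h ha, fun _ => rfl⟩
  choose w hw1 hw2 hw3 using hw0
  have hw : Ok D w := by
    refine ⟨fun i => Sy_mono ?_ (hw1 i), hw3⟩
    intro c hc
    exact Set.mem_compl (fun h => Finset.disjoint_left.mp hI (Finset.mem_coe.mp hc) (Finset.mem_coe.mp h))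
  obtain ⟨φ₂, hφ₂⟩ : ∃ φ₂, φ₂ = φ * Mm D 1 w := ⟨_, rfl⟩
  have hmem : ∀ j ∈ I₀, α j ∈ D := by
    intro j hj
    rw [hDD]
    exact Finset.mem_image_of_mem _ hj
  have v1 : ∀ j ∈ I₀, π (φ₂ (FreeGroup.of (α j))) = π (FreeGroup.of j) := by
    intro j hj
    have e : α⁻¹ (α j) = j := α.symm_apply_apply j
    rw [hφ₂, val_out hw, hw2 _ (hmem j hj), mul_inv_cancel_left, e]
  have v2 : ∀ y ∈ Sy (I₀ : Set (Fin n)), π (φ₂ (pm α y)) = π y := by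
    intro y hy
    refine hom_eq_on_Sy ((π.comp φ₂.toMonoidHom).comp (pm α : AF n).toMonoidHom) π
      (fun j hj => ?_) hy
    change π (φ₂ (pm α (FreeGroup.of j))) = _
    rw [pm_of]
    exact v1 j (Finset.mem_coe.mp hj)
  have hv0 : ∀ c : Fin n, ∃ x : FreeGroup (Fin n), x ∈ Sy (D : Set (Fin n)) ∧
      (c ∉ D → π (φ₂ x) = (π (φ₂ (FreeGroup.of c)))⁻¹) ∧ (c ∈ D → x = 1) := by
    intro c
    by_cases hc : c ∈ D
    · exact ⟨1, one_mem _, fun h => absurd hc h, fun _ => rfl⟩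
    · obtain ⟨y, hy, hy2⟩ := hD.gen ((π (φ₂ (FreeGroup.of c)))⁻¹)
      refine ⟨pm α y, ?_, fun _ => ?_, fun h => absurd h hc⟩
      · have := pm_Sy α hy
        rw [hDD, Finset.coe_image]
        exact this
      · rw [v2 y hy, ← hy2]
        rfl
  choose v hv1 hv2 hv3 using hv0
  have hv : Ok Dᶜ v := by
    refine ⟨fun i => ?_, fun i hi => hv3 i (by simpa using hi)⟩
    rw [Finset.coe_compl, compl_compl]
    exact hv1 i
  refine ⟨w, v, hw, hv, hw1, mem_Gam_of fun j => ?_⟩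
  rw [← hφ₂, MulAut.mul_apply, pm_of]
  by_cases hj : j ∈ I₀
  · rw [MulAut.mul_apply, Mm_of_not (Ok.one _) hv (by simpa using hmem j hj)]
    exact v1 j hj
  · have hj2 : α j ∉ D := by
      rw [hDD]
      intro h
      obtain ⟨i, hi, hi2⟩ := Finset.mem_image.mp h
      exact hj (α.injective hi2 ▸ hi)
    rw [val_out hv, hv2 _ hj2, mul_inv_cancel, hD.light j hj]

theorem std_sim {φ φ' η : AF n} (h : Sim K φ φ') {D : Finset (Fin n)} (hη : Std φ D η) :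
    ∃ η', Std φ' D η' ∧ Sim K η η' := by
  obtain ⟨w, v, hw, hv, rfl⟩ := hη
  exact ⟨φ' * Mm D 1 w * Mm Dᶜ 1 v, ⟨w, v, hw, hv, rfl⟩, (h.mul _).mul _⟩

theorem PA_sim {φ φ' : AF n} (h : Sim K φ φ') {α : Equiv.Perm (Fin n)} (hP : PA K I₀ φ α) :
    PA K I₀ φ' α := by
  obtain ⟨η, q, hη, hq, hs⟩ := hP
  obtain ⟨η', hη', hs'⟩ := std_sim h hη
  exact ⟨η', q, hη', hq, hs.trans (hs'.mul _)⟩

theorem PP_sim (hK : AX π K) {φ φ' : AF n} (h : Sim K φ φ') (hP : PP π K I₀ φ) :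
    PP π K I₀ φ' := by
  intro α hα
  refine PA_sim h (hP α fun g => ?_)
  obtain ⟨w, hw, hw2⟩ := hα g
  exact ⟨w, hw, by rw [← sim_val hK h, hw2]⟩

theorem PA_elim (hD : Dat π I₀ r) (hK : AX π K) {φ η : AF n} {α : Equiv.Perm (Fin n)}
    (hP : PA K I₀ φ α) (hη : Std φ (I₀.image α) η) (h : η * pm α ∈ Gam π) :
    ∃ q ∈ QQ I₀, Sim K q (η * pm α) := by
  obtain ⟨η₀, q, hη₀, hq, hs⟩ := hP
  have h1 : η₀ * pm α ∈ Gam π := by
    have h2 : η₀ * pm α * q⁻¹ ∈ Gam π := hK.le hs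
    have h3 := mul_mem h2 (QQ_le hD hq)
    rwa [inv_mul_cancel_right] at h3
  have h4 : ∀ x, π (η₀ x) = π (η x) := by
    intro x
    obtain ⟨y, rfl⟩ : ∃ y, x = pm α y := ⟨(pm α)⁻¹ x, by rw [MulAut.apply_inv_self]⟩
    have h5 := h1 y
    have h6 := h y
    rw [MulAut.mul_apply] at h5 h6
    rw [h5, h6]
  exact ⟨q, hq, hs.trans ((std_unique hK hη₀ hη h4).mul _)⟩

end STAB
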