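import Mathlib
import Pool.Agent.Helper40.STAB.Defs
import Pool.Agent.Helper40.STAB.MLem
import Pool.Agent.Helper40.STAB.Sim
import Pool.Agent.Helper40.STAB.QSet
import Pool.Agent.Helper40.STAB.StdL

/-!
# STAB-09 Change: from `A` to a disjoint `A'`

Notation: `A = I₀.image α`, `A' = I₀.image α'`, `B = (A ∪ A')ᶜ`, `~` is `Sim K`, `M_D(w) = Mm D 1 w`.
PROOF. By `std_exists` (words in `I`) take `w, v` for `α` and `w', v'` for `α'`: `η = φ M_A(w) M_{Aᶜ}(v)`, `η' = φ M_{A'}(w') M_{A'ᶜ}(v')`, `η pm α`, `η' pm α' ∈ Gam π`, `w, w'` in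
`Sy I`, `v` in `Sy A` (`Ok Aᶜ v`), `v'` in `Sy A'`. Let `z (α' j) = x_{α j}`, `z'(α j) = x_{α' j}⁻¹` for `j ∈ I₀`, `1` elsewhere.
CLAIM `η' ~ η M_{A'}(z) M_A(z')`. Restrict functions to `A'`, `B`, `A` by putting `1` elsewhere. `M_{Aᶜ}(v) = M_{A'}(v|A') M_B(v|B)` (`Mm_union`).
(a) `η M_{A'}(z) = φ M_A(w) M_{A'}(v|A' z) M_B(v|B)` (commute `M_B`, words in `Sy A`; `Mm_comm`, `Mm_mul`).
(b) `φ M_A(w) M_{A'}(v|A' z) ~ φ M_A(w) M_{A'}(w')` by `sim_Mm`: with `φ₂ = φ M_A(w)`, for `a' = α' j`: `π (φ₂ (v a' z a')) = π (φ₂ v_{a'}) π (φ₂ x_{α j})`, and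
`η x_{a'} = φ₂ (x_{a'} v_{a'})` has value `1`, `π (φ₂ x_{α j}) = π (η x_{α j}) = π x_j`; so the value is `(π (φ x_{a'}))⁻¹ π x_j`, which is `π (φ (w' a')) = π (φ₂ (w' a'))`
(`w'` in `Sy I`, fixed by `M_A(w)`; value of `η' x_{a'}`). (c) `M_A(w) M_{A'}(w') = M_{A'}(w') M_A(w)` (`Mm_comm`, words in `Sy I`).
(d) `φ₃ = φ M_{A'}(w') M_A(w)`: `φ₃ M_B(v|B) ~ φ₃ M_B(v'|B)` (`sim_Mm`): for `b ∈ B`: `π (φ₃ v_b) = (π (φ x_b))⁻¹ = π (φ₃ v'_b)`: `φ₃ x_{α j}` has value `π x_j` and `φ₃ x_{α' j}` too, so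
`π (φ₃ v_b) = π (η v_b)`, `π (φ₃ v'_b) = π (η' v'_b)` (`hom_eq_on_Sy`), and `η x_b = φ₂ (x_b v_b)`, `π (η x_b) = 1`.
(e) `M_A(w) M_B(v'|B) = M_B(v'|B) M_A(w*)`, `w* = (M_B(v'|B))⁻¹ w` (`Mm_conj` with `σ = (M_B(v'|B))⁻¹`, which fixes `x_a`, `a ∈ A`, and maps the other letters
into `Sy Aᶜ`). (f) so `η M_{A'}(z) M_A(z') ~ φ M_{A'}(w') M_B(v'|B) M_A(w* z')`, and with `φ₄ = φ M_{A'}(w') M_B(v'|B)` it is `~ φ₄ M_A(v'|A) = η'` by `sim_Mm`: the value of
`(w* z') a` under `π φ₄` is `(π (φ₄ x_a))⁻¹ (value at x_a of the left side)`; the left side has value `1` at `x_a`: by `sim_val` it is the value of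
`η M_{A'}(z) M_A(z') x_a = η (x_a · (x_{a'} x_a)⁻¹)` with `η x_{a'}` of value `1`. And `v'_a` has the same value because `η' x_a` has value `1`.
THEN `M_{A'}(z) M_A(z') = ρ s`: `s` the signed permutation `x_{α j} ↦ x_{α' j}⁻¹`, `x_{α' j} ↦ x_{α j}` (`j ∈ I₀`), other letters fixed (define it as
`pm` of the involution exchanging `α j` and `α' j`, times `Mm`-free product of inversions, or as any `AF n` with these values; e.g. directly
`s := ρ⁻¹ M_{A'}(z) M_A(z')` and compute it on letters), `ρ = Mm A u 1` with `u (α j) = x_{α' j}⁻¹`: on letters `x_{α j} ↦ x_{α' j}⁻¹`, `x_{α' j} ↦ x_{α' j} x_{α j}`. `η ρ ~ η` by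
`sim_Mm` (`π (η x_{α' j}) = 1`). So `η' ~ η s` and `η' pm α' ~ η pm α · ((pm α)⁻¹ s pm α')`, where `τ = (pm α)⁻¹ s pm α'` is a signed permutation with
`τ x_j = x_j` (`j ∈ I₀`). By `PA_elim` `η pm α ~ q ∈ QQ`, so `η' pm α' ~ q τ ∈ QQ` (`QQ_mul_sg`, `Sim.mul`).
-/

set_option autoImplicit false

namespace STAB

open Helper38.AutF

variable {n r : ℕ} {G : Type} [Group G] {π : FreeGroup (Fin n) →* G} {I₀ : Finset (Fin n)}
  {K : Subgroup (AF n)}

private def rs (D : Finset (Fin n)) (f : Fin n → FreeGroup (Fin n)) : Fin n → FreeGroup (Fin n) :=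
  fun i => if i ∈ D then f i else 1

private theorem rs_pos {D : Finset (Fin n)} {f : Fin n → FreeGroup (Fin n)} {i : Fin n}
    (h : i ∈ D) : rs D f i = f i := by simp [rs, h]

private theorem rs_neg {D : Finset (Fin n)} {f : Fin n → FreeGroup (Fin n)} {i : Fin n}
    (h : i ∉ D) : rs D f i = 1 := by simp [rs, h]

private theorem rs_mem {D : Finset (Fin n)} {f : Fin n → FreeGroup (Fin n)} {s : Set (Fin n)}
    (hf : ∀ i, f i ∈ Sy s) (i : Fin n) : rs D f i ∈ Sy s := by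
  by_cases h : i ∈ D
  · rw [rs_pos h]; exact hf i
  · rw [rs_neg h]; exact one_mem _

private theorem rs_ok {D : Finset (Fin n)} {f : Fin n → FreeGroup (Fin n)} {s : Set (Fin n)}
    (hf : ∀ i, f i ∈ Sy s) (hs : s ⊆ (D : Set (Fin n))ᶜ) : Ok D (rs D f) :=
  ⟨fun i => Sy_mono hs (rs_mem hf i), fun _ hi => rs_neg hi⟩

private theorem m_mul {D : Finset (Fin n)} {w w' : Fin n → FreeGroup (Fin n)} (hw : Ok D w)
    (hw' : Ok D w') : Mm D 1 w * Mm D 1 w' = Mm D 1 (w * w') := by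
  rw [Mm_mul (Ok.one D) hw (Ok.one D) hw', one_mul]

private theorem m_comm {D E : Finset (Fin n)} (hDE : Disjoint D E)
    {w w' : Fin n → FreeGroup (Fin n)} (hw : Ok D w) (hw' : Ok E w')
    (h2 : ∀ i, w i ∈ Sy ((E : Set (Fin n))ᶜ)) (h4 : ∀ i, w' i ∈ Sy ((D : Set (Fin n))ᶜ)) :
    Mm D 1 w * Mm E 1 w' = Mm E 1 w' * Mm D 1 w :=
  Mm_comm hDE (Ok.one D) hw (Ok.one E) hw' (fun _ => one_mem _) h2 (fun _ => one_mem _) h4

private theorem m_of {D : Finset (Fin n)} {w : Fin n → FreeGroup (Fin n)} (hw : Ok D w)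
    (i : Fin n) : Mm D 1 w (FreeGroup.of i) = FreeGroup.of i * w i := by
  rw [Mm_of (Ok.one D) hw]
  simp

private theorem sim_m (hK : AX π K) (φ : AF n) {D : Finset (Fin n)}
    {w w' : Fin n → FreeGroup (Fin n)} (hw : Ok D w) (hw' : Ok D w')
    (h2 : ∀ i, π (φ (w i)) = π (φ (w' i))) : Sim K (φ * Mm D 1 w) (φ * Mm D 1 w') :=
  sim_Mm hK φ (Ok.one D) hw (Ok.one D) hw' (fun _ => rfl) h2

/-- splitting `M_{A^c}(v)` -/
private theorem m_split {A E B : Finset (Fin n)} (hEB : Disjoint E B) (hu : E ∪ B = Aᶜ)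
    {v : Fin n → FreeGroup (Fin n)} (hv : Ok Aᶜ v) (hvA : ∀ i, v i ∈ Sy (A : Set (Fin n)))
    (hAE : (A : Set (Fin n)) ⊆ (E : Set (Fin n))ᶜ) (hAB : (A : Set (Fin n)) ⊆ (B : Set (Fin n))ᶜ) :
    Mm Aᶜ 1 v = Mm E 1 (rs E v) * Mm B 1 (rs B v) := by
  have h1 := Mm_union hEB (Ok.one E) (rs_ok hvA hAE) (Ok.one B) (rs_ok hvA hAB)
    (fun _ => one_mem _) (fun i => Sy_mono hAB (rs_mem hvA i)) (fun _ => one_mem _)
    (fun i => Sy_mono hAE (rs_mem hvA i))
  rw [h1, hu, one_mul]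
  congr 1
  funext i
  rw [Pi.mul_apply]
  by_cases hE : i ∈ E
  · have hB : i ∉ B := fun h => Finset.disjoint_left.1 hEB hE h
    rw [rs_pos hE, rs_neg hB, mul_one]
  · by_cases hB : i ∈ B
    · rw [rs_neg hE, rs_pos hB, one_mul]
    · have hA : i ∉ Aᶜ := by
        rw [← hu, Finset.mem_union]
        tauto
      rw [rs_neg hE, rs_neg hB, hv.2 i hA, mul_one]

theorem change (hD : Dat π I₀ r) (hK : AX π K) {φ : AF n} {α α' : Equiv.Perm (Fin n)}
    (hαα' : Disjoint (I₀.image α) (I₀.image α')) {I : Finset (Fin n)}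
    (hI : Disjoint I (I₀.image α)) (hI' : Disjoint I (I₀.image α')) (hg : GenOn π φ I)
    (hP : PA K I₀ φ α) : PA K I₀ φ α' := by
  classical
  obtain ⟨w, v, hw, hv, hwI, hη⟩ := std_exists hD φ α hI hg
  obtain ⟨w', v', hw', hv', hwI', hη'⟩ := std_exists hD φ α' hI' hg
  obtain ⟨q, hq, hqη⟩ := PA_elim hD hK hP ⟨w, v, hw, hv, rfl⟩ hη
  set A := I₀.image α with hA
  set A' := I₀.image α' with hA'
  set B := (A ∪ A')ᶜ with hB
  have hvA : ∀ i, v i ∈ Sy (A : Set (Fin n)) := fun i => by simpa using hv.1 i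
  have hvA' : ∀ i, v' i ∈ Sy (A' : Set (Fin n)) := fun i => by simpa using hv'.1 i
  have IA : (I : Set (Fin n)) ⊆ (A : Set (Fin n))ᶜ := fun i hi hi' =>
    Finset.disjoint_left.1 hI (by simpa using hi) (by simpa using hi')
  have IA' : (I : Set (Fin n)) ⊆ (A' : Set (Fin n))ᶜ := fun i hi hi' =>
    Finset.disjoint_left.1 hI' (by simpa using hi) (by simpa using hi')
  have AA' : (A : Set (Fin n)) ⊆ (A' : Set (Fin n))ᶜ := fun i hi hi' =>
    Finset.disjoint_left.1 hαα' (by simpa using hi) (by simpa using hi')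
  have A'A : (A' : Set (Fin n)) ⊆ (A : Set (Fin n))ᶜ := fun i hi hi' =>
    Finset.disjoint_left.1 hαα' (by simpa using hi') (by simpa using hi)
  have AB : (A : Set (Fin n)) ⊆ (B : Set (Fin n))ᶜ := fun i hi hi' => by
    rw [hB] at hi'
    simp only [Finset.coe_compl, Set.mem_compl_iff, Finset.mem_coe, Finset.mem_union] at hi' hi
    exact hi' (Or.inl hi)
  have A'B : (A' : Set (Fin n)) ⊆ (B : Set (Fin n))ᶜ := fun i hi hi' => by
    rw [hB] at hi'
    simp only [Finset.coe_compl, Set.mem_compl_iff, Finset.mem_coe, Finset.mem_union] at hi' hi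
    exact hi' (Or.inr hi)
  have dA'B : Disjoint A' B := by
    rw [Finset.disjoint_left]
    intro i hi hi'
    exact A'B (Finset.mem_coe.2 hi) (Finset.mem_coe.2 hi')
  have dAB : Disjoint A B := by
    rw [Finset.disjoint_left]
    intro i hi hi'
    exact AB (Finset.mem_coe.2 hi) (Finset.mem_coe.2 hi')
  have uA : A' ∪ B = Aᶜ := by
    ext i
    rw [hB]
    simp only [Finset.mem_union, Finset.mem_compl]
    constructor
    · rintro (h | h)
      · exact fun h' => Finset.disjoint_left.1 hαα' h' h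
      · tauto
    · intro h
      by_cases h' : i ∈ A'
      · exact Or.inl h'
      · right; tauto
  have uA' : B ∪ A = A'ᶜ := by
    ext i
    rw [hB]
    simp only [Finset.mem_union, Finset.mem_compl]
    constructor
    · rintro (h | h)
      · tauto
      · exact fun h' => Finset.disjoint_left.1 hαα' h h'
    · intro h
      by_cases h' : i ∈ A
      · exact Or.inr h'
      · left; tauto
  have mA : ∀ j, j ∈ I₀ → α j ∈ A := fun j hj => Finset.mem_image_of_mem _ hj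
  have mA' : ∀ j, j ∈ I₀ → α' j ∈ A' := fun j hj => Finset.mem_image_of_mem _ hj
  have mAi : ∀ a, a ∈ A ↔ α⁻¹ a ∈ I₀ := by
    intro a
    constructor
    · intro h
      obtain ⟨j, hj, rfl⟩ := Finset.mem_image.1 h
      simpa using hj
    · intro h
      have := mA _ h
      simpa using this
  have mAi' : ∀ a, a ∈ A' ↔ α'⁻¹ a ∈ I₀ := by
    intro a
    constructor
    · intro h
      obtain ⟨j, hj, rfl⟩ := Finset.mem_image.1 h
      simpa using hj
    · intro h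
      have := mA' _ h
      simpa using this
  set φ₂ : AF n := φ * Mm A 1 w with hφ₂
  set φ₂' : AF n := φ * Mm A' 1 w' with hφ₂'
  set η : AF n := φ₂ * Mm Aᶜ 1 v with hηd
  set η' : AF n := φ₂' * Mm A'ᶜ 1 v' with hηd'
  -- values of `η`
  have vη : ∀ c, π (η (FreeGroup.of c)) = π (FreeGroup.of (α⁻¹ c)) := by
    intro c
    have h := hη (FreeGroup.of (α⁻¹ c))
    rw [MulAut.mul_apply, pm_of] at h
    simpa using h
  have vη' : ∀ c, π (η' (FreeGroup.of c)) = π (FreeGroup.of (α'⁻¹ c)) := by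
    intro c
    have h := hη' (FreeGroup.of (α'⁻¹ c))
    rw [MulAut.mul_apply, pm_of] at h
    simpa using h
  have vη1 : ∀ c, c ∉ A → π (η (FreeGroup.of c)) = 1 := by
    intro c hc
    rw [vη, hD.light]
    rwa [← mAi]
  have vη1' : ∀ c, c ∉ A' → π (η' (FreeGroup.of c)) = 1 := by
    intro c hc
    rw [vη', hD.light]
    rwa [← mAi']
  -- `η = φ₂` on words in `A`
  have F3 : ∀ x ∈ Sy (A : Set (Fin n)), η x = φ₂ x := by
    intro x hx
    rw [hηd, MulAut.mul_apply, Mm_fix (Ok.one _) hv (by simpa using hx)]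
  have F3' : ∀ x ∈ Sy (A' : Set (Fin n)), η' x = φ₂' x := by
    intro x hx
    rw [hηd', MulAut.mul_apply, Mm_fix (Ok.one _) hv' (by simpa using hx)]
  have F2 : ∀ a, a ∈ A → π (φ (FreeGroup.of a)) * π (φ (w a)) = π (FreeGroup.of (α⁻¹ a)) := by
    intro a ha
    rw [← vη, F3 _ (of_mem_Sy (Finset.mem_coe.2 ha)), hφ₂, MulAut.mul_apply, m_of hw, map_mul,
      map_mul]
  have F2' : ∀ a, a ∈ A' → π (φ (FreeGroup.of a)) * π (φ (w' a)) =
      π (FreeGroup.of (α'⁻¹ a)) := by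
    intro a ha
    rw [← vη', F3' _ (of_mem_Sy (Finset.mem_coe.2 ha)), hφ₂', MulAut.mul_apply, m_of hw', map_mul,
      map_mul]
  have F1 : ∀ c, c ∉ A → π (φ₂ (v c)) = (π (φ (FreeGroup.of c)))⁻¹ := by
    intro c hc
    have h := vη1 c hc
    rw [hηd, MulAut.mul_apply, m_of hv, map_mul, map_mul] at h
    have h2 : φ₂ (FreeGroup.of c) = φ (FreeGroup.of c) := by
      rw [hφ₂, MulAut.mul_apply, Mm_of_not (Ok.one _) hw hc]
    rw [h2] at h
    exact eq_inv_of_mul_eq_one_right h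
  have F1' : ∀ c, c ∉ A' → π (φ₂' (v' c)) = (π (φ (FreeGroup.of c)))⁻¹ := by
    intro c hc
    have h := vη1' c hc
    rw [hηd', MulAut.mul_apply, m_of hv', map_mul, map_mul] at h
    have h2 : φ₂' (FreeGroup.of c) = φ (FreeGroup.of c) := by
      rw [hφ₂', MulAut.mul_apply, Mm_of_not (Ok.one _) hw' hc]
    rw [h2] at h
    exact eq_inv_of_mul_eq_one_right h
  -- the words `z`, `z'`
  set z : Fin n → FreeGroup (Fin n) := rs A' (fun c => FreeGroup.of (α (α'⁻¹ c))) with hz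
  set z' : Fin n → FreeGroup (Fin n) := rs A (fun c => (FreeGroup.of (α' (α⁻¹ c)))⁻¹) with hz'
  have zmem : ∀ i, z i ∈ Sy (A : Set (Fin n)) := by
    intro i
    by_cases h : i ∈ A'
    · rw [hz, rs_pos h]
      exact of_mem_Sy (Finset.mem_coe.2 (mA _ ((mAi' i).1 h)))
    · rw [hz, rs_neg h]
      exact one_mem _
  have z'mem : ∀ i, z' i ∈ Sy (A' : Set (Fin n)) := by
    intro i
    by_cases h : i ∈ A
    · rw [hz', rs_pos h]
      exact inv_mem (of_mem_Sy (Finset.mem_coe.2 (mA' _ ((mAi i).1 h))))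
    · rw [hz', rs_neg h]
      exact one_mem _
  have okz : Ok A' z := ⟨fun i => Sy_mono AA' (zmem i), fun i hi => rs_neg hi⟩
  have okz' : Ok A z' := ⟨fun i => Sy_mono A'A (z'mem i), fun i hi => rs_neg hi⟩
  have okvA' : Ok A' (rs A' v) := rs_ok hvA AA'
  have okvB : Ok B (rs B v) := rs_ok hvA AB
  have okv'B : Ok B (rs B v') := rs_ok hvA' A'B
  have okv'A : Ok A (rs A v') := rs_ok hvA' A'A
  -- (a)
  have ea : η * Mm A' 1 z = φ₂ * Mm A' 1 (rs A' v * z) * Mm B 1 (rs B v) := by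
    rw [hηd, m_split dA'B uA hv hvA AA' AB, ← m_mul okvA' okz]
    have hc : Mm B 1 (rs B v) * Mm A' 1 z = Mm A' 1 z * Mm B 1 (rs B v) :=
      (m_comm dA'B okz okvB (fun i => Sy_mono AB (zmem i))
        (fun i => Sy_mono AA' (rs_mem hvA i))).symm
    have key : ∀ a b c d : AF n, a * (b * c) * d = a * b * (c * d) := fun a b c d => by group
    rw [key, hc]
    group
  -- (b)
  have eb : Sim K (φ₂ * Mm A' 1 (rs A' v * z)) (φ₂ * Mm A' 1 w') := by
    refine sim_m hK φ₂ (okvA'.mul okz) hw' (fun i => ?_)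
    by_cases h : i ∈ A'
    · have hA0 : i ∉ A := fun h' => Finset.disjoint_left.1 hαα' h' h
      have h1 : φ₂ (w' i) = φ (w' i) := by
        rw [hφ₂, MulAut.mul_apply, Mm_fix (Ok.one _) hw (Sy_mono IA (hwI' i))]
      rw [Pi.mul_apply, rs_pos h, map_mul, map_mul, F1 i hA0, h1, hz, rs_pos h,
        ← F3 _ (of_mem_Sy (Finset.mem_coe.2 (mA _ ((mAi' i).1 h)))), vη, inv_mul_eq_iff_eq_mul,
        F2' i h]
      simp
    · rw [Pi.mul_apply, rs_neg h, hz, rs_neg h, hw'.2 i h, one_mul]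
  -- (c)
  have ec : Mm A 1 w * Mm A' 1 w' = Mm A' 1 w' * Mm A 1 w :=
    m_comm hαα' hw hw' (fun i => Sy_mono IA' (hwI i)) (fun i => Sy_mono IA (hwI' i))
  set φ₃ : AF n := φ * Mm A' 1 w' * Mm A 1 w with hφ₃
  have ec' : φ₂ * Mm A' 1 w' = φ₃ := by
    rw [hφ₂, hφ₃, mul_assoc, ec, mul_assoc]
  -- (d)
  have vA : ∀ x ∈ Sy (A : Set (Fin n)), π (φ₃ x) = π (η x) := by
    intro x hx
    refine hom_eq_on_Sy (π.comp φ₃.toMonoidHom) (π.comp η.toMonoidHom) (fun a ha => ?_) hx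
    have ha' : a ∈ A := Finset.mem_coe.1 ha
    change π (φ₃ (FreeGroup.of a)) = π (η (FreeGroup.of a))
    rw [vη, ← F2 a ha', hφ₃, MulAut.mul_apply, MulAut.mul_apply, m_of hw, map_mul,
      Mm_fix (Ok.one _) hw' (Sy_mono IA' (hwI a)),
      Mm_of_not (Ok.one _) hw' (fun h => Finset.disjoint_left.1 hαα' ha' h), map_mul, map_mul]
  have vA' : ∀ x ∈ Sy (A' : Set (Fin n)), φ₃ x = φ₂' x := by
    intro x hx
    rw [hφ₃, MulAut.mul_apply, Mm_fix (Ok.one _) hw (Sy_mono A'A hx), hφ₂']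
  have ed : Sim K (φ₃ * Mm B 1 (rs B v)) (φ₃ * Mm B 1 (rs B v')) := by
    refine sim_m hK φ₃ okvB okv'B (fun i => ?_)
    by_cases h : i ∈ B
    · have hBi : i ∉ A ∧ i ∉ A' := by
        rw [hB, Finset.mem_compl, Finset.mem_union, not_or] at h
        exact h
      rw [rs_pos h, rs_pos h, vA _ (hvA i), F3 _ (hvA i), F1 i hBi.1, vA' _ (hvA' i),
        F1' i hBi.2]
    · rw [rs_neg h, rs_neg h]
  -- (e)
  set σ : AF n := (Mm B 1 (rs B v'))⁻¹ with hσ
  have hσ' : σ = Mm B 1 (rs B v')⁻¹ := by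
    rw [hσ, Mm_inv (Ok.one _) okv'B, inv_one]
  have σ1 : ∀ i ∈ A, σ (FreeGroup.of i) = FreeGroup.of i := by
    intro i hi
    rw [hσ', Mm_of_not (Ok.one _) okv'B.inv (fun h => Finset.disjoint_left.1 dAB hi h)]
  have σ2 : ∀ i, i ∉ A → σ (FreeGroup.of i) ∈ Sy ((A : Set (Fin n))ᶜ) := by
    intro i hi
    rw [hσ', m_of okv'B.inv]
    refine mul_mem (of_mem_Sy (by simpa using hi)) ?_
    rw [Pi.inv_apply]
    exact inv_mem (Sy_mono A'A (rs_mem hvA' i))
  set ws : Fin n → FreeGroup (Fin n) := fun i => σ (w i) with hws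
  have okws : Ok A ws := Ok_conj hw σ σ2
  have ee : Mm A 1 w * Mm B 1 (rs B v') = Mm B 1 (rs B v') * Mm A 1 ws := by
    have h := Mm_conj (Ok.one A) hw σ σ1 σ2
    have h1 : (fun i => σ ((1 : Fin n → FreeGroup (Fin n)) i)) = 1 := by
      funext i
      rw [Pi.one_apply, map_one]
    rw [h1] at h
    rw [hws, ← h, hσ]
    group
  set φ₄ : AF n := φ * Mm A' 1 w' * Mm B 1 (rs B v') with hφ₄
  have ee' : φ₃ * Mm B 1 (rs B v') = φ₄ * Mm A 1 ws := by
    rw [hφ₃, hφ₄, mul_assoc, ee]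
    group
  -- (f)
  have s1 : Sim K (η * Mm A' 1 z) (φ₄ * Mm A 1 ws) := by
    rw [ea, ← ee']
    refine (eb.mul _).trans ?_
    rw [ec']
    exact ed
  have s2 : Sim K (η * Mm A' 1 z * Mm A 1 z') (φ₄ * Mm A 1 (ws * z')) := by
    have := s1.mul (Mm A 1 z')
    rwa [mul_assoc φ₄, m_mul okws okz'] at this
  have v4 : ∀ i, i ∈ A → φ₄ (FreeGroup.of i) = φ (FreeGroup.of i) := by
    intro i hi
    rw [hφ₄, MulAut.mul_apply, Mm_of_not (Ok.one _) okv'B
      (fun h => Finset.disjoint_left.1 dAB hi h), MulAut.mul_apply,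
      Mm_of_not (Ok.one _) hw' (fun h => Finset.disjoint_left.1 hαα' hi h)]
  have s3 : Sim K (φ₄ * Mm A 1 (ws * z')) (φ₄ * Mm A 1 (rs A v')) := by
    refine sim_m hK φ₄ (okws.mul okz') okv'A (fun i => ?_)
    by_cases h : i ∈ A
    · have hA0 : i ∉ A' := fun h' => Finset.disjoint_left.1 hαα' h h'
      have hj := (mAi i).1 h
      have e1 : z' i = (FreeGroup.of (α' (α⁻¹ i)))⁻¹ := by
        rw [hz', rs_pos h]
      have e2 : z (α' (α⁻¹ i)) = FreeGroup.of i := by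
        rw [hz, rs_pos (mA' _ hj)]
        simp
      have e3 : (η * Mm A' 1 z * Mm A 1 z' : AF n) (FreeGroup.of i) =
          η ((FreeGroup.of (α' (α⁻¹ i)))⁻¹) := by
        have e4 : Mm A' 1 z (Mm A 1 z' (FreeGroup.of i)) = (FreeGroup.of (α' (α⁻¹ i)))⁻¹ := by
          rw [m_of okz', e1, map_mul, map_inv, Mm_of_not (Ok.one _) okz hA0, m_of okz, e2,
            mul_inv_rev, mul_inv_cancel_left]
        rw [← e4]
        rfl
      have e5 : (φ₄ * Mm A 1 (ws * z') : AF n) (FreeGroup.of i) =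
          φ₄ (FreeGroup.of i) * φ₄ ((ws * z') i) := by
        rw [← map_mul, ← m_of (okws.mul okz')]
        rfl
      have h1 := sim_val hK s2 (FreeGroup.of i)
      rw [e3, e5, map_mul, map_inv, map_inv,
        vη1 _ (fun h' => Finset.disjoint_left.1 hαα' h' (mA' _ hj)), inv_one] at h1
      have h3 : φ₄ (v' i) = φ₂' (v' i) := by
        rw [hφ₄, MulAut.mul_apply, Mm_fix (Ok.one _) okv'B (Sy_mono A'B (hvA' i)), hφ₂']
      rw [rs_pos h, h3, F1' i hA0, ← v4 i h]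
      exact eq_inv_of_mul_eq_one_right h1
    · rw [rs_neg h, (okws.mul okz').2 i h]
  have s4 : φ₄ * Mm A 1 (rs A v') = η' := by
    rw [hηd', m_split (dAB.symm) uA' hv' hvA' A'B A'A, hφ₄, hφ₂', mul_assoc]
  have sg : Sim K (η * Mm A' 1 z * Mm A 1 z') η' := by
    rw [← s4]
    exact s2.trans s3
  -- the signed permutation
  set ρ : AF n := Mm A z' 1 with hρ
  set s : AF n := ρ⁻¹ * (Mm A' 1 z * Mm A 1 z') with hs
  have hρi : ρ⁻¹ = Mm A z'⁻¹ 1 := by
    rw [hρ, Mm_inv okz' (Ok.one _), inv_one]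
  have sρ : Sim K η (η * ρ) := by
    have h := sim_Mm hK η (Ok.one A) (Ok.one A) okz' (Ok.one A) (fun i => ?_) (fun i => rfl)
    · rw [Mm_one, mul_one] at h
      exact h
    · rw [Pi.one_apply, map_one, map_one]
      by_cases h : i ∈ A
      · rw [hz', rs_pos h, map_inv, map_inv,
          vη1 _ (fun h' => Finset.disjoint_left.1 hαα' h' (mA' _ ((mAi i).1 h))), inv_one]
      · rw [hz', rs_neg h, map_one, map_one]
  have ss : Sim K (η * s) η' := by
    have h := sρ.mul s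
    have h1 : η * ρ * s = η * Mm A' 1 z * Mm A 1 z' := by
      rw [hs]
      group
    rw [h1] at h
    exact h.trans sg
  -- values of `s`
  have ρfix : ∀ x ∈ Sy ((A : Set (Fin n))ᶜ), ρ⁻¹ x = x := by
    intro x hx
    rw [hρi, Mm_fix okz'.inv (Ok.one _) hx]
  have sA : ∀ j, j ∈ I₀ → s (FreeGroup.of (α j)) = (FreeGroup.of (α' j))⁻¹ := by
    intro j hj
    have hA0 : α j ∉ A' := fun h' => Finset.disjoint_left.1 hαα' (mA j hj) h'
    have e1 : z' (α j) = (FreeGroup.of (α' j))⁻¹ := by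
      rw [hz', rs_pos (mA j hj)]
      simp
    have e2 : z (α' j) = FreeGroup.of (α j) := by
      rw [hz, rs_pos (mA' j hj)]
      simp
    rw [hs, MulAut.mul_apply, MulAut.mul_apply, m_of okz', e1, map_mul, map_inv,
      Mm_of_not (Ok.one _) okz hA0, m_of okz, e2, mul_inv_rev, mul_inv_cancel_left]
    exact ρfix _ (inv_mem (of_mem_Sy (A'A (Finset.mem_coe.2 (mA' j hj)))))
  have sA' : ∀ j, j ∈ I₀ → s (FreeGroup.of (α' j)) = FreeGroup.of (α j) := by
    intro j hj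
    have hA0 : α' j ∉ A := fun h' => Finset.disjoint_left.1 hαα' h' (mA' j hj)
    have e1 : z' (α j) = (FreeGroup.of (α' j))⁻¹ := by
      rw [hz', rs_pos (mA j hj)]
      simp
    have e2 : z (α' j) = FreeGroup.of (α j) := by
      rw [hz, rs_pos (mA' j hj)]
      simp
    rw [hs, MulAut.mul_apply, MulAut.mul_apply, Mm_of_not (Ok.one _) okz' hA0, m_of okz, e2,
      map_mul, ρfix _ (of_mem_Sy (A'A (Finset.mem_coe.2 (mA' j hj)))), hρi,
      Mm_of okz'.inv (Ok.one _), Pi.inv_apply, e1, Pi.one_apply, inv_inv, mul_one,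
      mul_inv_cancel_left]
  have sB : ∀ c, c ∉ A → c ∉ A' → s (FreeGroup.of c) = FreeGroup.of c := by
    intro c h1 h2
    rw [hs, MulAut.mul_apply, MulAut.mul_apply, Mm_of_not (Ok.one _) okz' h1,
      Mm_of_not (Ok.one _) okz h2]
    exact ρfix _ (of_mem_Sy (by simpa using h1))
  have hsg : IsSg s := by
    intro c
    by_cases h1 : c ∈ A
    · have := sA _ ((mAi c).1 h1)
      refine ⟨α' (α⁻¹ c), Or.inr ?_⟩
      simpa using this
    · by_cases h2 : c ∈ A'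
      · have := sA' _ ((mAi' c).1 h2)
        refine ⟨α (α'⁻¹ c), Or.inl ?_⟩
        simpa using this
      · exact ⟨c, Or.inl (sB c h1 h2)⟩
  set τ : AF n := (pm α)⁻¹ * s * pm α' with hτ
  have hτsg : IsSg τ := ((isSg_pm α).inv.mul hsg).mul (isSg_pm α')
  have hτ1 : ∀ j ∈ I₀, τ (FreeGroup.of j) = FreeGroup.of j := by
    intro j hj
    rw [hτ, MulAut.mul_apply, MulAut.mul_apply, pm_of, sA' j hj, ← pm_of α j,
      MulAut.inv_apply_self]
  refine ⟨η', q * τ, ⟨w', v', hw', hv', rfl⟩, QQ_mul_sg hq hτsg hτ1, ?_⟩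
  have h1 := hqη.mul τ
  have h2 : η * pm α * τ = η * s * pm α' := by
    rw [hτ]
    group
  rw [h2] at h1
  exact h1.trans (ss.mul _)

end STAB
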