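import Mathlib
import Pool.Agent.Helper40.STAB.Defs

/-!
# STAB-22 Comm: operators commuting with many sign changes

PROOF. `comm_a`: `v = g (0, e_l)`, `v = (u, x)`. For `b ∉ E`, `b ≠ l`: `ρ (ep l * ep b) v = g (ρ (ep l * ep b) (0, e_l)) = -v`, so (formula `hC.ep2`) `u = -u` and `x t = - x t` for `t ≠ l, b`. There are
two different `b` (`E.card + 3 ≤ card Z`), so `u = 0`, `x t = 0` for `t ≠ l`. `comm_b`: `w = (u, x)`, `x = 0` outside `E`, is fixed by `ρ (ep a * ep b)` for `a ≠ b` outside `E`, so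
`g w` is fixed and its coordinates outside `E` vanish (for `l ∉ E` choose `b ∉ E`, `b ≠ l`).
-/

set_option autoImplicit false

namespace STAB

variable {Z Γ K : Type} [Fintype Z] [DecidableEq Z] [Group Γ] [Field K] [CharZero K] {q : ℕ}
  {S : Sys Z Γ} {ρ : Γ →* Module.End K ((Fin q → K) × (Z → K))}

omit [DecidableEq Z] in
private theorem exists_out (T : Finset Z) (h : T.card < Fintype.card Z) : ∃ b, b ∉ T := by
  by_contra hc
  push Not at hc
  have h1 : T = Finset.univ := Finset.eq_univ_of_forall hc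
  rw [h1, Finset.card_univ] at h
  exact lt_irrefl _ h

private theorem exists_b {E : Finset Z} (hE : E.card + 3 ≤ Fintype.card Z) (l t : Z) :
    ∃ b, b ∉ E ∧ b ≠ l ∧ b ≠ t := by
  obtain ⟨b, hb⟩ := exists_out (insert l (insert t E)) (by
    have h1 := Finset.card_insert_le l (insert t E)
    have h2 := Finset.card_insert_le t E
    omega)
  simp only [Finset.mem_insert, not_or] at hb
  exact ⟨b, hb.2.2, hb.1, hb.2.1⟩

theorem comm_a (hC : Coord S ρ) {E : Finset Z} (hE : E.card + 3 ≤ Fintype.card Z)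
    {g : Module.End K ((Fin q → K) × (Z → K))}
    (hg : ∀ a b, a ∉ E → b ∉ E → a ≠ b → g * ρ (S.ep a * S.ep b) = ρ (S.ep a * S.ep b) * g)
    {l : Z} (hl : l ∉ E) : ∃ κ : K, g (0, Pi.single l 1) = (0, Pi.single l κ) := by
  obtain ⟨v, hv⟩ : ∃ v, v = g (0, Pi.single l 1) := ⟨_, rfl⟩
  have key : ∀ b, b ∉ E → b ≠ l → ρ (S.ep l * S.ep b) v = -v := by
    intro b hb hbl
    have h1 := LinearMap.congr_fun (hg l b hl hb hbl.symm) (0, Pi.single l 1)
    rw [Module.End.mul_apply, Module.End.mul_apply, ← hv, hC.ep2 l b hbl.symm] at h1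
    have h2 : ((0 : Fin q → K), fun t => if t = l ∨ t = b then -(Pi.single l (1 : K) : Z → K) t
        else (Pi.single l (1 : K) : Z → K) t) = -((0 : Fin q → K), (Pi.single l (1 : K) : Z → K)) := by
      refine Prod.ext (neg_zero).symm ?_
      funext t
      change (if t = l ∨ t = b then -(Pi.single l (1 : K) : Z → K) t else
        (Pi.single l (1 : K) : Z → K) t) = -((Pi.single l (1 : K) : Z → K) t)
      by_cases htl : t = l
      · rw [if_pos (Or.inl htl)]
      · by_cases htb : t = b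
        · rw [if_pos (Or.inr htb)]
        · rw [if_neg (by simp [htl, htb]), Pi.single_eq_of_ne htl, neg_zero]
    rw [h2, map_neg, ← hv] at h1
    exact h1.symm
  have key2 : ∀ b, b ∉ E → b ≠ l → v.1 = -v.1 ∧
      ∀ t, t ≠ l → t ≠ b → v.2 t = -v.2 t := by
    intro b hb hbl
    have h1 := key b hb hbl
    rw [show v = (v.1, v.2) from rfl, hC.ep2 l b hbl.symm] at h1
    have h2 := congrArg Prod.fst h1
    have h3 := congrArg Prod.snd h1
    refine ⟨h2, fun t htl htb => ?_⟩
    have h4 := congrFun h3 t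
    change (if t = l ∨ t = b then -v.2 t else v.2 t) = -(v.2 t) at h4
    rw [if_neg (by simp [htl, htb])] at h4
    exact h4
  refine ⟨v.2 l, ?_⟩
  rw [← hv]
  refine Prod.ext ?_ ?_
  · obtain ⟨b, hb, hbl, _⟩ := exists_b hE l l
    have h1 := (key2 b hb hbl).1
    funext i
    exact self_eq_neg.1 (congrFun h1 i)
  · funext t
    change v.2 t = (Pi.single l (v.2 l) : Z → K) t
    by_cases htl : t = l
    · subst htl
      rw [Pi.single_eq_same]
    · rw [Pi.single_eq_of_ne htl]
      obtain ⟨b, hb, hbl, hbt⟩ := exists_b hE l t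
      exact self_eq_neg.1 ((key2 b hb hbl).2 t htl hbt.symm)

theorem comm_b (hC : Coord S ρ) {E : Finset Z} (hE : E.card + 3 ≤ Fintype.card Z)
    {g : Module.End K ((Fin q → K) × (Z → K))}
    (hg : ∀ a b, a ∉ E → b ∉ E → a ≠ b → g * ρ (S.ep a * S.ep b) = ρ (S.ep a * S.ep b) * g)
    (u : Fin q → K) (x : Z → K) (hx : ∀ l, l ∉ E → x l = 0) {l : Z} (hl : l ∉ E) :
    (g (u, x)).2 l = 0 := by
  obtain ⟨b, hb, hbl, _⟩ := exists_b hE l l
  have h1 := LinearMap.congr_fun (hg l b hl hb hbl.symm) (u, x)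
  rw [Module.End.mul_apply, Module.End.mul_apply, hC.ep2 l b hbl.symm] at h1
  have h2 : (fun t => if t = l ∨ t = b then -x t else x t) = x := by
    funext t
    split_ifs with h
    · rcases h with h | h
      · rw [h, hx l hl, neg_zero]
      · rw [h, hx b hb, neg_zero]
    · rfl
  rw [h2] at h1
  obtain ⟨v, hv⟩ : ∃ v, v = g (u, x) := ⟨_, rfl⟩
  rw [← hv] at h1 ⊢
  rw [show v = (v.1, v.2) from rfl, hC.ep2 l b hbl.symm] at h1
  have h4 := congrFun (congrArg Prod.snd h1) l
  change v.2 l = (if l = l ∨ l = b then -v.2 l else v.2 l) at h4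
  rw [if_pos (Or.inl rfl)] at h4
  exact self_eq_neg.1 h4

end STAB
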