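import Mathlib
import Pool.Agent.Helper40.STAB.Defs
import Pool.Agent.Helper40.STAB.Comm

/-!
# STAB-23 ShapeR: the shape of `ρ (R i j)`

PROOF. For `i ≠ j`, `g = ρ (R i j)` commutes with `ρ (ep a * ep b)` for `a, b ∉ {i, j}` (`S.ep_R`). `comm_a`, `comm_b` with `E = {i, j}`:
`g (0, e_l) = (0, κ e_l)` for `l ≠ i, j` and `g (u, x) = (P u + x i p + x j b, y)`, `y i = a u + α x i + β x j`, `y j = c u + γ x i + δ x j`, `y l = κ_l x l` with coefficients depending on
`(i, j)` (`(u, x) = (u, x i e_i + x j e_j) + ∑ over l ≠ i, j`). For `σ` even, `sg_R` and `hC.even`: the coefficients for `(σ i, σ j)` (and `σ l`) are those for `(i, j)` (and `l`).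
For two triples of different letters there is an even `σ` mapping one to the other (`k ≥ 5`: any permutation with these values, times a swap
of two other letters if it is odd). So the coefficients are constants, `κ` too. `κ ≠ 0` (`g` invertible) and `tri` applied to `e_s`, `s` different from
`i, j, l`: `κ κ = κ κ κ`, so `κ = 1`.
-/

set_option autoImplicit false

namespace STAB

variable {Z Γ K : Type} [Fintype Z] [DecidableEq Z] [Group Γ] [Field K] [CharZero K] {q : ℕ}
  {S : Sys Z Γ} {ρ : Γ →* Module.End K ((Fin q → K) × (Z → K))}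

omit [DecidableEq Z] in
private theorem sr_out (T : Finset Z) (h : T.card < Fintype.card Z) : ∃ b, b ∉ T := by
  by_contra hc
  push Not at hc
  have h1 : T = Finset.univ := Finset.eq_univ_of_forall hc
  rw [h1, Finset.card_univ] at h
  exact lt_irrefl _ h

/-- even permutations are transitive on triples -/
private theorem sr_trans (hk : 8 ≤ Fintype.card Z) {i j l i' j' l' : Z} (hij : i ≠ j) (hil : i ≠ l)
    (hjl : j ≠ l) (hij' : i' ≠ j') (hil' : i' ≠ l') (hjl' : j' ≠ l') :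
    ∃ σ : Equiv.Perm Z, Equiv.Perm.sign σ = 1 ∧ σ i = i' ∧ σ j = j' ∧ σ l = l' := by
  have h0 : ∃ σ : Equiv.Perm Z, σ i = i' ∧ σ j = j' ∧ σ l = l' := by
    obtain ⟨s1, hs1⟩ : ∃ s1, s1 = Equiv.swap i i' := ⟨_, rfl⟩
    have h1 : s1 i = i' := by rw [hs1, Equiv.swap_apply_left]
    obtain ⟨s2, hs2⟩ : ∃ s2, s2 = Equiv.swap (s1 j) j' := ⟨_, rfl⟩
    have h2 : s1 j ≠ i' := fun h => hij (s1.injective (h1.trans h.symm))
    have h3 : s2 i' = i' := by
      rw [hs2]
      exact Equiv.swap_apply_of_ne_of_ne h2.symm hij'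
    have h4 : s2 (s1 j) = j' := by rw [hs2, Equiv.swap_apply_left]
    obtain ⟨s3, hs3⟩ : ∃ s3, s3 = Equiv.swap (s2 (s1 l)) l' := ⟨_, rfl⟩
    have h5 : s2 (s1 l) ≠ i' := by
      intro h
      have h6 : s1 l = i' := s2.injective (h.trans h3.symm)
      exact hil (s1.injective (h1.trans h6.symm))
    have h6 : s2 (s1 l) ≠ j' := by
      intro h
      exact hjl (s1.injective (s2.injective (h4.trans h.symm)))
    refine ⟨s3 * s2 * s1, ?_, ?_, ?_⟩
    · rw [Equiv.Perm.mul_apply, Equiv.Perm.mul_apply, h1, h3, hs3]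
      exact Equiv.swap_apply_of_ne_of_ne h5.symm hil'
    · rw [Equiv.Perm.mul_apply, Equiv.Perm.mul_apply, h4, hs3]
      exact Equiv.swap_apply_of_ne_of_ne h6.symm hjl'
    · rw [Equiv.Perm.mul_apply, Equiv.Perm.mul_apply, hs3, Equiv.swap_apply_left]
  obtain ⟨σ, h1, h2, h3⟩ := h0
  rcases Int.units_eq_one_or (Equiv.Perm.sign σ) with hs | hs
  · exact ⟨σ, hs, h1, h2, h3⟩
  · obtain ⟨c, hc⟩ := sr_out ({i', j', l'} : Finset Z) (by
      have := Finset.card_le_three (a := i') (b := j') (c := l')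
      omega)
    obtain ⟨d, hd⟩ := sr_out (insert c ({i', j', l'} : Finset Z)) (by
      have h4 := Finset.card_le_three (a := i') (b := j') (c := l')
      have h5 := Finset.card_insert_le c ({i', j', l'} : Finset Z)
      omega)
    simp only [Finset.mem_insert, Finset.mem_singleton, not_or] at hc hd
    refine ⟨Equiv.swap c d * σ, ?_, ?_, ?_, ?_⟩
    · rw [Equiv.Perm.sign_mul, Equiv.Perm.sign_swap (Ne.symm hd.1), hs]
      rfl
    · rw [Equiv.Perm.mul_apply, h1]
      exact Equiv.swap_apply_of_ne_of_ne (Ne.symm hc.1) (Ne.symm hd.2.1)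
    · rw [Equiv.Perm.mul_apply, h2]
      exact Equiv.swap_apply_of_ne_of_ne (Ne.symm hc.2.1) (Ne.symm hd.2.2.1)
    · rw [Equiv.Perm.mul_apply, h3]
      exact Equiv.swap_apply_of_ne_of_ne (Ne.symm hc.2.2) (Ne.symm hd.2.2.2)

private theorem sr_comm {i j : Z} (hij : i ≠ j) (a b : Z) (ha : a ∉ ({i, j} : Finset Z))
    (hb : b ∉ ({i, j} : Finset Z)) :
    ρ (S.R i j) * ρ (S.ep a * S.ep b) = ρ (S.ep a * S.ep b) * ρ (S.R i j) := by
  simp only [Finset.mem_insert, Finset.mem_singleton, not_or] at ha hb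
  rw [← map_mul, ← map_mul]
  congr 1
  rw [← mul_assoc, ← S.ep_R a i j ha.1 ha.2 hij, mul_assoc, ← S.ep_R b i j hb.1 hb.2 hij,
    ← mul_assoc]

private theorem sr_conj (σ : Equiv.Perm Z) {i j : Z} (hij : i ≠ j)
    (v : (Fin q → K) × (Z → K)) :
    ρ (S.R (σ i) (σ j)) (ρ (S.sg σ) v) = ρ (S.sg σ) (ρ (S.R i j) v) := by
  rw [← Module.End.mul_apply, ← Module.End.mul_apply, ← map_mul, ← map_mul,
    ← S.sg_R σ i j hij, inv_mul_cancel_right]

private theorem sr_sg0 (hC : Coord S ρ) {σ : Equiv.Perm Z} (hσ : Equiv.Perm.sign σ = 1)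
    (u : Fin q → K) : ρ (S.sg σ) (u, 0) = (u, 0) := by
  rw [hC.even σ hσ]
  rfl

private theorem sr_sg1 (hC : Coord S ρ) {σ : Equiv.Perm Z} (hσ : Equiv.Perm.sign σ = 1)
    (l : Z) : ρ (S.sg σ) (0, Pi.single l 1) = (0, Pi.single (σ l) 1) := by
  rw [hC.even σ hσ]
  refine Prod.ext rfl ?_
  funext t
  change (Pi.single l (1 : K) : Z → K) (σ.symm t) = (Pi.single (σ l) (1 : K) : Z → K) t
  by_cases h : t = σ l
  · rw [h, Equiv.symm_apply_apply, Pi.single_eq_same, Pi.single_eq_same]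
  · rw [Pi.single_eq_of_ne h, Pi.single_eq_of_ne]
    intro h1
    apply h
    rw [← h1, Equiv.apply_symm_apply]

private theorem sr_snd (hC : Coord S ρ) {σ : Equiv.Perm Z} (hσ : Equiv.Perm.sign σ = 1)
    (v : (Fin q → K) × (Z → K)) (l : Z) : (ρ (S.sg σ) v).2 (σ l) = v.2 l ∧
      (ρ (S.sg σ) v).1 = v.1 := by
  rw [show v = (v.1, v.2) from rfl, hC.even σ hσ]
  refine ⟨?_, rfl⟩
  change v.2 (σ.symm (σ l)) = v.2 l
  rw [Equiv.symm_apply_apply]

theorem shape_R (hk : 8 ≤ Fintype.card Z) (hC : Coord S ρ) :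
    ∃ (P : (Fin q → K) →ₗ[K] (Fin q → K)) (a c : (Fin q → K) →ₗ[K] K) (p b : Fin q → K)
      (α β γ δ : K), ∀ i j, i ≠ j → ∀ (u : Fin q → K) (x : Z → K),
        ρ (S.R i j) (u, x) = (P u + x i • p + x j • b, fun l =>
          if l = i then a u + α * x i + β * x j
          else if l = j then c u + γ * x i + δ * x j else x l) := by
  classical
  have hcard2 : ∀ i j : Z, ({i, j} : Finset Z).card + 3 ≤ Fintype.card Z := by
    intro i j
    have := Finset.card_le_two (a := i) (b := j)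
    omega
  -- base letters
  obtain ⟨i₀, -⟩ := sr_out (∅ : Finset Z) (by rw [Finset.card_empty]; omega)
  obtain ⟨j₀, hj₀⟩ := sr_out ({i₀} : Finset Z) (by rw [Finset.card_singleton]; omega)
  obtain ⟨l₀, hl₀⟩ := sr_out ({i₀, j₀} : Finset Z) (by
    have := Finset.card_le_two (a := i₀) (b := j₀)
    omega)
  obtain ⟨s₀, hs₀⟩ := sr_out ({i₀, j₀, l₀} : Finset Z) (by
    have := Finset.card_le_three (a := i₀) (b := j₀) (c := l₀)
    omega)
  simp only [Finset.mem_insert, Finset.mem_singleton, not_or] at hj₀ hl₀ hs₀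
  have hij0 : i₀ ≠ j₀ := Ne.symm hj₀
  have hil0 : i₀ ≠ l₀ := Ne.symm hl₀.1
  have hjl0 : j₀ ≠ l₀ := Ne.symm hl₀.2
  -- the scalar for the other letters
  obtain ⟨κ, hκ⟩ := comm_a hC (hcard2 i₀ j₀)
    (g := ρ (S.R i₀ j₀)) (fun a b ha hb _ => sr_comm hij0 a b ha hb) (l := l₀)
    (by simp [hl₀.1, hl₀.2])
  have hκall : ∀ i j l, i ≠ j → i ≠ l → j ≠ l →
      ρ (S.R i j) (0, Pi.single l 1) = (0, Pi.single l κ) := by
    intro i j l hij hil hjl
    obtain ⟨σ, hσ, h1, h2, h3⟩ := sr_trans hk hij0 hil0 hjl0 hij hil hjl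
    have h4 := sr_conj (ρ := ρ) (S := S) σ hij0 (0, Pi.single l₀ 1)
    rw [sr_sg1 hC hσ, hκ, h1, h2, h3] at h4
    rw [h4]
    have h5 : ((0 : Fin q → K), (Pi.single l₀ κ : Z → K)) =
        κ • ((0 : Fin q → K), (Pi.single l₀ (1 : K) : Z → K)) := by
      refine Prod.ext (smul_zero κ).symm ?_
      change (Pi.single l₀ κ : Z → K) = κ • (Pi.single l₀ (1 : K) : Z → K)
      rw [← Pi.single_smul, smul_eq_mul, mul_one]
    rw [h5, map_smul, sr_sg1 hC hσ, h3]
    refine Prod.ext (smul_zero κ) ?_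
    change κ • (Pi.single l (1 : K) : Z → K) = (Pi.single l κ : Z → K)
    rw [← Pi.single_smul, smul_eq_mul, mul_one]
  have hκ' : ∀ i j l, i ≠ j → i ≠ l → j ≠ l → ∀ t : K,
      ρ (S.R i j) (0, Pi.single l t) = (0, Pi.single l (κ * t)) := by
    intro i j l hij hil hjl t
    have h5 : ((0 : Fin q → K), (Pi.single l t : Z → K)) =
        t • ((0 : Fin q → K), (Pi.single l (1 : K) : Z → K)) := by
      refine Prod.ext (smul_zero t).symm ?_
      change (Pi.single l t : Z → K) = t • (Pi.single l (1 : K) : Z → K)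
      rw [← Pi.single_smul, smul_eq_mul, mul_one]
    rw [h5, map_smul, hκall i j l hij hil hjl]
    refine Prod.ext (smul_zero t) ?_
    change t • (Pi.single l κ : Z → K) = (Pi.single l (κ * t) : Z → K)
    rw [← Pi.single_smul, smul_eq_mul, mul_comm]
  have hκ0 : κ ≠ 0 := by
    intro h0
    have h1 := hκall i₀ j₀ l₀ hij0 hil0 hjl0
    have h2 : ρ (S.R i₀ j₀)⁻¹ (ρ (S.R i₀ j₀) (0, Pi.single l₀ 1)) =
        ((0 : Fin q → K), (Pi.single l₀ (1 : K) : Z → K)) := by
      rw [← Module.End.mul_apply, ← map_mul, inv_mul_cancel, map_one, Module.End.one_apply]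
    rw [h1, h0, Pi.single_zero] at h2
    rw [show ((0 : Fin q → K), (0 : Z → K)) = 0 from rfl, map_zero] at h2
    have h3 := congrFun (congrArg Prod.snd h2) l₀
    change (0 : K) = (Pi.single l₀ (1 : K) : Z → K) l₀ at h3
    rw [Pi.single_eq_same] at h3
    exact zero_ne_one h3
  have hκ1 : κ = 1 := by
    have h1 := S.tri i₀ j₀ l₀ hij0 hil0 hjl0
    have h2 := congrArg (fun g => ρ g (0, Pi.single s₀ 1)) h1
    simp only [map_mul, Module.End.mul_apply] at h2
    rw [hκ' i₀ j₀ s₀ hij0 (Ne.symm hs₀.1) (Ne.symm hs₀.2.1),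
      hκ' j₀ l₀ s₀ hjl0 (Ne.symm hs₀.2.1) (Ne.symm hs₀.2.2),
      hκ' j₀ l₀ s₀ hjl0 (Ne.symm hs₀.2.1) (Ne.symm hs₀.2.2),
      hκ' i₀ l₀ s₀ hil0 (Ne.symm hs₀.1) (Ne.symm hs₀.2.2),
      hκ' i₀ j₀ s₀ hij0 (Ne.symm hs₀.1) (Ne.symm hs₀.2.1)] at h2
    have h3 := congrFun (congrArg Prod.snd h2) s₀
    change (Pi.single s₀ (κ * (κ * 1)) : Z → K) s₀ =
      (Pi.single s₀ (κ * (κ * (κ * 1))) : Z → K) s₀ at h3
    rw [Pi.single_eq_same, Pi.single_eq_same] at h3
    have h4 : κ * κ * (κ - 1) = 0 := by linear_combination -h3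
    rcases mul_eq_zero.1 h4 with h5 | h5
    · exact absurd h5 (mul_ne_zero hκ0 hκ0)
    · exact sub_eq_zero.1 h5
  -- the constants
  obtain ⟨g, hg⟩ : ∃ g, g = ρ (S.R i₀ j₀) := ⟨_, rfl⟩
  refine ⟨(LinearMap.fst K (Fin q → K) (Z → K)).comp (g.comp (LinearMap.inl K (Fin q → K) (Z → K))),
    (LinearMap.proj i₀ : (Z → K) →ₗ[K] K).comp ((LinearMap.snd K (Fin q → K) (Z → K)).comp
      (g.comp (LinearMap.inl K (Fin q → K) (Z → K)))),
    (LinearMap.proj j₀ : (Z → K) →ₗ[K] K).comp ((LinearMap.snd K (Fin q → K) (Z → K)).comp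
      (g.comp (LinearMap.inl K (Fin q → K) (Z → K)))),
    (g (0, Pi.single i₀ 1)).1, (g (0, Pi.single j₀ 1)).1,
    (g (0, Pi.single i₀ 1)).2 i₀, (g (0, Pi.single j₀ 1)).2 i₀,
    (g (0, Pi.single i₀ 1)).2 j₀, (g (0, Pi.single j₀ 1)).2 j₀, ?_⟩
  intro i j hij u x
  obtain ⟨l, hl⟩ := sr_out ({i, j} : Finset Z) (by
    have := Finset.card_le_two (a := i) (b := j)
    omega)
  simp only [Finset.mem_insert, Finset.mem_singleton, not_or] at hl
  obtain ⟨σ, hσ, h1, h2, -⟩ := sr_trans hk hij0 hil0 hjl0 hij (Ne.symm hl.1) (Ne.symm hl.2)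
  have hcj : ∀ v, ρ (S.R i j) (ρ (S.sg σ) v) = ρ (S.sg σ) (g v) := by
    intro v
    have h4 := sr_conj (ρ := ρ) (S := S) σ hij0 v
    rw [h1, h2] at h4
    rw [hg]
    exact h4
  -- values on the three parts
  have hout : ∀ (u' : Fin q → K) (y : Z → K), (∀ l, l ∉ ({i, j} : Finset Z) → y l = 0) →
      ∀ l, l ≠ i → l ≠ j → (ρ (S.R i j) (u', y)).2 l = 0 := by
    intro u' y hy l hli hlj
    exact comm_b hC (hcard2 i j) (g := ρ (S.R i j))
      (fun a b ha hb _ => sr_comm hij a b ha hb) u' y hy (by simp [hli, hlj])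
  have hA : ρ (S.R i j) (u, 0) = ((g (u, 0)).1, fun l =>
      if l = i then (g (u, 0)).2 i₀ else if l = j then (g (u, 0)).2 j₀ else 0) := by
    have h5 := hcj (u, 0)
    rw [sr_sg0 hC hσ] at h5
    refine Prod.ext ?_ ?_
    · rw [h5]
      exact (sr_snd hC hσ (g (u, 0)) i₀).2
    · funext l
      change (ρ (S.R i j) (u, 0)).2 l = if l = i then (g (u, 0)).2 i₀ else
        if l = j then (g (u, 0)).2 j₀ else 0
      by_cases hli : l = i
      · rw [if_pos hli, hli, h5, ← h1]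
        exact (sr_snd hC hσ (g (u, 0)) i₀).1
      · rw [if_neg hli]
        by_cases hlj : l = j
        · rw [if_pos hlj, hlj, h5, ← h2]
          exact (sr_snd hC hσ (g (u, 0)) j₀).1
        · rw [if_neg hlj]
          exact hout u 0 (fun _ _ => rfl) l hli hlj
  have hB : ∀ t₀ t : Z, σ t₀ = t → (t = i ∨ t = j) →
      ρ (S.R i j) (0, Pi.single t 1) = ((g (0, Pi.single t₀ 1)).1, fun l =>
      if l = i then (g (0, Pi.single t₀ 1)).2 i₀ else
        if l = j then (g (0, Pi.single t₀ 1)).2 j₀ else 0) := by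
    intro t₀ t ht hti
    have h5 := hcj (0, Pi.single t₀ 1)
    rw [sr_sg1 hC hσ, ht] at h5
    refine Prod.ext ?_ ?_
    · rw [h5]
      exact (sr_snd hC hσ (g (0, Pi.single t₀ 1)) i₀).2
    · funext l
      change (ρ (S.R i j) (0, Pi.single t 1)).2 l = if l = i then (g (0, Pi.single t₀ 1)).2 i₀ else
        if l = j then (g (0, Pi.single t₀ 1)).2 j₀ else 0
      by_cases hli : l = i
      · rw [if_pos hli, hli, h5, ← h1]
        exact (sr_snd hC hσ (g (0, Pi.single t₀ 1)) i₀).1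
      · rw [if_neg hli]
        by_cases hlj : l = j
        · rw [if_pos hlj, hlj, h5, ← h2]
          exact (sr_snd hC hσ (g (0, Pi.single t₀ 1)) j₀).1
        · rw [if_neg hlj]
          refine hout 0 (Pi.single t 1) (fun l' hl' => ?_) l hli hlj
          apply Pi.single_eq_of_ne
          rintro rfl
          rcases hti with h | h
          · exact hl' (by simp [h])
          · exact hl' (by simp [h])
  have hD : ∀ y : Z → K, y i = 0 → y j = 0 → ρ (S.R i j) (0, y) = (0, y) := by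
    intro y hyi hyj
    have h5 : ((0 : Fin q → K), y) = ∑ l, y l • ((0 : Fin q → K), (Pi.single l (1 : K) : Z → K)) := by
      refine Prod.ext ?_ ?_
      · rw [Prod.fst_sum]
        simp
      · rw [Prod.snd_sum]
        funext t
        rw [Finset.sum_apply, Finset.sum_eq_single t]
        · simp
        · intro b _ hb
          simp [Pi.single_eq_of_ne (Ne.symm hb)]
        · intro h
          exact absurd (Finset.mem_univ t) h
    rw [h5, map_sum]
    apply Finset.sum_congr rfl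
    intro l _
    rw [map_smul]
    by_cases hli : l = i
    · rw [hli, hyi, zero_smul, zero_smul]
    · by_cases hlj : l = j
      · rw [hlj, hyj, zero_smul, zero_smul]
      · rw [hκall i j l hij (Ne.symm hli) (Ne.symm hlj), hκ1]
  have hsplit : ((u, x) : (Fin q → K) × (Z → K)) = (u, 0) + x i • ((0 : Fin q → K),
      (Pi.single i (1 : K) : Z → K)) + x j • ((0 : Fin q → K), (Pi.single j (1 : K) : Z → K)) +
      (0, fun l => if l = i then 0 else if l = j then 0 else x l) := by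
    refine Prod.ext ?_ ?_
    · simp
    · funext l
      simp only [Prod.snd_add, Prod.smul_snd, Pi.add_apply, Pi.smul_apply, smul_eq_mul,
        Pi.zero_apply]
      by_cases hli : l = i
      · subst hli
        rw [if_pos rfl, Pi.single_eq_same, Pi.single_eq_of_ne hij]
        ring
      · rw [if_neg hli, Pi.single_eq_of_ne hli]
        by_cases hlj : l = j
        · subst hlj
          rw [if_pos rfl, Pi.single_eq_same]
          ring
        · rw [if_neg hlj, Pi.single_eq_of_ne hlj]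
          ring
  rw [hsplit, map_add, map_add, map_add, map_smul, map_smul, hA, hB i₀ i h1 (Or.inl rfl),
    hB j₀ j h2 (Or.inr rfl), hD _ (by simp) (by simp)]
  refine Prod.ext ?_ ?_
  · simp only [Prod.fst_add, Prod.smul_fst, add_zero]
    rfl
  · funext l
    simp only [Prod.snd_add, Prod.smul_snd, Pi.add_apply, Pi.smul_apply, smul_eq_mul]
    by_cases hli : l = i
    · rw [if_pos hli, if_pos hli, if_pos hli, if_pos hli, if_pos hli]
      change (g (u, 0)).2 i₀ + _ + _ + _ = (g (u, 0)).2 i₀ + _ + _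
      ring
    · rw [if_neg hli, if_neg hli, if_neg hli, if_neg hli, if_neg hli]
      by_cases hlj : l = j
      · rw [if_pos hlj, if_pos hlj, if_pos hlj, if_pos hlj, if_pos hlj]
        change (g (u, 0)).2 j₀ + _ + _ + _ = (g (u, 0)).2 j₀ + _ + _
        ring
      · rw [if_neg hlj, if_neg hlj, if_neg hlj, if_neg hlj, if_neg hlj]
        ring

end STAB
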