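import Mathlib
import Pool.Agent.Helper40.STAB.Defs
import Pool.Agent.Helper40.STAB.ShapeR

/-!
# STAB-24 ClassR: the three types

PROOF. Use the formula of `shape_R` (four different letters `1, 2, 3, 4` of `Z`, `card Z ≥ 8`), evaluate relations at `(u, 0)` and `(0, e_l)` and compare coordinates.
(1) `comm4` (`R 1 2`, `R 3 4`): at `(u, 0)`: `a (P u) = a u`, `c (P u) = c u`; at `e_1`: `P p = p`, `a p = 0`, `c p = 0`; at `e_2`: `P b = b`, `a b = 0`, `c b = 0`.
(2) `comm3` (`R 1 2`, `R 3 2`): at `(u, 0)`, coordinate 1: `β c u = 0`; at `e_1`: `γ b = 0` (first component), `γ β = 0` (coordinate 3), `γ = γ δ` (coordinate 2); at `e_2`: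
`β = δ β` (coordinate 1).
(3) `ep_inv` (with `l ≠ i, j`: `ep_R` gives `(ep j * ep l) R i j (ep j * ep l) = (R i j)⁻¹`), so `ρ (R i j)` composed with its conjugate, which is
`(u, x) ↦` the same formula with `a u, α x i, γ x i, ...` and signs: `u ↦ P u + a u e_i - c u e_j`, `e_i ↦ p + α e_i - γ e_j`, `e_j ↦ -b - β e_i + δ e_j`, is `1`:
at `(u,0)`: `P P u + a u p - c u b = u`, `a (P u) + α a u - β c u = 0`, `c (P u) + γ a u - δ c u = 0`; at `e_i`: `P p + α p - γ b = 0`, `a p + α α - γ β = 1`; at `e_j`: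
`δ δ - β γ - c b = 1`. Hence `α² = 1`, `δ² = 1`, `(1 + α) a = 0`, `(1 + α) p = 0`.
(4) `tri` for `(i, j, l) = (1, 3, 2)`: `R 3 2 * R 1 3 = R 1 3 * R 1 2 * R 3 2`. At `e_1`: coordinate 1: `α = α²`, so `α = 1`, hence `a = 0`, `p = 0`; coordinate 2: `γ² = γ`. At `e_2`:
coordinate 2: `δ = δ²`, `δ = 1`; coordinate 1: `β² + δ β α = 0`, i.e. `β (β + 1) = 0`; first component: `b = b + β b + δ b + δ β p`, i.e. `(β + 1) b = 0`.
At `(u, 0)`: coordinate 2: `c u + γ c u = 2 c u`, i.e. `(γ - 1) c = 0`; first component `P P u = P P P u + c u b`. With (3): `P P u = u + c u b`; apply `P`: `P P P u = P u + c u b`, so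
`P P u = P u + 2 c u b`, `P u = u - c u b`, `P P u = u - 2 c u b`, so `3 c u b = 0`, `c u b = 0`, `P u = u`.
Cases: `γ = 1`: `b = 0`, `β = 0`: `TypeS S ρ c`. `γ = 0`: `c = 0`; `β = -1`: `TypeD S ρ b`; `β = 0`: `b = 0`, `ρ (R i j) = 1`.
-/

set_option autoImplicit false

namespace STAB

variable {Z Γ K : Type} [Fintype Z] [DecidableEq Z] [Group Γ] [Field K] [CharZero K] {q : ℕ}
  {S : Sys Z Γ} {ρ : Γ →* Module.End K ((Fin q → K) × (Z → K))}

omit [DecidableEq Z] in
private theorem cr_out (T : Finset Z) (h : T.card < Fintype.card Z) : ∃ b, b ∉ T := by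
  by_contra hc
  push Not at hc
  have h1 : T = Finset.univ := Finset.eq_univ_of_forall hc
  rw [h1, Finset.card_univ] at h
  exact lt_irrefl _ h

private theorem cr_four (hk : 8 ≤ Fintype.card Z) : ∃ i1 i2 i3 i4 : Z, i1 ≠ i2 ∧ i1 ≠ i3 ∧
    i1 ≠ i4 ∧ i2 ≠ i3 ∧ i2 ≠ i4 ∧ i3 ≠ i4 := by
  obtain ⟨i1, -⟩ := cr_out (∅ : Finset Z) (by rw [Finset.card_empty]; omega)
  obtain ⟨i2, h2⟩ := cr_out ({i1} : Finset Z) (by rw [Finset.card_singleton]; omega)
  obtain ⟨i3, h3⟩ := cr_out ({i1, i2} : Finset Z) (by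
    have := Finset.card_le_two (a := i1) (b := i2)
    omega)
  obtain ⟨i4, h4⟩ := cr_out ({i1, i2, i3} : Finset Z) (by
    have := Finset.card_le_three (a := i1) (b := i2) (c := i3)
    omega)
  simp only [Finset.mem_insert, Finset.mem_singleton, not_or] at h2 h3 h4
  exact ⟨i1, i2, i3, i4, Ne.symm h2, Ne.symm h3.1, Ne.symm h4.1, Ne.symm h3.2, Ne.symm h4.2.1,
    Ne.symm h4.2.2⟩

theorem class_R (hk : 8 ≤ Fintype.card Z) (hC : Coord S ρ) :
    (∀ i j, i ≠ j → ρ (S.R i j) = 1) ∨ (∃ c, TypeS S ρ c) ∨ ∃ b, TypeD S ρ b := by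
  classical
  obtain ⟨P, a, c, p, b, α, β, γ, δ, hR⟩ := shape_R hk hC
  obtain ⟨i1, i2, i3, i4, h12, h13, h14, h23, h24, h34⟩ := cr_four hk
  have n12 := h12.symm
  have n13 := h13.symm
  have n14 := h14.symm
  have n23 := h23.symm
  have n24 := h24.symm
  have n34 := h34.symm
  have hR1 : ∀ i j, i ≠ j → ∀ w, (ρ (S.R i j) w).1 = P w.1 + w.2 i • p + w.2 j • b := by
    rintro i j h ⟨u, x⟩
    rw [hR i j h]
  have hR2 : ∀ i j, i ≠ j → ∀ w l, (ρ (S.R i j) w).2 l =
      if l = i then a w.1 + α * w.2 i + β * w.2 j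
      else if l = j then c w.1 + γ * w.2 i + δ * w.2 j else w.2 l := by
    rintro i j h ⟨u, x⟩ l
    rw [hR i j h]
  have hE1 : ∀ w, (ρ (S.ep i2 * S.ep i3) w).1 = w.1 := by
    rintro ⟨u, x⟩
    rw [hC.ep2 i2 i3 h23]
  have hE2 : ∀ w l, (ρ (S.ep i2 * S.ep i3) w).2 l = if l = i2 ∨ l = i3 then -w.2 l else w.2 l := by
    rintro ⟨u, x⟩ l
    rw [hC.ep2 i2 i3 h23]
  -- the relations as identities between operators
  have c4 : ∀ w, ρ (S.R i1 i2) (ρ (S.R i3 i4) w) = ρ (S.R i3 i4) (ρ (S.R i1 i2) w) := by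
    intro w
    rw [← Module.End.mul_apply, ← Module.End.mul_apply, ← map_mul, ← map_mul,
      S.comm4 i1 i2 i3 i4 h12 h34 h13 h14 h23 h24]
  have c3 : ∀ w, ρ (S.R i1 i2) (ρ (S.R i3 i2) w) = ρ (S.R i3 i2) (ρ (S.R i1 i2) w) := by
    intro w
    rw [← Module.End.mul_apply, ← Module.End.mul_apply, ← map_mul, ← map_mul,
      S.comm3 i1 i2 i3 h12 n23 h13]
  have ct : ∀ w, ρ (S.R i3 i2) (ρ (S.R i1 i3) w) =
      ρ (S.R i1 i3) (ρ (S.R i1 i2) (ρ (S.R i3 i2) w)) := by
    intro w
    rw [← Module.End.mul_apply, ← Module.End.mul_apply, ← Module.End.mul_apply, ← map_mul,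
      ← map_mul, ← map_mul, S.tri i1 i3 i2 h13 h12 n23]
  have cinv : ∀ w, ρ (S.R i1 i2) (ρ (S.ep i2 * S.ep i3) (ρ (S.R i1 i2)
      (ρ (S.ep i2 * S.ep i3) w))) = w := by
    intro w
    rw [← Module.End.mul_apply, ← Module.End.mul_apply, ← Module.End.mul_apply, ← map_mul,
      ← map_mul, ← map_mul]
    have h1 : S.R i1 i2 * (S.ep i2 * S.ep i3) * S.R i1 i2 * (S.ep i2 * S.ep i3) = 1 := by
      have h2 := S.ep_inv i1 i2 h12
      have h3 := S.ep_R i3 i1 i2 n13 n23 h12
      have h4 := S.ep_comm i2 i3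
      calc S.R i1 i2 * (S.ep i2 * S.ep i3) * S.R i1 i2 * (S.ep i2 * S.ep i3)
          = S.R i1 i2 * S.ep i2 * (S.ep i3 * S.R i1 i2) * (S.ep i2 * S.ep i3) := by
            simp only [mul_assoc]
        _ = S.R i1 i2 * S.ep i2 * (S.R i1 i2 * S.ep i3) * (S.ep i3 * S.ep i2) := by rw [h3, h4]
        _ = S.R i1 i2 * (S.ep i2 * S.R i1 i2 * (S.ep i3 * S.ep i3) * S.ep i2) := by
            simp only [mul_assoc]
        _ = S.R i1 i2 * (S.ep i2 * S.R i1 i2 * S.ep i2) := by rw [S.ep_sq i3, mul_one]
        _ = 1 := by rw [h2, mul_inv_cancel]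
    rw [h1, map_one, Module.End.one_apply]
  -- (1)
  have a1 : ∀ u, a (P u) = a u := by
    intro u
    have h := congrArg (fun z => z.2 i1) (c4 (u, 0))
    simp only [hR1 i1 i2 h12, hR2 i1 i2 h12, hR1 i3 i4 h34, hR2 i3 i4 h34, h12, h13, h14, h23, h24,
      h34, n12, n13, n14, n23, n24, n34, if_true, if_false, Pi.zero_apply, mul_zero, add_zero,
      zero_smul] at h
    exact h
  have a2 : ∀ u, c (P u) = c u := by
    intro u
    have h := congrArg (fun z => z.2 i2) (c4 (u, 0))
    simp only [hR1 i1 i2 h12, hR2 i1 i2 h12, hR1 i3 i4 h34, hR2 i3 i4 h34, h12, h13, h14, h23, h24,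
      h34, n12, n13, n14, n23, n24, n34, if_true, if_false, Pi.zero_apply, mul_zero, add_zero,
      zero_smul] at h
    exact h
  have b1 : P p = p ∧ a p = 0 ∧ c p = 0 := by
    refine ⟨?_, ?_, ?_⟩
    · have h := congrArg (fun z => z.1) (c4 (0, Pi.single i1 1))
      simp only [hR1 i1 i2 h12, hR2 i1 i2 h12, hR1 i3 i4 h34, hR2 i3 i4 h34, h12, h13, h14, h23, h24,
        h34, n12, n13, n14, n23, n24, n34, if_true, if_false, Pi.single_apply, mul_zero, add_zero,
        zero_smul, map_zero, zero_add, one_smul, mul_one] at h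
      exact h.symm
    · have h := congrArg (fun z => z.2 i3) (c4 (0, Pi.single i1 1))
      simp only [hR1 i1 i2 h12, hR2 i1 i2 h12, hR1 i3 i4 h34, hR2 i3 i4 h34, h12, h13, h14, h23, h24,
        h34, n12, n13, n14, n23, n24, n34, if_true, if_false, Pi.single_apply, mul_zero, add_zero,
        zero_smul, map_zero, zero_add, one_smul, mul_one] at h
      exact h.symm
    · have h := congrArg (fun z => z.2 i4) (c4 (0, Pi.single i1 1))
      simp only [hR1 i1 i2 h12, hR2 i1 i2 h12, hR1 i3 i4 h34, hR2 i3 i4 h34, h12, h13, h14, h23, h24,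
        h34, n12, n13, n14, n23, n24, n34, if_true, if_false, Pi.single_apply, mul_zero, add_zero,
        zero_smul, map_zero, zero_add, one_smul, mul_one] at h
      exact h.symm
  have b2 : P b = b ∧ a b = 0 ∧ c b = 0 := by
    refine ⟨?_, ?_, ?_⟩
    · have h := congrArg (fun z => z.1) (c4 (0, Pi.single i2 1))
      simp only [hR1 i1 i2 h12, hR2 i1 i2 h12, hR1 i3 i4 h34, hR2 i3 i4 h34, h12, h13, h14, h23, h24,
        h34, n12, n13, n14, n23, n24, n34, if_true, if_false, Pi.single_apply, mul_zero, add_zero,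
        zero_smul, map_zero, zero_add, one_smul, mul_one] at h
      exact h.symm
    · have h := congrArg (fun z => z.2 i3) (c4 (0, Pi.single i2 1))
      simp only [hR1 i1 i2 h12, hR2 i1 i2 h12, hR1 i3 i4 h34, hR2 i3 i4 h34, h12, h13, h14, h23, h24,
        h34, n12, n13, n14, n23, n24, n34, if_true, if_false, Pi.single_apply, mul_zero, add_zero,
        zero_smul, map_zero, zero_add, one_smul, mul_one] at h
      exact h.symm
    · have h := congrArg (fun z => z.2 i4) (c4 (0, Pi.single i2 1))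
      simp only [hR1 i1 i2 h12, hR2 i1 i2 h12, hR1 i3 i4 h34, hR2 i3 i4 h34, h12, h13, h14, h23, h24,
        h34, n12, n13, n14, n23, n24, n34, if_true, if_false, Pi.single_apply, mul_zero, add_zero,
        zero_smul, map_zero, zero_add, one_smul, mul_one] at h
      exact h.symm
  obtain ⟨hPp, hap, hcp⟩ := b1
  obtain ⟨hPb, hab, hcb⟩ := b2
  -- (2)
  have d1 : ∀ u, β * c u = 0 := by
    intro u
    have h := congrArg (fun z => z.2 i1) (c3 (u, 0))
    simp only [hR1 i1 i2 h12, hR2 i1 i2 h12, hR1 i3 i2 n23, hR2 i3 i2 n23, h12, h13, h23,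
      n12, n13, n23, if_true, if_false, Pi.zero_apply, mul_zero, add_zero,
      zero_smul, a1] at h
    linear_combination h
  have d2 : γ • b = 0 := by
    have h := congrArg (fun z => z.1) (c3 (0, Pi.single i1 1))
    simp only [hR1 i1 i2 h12, hR2 i1 i2 h12, hR1 i3 i2 n23, hR2 i3 i2 n23, h12, h13, h23,
      n12, n13, n23, if_true, if_false, Pi.single_apply, mul_zero, add_zero,
      zero_smul, map_zero, zero_add, one_smul, mul_one, hPp] at h
    exact (left_eq_add.1 h)
  have d3 : γ * β = 0 := by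
    have h := congrArg (fun z => z.2 i3) (c3 (0, Pi.single i1 1))
    simp only [hR1 i1 i2 h12, hR2 i1 i2 h12, hR1 i3 i2 n23, hR2 i3 i2 n23, h12, h13, h23,
      n12, n13, n23, if_true, if_false, Pi.single_apply, mul_zero, add_zero,
      zero_smul, map_zero, zero_add, one_smul, mul_one, hap] at h
    linear_combination -h
  have d4 : γ = γ * δ := by
    have h := congrArg (fun z => z.2 i2) (c3 (0, Pi.single i1 1))
    simp only [hR1 i1 i2 h12, hR2 i1 i2 h12, hR1 i3 i2 n23, hR2 i3 i2 n23, h12, h13, h23,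
      n12, n13, n23, if_true, if_false, Pi.single_apply, mul_zero, add_zero,
      zero_smul, map_zero, zero_add, one_smul, mul_one, hcp] at h
    linear_combination h
  -- (3)
  have f1 : ∀ u, P (P u) + a u • p - c u • b = u := by
    intro u
    have h := congrArg (fun z => z.1) (cinv (u, 0))
    simp only [hR1 i1 i2 h12, hR2 i1 i2 h12, hE1, hE2, h12, h13, h23, n12, n13, n23, true_or,
      or_false, if_true, if_false, Pi.zero_apply, mul_zero, add_zero, neg_zero, zero_smul,
      neg_smul] at h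
    rw [← sub_eq_add_neg] at h
    exact h
  have f2 : ∀ u, a u + α * a u = 0 := by
    intro u
    have h := congrArg (fun z => z.2 i1) (cinv (u, 0))
    simp only [hR1 i1 i2 h12, hR2 i1 i2 h12, hE1, hE2, h12, h13, h23, n12, n13, n23, true_or,
      or_false, if_true, if_false, Pi.zero_apply, mul_zero, add_zero, neg_zero, zero_smul,
      a1] at h
    linear_combination h + d1 u
  have f3 : P p + α • p - γ • b = 0 := by
    have h := congrArg (fun z => z.1) (cinv (0, Pi.single i1 1))
    simp only [hR1 i1 i2 h12, hR2 i1 i2 h12, hE1, hE2, h12, h13, h23, n12, n13, n23, true_or,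
      or_false, if_true, if_false, Pi.single_apply, mul_zero, add_zero, neg_zero, zero_smul,
      map_zero, zero_add, one_smul, mul_one, neg_smul] at h
    rw [← sub_eq_add_neg] at h
    exact h
  have f4 : α * α = 1 := by
    have h := congrArg (fun z => z.2 i1) (cinv (0, Pi.single i1 1))
    simp only [hR1 i1 i2 h12, hR2 i1 i2 h12, hE1, hE2, h12, h13, h23, n12, n13, n23, true_or,
      or_false, if_true, if_false, Pi.single_apply, mul_zero, add_zero, neg_zero, zero_smul,
      map_zero, zero_add, one_smul, mul_one, hap] at h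
    linear_combination h + d3
  have f5 : δ * δ = 1 := by
    have h := congrArg (fun z => z.2 i2) (cinv (0, Pi.single i2 1))
    simp only [hR1 i1 i2 h12, hR2 i1 i2 h12, hE1, hE2, h12, h13, h23, n12, n13, n23, true_or,
      or_false, if_true, if_false, Pi.single_apply, mul_zero, add_zero, neg_zero, zero_smul,
      map_zero, zero_add, one_smul, mul_one, neg_smul, map_neg, hcb, mul_neg, neg_neg] at h
    linear_combination h + d3
  -- (4)
  have g1 : α = 1 := by
    have h := congrArg (fun z => z.2 i1) (ct (0, Pi.single i1 1))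
    simp only [hR1 i1 i2 h12, hR2 i1 i2 h12, hR1 i3 i2 n23, hR2 i3 i2 n23, hR1 i1 i3 h13,
      hR2 i1 i3 h13, h12, h13, h23,
      n12, n13, n23, if_true, if_false, Pi.single_apply, mul_zero, add_zero,
      zero_smul, map_zero, zero_add, one_smul, mul_one, hap] at h
    rw [f4] at h
    exact h
  have g2 : γ * γ = γ := by
    have h := congrArg (fun z => z.2 i2) (ct (0, Pi.single i1 1))
    simp only [hR1 i1 i2 h12, hR2 i1 i2 h12, hR1 i3 i2 n23, hR2 i3 i2 n23, hR1 i1 i3 h13,
      hR2 i1 i3 h13, h12, h13, h23,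
      n12, n13, n23, if_true, if_false, Pi.single_apply, mul_zero, add_zero,
      zero_smul, map_zero, zero_add, one_smul, mul_one, hcp] at h
    exact h
  have g3 : δ = 1 := by
    have h := congrArg (fun z => z.2 i2) (ct (0, Pi.single i2 1))
    simp only [hR1 i1 i2 h12, hR2 i1 i2 h12, hR1 i3 i2 n23, hR2 i3 i2 n23, hR1 i1 i3 h13,
      hR2 i1 i3 h13, h12, h13, h23,
      n12, n13, n23, if_true, if_false, Pi.single_apply, mul_zero, add_zero,
      zero_smul, map_zero, zero_add, one_smul, mul_one, hcb] at h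
    rw [f5] at h
    exact h
  have g4 : β * β + β = 0 := by
    have h := congrArg (fun z => z.2 i1) (ct (0, Pi.single i2 1))
    simp only [hR1 i1 i2 h12, hR2 i1 i2 h12, hR1 i3 i2 n23, hR2 i3 i2 n23, hR1 i1 i3 h13,
      hR2 i1 i3 h13, h12, h13, h23,
      n12, n13, n23, if_true, if_false, Pi.single_apply, mul_zero, add_zero,
      zero_smul, map_zero, zero_add, one_smul, mul_one, map_add, map_smul, hab, a1,
      smul_eq_mul, g1, g3, one_mul] at h
    linear_combination -h
  have ha0 : ∀ u, a u = 0 := by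
    intro u
    have h := f2 u
    rw [g1] at h
    have h2 : (2 : K) * a u = 0 := by linear_combination h
    exact (mul_eq_zero.1 h2).resolve_left two_ne_zero
  have hp0 : p = 0 := by
    rw [hPp, g1, d2, one_smul, sub_zero, ← two_smul K p] at f3
    exact (smul_eq_zero.1 f3).resolve_left two_ne_zero
  have g5 : β • b + b = 0 := by
    have h := congrArg (fun z => z.1) (ct (0, Pi.single i2 1))
    simp only [hR1 i1 i2 h12, hR2 i1 i2 h12, hR1 i3 i2 n23, hR2 i3 i2 n23, hR1 i1 i3 h13,
      hR2 i1 i3 h13, h12, h13, h23,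
      n12, n13, n23, if_true, if_false, Pi.single_apply, mul_zero, add_zero,
      zero_smul, map_zero, zero_add, one_smul, mul_one, map_add, map_smul, hab,
      g1, g3, one_mul, hp0, smul_zero, hPb] at h
    have h2 : β • b + b = (b + b + β • b) - b := by abel
    rw [h2, ← h, sub_self]
  have g6 : ∀ u, γ * c u = c u := by
    intro u
    have h := congrArg (fun z => z.2 i2) (ct (u, 0))
    simp only [hR1 i1 i2 h12, hR2 i1 i2 h12, hR1 i3 i2 n23, hR2 i3 i2 n23, hR1 i1 i3 h13,
      hR2 i1 i3 h13, h12, h13, h23,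
      n12, n13, n23, if_true, if_false, Pi.zero_apply, mul_zero, add_zero,
      zero_smul, map_zero, zero_add, one_smul, mul_one, map_add, map_smul, a2, ha0,
      g1, g3, one_mul, hp0, smul_zero, hPb] at h
    linear_combination h
  have g7 : ∀ u, P (P u) = P (P (P u)) + c u • b := by
    intro u
    have h := congrArg (fun z => z.1) (ct (u, 0))
    simp only [hR1 i1 i2 h12, hR2 i1 i2 h12, hR1 i3 i2 n23, hR2 i3 i2 n23, hR1 i1 i3 h13,
      hR2 i1 i3 h13, h12, h13, h23,
      n12, n13, n23, if_true, if_false, Pi.zero_apply, mul_zero, add_zero,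
      zero_smul, map_zero, zero_add, one_smul, mul_one, map_add, map_smul, a2, ha0,
      g1, g3, one_mul, hp0, smul_zero, hPb] at h
    exact h
  have h8 : ∀ u, P (P u) = u + c u • b := by
    intro u
    have h := f1 u
    rw [hp0, smul_zero, add_zero] at h
    rw [sub_eq_iff_eq_add] at h
    exact h
  have h9 : ∀ u, P u = u - c u • b := by
    intro u
    have h := g7 u
    have h' : P (P (P u)) = P u + c u • b := by
      rw [h8 u, map_add, map_smul, hPb]
    rw [h', h8 u] at h
    have h2 : P u = (P u + c u • b + c u • b) - c u • b - c u • b := by abel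
    rw [h2, ← h]
    abel
  have h10 : ∀ u, c u • b = 0 := by
    intro u
    have h := h8 u
    rw [h9 u, map_sub, map_smul, hPb, h9 u] at h
    have h3 : (3 : K) • (c u • b) = 0 := by
      have h4 : (3 : K) • (c u • b) = (u + c u • b) - (u - c u • b - c u • b) := by
        module
      rw [h4, ← h, sub_self]
    exact (smul_eq_zero.1 h3).resolve_left three_ne_zero
  have h11 : ∀ u, P u = u := by
    intro u
    rw [h9 u, h10 u, sub_zero]
  have hγ : γ = 0 ∨ γ = 1 := by
    have h : γ * (γ - 1) = 0 := by linear_combination g2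
    rcases mul_eq_zero.1 h with h1 | h1
    · exact Or.inl h1
    · exact Or.inr (sub_eq_zero.1 h1)
  rcases hγ with hγ | hγ
  · -- type D or trivial
    have hc0 : ∀ u, c u = 0 := by
      intro u
      have h := g6 u
      rw [hγ, zero_mul] at h
      exact h.symm
    have hβ : β = 0 ∨ β = -1 := by
      have h : β * (β + 1) = 0 := by linear_combination g4
      rcases mul_eq_zero.1 h with h1 | h1
      · exact Or.inl h1
      · exact Or.inr (eq_neg_of_add_eq_zero_left h1)
    rcases hβ with hβ | hβ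
    · left
      have hb0 : b = 0 := by
        rw [hβ, zero_smul, zero_add] at g5
        exact g5
      intro i j hij
      apply LinearMap.ext
      rintro ⟨u, x⟩
      rw [hR i j hij, Module.End.one_apply]
      refine Prod.ext ?_ ?_
      · change P u + x i • p + x j • b = u
        rw [h11, hp0, hb0, smul_zero, smul_zero, add_zero, add_zero]
      · funext l
        change (if l = i then a u + α * x i + β * x j
          else if l = j then c u + γ * x i + δ * x j else x l) = x l
        rw [ha0, hc0, g1, hβ, hγ, g3]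
        split_ifs with h1 h2
        · rw [h1]; ring
        · rw [h2]; ring
        · rfl
    · right; right
      refine ⟨b, ?_⟩
      intro i j hij u x
      rw [hR i j hij]
      refine Prod.ext ?_ ?_
      · change P u + x i • p + x j • b = u + x j • b
        rw [h11, hp0, smul_zero, add_zero]
      · funext l
        change (if l = i then a u + α * x i + β * x j
          else if l = j then c u + γ * x i + δ * x j else x l) =
          x l - (Pi.single i (x j) : Z → K) l
        rw [ha0, hc0, g1, hβ, hγ, g3]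
        split_ifs with h1 h2
        · rw [h1, Pi.single_eq_same]; ring
        · rw [h2, Pi.single_eq_of_ne hij.symm]; ring
        · rw [Pi.single_eq_of_ne h1]; ring
  · -- type S
    right; left
    have hb0 : b = 0 := by
      rw [hγ, one_smul] at d2
      exact d2
    have hβ : β = 0 := by
      rw [hγ, one_mul] at d3
      exact d3
    refine ⟨c, ?_⟩
    intro i j hij u x
    rw [hR i j hij]
    refine Prod.ext ?_ ?_
    · change P u + x i • p + x j • b = u
      rw [h11, hp0, hb0, smul_zero, smul_zero, add_zero, add_zero]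
    · funext l
      change (if l = i then a u + α * x i + β * x j
        else if l = j then c u + γ * x i + δ * x j else x l) =
        x l + (Pi.single j (c u + x i) : Z → K) l
      rw [ha0, g1, hβ, hγ, g3]
      split_ifs with h1 h2
      · rw [h1, Pi.single_eq_of_ne hij]; ring
      · rw [h2, Pi.single_eq_same]; ring
      · rw [Pi.single_eq_of_ne h2]; ring

end STAB
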