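import Mathlib

/-!
# STAB-16 WtLem: joint eigenspaces of involutions

`WS T A = {v | T i v = -v (i ∈ A), T i v = v (i ∉ A)}`.
PROOF. For `A : Finset ι` and a fixed enumeration of `ι` let `E A` be the product over `i` of `(1/2) • (1 + T i)` (`i ∉ A`) resp. `(1/2) • (1 - T i)` (`i ∈ A`). If
`v ∈ WS T B` then `E A v = v` if `A = B` and `0` if `A ≠ B` (a factor kills `v`; the other factors multiply by `0` or `1`). This gives `WS_unique`
(apply `E A` to the sum). `WS_card`: the linear map from the product of the `WS T A`, `A ∈ 𝒜`, to `V` (sum) is injective by `WS_unique`.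
`WS_span`: if the `T i` commute and `T i * T i = 1` then `E A v ∈ WS T A` and the sum over all `A` of `E A` is the product of
`(1/2)(1 + T i) + (1/2)(1 - T i) = 1`. (Easier: induction on a finite set `s` of indices, splitting `v = (1/2)(v + T i v) + (1/2)(v - T i v)`: for every
`s : Finset ι` and `v` there is `w : Finset ι → V`, `v = ∑ A ∈ s.powerset, w A`, `T i (w A) = ± w A` for `i ∈ s`.)
`choose_le`: let `A` have `WS T A ≠ ⊥`, `v ≠ 0` in it. For `B` with `B.card = A.card` there is `σ : Perm ι` with `σ '' A = B`; `g v ∈ WS T B`, `g v ≠ 0`, so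
`1 ≤ finrank (WS T B)`. Sum over `B ∈ Finset.powersetCard A.card univ` (`WS_card`, `Finset.card_powersetCard`).
-/

set_option autoImplicit false

namespace STAB

variable {K V ι : Type} [Field K] [AddCommGroup V] [Module K V]

/-- joint eigenspace -/
def WS [DecidableEq ι] (T : ι → Module.End K V) (A : Finset ι) : Submodule K V where
  carrier := {v | ∀ i, T i v = if i ∈ A then -v else v}
  add_mem' := by
    intro a b ha hb i
    rw [map_add, ha i, hb i]
    split_ifs
    · rw [neg_add]
    · rfl
  zero_mem' := by
    intro i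
    simp
  smul_mem' := by
    intro c a ha i
    rw [map_smul, ha i]
    split_ifs
    · rw [smul_neg]
    · rfl

variable [CharZero K] [Fintype ι] [DecidableEq ι] {T : ι → Module.End K V}

omit [CharZero K] [Fintype ι] in
private theorem mem_WS {A : Finset ι} {v : V} :
    v ∈ WS T A ↔ ∀ i, T i v = if i ∈ A then -v else v := Iff.rfl

omit [Fintype ι] in
private theorem span_aux (hc : ∀ i j, T i * T j = T j * T i) (hs : ∀ i, T i * T i = 1)
    (s : Finset ι) (v : V) :
    ∃ w : Finset ι → V, (∀ A, ∀ i ∈ s, T i (w A) = if i ∈ A then -w A else w A) ∧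
      v = ∑ A ∈ s.powerset, w A := by
  induction s using Finset.induction_on with
  | empty => exact ⟨fun _ => v, by simp, by simp⟩
  | insert a s ha ih =>
    obtain ⟨w, hw, hv⟩ := ih
    have h2 : (2 : K) ≠ 0 := two_ne_zero
    refine ⟨fun A => if a ∈ A then (1 / 2 : K) • (w (A.erase a) - T a (w (A.erase a)))
      else (1 / 2 : K) • (w A + T a (w A)), fun A i hi => ?_, ?_⟩
    · have hTT : ∀ x, T a (T a x) = x := by
        intro x
        have h3 := congrArg (fun f => f x) (hs a)
        simpa using h3
      have hTc : ∀ x, T i (T a x) = T a (T i x) := by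
        intro x
        have h3 := congrArg (fun f => f x) (hc i a)
        simpa using h3
      by_cases haA : a ∈ A
      · simp only [haA, if_true]
        rcases Finset.mem_insert.1 hi with rfl | hi
        · rw [if_pos haA, map_smul, map_sub, hTT, ← smul_neg, neg_sub]
        · have hia : i ≠ a := fun h => ha (h ▸ hi)
          rw [map_smul, map_sub, hTc, hw _ i hi]
          have h4 : i ∈ A.erase a ↔ i ∈ A := by simp [hia]
          simp only [h4]
          split_ifs
          · rw [map_neg, ← smul_neg]
            congr 1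
            abel
          · rfl
      · simp only [haA, if_false]
        rcases Finset.mem_insert.1 hi with rfl | hi
        · rw [if_neg haA, map_smul, map_add, hTT, add_comm]
        · rw [map_smul, map_add, hTc, hw _ i hi]
          split_ifs
          · rw [map_neg, ← smul_neg]
            congr 1
            abel
          · rfl
    · rw [Finset.sum_powerset_insert ha, ← Finset.sum_add_distrib]
      conv_lhs => rw [hv]
      refine Finset.sum_congr rfl fun A hA => ?_
      have haA : a ∉ A := fun h => ha (Finset.mem_powerset.1 hA h)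
      rw [if_neg haA, if_pos (Finset.mem_insert_self a A), Finset.erase_insert haA, ← smul_add]
      have h5 : w A + T a (w A) + (w A - T a (w A)) = (2 : K) • w A := by
        rw [two_smul]
        abel
      rw [h5, smul_smul, one_div, inv_mul_cancel₀ h2, one_smul]

theorem WS_span (hc : ∀ i j, T i * T j = T j * T i) (hs : ∀ i, T i * T i = 1) (v : V) :
    ∃ w : Finset ι → V, (∀ A, w A ∈ WS T A) ∧ v = ∑ A, w A := by
  obtain ⟨w, hw, hv⟩ := span_aux hc hs Finset.univ v
  exact ⟨w, fun A i => hw A i (Finset.mem_univ i), by rw [hv, Finset.powerset_univ]⟩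

theorem WS_unique {w : Finset ι → V} (hw : ∀ A, w A ∈ WS T A) (h : ∑ A, w A = 0) (A : Finset ι) :
    w A = 0 := by
  have h2 : (2 : K) ≠ 0 := two_ne_zero
  have key : ∀ s : Finset ι,
      ∑ B ∈ Finset.univ.filter (fun B : Finset ι => ∀ i ∈ s, (i ∈ B ↔ i ∈ A)), w B = 0 := by
    intro s
    induction s using Finset.induction_on with
    | empty => simpa using h
    | insert a s ha ih =>
      have e1 : Finset.univ.filter (fun B : Finset ι => ∀ i ∈ insert a s, (i ∈ B ↔ i ∈ A)) =
          (Finset.univ.filter (fun B : Finset ι => ∀ i ∈ s, (i ∈ B ↔ i ∈ A))).filter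
            (fun B => (a ∈ B ↔ a ∈ A)) := by
        ext B
        simp only [Finset.mem_filter, Finset.mem_univ, true_and, Finset.forall_mem_insert]
        exact and_comm
      rw [e1, Finset.sum_filter]
      have e2 := congrArg (T a) ih
      rw [map_zero, map_sum] at e2
      have e3 : ∑ B ∈ Finset.univ.filter (fun B : Finset ι => ∀ i ∈ s, (i ∈ B ↔ i ∈ A)),
          (2 : K) • (if (a ∈ B ↔ a ∈ A) then w B else 0) = 0 := by
        by_cases haA : a ∈ A
        · have e4 := congrArg₂ (fun x y => x - y) ih e2
          simp only [sub_zero] at e4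
          rw [← Finset.sum_sub_distrib] at e4
          refine Eq.trans (Finset.sum_congr rfl fun B _ => ?_) e4
          rw [hw B a]
          by_cases haB : a ∈ B
          · simp only [haA, haB, if_true, two_smul, sub_neg_eq_add]
          · simp only [haA, haB, if_false, smul_zero, sub_self, false_iff, not_true]
        · have e4 := congrArg₂ (fun x y => x + y) ih e2
          simp only [add_zero] at e4
          rw [← Finset.sum_add_distrib] at e4
          refine Eq.trans (Finset.sum_congr rfl fun B _ => ?_) e4
          rw [hw B a]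
          by_cases haB : a ∈ B
          · simp only [haA, haB, if_true, if_false, smul_zero, add_neg_cancel, iff_false,
              not_true]
          · simp only [haA, haB, if_true, if_false, two_smul]
      rw [← Finset.smul_sum] at e3
      exact (smul_eq_zero.1 e3).resolve_left h2
  have h3 := key Finset.univ
  have e5 : Finset.univ.filter (fun B : Finset ι => ∀ i ∈ (Finset.univ : Finset ι),
      (i ∈ B ↔ i ∈ A)) = {A} := by
    ext B
    simp only [Finset.mem_filter, Finset.mem_univ, true_and, Finset.mem_singleton, true_implies]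
    exact ⟨fun h4 => Finset.ext h4, fun h4 i => by rw [h4]⟩
  rwa [e5, Finset.sum_singleton] at h3

theorem WS_card [FiniteDimensional K V] (𝒜 : Finset (Finset ι)) :
    ∑ A ∈ 𝒜, Module.finrank K (WS T A) ≤ Module.finrank K V := by
  obtain ⟨Φ, hΦ⟩ : ∃ Φ : (∀ A : 𝒜, WS T (A : Finset ι)) →ₗ[K] V, Φ =
      ∑ A : 𝒜, (WS T (A : Finset ι)).subtype ∘ₗ LinearMap.proj (R := K)
        (φ := fun A : 𝒜 => WS T (A : Finset ι)) A := ⟨_, rfl⟩
  have h1 : Function.Injective Φ := by
    rw [← LinearMap.ker_eq_bot, LinearMap.ker_eq_bot', hΦ]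
    intro w hw
    rw [LinearMap.sum_apply] at hw
    simp only [LinearMap.comp_apply, LinearMap.proj_apply, Submodule.subtype_apply] at hw
    have h2 : ∀ A : Finset ι, (if h : A ∈ 𝒜 then ((w ⟨A, h⟩ : WS T A) : V) else 0) = 0 := by
      refine WS_unique (K := K) (T := T)
        (w := fun A => if h : A ∈ 𝒜 then ((w ⟨A, h⟩ : WS T A) : V) else 0) (fun A => ?_) ?_
      · by_cases h : A ∈ 𝒜
        · simp only [h, dif_pos]
          exact (w ⟨A, h⟩).2
        · simp only [h, dif_neg, not_false_eq_true]
          exact Submodule.zero_mem _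
      · rw [← Finset.sum_subset (Finset.subset_univ 𝒜) (fun A _ h => by rw [dif_neg h]),
          ← Finset.sum_coe_sort, ← hw]
        refine Finset.sum_congr rfl fun A _ => ?_
        rw [dif_pos A.2]
    funext A
    have h3 := h2 A
    rw [dif_pos A.2] at h3
    exact Subtype.ext h3
  have h2 := LinearMap.finrank_le_finrank_of_injective h1
  rw [Module.finrank_pi_fintype] at h2
  rw [← Finset.sum_coe_sort]
  exact h2

theorem choose_le [FiniteDimensional K V]
    (hS : ∀ σ : Equiv.Perm ι, ∃ g : V ≃ₗ[K] V, ∀ i v, g (T i v) = T (σ i) (g v)) {A : Finset ι}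
    (hA : WS T A ≠ ⊥) : (Fintype.card ι).choose A.card ≤ Module.finrank K V := by
  obtain ⟨v, hv, hv0⟩ := Submodule.exists_mem_ne_zero_of_ne_bot hA
  refine le_trans ?_ (WS_card (T := T) (Finset.powersetCard A.card Finset.univ))
  rw [← Finset.card_univ, ← Finset.card_powersetCard, Finset.card_eq_sum_ones]
  refine Finset.sum_le_sum fun B hB => ?_
  have hB' : B.card = A.card := (Finset.mem_powersetCard.1 hB).2
  have e : {x // x ∈ A} ≃ {x // x ∈ B} := Finset.equivOfCardEq hB'.symm
  obtain ⟨g, hg⟩ := hS e.extendSubtype
  have hmem : g v ∈ WS T B := by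
    intro i
    obtain ⟨j, rfl⟩ := e.extendSubtype.surjective i
    rw [← hg, hv j]
    by_cases hj : j ∈ A
    · have h1 : e.extendSubtype j ∈ B := e.extendSubtype_mem j hj
      rw [if_pos hj, if_pos h1, map_neg]
    · have h1 : e.extendSubtype j ∉ B := e.extendSubtype_not_mem j hj
      rw [if_neg hj, if_neg h1]
  have hne : (⟨g v, hmem⟩ : WS T B) ≠ 0 := by
    intro h
    apply hv0
    have h2 : g v = 0 := congrArg Subtype.val h
    exact (LinearEquiv.map_eq_zero_iff g).1 h2
  have : Nontrivial (WS T B) := ⟨⟨_, 0, hne⟩⟩
  exact Module.finrank_pos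

end STAB
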