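import Mathlib
import Pool.Agent.Helper40.STAB.Defs
import Pool.Agent.Helper40.STAB.WtLem

/-!
# STAB-17 DecL: the decomposition under the products of two sign changes

PROOF of `dec`. `T i = ρ (ep i)`: commuting involutions, conjugated by `ρ (sg σ)` (`S.sg_ep`); `k = card Z ≥ 8`. `choose_le`: if `WS T A ≠ ⊥` then
`k.choose A.card ≤ finrank V < 2 k`, so `A.card ∈ {0, 1, k-1, k}` (`k.choose 2 = k (k-1)/2 ≥ 7k/2`, `k.choose j ≥ k.choose 2` for `2 ≤ j ≤ k-2`, symmetric).
`WS_span`: `v = v₀ + ∑ l, u l`, `v₀ = w ∅ + w univ`, `u l = w {l} + w {l}ᶜ`. On `v₀` all `ep a ep b` act trivially; `ρ (ep l * ep b) (u l) = - u l` (`b ≠ l`),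
`ρ (ep a * ep b) (u l) = u l` (`a, b ≠ l`). Let `U l` be the submodule `WS T {l} ⊔ WS T {l}ᶜ` (sum direct, `WS_card`). `ρ (sg (swap l l'))` maps `U l` onto `U l'`, so all
`finrank (U l)` are equal to some `p`, and `k p ≤ finrank V < 2 k` (`WS_card` for `𝒜 = {{l}} ∪ {{l}ᶜ}`, `2 k` different sets), so `p ≤ 1`. `p = 0`: all `u l = 0`, first
alternative. `p = 1`: `e l` a nonzero element of `U l`, `u l = x l • e l`.
`dec_unique`: apply `ρ (ep a * ep b)`, `a ≠ b`, and subtract: `2 (x a • e a + x b • e b) = 0` (`ρ (ep a * ep b) (e b) = ρ (ep b * ep a) (e b) = - e b`). With three different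
letters `x a • e a = 0`, so `x a = 0`; then `v₀ = 0`.
-/

set_option autoImplicit false

namespace STAB

variable {Z Γ K V : Type} [Fintype Z] [DecidableEq Z] [Group Γ] [Field K] [CharZero K]
  [AddCommGroup V] [Module K V] {S : Sys Z Γ} {ρ : Γ →* Module.End K V}

/-! ### auxiliary facts -/

private theorem dec_choose {k j : ℕ} (hk : 8 ≤ k) (h2 : 2 ≤ j) (hj : j ≤ k - 2) :
    2 * k ≤ k.choose j := by
  have key : ∀ j, 2 ≤ j → j ≤ k / 2 → 2 * k ≤ k.choose j := by
    intro j h2
    induction j, h2 using Nat.le_induction with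
    | base =>
      intro _
      rw [Nat.choose_two_right, Nat.le_div_iff_mul_le (by norm_num)]
      obtain ⟨m, rfl⟩ : ∃ m, k = m + 8 := ⟨k - 8, by omega⟩
      have h3 : m + 8 - 1 = m + 7 := by omega
      rw [h3]
      nlinarith
    | succ j hj ih =>
      intro h
      exact (ih (by omega)).trans (Nat.choose_le_succ_of_lt_half_left (by omega))
  rcases le_or_gt j (k / 2) with h | h
  · exact key j h2 h
  · rw [← Nat.choose_symm (show j ≤ k by omega)]
    exact key (k - j) (by omega) (by omega)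

private theorem dec_card_cases (hk : 8 ≤ Fintype.card Z) {A : Finset Z}
    (h : (Fintype.card Z).choose A.card < 2 * Fintype.card Z) :
    A.card = 0 ∨ A.card = 1 ∨ A.card = Fintype.card Z - 1 ∨ A.card = Fintype.card Z := by
  have h1 := A.card_le_univ
  by_contra hc
  push Not at hc
  obtain ⟨c0, c1, c2, c3⟩ := hc
  have h2 : 2 ≤ A.card := by omega
  have h3 : A.card ≤ Fintype.card Z - 2 := by omega
  have := dec_choose hk h2 h3
  omega

private theorem dec_disj1 (hk : 8 ≤ Fintype.card Z) :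
    Disjoint (Finset.univ.image fun l : Z => ({l} : Finset Z))
      (Finset.univ.image fun l : Z => ({l} : Finset Z)ᶜ) := by
  rw [Finset.disjoint_left]
  intro A hA hB
  obtain ⟨l, _, rfl⟩ := Finset.mem_image.1 hA
  obtain ⟨m, _, hm⟩ := Finset.mem_image.1 hB
  have h2 := congrArg Finset.card hm
  rw [Finset.card_compl, Finset.card_singleton, Finset.card_singleton] at h2
  omega

private theorem dec_sum_img {M : Type} [AddCommMonoid M] (hk : 8 ≤ Fintype.card Z)
    (w : Finset Z → M) :
    ∑ A ∈ (Finset.univ.image fun l : Z => ({l} : Finset Z)) ∪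
      (Finset.univ.image fun l : Z => ({l} : Finset Z)ᶜ), w A =
      ∑ l : Z, (w {l} + w {l}ᶜ) := by
  rw [Finset.sum_union (dec_disj1 hk), Finset.sum_image, Finset.sum_image,
    Finset.sum_add_distrib]
  · intro a _ b _ hab
    have : ({a} : Finset Z) = {b} := compl_injective hab
    exact Finset.singleton_injective this
  · intro a _ b _ hab
    exact Finset.singleton_injective hab

private theorem dec_sum {M : Type} [AddCommMonoid M] (hk : 8 ≤ Fintype.card Z)
    (w : Finset Z → M)
    (hw : ∀ A, w A ≠ 0 → A.card = 0 ∨ A.card = 1 ∨ A.card = Fintype.card Z - 1 ∨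
      A.card = Fintype.card Z) :
    ∑ A, w A = (w ∅ + w Finset.univ) + ∑ l : Z, (w {l} + w {l}ᶜ) := by
  have hne : (∅ : Finset Z) ≠ Finset.univ := by
    intro h
    have := congrArg Finset.card h
    rw [Finset.card_empty, Finset.card_univ] at this
    omega
  have hdisj : Disjoint ({∅, Finset.univ} : Finset (Finset Z))
      ((Finset.univ.image fun l : Z => ({l} : Finset Z)) ∪
      (Finset.univ.image fun l : Z => ({l} : Finset Z)ᶜ)) := by
    rw [Finset.disjoint_left]
    intro A hA hB
    have h1 : A.card = 0 ∨ A.card = Fintype.card Z := by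
      rw [Finset.mem_insert, Finset.mem_singleton] at hA
      rcases hA with rfl | rfl
      · left
        exact Finset.card_empty
      · right
        exact Finset.card_univ
    have h2 : A.card = 1 ∨ A.card = Fintype.card Z - 1 := by
      rw [Finset.mem_union] at hB
      rcases hB with hB | hB
      · obtain ⟨l, _, rfl⟩ := Finset.mem_image.1 hB
        left
        exact Finset.card_singleton l
      · obtain ⟨l, _, rfl⟩ := Finset.mem_image.1 hB
        right
        rw [Finset.card_compl, Finset.card_singleton]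
    omega
  rw [← Finset.sum_pair hne, ← dec_sum_img hk w, ← Finset.sum_union hdisj]
  refine (Finset.sum_subset (Finset.subset_univ _) (fun A _ hA => ?_)).symm
  by_contra h
  apply hA
  rw [Finset.mem_union, Finset.mem_insert, Finset.mem_singleton, Finset.mem_union,
    Finset.mem_image, Finset.mem_image]
  rcases hw A h with h0 | h0 | h0 | h0
  · left
    left
    exact Finset.card_eq_zero.1 h0
  · right
    left
    obtain ⟨l, hl⟩ := Finset.card_eq_one.1 h0
    exact ⟨l, Finset.mem_univ l, hl.symm⟩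
  · right
    right
    have h1 : Aᶜ.card = 1 := by
      rw [Finset.card_compl, h0]
      omega
    obtain ⟨l, hl⟩ := Finset.card_eq_one.1 h1
    refine ⟨l, Finset.mem_univ l, ?_⟩
    rw [← hl, compl_compl]
  · left
    right
    exact (Finset.card_eq_iff_eq_univ A).1 h0

private theorem dec_pair (S : Sys Z Γ) (ρ : Γ →* Module.End K V) (a b : Z) (v : V) :
    ρ (S.ep a * S.ep b) v = ρ (S.ep a) (ρ (S.ep b) v) := by
  rw [map_mul, Module.End.mul_apply]

private theorem dec_sym (S : Sys Z Γ) (ρ : Γ →* Module.End K V) (σ : Equiv.Perm Z) :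
    ∃ g : V ≃ₗ[K] V, ∀ i v, g (ρ (S.ep i) v) = ρ (S.ep (σ i)) (g v) := by
  refine ⟨LinearEquiv.ofLinearMap (ρ (S.sg σ)) (ρ (S.sg σ)⁻¹) ?_ ?_, fun i v => ?_⟩
  · rw [← Module.End.mul_eq_comp, ← map_mul, mul_inv_cancel, map_one]
    rfl
  · rw [← Module.End.mul_eq_comp, ← map_mul, inv_mul_cancel, map_one]
    rfl
  · change ρ (S.sg σ) (ρ (S.ep i) v) = ρ (S.ep (σ i)) (ρ (S.sg σ) v)
    rw [← Module.End.mul_apply, ← Module.End.mul_apply, ← map_mul, ← map_mul, ← S.sg_ep σ i]
    congr 2
    group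

private theorem dec_rank [FiniteDimensional K V] (S : Sys Z Γ) (ρ : Γ →* Module.End K V)
    (σ : Equiv.Perm Z) {A B : Finset Z} (h : ∀ i, σ i ∈ B ↔ i ∈ A) :
    Module.finrank K (WS (fun i => ρ (S.ep i)) A) ≤
      Module.finrank K (WS (fun i => ρ (S.ep i)) B) := by
  obtain ⟨g, hg⟩ := dec_sym S ρ σ
  have h1 : Submodule.map g.toLinearMap (WS (fun i => ρ (S.ep i)) A) ≤
      WS (fun i => ρ (S.ep i)) B := by
    rintro _ ⟨v, hv, rfl⟩ j
    obtain ⟨i, rfl⟩ := σ.surjective j
    change ρ (S.ep (σ i)) (g v) = if σ i ∈ B then -g v else g v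
    rw [← hg i v]
    have hvi : ρ (S.ep i) v = if i ∈ A then -v else v := hv i
    rw [hvi]
    by_cases hi : i ∈ A
    · rw [if_pos hi, if_pos ((h i).2 hi), map_neg]
    · rw [if_neg hi, if_neg (fun h2 => hi ((h i).1 h2))]
  have h2 := Submodule.finrank_mono h1
  rwa [LinearEquiv.finrank_map_eq g] at h2

/-- the action of the products of two sign changes on the joint eigenspaces -/
private theorem dec_act {A : Finset Z} {v : V} (hv : v ∈ WS (fun i => ρ (S.ep i)) A) (a b : Z) :
    ρ (S.ep a * S.ep b) v = if (a ∈ A ↔ b ∈ A) then v else -v := by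
  have ha : ρ (S.ep a) v = if a ∈ A then -v else v := hv a
  have hb : ρ (S.ep b) v = if b ∈ A then -v else v := hv b
  rw [dec_pair, hb]
  by_cases h1 : a ∈ A <;> by_cases h2 : b ∈ A <;> simp [h1, h2, ha]

private theorem dec_finrank [FiniteDimensional K V] (S : Sys Z Γ) (ρ : Γ →* Module.End K V)
    (hk : 8 ≤ Fintype.card Z) (h1 : Module.finrank K V < 2 * Fintype.card Z) :
    (∀ l : Z, Module.finrank K (WS (fun i => ρ (S.ep i)) {l}) +
        Module.finrank K (WS (fun i => ρ (S.ep i)) {l}ᶜ) = 0) ∨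
    ∀ l : Z, Module.finrank K (WS (fun i => ρ (S.ep i)) {l}) +
        Module.finrank K (WS (fun i => ρ (S.ep i)) {l}ᶜ) = 1 := by
  have h2 : ∀ l m : Z, Module.finrank K (WS (fun i => ρ (S.ep i)) {l}) +
        Module.finrank K (WS (fun i => ρ (S.ep i)) {l}ᶜ) ≤
      Module.finrank K (WS (fun i => ρ (S.ep i)) {m}) +
        Module.finrank K (WS (fun i => ρ (S.ep i)) {m}ᶜ) := by
    intro l m
    have h3 : ∀ i, Equiv.swap l m i ∈ ({m} : Finset Z) ↔ i ∈ ({l} : Finset Z) := by
      intro i
      rw [Finset.mem_singleton, Finset.mem_singleton]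
      constructor
      · intro h
        have := (Equiv.swap_apply_eq_iff).1 h
        rw [this, Equiv.swap_apply_right]
      · rintro rfl
        exact Equiv.swap_apply_left _ _
    have h4 : ∀ i, Equiv.swap l m i ∈ ({m} : Finset Z)ᶜ ↔ i ∈ ({l} : Finset Z)ᶜ := by
      intro i
      rw [Finset.mem_compl, Finset.mem_compl, h3]
    exact add_le_add (dec_rank S ρ _ h3) (dec_rank S ρ _ h4)
  have h5 := WS_card (T := fun i => ρ (S.ep i))
    ((Finset.univ.image fun l : Z => ({l} : Finset Z)) ∪
      (Finset.univ.image fun l : Z => ({l} : Finset Z)ᶜ))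
  rw [dec_sum_img hk] at h5
  obtain ⟨l0⟩ : Nonempty Z := Fintype.card_pos_iff.1 (by omega)
  have h6 : ∑ l : Z, (Module.finrank K (WS (fun i => ρ (S.ep i)) {l}) +
        Module.finrank K (WS (fun i => ρ (S.ep i)) {l}ᶜ)) =
      Fintype.card Z * (Module.finrank K (WS (fun i => ρ (S.ep i)) {l0}) +
        Module.finrank K (WS (fun i => ρ (S.ep i)) {l0}ᶜ)) := by
    rw [Finset.sum_congr rfl (fun l _ => le_antisymm (h2 l l0) (h2 l0 l)), Finset.sum_const,
      Finset.card_univ, smul_eq_mul]
  rw [h6] at h5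
  have h7 : Module.finrank K (WS (fun i => ρ (S.ep i)) {l0}) +
        Module.finrank K (WS (fun i => ρ (S.ep i)) {l0}ᶜ) ≤ 1 := by
    by_contra hc
    have h8 : 2 ≤ Module.finrank K (WS (fun i => ρ (S.ep i)) {l0}) +
        Module.finrank K (WS (fun i => ρ (S.ep i)) {l0}ᶜ) := by omega
    have h9 := Nat.mul_le_mul_left (Fintype.card Z) h8
    omega
  rcases Nat.le_one_iff_eq_zero_or_eq_one.1 h7 with h8 | h8
  · left
    intro l
    rw [← h8]
    exact le_antisymm (h2 l l0) (h2 l0 l)
  · right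
    intro l
    rw [← h8]
    exact le_antisymm (h2 l l0) (h2 l0 l)

private theorem dec_dec [FiniteDimensional K V] (S : Sys Z Γ) (ρ : Γ →* Module.End K V)
    (hk : 8 ≤ Fintype.card Z) (h1 : Module.finrank K V < 2 * Fintype.card Z) (v : V) :
    ∃ (v₀ : V) (y z : Z → V), (∀ a b, ρ (S.ep a * S.ep b) v₀ = v₀) ∧
      (∀ l, y l ∈ WS (fun i => ρ (S.ep i)) {l}) ∧ (∀ l, z l ∈ WS (fun i => ρ (S.ep i)) {l}ᶜ) ∧
      v = v₀ + ∑ l, (y l + z l) := by
  obtain ⟨w, hw, hv⟩ := WS_span (T := fun i => ρ (S.ep i))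
    (fun i j => by rw [← map_mul, ← map_mul, S.ep_comm])
    (fun i => by rw [← map_mul, S.ep_sq, map_one]) v
  refine ⟨w ∅ + w Finset.univ, fun l => w {l}, fun l => w {l}ᶜ, ?_, fun l => hw _,
    fun l => hw _, ?_⟩
  · intro a b
    rw [map_add, dec_act (hw ∅), dec_act (hw Finset.univ)]
    simp
  · rw [hv]
    refine dec_sum hk w (fun A hA => dec_card_cases hk ?_)
    refine lt_of_le_of_lt (choose_le (T := fun i => ρ (S.ep i)) (fun σ => dec_sym S ρ σ)
      (A := A) ?_) h1
    intro hbot
    have := hw A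
    rw [hbot, Submodule.mem_bot] at this
    exact hA this

theorem dec [FiniteDimensional K V] (S : Sys Z Γ) (ρ : Γ →* Module.End K V)
    (hk : 8 ≤ Fintype.card Z) (h1 : Module.finrank K V < 2 * Fintype.card Z) :
    (∀ a b, ρ (S.ep a * S.ep b) = 1) ∨ ∃ e : Z → V, Dec S ρ e := by
  rcases dec_finrank S ρ hk h1 with hp | hp
  · left
    intro a b
    ext v
    obtain ⟨v₀, y, z, h0, hy, hz, hv⟩ := dec_dec S ρ hk h1 v
    have hy0 : ∀ l, y l = 0 := by
      intro l
      have h2 : Module.finrank K (WS (fun i => ρ (S.ep i)) {l}) = 0 := by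
        have := hp l
        omega
      have h3 := hy l
      rwa [Submodule.finrank_eq_zero.1 h2, Submodule.mem_bot] at h3
    have hz0 : ∀ l, z l = 0 := by
      intro l
      have h2 : Module.finrank K (WS (fun i => ρ (S.ep i)) {l}ᶜ) = 0 := by
        have := hp l
        omega
      have h3 := hz l
      rwa [Submodule.finrank_eq_zero.1 h2, Submodule.mem_bot] at h3
    have h4 : v = v₀ := by
      rw [hv]
      simp [hy0, hz0]
    rw [h4, h0, Module.End.one_apply]
  · right
    have h2 : ∀ l : Z, ∃ e : V, e ≠ 0 ∧ (e ∈ WS (fun i => ρ (S.ep i)) {l} ∨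
        e ∈ WS (fun i => ρ (S.ep i)) {l}ᶜ) ∧
        ∀ y ∈ WS (fun i => ρ (S.ep i)) {l}, ∀ z ∈ WS (fun i => ρ (S.ep i)) {l}ᶜ,
          ∃ x : K, y + z = x • e := by
      intro l
      rcases Nat.eq_zero_or_pos (Module.finrank K (WS (fun i => ρ (S.ep i)) {l})) with h3 | h3
      · have h4 : Module.finrank K (WS (fun i => ρ (S.ep i)) {l}ᶜ) = 1 := by
          have := hp l
          omega
        obtain ⟨e, he, hs⟩ := finrank_eq_one_iff'.1 h4
        refine ⟨e, fun h => he (Subtype.ext h), Or.inr e.2, fun y hy z hz => ?_⟩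
        rw [Submodule.finrank_eq_zero.1 h3, Submodule.mem_bot] at hy
        obtain ⟨c, hc⟩ := hs ⟨z, hz⟩
        refine ⟨c, ?_⟩
        rw [hy, zero_add]
        exact (congrArg Subtype.val hc).symm
      · have h4 : Module.finrank K (WS (fun i => ρ (S.ep i)) {l}) = 1 := by
          have := hp l
          omega
        have h5 : Module.finrank K (WS (fun i => ρ (S.ep i)) {l}ᶜ) = 0 := by
          have := hp l
          omega
        obtain ⟨e, he, hs⟩ := finrank_eq_one_iff'.1 h4
        refine ⟨e, fun h => he (Subtype.ext h), Or.inl e.2, fun y hy z hz => ?_⟩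
        rw [Submodule.finrank_eq_zero.1 h5, Submodule.mem_bot] at hz
        obtain ⟨c, hc⟩ := hs ⟨y, hy⟩
        refine ⟨c, ?_⟩
        rw [hz, add_zero]
        exact (congrArg Subtype.val hc).symm
    choose e he hmem hs using h2
    refine ⟨e, ⟨he, ?_, ?_, ?_⟩⟩
    · intro l b hb
      rcases hmem l with h3 | h3
      · rw [dec_act h3, if_neg]
        simp [hb]
      · rw [dec_act h3, if_neg]
        simp [hb]
    · intro l a b ha hb
      rcases hmem l with h3 | h3
      · rw [dec_act h3, if_pos]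
        simp [ha, hb]
      · rw [dec_act h3, if_pos]
        simp [ha, hb]
    · intro v
      obtain ⟨v₀, y, z, h0, hy, hz, hv⟩ := dec_dec S ρ hk h1 v
      choose x hx using fun l => hs l (y l) (hy l) (z l) (hz l)
      refine ⟨v₀, x, h0, ?_⟩
      rw [hv]
      congr 1
      exact Finset.sum_congr rfl fun l _ => hx l

theorem dec_unique (hk : 3 ≤ Fintype.card Z) {e : Z → V} (he : Dec S ρ e) {v₀ : V}
    (h0 : ∀ a b, ρ (S.ep a * S.ep b) v₀ = v₀) {x : Z → K} (h : v₀ + ∑ l, x l • e l = 0) :
    v₀ = 0 ∧ x = 0 := by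
  have hex : ∀ s : Finset Z, s.card < 3 → ∃ c, c ∉ s := by
    intro s hs
    by_contra hc
    push Not at hc
    have h1 : s = Finset.univ := Finset.eq_univ_iff_forall.2 hc
    rw [h1, Finset.card_univ] at hs
    omega
  have h2 : ∀ a b, a ≠ b → (2 : K) • (x a • e a) + (2 : K) • (x b • e b) = 0 := by
    intro a b hab
    have h3 := congrArg (ρ (S.ep a * S.ep b)) h
    rw [map_add, map_sum, map_zero, h0 a b] at h3
    have h4 : ∑ l, (x l • e l - ρ (S.ep a * S.ep b) (x l • e l)) = 0 := by
      rw [Finset.sum_sub_distrib]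
      have h5 : ∑ l, x l • e l = - v₀ := by
        rw [eq_neg_iff_add_eq_zero, add_comm]
        exact h
      have h6 : ∑ l, ρ (S.ep a * S.ep b) (x l • e l) = - v₀ := by
        rw [eq_neg_iff_add_eq_zero, add_comm]
        exact h3
      rw [h5, h6, sub_self]
    have h5 : ∑ l ∈ ({a, b} : Finset Z), (x l • e l - ρ (S.ep a * S.ep b) (x l • e l)) =
        ∑ l, (x l • e l - ρ (S.ep a * S.ep b) (x l • e l)) := by
      refine Finset.sum_subset (Finset.subset_univ _) (fun l _ hl => ?_)
      rw [Finset.mem_insert, Finset.mem_singleton, not_or] at hl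
      rw [map_smul, he.pos l a b (fun h => hl.1 h.symm) (fun h => hl.2 h.symm), sub_self]
    rw [h4, Finset.sum_pair hab, map_smul, map_smul, he.neg a b hab.symm, S.ep_comm a b,
      he.neg b a hab] at h5
    rw [← h5, two_smul, two_smul, smul_neg, smul_neg, sub_neg_eq_add, sub_neg_eq_add]
  have hx : ∀ a, x a = 0 := by
    intro a
    obtain ⟨b, hb⟩ := hex {a} (by rw [Finset.card_singleton]; norm_num)
    rw [Finset.mem_singleton] at hb
    obtain ⟨c, hc⟩ := hex {a, b} (lt_of_le_of_lt Finset.card_le_two (by norm_num))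
    rw [Finset.mem_insert, Finset.mem_singleton, not_or] at hc
    have e1 := h2 a b (Ne.symm hb)
    have e2 := h2 a c (Ne.symm hc.1)
    have e3 := h2 b c (Ne.symm hc.2)
    have e4 : (4 : K) • (x a • e a) = 0 := by
      have e5 : (4 : K) • (x a • e a) =
          ((2 : K) • (x a • e a) + (2 : K) • (x b • e b)) +
          ((2 : K) • (x a • e a) + (2 : K) • (x c • e c)) -
          ((2 : K) • (x b • e b) + (2 : K) • (x c • e c)) := by
        module
      rw [e5, e1, e2, e3]
      simp
    rcases smul_eq_zero.1 e4 with h6 | h6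
    · exact absurd h6 (by norm_num)
    · rcases smul_eq_zero.1 h6 with h7 | h7
      · exact h7
      · exact absurd h7 (he.ne a)
  refine ⟨?_, funext hx⟩
  rw [← h]
  simp [hx]

end STAB
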