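import Mathlib
import Pool.Agent.Helper40.STAB.Defs
import Pool.Agent.Helper40.STAB.DecL

/-!
# STAB-20 ENorm: normalising the vectors `e l`

PROOF. `k = card Z ≥ 8`. LINE: if `ρ (ep l * ep b) v = -v` for all `b ≠ l` then `v = x • e l` for some `x` (write `v = v₀ + ∑ x m • e m`, subtract the image, use
`dec_unique`). `ρ (sg σ)` maps the line of `l` to the line of `σ l` (`S.sg_ep`), injectively. For a swap `t = swap a b` and `l ≠ a, b`: `ρ (sg t) (e l) = s • e l` with
`s * s = 1`; `s` does not depend on `(t, l)`: two triples `(a, b, l)`, `(a', b', l')` of different letters are related by a permutation `σ`; apply `ρ (sg σ)`.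
So `s = 1` or `s = -1` for all. Let `ψ σ = ρ (sg σ)` if `s = 1` and `ψ σ = (sign σ : K) • ρ (sg σ)` if `s = -1`: a homomorphism `Perm Z →* End V` in which all swaps fixing
`l` fix `e l`. Every `σ` with `σ l = l` is a product of swaps fixing `l` (it is `Equiv.Perm.ofSubtype` of a permutation of `{z // z ≠ l}`,
`Equiv.Perm.swap_induction_on`), so `ψ σ (e l) = e l`. Fix `l₀` and put `e' l = ψ (swap l₀ l) (e l₀)`. For all `σ, l`: `(swap l₀ (σ l))⁻¹ * σ * swap l₀ l` fixes `l₀`, so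
`ψ σ (e' l) = e' (σ l)`. If `sign σ = 1` then `ψ σ = ρ (sg σ)`. `e' l` is a nonzero multiple of `e l`, so `Dec S ρ e'`.
-/

set_option autoImplicit false

namespace STAB

variable {Z Γ K V : Type} [Fintype Z] [DecidableEq Z] [Group Γ] [Field K] [CharZero K]
  [AddCommGroup V] [Module K V] {S : Sys Z Γ} {ρ : Γ →* Module.End K V}

omit [CharZero K] in
private theorem third {Z : Type} [Fintype Z] [DecidableEq Z] (hk : 8 ≤ Fintype.card Z) (a b : Z) :
    ∃ c, c ≠ a ∧ c ≠ b := by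
  have h : ({a, b} : Finset Z).card < (Finset.univ : Finset Z).card := by
    refine lt_of_le_of_lt Finset.card_le_two ?_
    rw [Finset.card_univ]
    omega
  obtain ⟨c, _, hc⟩ := Finset.exists_mem_notMem_of_card_lt_card h
  refine ⟨c, fun h1 => hc ?_, fun h1 => hc ?_⟩
  · rw [h1]; exact Finset.mem_insert_self _ _
  · rw [h1]; exact Finset.mem_insert_of_mem (Finset.mem_singleton_self _)

private theorem line (hk : 8 ≤ Fintype.card Z) {e : Z → V} (he : Dec S ρ e) (l : Z) (v : V)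
    (hv : ∀ b, b ≠ l → ρ (S.ep l * S.ep b) v = -v) : ∃ x : K, v = x • e l := by
  obtain ⟨v₀, x, h0, rfl⟩ := he.span v
  have key : ∀ b, b ≠ l → v₀ = 0 ∧ ∀ m, m ≠ l → m ≠ b → x m = 0 := by
    intro b hb
    have h1 := hv b hb
    have h2 : ρ (S.ep l * S.ep b) (v₀ + ∑ m, x m • e m) =
        v₀ + ∑ m, (if m = l ∨ m = b then -x m else x m) • e m := by
      rw [map_add, h0, map_sum]
      congr 1
      refine Finset.sum_congr rfl fun m _ => ?_
      rw [map_smul]
      by_cases hml : m = l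
      · subst hml
        rw [he.neg m b hb, if_pos (Or.inl rfl), smul_neg, neg_smul]
      · by_cases hmb : m = b
        · subst hmb
          rw [S.ep_comm l m, he.neg m l (Ne.symm hml), if_pos (Or.inr rfl), smul_neg, neg_smul]
        · rw [he.pos m l b (Ne.symm hml) (Ne.symm hmb), if_neg (by tauto)]
    have h3 : (2 : K) • v₀ + ∑ m, (if m = l ∨ m = b then 0 else 2 * x m) • e m = 0 := by
      have h4 : (v₀ + ∑ m, (if m = l ∨ m = b then -x m else x m) • e m) +
          (v₀ + ∑ m, x m • e m) = 0 := by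
        rw [← h2, h1, neg_add_cancel]
      rw [← h4, two_smul]
      have h5 : ∑ m, (if m = l ∨ m = b then 0 else 2 * x m) • e m =
          ∑ m, (if m = l ∨ m = b then -x m else x m) • e m + ∑ m, x m • e m := by
        rw [← Finset.sum_add_distrib]
        refine Finset.sum_congr rfl fun m _ => ?_
        rw [← add_smul]
        congr 1
        split_ifs
        · ring
        · ring
      rw [h5]
      abel
    obtain ⟨h4, h5⟩ := dec_unique (by omega) he (v₀ := (2 : K) • v₀)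
      (fun a b => by rw [map_smul, h0]) h3
    refine ⟨?_, fun m hm hmb => ?_⟩
    · exact (smul_eq_zero.1 h4).resolve_left two_ne_zero
    · have h6 := congrFun h5 m
      simp only [Pi.zero_apply] at h6
      rw [if_neg (by tauto)] at h6
      exact (mul_eq_zero.1 h6).resolve_left two_ne_zero
  obtain ⟨b, hb, _⟩ := third hk l l
  obtain ⟨b', hb', hbb⟩ := third hk l b
  refine ⟨x l, ?_⟩
  rw [(key b hb).1, zero_add]
  refine Finset.sum_eq_single l (fun m _ hm => ?_) (fun h => absurd (Finset.mem_univ l) h)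
  have : x m = 0 := by
    by_cases hmb : m = b
    · exact (key b' hb').2 m hm (by rw [hmb]; exact Ne.symm hbb)
    · exact (key b hb).2 m hm hmb
  rw [this, zero_smul]

private theorem triple {a b l a' b' l' : Z} (h1 : a ≠ b) (h2 : l ≠ a) (h3 : l ≠ b)
    (h1' : a' ≠ b') (h2' : l' ≠ a') (h3' : l' ≠ b') :
    ∃ σ : Equiv.Perm Z, σ a = a' ∧ σ b = b' ∧ σ l = l' := by
  have hinj : ∀ {a b l : Z}, a ≠ b → l ≠ a → l ≠ b → Function.Injective ![a, b, l] := by
    intro a b l h1 h2 h3 i j hij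
    fin_cases i <;> fin_cases j <;> simp_all
  have : MulAction.IsMultiplyPretransitive (Equiv.Perm Z) Z 3 :=
    Equiv.Perm.isMultiplyPretransitive Z 3
  obtain ⟨σ, hσ⟩ := MulAction.exists_smul_eq (Equiv.Perm Z)
    (⟨![a, b, l], hinj h1 h2 h3⟩ : Fin 3 ↪ Z) ⟨![a', b', l'], hinj h1' h2' h3'⟩
  refine ⟨σ, ?_, ?_, ?_⟩
  · exact congrArg (fun f : Fin 3 ↪ Z => f 0) hσ
  · exact congrArg (fun f : Fin 3 ↪ Z => f 1) hσ
  · exact congrArg (fun f : Fin 3 ↪ Z => f 2) hσ

private theorem ap_inv (σ : Equiv.Perm Z) (b : Z) : σ (σ⁻¹ b) = b := by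
  rw [← Equiv.Perm.mul_apply, mul_inv_cancel]
  rfl

private theorem inv_ap (σ : Equiv.Perm Z) (b : Z) : σ⁻¹ (σ b) = b := by
  rw [← Equiv.Perm.mul_apply, inv_mul_cancel]
  rfl

theorem e_norm (hk : 8 ≤ Fintype.card Z) {e : Z → V} (he : Dec S ρ e) :
    ∃ e' : Z → V, Dec S ρ e' ∧
      ∀ σ : Equiv.Perm Z, Equiv.Perm.sign σ = 1 → ∀ l, ρ (S.sg σ) (e' l) = e' (σ l) := by
  have hex : ∀ (σ : Equiv.Perm Z) (l : Z), ∃ c : K, ρ (S.sg σ) (e l) = c • e (σ l) := by
    intro σ l
    refine line hk he (σ l) _ (fun b hb => ?_)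
    have hb' : σ⁻¹ b ≠ l := by
      intro h
      apply hb
      rw [← h, ap_inv]
    have h1 : S.ep (σ l) * S.ep b * S.sg σ = S.sg σ * (S.ep l * S.ep (σ⁻¹ b)) := by
      have h2 := S.sg_ep σ l
      have h3 := S.sg_ep σ (σ⁻¹ b)
      rw [ap_inv] at h3
      rw [← h2, ← h3]
      group
    rw [← Module.End.mul_apply, ← map_mul, h1, map_mul, Module.End.mul_apply,
      he.neg l _ hb', map_neg]
  choose c hc using hex
  have hmul : ∀ (σ τ : Equiv.Perm Z) (l : Z), c (σ * τ) l = c σ (τ l) * c τ l := by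
    intro σ τ l
    apply smul_left_injective K (he.ne ((σ * τ) l))
    show c (σ * τ) l • e ((σ * τ) l) = (c σ (τ l) * c τ l) • e ((σ * τ) l)
    rw [← hc, map_mul, map_mul, Module.End.mul_apply, hc τ l, map_smul, hc σ (τ l), smul_smul,
      mul_comm]
    rfl
  have hone : ∀ l : Z, c 1 l = 1 := by
    intro l
    apply smul_left_injective K (he.ne l)
    show c 1 l • e l = (1 : K) • e l
    have h := hc 1 l
    rw [map_one, map_one] at h
    rw [one_smul]
    exact h.symm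
  have hinv : ∀ (σ : Equiv.Perm Z) (l : Z), c σ l * c σ⁻¹ (σ l) = 1 := by
    intro σ l
    have h := hmul σ⁻¹ σ l
    rw [inv_mul_cancel, hone] at h
    rw [mul_comm]
    exact h.symm
  have hindep : ∀ {a b l a' b' l' : Z}, a ≠ b → l ≠ a → l ≠ b → a' ≠ b' → l' ≠ a' → l' ≠ b' →
      c (Equiv.swap a' b') l' = c (Equiv.swap a b) l := by
    intro a b l a' b' l' h1 h2 h3 h1' h2' h3'
    obtain ⟨σ, rfl, rfl, rfl⟩ := triple h1 h2 h3 h1' h2' h3'
    rw [Equiv.swap_apply_apply, hmul, hmul]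
    rw [inv_ap, Equiv.swap_apply_of_ne_of_ne h2 h3]
    calc c σ l * c (Equiv.swap a b) l * c σ⁻¹ (σ l) =
        c (Equiv.swap a b) l * (c σ l * c σ⁻¹ (σ l)) := by ring
      _ = c (Equiv.swap a b) l := by rw [hinv, mul_one]
  have : Nonempty Z := by
    rw [← Fintype.card_pos_iff]
    omega
  obtain ⟨l₀⟩ := ‹Nonempty Z›
  obtain ⟨a₀, ha₀, _⟩ := third hk l₀ l₀
  obtain ⟨b₀, hb₀, hab₀⟩ := third hk l₀ a₀
  have hs : c (Equiv.swap a₀ b₀) l₀ * c (Equiv.swap a₀ b₀) l₀ = 1 := by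
    have h := hmul (Equiv.swap a₀ b₀) (Equiv.swap a₀ b₀) l₀
    rw [Equiv.swap_mul_self, hone, Equiv.swap_apply_of_ne_of_ne (Ne.symm ha₀) (Ne.symm hb₀)] at h
    exact h.symm
  obtain ⟨χ, hχm, hχ1, hχs⟩ : ∃ χ : Equiv.Perm Z → K, (∀ σ τ, χ (σ * τ) = χ σ * χ τ) ∧
      (∀ σ, Equiv.Perm.sign σ = 1 → χ σ = 1) ∧
      ∀ a b l, a ≠ b → l ≠ a → l ≠ b → χ (Equiv.swap a b) * c (Equiv.swap a b) l = 1 := by
    rcases mul_self_eq_one_iff.1 hs with h | h
    · refine ⟨fun _ => 1, fun _ _ => by simp, fun _ _ => rfl, fun a b l h1 h2 h3 => ?_⟩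
      rw [one_mul, hindep (Ne.symm hab₀) (Ne.symm ha₀) (Ne.symm hb₀) h1 h2 h3, h]
    · refine ⟨fun σ => (((Equiv.Perm.sign σ : ℤˣ) : ℤ) : K), fun σ τ => ?_, fun σ h1 => ?_,
        fun a b l h1 h2 h3 => ?_⟩
      · simp [map_mul]
      · simp [h1]
      · rw [hindep (Ne.symm hab₀) (Ne.symm ha₀) (Ne.symm hb₀) h1 h2 h3, h]
        show (((Equiv.Perm.sign (Equiv.swap a b) : ℤˣ) : ℤ) : K) * -1 = 1
        rw [Equiv.Perm.sign_swap h1]
        simp
  have hfix : ∀ (m : ℕ) (σ : Equiv.Perm Z) (l : Z), σ.support.card < m → σ l = l →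
      χ σ * c σ l = 1 := by
    intro m
    induction m with
    | zero => intro σ l h; exact absurd h (Nat.not_lt_zero _)
    | succ m ih =>
      intro σ l hcard hl
      by_cases h1 : σ = 1
      · rw [h1, hone, mul_one]
        exact hχ1 1 (map_one _)
      · have h2 : ∃ a, σ a ≠ a := by
          by_contra hcon
          apply h1
          push Not at hcon
          exact Equiv.ext hcon
        obtain ⟨a, ha⟩ := h2
        have hla : l ≠ a := by
          intro h
          apply ha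
          rw [← h, hl]
        have hlσ : l ≠ σ a := by
          intro h
          apply hla
          apply σ.injective
          rw [hl, ← h]
        have h3 := Equiv.Perm.card_support_swap_mul ha
        have h4 : (Equiv.swap a (σ a) * σ) l = l := by
          rw [Equiv.Perm.mul_apply, hl, Equiv.swap_apply_of_ne_of_ne hla hlσ]
        have h5 := ih (Equiv.swap a (σ a) * σ) l (by omega) h4
        have h6 : σ = Equiv.swap a (σ a) * (Equiv.swap a (σ a) * σ) := by
          rw [← mul_assoc, Equiv.swap_mul_self, one_mul]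
        have h7 := hχs a (σ a) l (Ne.symm ha) hla hlσ
        have h8 : χ σ * c σ l = (χ (Equiv.swap a (σ a)) * c (Equiv.swap a (σ a)) l) *
            (χ (Equiv.swap a (σ a) * σ) * c (Equiv.swap a (σ a) * σ) l) := by
          conv_lhs => rw [h6, hχm, hmul, h4]
          ring
        rw [h8, h7, h5, one_mul]
  have hfix' : ∀ (σ : Equiv.Perm Z) (l : Z), σ l = l → χ σ * c σ l = 1 := fun σ l h =>
    hfix _ σ l (Nat.lt_succ_self _) h
  -- the new vectors
  have hprod : ∀ (σ : Equiv.Perm Z) (l : Z),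
      (χ σ * c σ l) * (χ (Equiv.swap l₀ l) * c (Equiv.swap l₀ l) l₀) =
        χ (Equiv.swap l₀ (σ l)) * c (Equiv.swap l₀ (σ l)) l₀ := by
    intro σ l
    have h1 := hfix' (Equiv.swap l₀ (σ l) * (σ * Equiv.swap l₀ l)) l₀ (by
      rw [Equiv.Perm.mul_apply, Equiv.Perm.mul_apply, Equiv.swap_apply_left,
        Equiv.swap_apply_right])
    have h2 := hfix' (Equiv.swap l₀ (σ l) * Equiv.swap l₀ (σ l)) l₀ (by
      rw [Equiv.swap_mul_self]
      rfl)
    rw [hχm, hχm, hmul, hmul, Equiv.Perm.mul_apply, Equiv.swap_apply_left] at h1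
    rw [hχm, hmul, Equiv.swap_apply_left] at h2
    have h3 : (χ (Equiv.swap l₀ (σ l)) * c (Equiv.swap l₀ (σ l)) (σ l)) *
        ((χ σ * c σ l) * (χ (Equiv.swap l₀ l) * c (Equiv.swap l₀ l) l₀)) = 1 := by
      rw [← h1]; ring
    have h4 : (χ (Equiv.swap l₀ (σ l)) * c (Equiv.swap l₀ (σ l)) (σ l)) *
        (χ (Equiv.swap l₀ (σ l)) * c (Equiv.swap l₀ (σ l)) l₀) = 1 := by
      rw [← h2]; ring
    have h5 : χ (Equiv.swap l₀ (σ l)) * c (Equiv.swap l₀ (σ l)) (σ l) ≠ 0 := by
      intro h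
      rw [h, zero_mul] at h4
      exact zero_ne_one h4
    exact mul_left_cancel₀ h5 (h3.trans h4.symm)
  have hne : ∀ l, χ (Equiv.swap l₀ l) * c (Equiv.swap l₀ l) l₀ ≠ 0 := by
    intro l h
    have h1 := hprod (Equiv.swap l₀ l)⁻¹ l
    have h2 : (Equiv.swap l₀ l)⁻¹ l = l₀ := by
      rw [Equiv.swap_inv, Equiv.swap_apply_right]
    rw [h, mul_zero, h2, Equiv.swap_self] at h1
    have h3 := hfix' (Equiv.refl Z) l₀ rfl
    rw [← h1] at h3
    exact zero_ne_one h3
  refine ⟨fun l => (χ (Equiv.swap l₀ l) * c (Equiv.swap l₀ l) l₀) • e l, ?_, ?_⟩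
  · refine ⟨fun l => smul_ne_zero (hne l) (he.ne l), fun l b hb => ?_, fun l a b ha hb => ?_,
      fun v => ?_⟩
    · rw [map_smul, he.neg l b hb, smul_neg]
    · rw [map_smul, he.pos l a b ha hb]
    · obtain ⟨v₀, x, h0, h1⟩ := he.span v
      refine ⟨v₀, fun l => x l * (χ (Equiv.swap l₀ l) * c (Equiv.swap l₀ l) l₀)⁻¹, h0, ?_⟩
      rw [h1]
      congr 1
      refine Finset.sum_congr rfl fun l _ => ?_
      rw [smul_smul, mul_assoc, inv_mul_cancel₀ (hne l), mul_one]
  · intro σ hσ l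
    show ρ (S.sg σ) ((χ (Equiv.swap l₀ l) * c (Equiv.swap l₀ l) l₀) • e l) =
      (χ (Equiv.swap l₀ (σ l)) * c (Equiv.swap l₀ (σ l)) l₀) • e (σ l)
    rw [map_smul, hc, smul_smul, ← hprod σ l, hχ1 σ hσ, one_mul, mul_comm]

end STAB
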