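import Mathlib
import Pool.Agent.Helper40.STAB.Defs
import Pool.Agent.Helper40.STAB.WtLem
import Pool.Agent.Helper40.STAB.DecL

/-!
# STAB-19 EvenTriv: even permutations act trivially on the fixed part

Let `V₀ = {v | ∀ a b, ρ (ep a * ep b) v = v}` (a submodule), `k = card Z`, `h = k / 2 ≥ 4`.
PROOF. `finrank V₀ + k = finrank V` (`he.span`, `dec_unique`: `(v₀, x) ↦ v₀ + ∑ x l • e l` is a linear equivalence `V₀ × (Z → K) ≃ V`), so `finrank V₀ < h`. `V₀` is stable under
`ρ (sg σ)` (`S.sg_ep`). Choose an injection `ι : Fin h × Bool → Z`; `t a = swap (ι (a, false)) (ι (a, true))` are commuting involutions; for `τ : Perm (Fin h)` the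
permutation of `Z` induced by `τ × id` (extended by the identity: `Equiv.Perm.viaFintypeEmbedding` or `extendDomain`) conjugates `t a` to `t (τ a)`
(`Equiv.mul_swap_eq_swap_mul`). `choose_le` for the restrictions `T a` of `ρ (sg (t a))` to `V₀`: `WS T A ≠ ⊥` implies `h.choose A.card ≤ finrank V₀ < h`, so
`A = ∅` or `A = univ` (`h ≤ h.choose j` for `1 ≤ j ≤ h - 1`). `WS_span`: `T a * T b = 1` on `V₀`, i.e. `T a = T b` (involutions). So the swaps `t 0`, `t 1` act on `V₀` by the same
operator; conjugating with a permutation, any two disjoint swaps act on `V₀` by the same operator, and two swaps with a common letter too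
(both are equal to a third swap disjoint from both, `k ≥ 5`). Let `θ` be this operator, `θ θ = 1`. By `Equiv.Perm.swap_induction_on`:
`ρ (sg σ) v₀ = v₀` if `sign σ = 1` and `= θ v₀` if `sign σ = -1`.
-/

set_option autoImplicit false

namespace STAB

variable {Z Γ K V : Type} [Fintype Z] [DecidableEq Z] [Group Γ] [Field K] [CharZero K]
  [AddCommGroup V] [Module K V] {S : Sys Z Γ} {ρ : Γ →* Module.End K V}

private theorem le_choose (n : ℕ) : ∀ j, 1 ≤ j → j < n → n ≤ n.choose j := by
  induction n with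
  | zero =>
    intro j _ h
    omega
  | succ n ih =>
    intro j h1 h2
    obtain ⟨i, rfl⟩ : ∃ i, j = i + 1 := ⟨j - 1, by omega⟩
    by_cases h3 : i + 1 = n
    · rw [h3, Nat.choose_succ_self_right]
    · rw [Nat.choose_succ_succ]
      have h4 := ih (i + 1) h1 (by omega)
      have h5 := Nat.choose_pos (show i ≤ n by omega)
      rw [Nat.succ_eq_add_one]
      omega

omit [Fintype Z] in
private theorem ep_sg (S : Sys Z Γ) (σ : Equiv.Perm Z) (a : Z) :
    S.ep a * S.sg σ = S.sg σ * S.ep (σ⁻¹ a) := by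
  have h := S.sg_ep σ (σ⁻¹ a)
  have h0 : σ (σ⁻¹ a) = a := by
    rw [← Equiv.Perm.mul_apply, mul_inv_cancel, Equiv.Perm.one_apply]
  rw [h0, mul_inv_eq_iff_eq_mul] at h
  exact h.symm

theorem even_triv [FiniteDimensional K V] (hk : 8 ≤ Fintype.card Z) {e : Z → V}
    (he : Dec S ρ e) (hq : Module.finrank K V < Fintype.card Z + Fintype.card Z / 2)
    {σ : Equiv.Perm Z} (hσ : Equiv.Perm.sign σ = 1) {v₀ : V}
    (h0 : ∀ a b, ρ (S.ep a * S.ep b) v₀ = v₀) : ρ (S.sg σ) v₀ = v₀ := by
  classical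
  have hcomp : ∀ (g g' : Γ) (v : V), ρ g (ρ g' v) = ρ (g * g') v := by
    intro g g' v
    rw [map_mul, Module.End.mul_apply]
  obtain ⟨V₀, hV₀⟩ : ∃ V₀ : Submodule K V, ∀ v, v ∈ V₀ ↔ ∀ a b, ρ (S.ep a * S.ep b) v = v :=
    ⟨{ carrier := {v | ∀ a b, ρ (S.ep a * S.ep b) v = v}
       add_mem' := fun {u w} hu hw a b => by rw [map_add, hu a b, hw a b]
       zero_mem' := fun a b => map_zero _
       smul_mem' := fun c w hw a b => by rw [map_smul, hw a b] }, fun _ => Iff.rfl⟩
  have stab : ∀ (τ : Equiv.Perm Z) (v : V), v ∈ V₀ → ρ (S.sg τ) v ∈ V₀ := by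
    intro τ v hv
    rw [hV₀] at hv ⊢
    intro a b
    rw [hcomp, mul_assoc, ep_sg S τ b, ← mul_assoc, ep_sg S τ a, mul_assoc, ← hcomp, hv]
  -- the dimension
  have hdim : Module.finrank K V₀ + Fintype.card Z ≤ Module.finrank K V := by
    have h1 : Function.Injective (V₀.subtype.coprod (Fintype.linearCombination K e)) := by
      rw [← LinearMap.ker_eq_bot, LinearMap.ker_eq_bot']
      rintro ⟨v, x⟩ hvx
      rw [LinearMap.coprod_apply, Fintype.linearCombination_apply, Submodule.subtype_apply] at hvx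
      obtain ⟨h2, h3⟩ := dec_unique (by omega) he ((hV₀ v).1 v.2) hvx
      exact Prod.ext (Subtype.ext h2) h3
    have h2 := LinearMap.finrank_le_finrank_of_injective h1
    rwa [Module.finrank_prod, Module.finrank_fintype_fun_eq_card] at h2
  obtain ⟨h, hh⟩ : ∃ h, h = Fintype.card Z / 2 := ⟨_, rfl⟩
  have hV₀h : Module.finrank K V₀ < h := by omega
  have hh4 : 4 ≤ h := by omega
  obtain ⟨ι⟩ : Nonempty (Fin h × Bool ↪ Z) := by
    rw [Function.Embedding.nonempty_iff_card_le, Fintype.card_prod, Fintype.card_fin,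
      Fintype.card_bool]
    omega
  obtain ⟨t, ht⟩ : ∃ t : Fin h → Equiv.Perm Z, ∀ a, t a = Equiv.swap (ι (a, false)) (ι (a, true)) :=
    ⟨_, fun _ => rfl⟩
  have htt : ∀ a, t a * t a = 1 := by
    intro a
    rw [ht, Equiv.swap_mul_self]
  have htc : ∀ a b, t a * t b = t b * t a := by
    intro a b
    by_cases hab : a = b
    · rw [hab]
    · have h1 : Equiv.Perm.Disjoint (t a) (t b) := by
        rw [ht, ht]
        refine Equiv.Perm.disjoint_swap_swap ?_
        simp only [List.nodup_cons, List.mem_cons, List.not_mem_nil, or_false,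
          EmbeddingLike.apply_eq_iff_eq, Prod.mk.injEq, hab, false_and, not_false_eq_true,
          List.nodup_nil, and_true, or_self]
        simp
      exact h1.commute
  have hconj : ∀ τ : Equiv.Perm (Fin h), ∃ τ' : Equiv.Perm Z, ∀ a, τ' * t a = t (τ a) * τ' := by
    intro τ
    refine ⟨(Equiv.Perm.viaFintypeEmbedding (Equiv.prodCongr τ (Equiv.refl Bool)) ι), fun a => ?_⟩
    rw [ht, ht, Equiv.mul_swap_eq_swap_mul, Equiv.Perm.viaFintypeEmbedding_apply_image,
      Equiv.Perm.viaFintypeEmbedding_apply_image]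
    rfl
  obtain ⟨T, hT⟩ : ∃ T : Fin h → Module.End K V₀, ∀ a v, ((T a v : V₀) : V) = ρ (S.sg (t a)) v :=
    ⟨fun a => (ρ (S.sg (t a))).restrict (stab (t a)), fun _ _ => rfl⟩
  have hc : ∀ a b, T a * T b = T b * T a := by
    intro a b
    refine LinearMap.ext fun v => Subtype.ext ?_
    rw [Module.End.mul_apply, Module.End.mul_apply, hT, hT, hT, hT, hcomp, hcomp, ← map_mul, ← map_mul,
      htc]
  have hs : ∀ a, T a * T a = 1 := by
    intro a
    refine LinearMap.ext fun v => Subtype.ext ?_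
    rw [Module.End.mul_apply, hT, hT, hcomp, ← map_mul, htt, map_one, map_one]
    rfl
  have hS : ∀ τ : Equiv.Perm (Fin h), ∃ g : V₀ ≃ₗ[K] V₀, ∀ a v, g (T a v) = T (τ a) (g v) := by
    intro τ
    obtain ⟨τ', hτ'⟩ := hconj τ
    obtain ⟨g, hg⟩ : ∃ g : V₀ ≃ₗ[K] V₀, ∀ v, ((g v : V₀) : V) = ρ (S.sg τ') v := by
      refine ⟨LinearEquiv.ofLinearMap ((ρ (S.sg τ')).restrict (stab τ'))
        ((ρ (S.sg τ'⁻¹)).restrict (stab τ'⁻¹)) ?_ ?_, fun _ => rfl⟩
      · refine LinearMap.ext fun v => Subtype.ext ?_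
        change ρ (S.sg τ') (ρ (S.sg τ'⁻¹) v) = v
        rw [hcomp, ← map_mul, mul_inv_cancel, map_one, map_one]
        rfl
      · refine LinearMap.ext fun v => Subtype.ext ?_
        change ρ (S.sg τ'⁻¹) (ρ (S.sg τ') v) = v
        rw [hcomp, ← map_mul, inv_mul_cancel, map_one, map_one]
        rfl
    refine ⟨g, fun a v => Subtype.ext ?_⟩
    rw [hg, hT, hT, hg, hcomp, hcomp, ← map_mul, ← map_mul, hτ']
  have hT01 : ∀ a b v, T a v = T b v := by
    intro a b v
    obtain ⟨w, hw, rfl⟩ := WS_span hc hs v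
    rw [map_sum, map_sum]
    refine Finset.sum_congr rfl fun A _ => ?_
    by_cases hA : WS T A = ⊥
    · have h1 := hw A
      rw [hA, Submodule.mem_bot] at h1
      rw [h1, map_zero, map_zero]
    · have h1 := choose_le hS hA
      rw [Fintype.card_fin] at h1
      have h2 : A.card ≤ h := by
        have := A.card_le_univ
        rwa [Fintype.card_fin] at this
      have h3 : A = ∅ ∨ A = Finset.univ := by
        by_contra hcon
        rw [not_or] at hcon
        have h4 : 1 ≤ A.card := by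
          rw [Nat.one_le_iff_ne_zero, Ne, Finset.card_eq_zero]
          exact hcon.1
        have h5 : A.card < h := by
          refine lt_of_le_of_ne h2 fun h6 => hcon.2 ?_
          rw [← Finset.card_eq_iff_eq_univ, Fintype.card_fin]
          exact h6
        have h7 := le_choose h A.card h4 h5
        omega
      have h4 : ∀ c, T c (w A) = if c ∈ A then -w A else w A := hw A
      rw [h4 a, h4 b]
      rcases h3 with h3 | h3
      · rw [h3, if_neg (Finset.notMem_empty a), if_neg (Finset.notMem_empty b)]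
      · rw [h3, if_pos (Finset.mem_univ a), if_pos (Finset.mem_univ b)]
  -- the normal subgroup
  obtain ⟨N, hN⟩ : ∃ N : Subgroup (Equiv.Perm Z), ∀ τ, τ ∈ N ↔ ∀ v ∈ V₀, ρ (S.sg τ) v = v := by
    refine ⟨{ carrier := {τ | ∀ v ∈ V₀, ρ (S.sg τ) v = v}
              mul_mem' := ?_
              one_mem' := ?_
              inv_mem' := ?_ }, fun _ => Iff.rfl⟩
    · intro τ τ' h1 h2 v hv
      rw [map_mul, ← hcomp, h2 v hv, h1 v hv]
    · intro v _
      rw [map_one, map_one]
      rfl
    · intro τ h1 v hv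
      have h2 := h1 v hv
      conv_lhs => rw [← h2]
      rw [hcomp, ← map_mul, inv_mul_cancel, map_one, map_one]
      rfl
  have hnorm : N.Normal := by
    refine ⟨fun τ hτ τ' => ?_⟩
    rw [hN] at hτ ⊢
    intro v hv
    rw [map_mul S.sg, map_mul S.sg, ← hcomp, ← hcomp, hτ _ (stab _ v hv), hcomp, ← map_mul,
      mul_inv_cancel, map_one, map_one]
    rfl
  have hnt : Nontrivial N := by
    obtain ⟨a, ha⟩ : ∃ a : Fin h, (a : ℕ) = 0 := ⟨⟨0, by omega⟩, rfl⟩
    obtain ⟨b, hb⟩ : ∃ b : Fin h, (b : ℕ) = 1 := ⟨⟨1, by omega⟩, rfl⟩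
    have hab : a ≠ b := by
      intro e
      rw [e] at ha
      omega
    have hmem : t a * t b ∈ N := by
      rw [hN]
      intro v hv
      have h1 := congrArg (Subtype.val) (hT01 a b ⟨v, hv⟩)
      rw [hT, hT] at h1
      rw [map_mul, ← hcomp]
      rw [← h1, hcomp, ← map_mul, htt, map_one, map_one]
      rfl
    rw [Subgroup.nontrivial_iff_exists_ne_one]
    refine ⟨t a * t b, hmem, fun h1 => ?_⟩
    have h2 := congrArg (fun τ : Equiv.Perm Z => τ (ι (b, false))) h1
    beta_reduce at h2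
    rw [Equiv.Perm.mul_apply, ht b, Equiv.swap_apply_left, Equiv.Perm.one_apply, ht a,
      Equiv.swap_apply_of_ne_of_ne] at h2
    · have h3 := ι.injective h2
      rw [Prod.mk.injEq] at h3
      exact Bool.noConfusion h3.2
    · intro h3
      have h4 := ι.injective h3
      rw [Prod.mk.injEq] at h4
      exact hab h4.1.symm
    · intro h3
      have h4 := ι.injective h3
      rw [Prod.mk.injEq] at h4
      exact hab h4.1.symm
  have hA := Equiv.Perm.alternatingGroup_le_of_normal (α := Z) (by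
    rw [Nat.card_eq_fintype_card]
    omega) (N := N) hnt
  exact (hN σ).1 (hA (Equiv.Perm.mem_alternatingGroup.2 hσ)) v₀ ((hV₀ v₀).2 h0)

end STAB
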