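import Mathlib
import Pool.Agent.Helper40.STAB.Defs
import Pool.Agent.Helper40.STAB.DecL
import Pool.Agent.Helper40.STAB.EvenTriv
import Pool.Agent.Helper40.STAB.ENorm

/-!
# STAB-21 CoordL: coordinates

PROOF. Take `e'` from `e_norm`. `V₀ = {v | ∀ a b, ρ (ep a * ep b) v = v}`, `q = finrank V₀`, `V₀ ≃ (Fin q → K)` (`Module.finBasis`, `Basis.equivFun`), and
`(v₀, x) ↦ v₀ + ∑ x l • e' l` is a linear equivalence `V₀ × (Z → K) ≃ V` (`Dec.span`, `dec_unique`). `Φ` is the resulting equivalence, `q + card Z = finrank V`. `Coord`: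
`ρ (ep a * ep b)` fixes `V₀`, `e' l ↦ - e' l` for `l = a, b` (`a ≠ b`; for `l = b` use `ep_comm`), `e' l ↦ e' l` otherwise; `ρ (sg σ)`, `σ` even, fixes `V₀` (`even_triv`) and
`e' l ↦ e' (σ l)`.
-/

set_option autoImplicit false

namespace STAB

variable {Z Γ K V : Type} [Fintype Z] [DecidableEq Z] [Group Γ] [Field K] [CharZero K]
  [AddCommGroup V] [Module K V] {S : Sys Z Γ} {ρ : Γ →* Module.End K V}

theorem coord_exists [FiniteDimensional K V] (hk : 8 ≤ Fintype.card Z) {e : Z → V}
    (he : Dec S ρ e) (hq : Module.finrank K V < Fintype.card Z + Fintype.card Z / 2) :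
    ∃ q : ℕ, q + Fintype.card Z = Module.finrank K V ∧
      ∃ Φ : V ≃ₗ[K] ((Fin q → K) × (Z → K)), Coord S (cj ρ Φ) := by
  obtain ⟨e', he', hs⟩ := e_norm hk he
  let V₀ : Submodule K V :=
    { carrier := {v | ∀ a b, ρ (S.ep a * S.ep b) v = v}
      add_mem' := by
        intro v w hv hw a b
        rw [map_add, hv a b, hw a b]
      zero_mem' := by
        intro a b
        rw [map_zero]
      smul_mem' := by
        intro c v hv a b
        rw [map_smul, hv a b] }
  have hV₀ : ∀ v : V₀, ∀ a b, ρ (S.ep a * S.ep b) (v : V) = v := fun v => v.2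
  let L : (V₀ × (Z → K)) →ₗ[K] V := V₀.subtype.coprod (Fintype.linearCombination K e')
  have hLa : ∀ (v : V₀) (x : Z → K), L (v, x) = (v : V) + ∑ l, x l • e' l := by
    intro v x
    show V₀.subtype.coprod (Fintype.linearCombination K e') (v, x) = _
    rw [LinearMap.coprod_apply, Fintype.linearCombination_apply]
    rfl
  have hinj : Function.Injective L := by
    rw [← LinearMap.ker_eq_bot, LinearMap.ker_eq_bot']
    rintro ⟨v, x⟩ h
    rw [hLa] at h
    obtain ⟨h1, h2⟩ := dec_unique (by omega) he' (hV₀ v) h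
    rw [h2, Submodule.coe_eq_zero.1 h1]
    rfl
  have hsur : Function.Surjective L := by
    intro v
    obtain ⟨v₀, x, h0, h1⟩ := he'.span v
    exact ⟨(⟨v₀, h0⟩, x), by rw [hLa, h1]⟩
  let b := Module.finBasis K V₀
  let Ψ : ((Fin (Module.finrank K V₀) → K) × (Z → K)) ≃ₗ[K] V :=
    (b.equivFun.symm.prodCongr (LinearEquiv.refl K (Z → K))).trans
      (LinearEquiv.ofBijective L ⟨hinj, hsur⟩)
  have hΨ : ∀ (u : Fin (Module.finrank K V₀) → K) (x : Z → K),
      Ψ (u, x) = (b.equivFun.symm u : V) + ∑ l, x l • e' l := fun u x => hLa _ _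
  refine ⟨Module.finrank K V₀, ?_, Ψ.symm, ?_, ?_⟩
  · rw [← Ψ.finrank_eq, Module.finrank_prod, Module.finrank_fintype_fun_eq_card,
      Module.finrank_fintype_fun_eq_card, Fintype.card_fin]
  · intro a c hac u x
    rw [cj_apply, LinearEquiv.symm_symm, LinearEquiv.symm_apply_eq, hΨ, hΨ, map_add, hV₀, map_sum]
    congr 1
    refine Finset.sum_congr rfl fun l _ => ?_
    rw [map_smul]
    by_cases hla : l = a
    · subst hla
      rw [he'.neg l c (Ne.symm hac), if_pos (Or.inl rfl), smul_neg, neg_smul]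
    · by_cases hlc : l = c
      · subst hlc
        rw [S.ep_comm a l, he'.neg l a hac, if_pos (Or.inr rfl), smul_neg, neg_smul]
      · rw [he'.pos l a c (Ne.symm hla) (Ne.symm hlc), if_neg (by tauto)]
  · intro σ hσ u x
    rw [cj_apply, LinearEquiv.symm_symm, LinearEquiv.symm_apply_eq, hΨ, hΨ, map_add,
      even_triv hk he' hq hσ (hV₀ _), map_sum]
    congr 1
    refine Eq.trans ?_ (Equiv.sum_comp σ (fun l => x (σ⁻¹ l) • e' l))
    refine Finset.sum_congr rfl fun l _ => ?_
    rw [map_smul, hs σ hσ, ← Equiv.Perm.mul_apply, inv_mul_cancel, Equiv.Perm.one_apply]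

end STAB
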