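import Mathlib
import Pool.Agent.Helper40.STAB.Defs
import Pool.Agent.Helper40.STAB.WtLem

/-!
# STAB-18 PZero: the case without multiplicity one part

PROOF. `r i j = ρ (R i j)`. All `ρ (ep a * ep b) = 1`; so `ρ (ep a) = ρ (ep b)` for all `a, b` (`ep_sq`), call it `E`, `E * E = 1`. `ep_R` (a third letter) shows that `E` commutes
with `r i j`; `ep_inv`: `(r i j)⁻¹ = E r E = r`, so `r i j * r i j = 1`. `left`: `ρ (ep i * R i j * ep i) = r i j`, so `r i j` and `r i t` commute (`i ≠ j`, `i ≠ t`). `tri`: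
`r j l * r i j = r i j * r i l * r j l`. `comm4`, `comm3`: `r j l` commutes with `r i t` for `t ≠ j` (`i, j, l` different, `t ≠ i`; `t = l` is `comm3`).
Fix `i`. On the index type `ι = {j // j ≠ i}` (card `k - 1`) the involutions `T j = r i j` commute. Suppose `WS T A ≠ ⊥` with `l ∈ A`. For `j ≠ l` in `ι`, `r j l` maps
`WS T A` into `WS T A'`, `A'` = `A` with `j` toggled: for `v ∈ WS T A`: `r i j (r j l v) = r j l (r j l r i j r j l) v` and `r j l * r i j * r j l = r i j * r i l` (from `tri`,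
`r j l` an involution), sign of `j` times `-1`; the other signs do not change. `r j l` is injective. So by toggling (induction on the
number of different letters) `WS T B ≠ ⊥` for all `B ∋ l`; there are `2^(k-2)` such `B`, and `WS_card` gives `2^(k-2) ≤ finrank V < 2 k`, false for
`k ≥ 8` (`2 k ≤ 2^(k-2)`). So only `A = ∅` occurs and `WS_span` gives `r i j v = v`.
-/

set_option autoImplicit false

namespace STAB

variable {Z Γ K V : Type} [Fintype Z] [DecidableEq Z] [Group Γ] [Field K] [CharZero K]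
  [AddCommGroup V] [Module K V]

omit [Fintype Z] [CharZero K] in
private theorem pz_E (S : Sys Z Γ) (ρ : Γ →* Module.End K V)
    (h : ∀ a b, ρ (S.ep a * S.ep b) = 1) (a b : Z) : ρ (S.ep a) = ρ (S.ep b) := by
  have h1 : ρ (S.ep a) * ρ (S.ep b) = 1 := by rw [← map_mul]; exact h a b
  have h2 : ρ (S.ep b) * ρ (S.ep b) = 1 := by rw [← map_mul]; exact h b b
  calc ρ (S.ep a) = ρ (S.ep a) * (ρ (S.ep b) * ρ (S.ep b)) := by rw [h2, mul_one]
    _ = (ρ (S.ep a) * ρ (S.ep b)) * ρ (S.ep b) := by rw [mul_assoc]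
    _ = ρ (S.ep b) := by rw [h1, one_mul]

omit [Fintype Z] [CharZero K] in
private theorem pz_EE (S : Sys Z Γ) (ρ : Γ →* Module.End K V)
    (h : ∀ a b, ρ (S.ep a * S.ep b) = 1) (a : Z) : ρ (S.ep a) * ρ (S.ep a) = 1 := by
  rw [← map_mul]; exact h a a

private theorem pz_third (hk : 8 ≤ Fintype.card Z) (i j : Z) : ∃ l : Z, l ≠ i ∧ l ≠ j := by
  by_contra hc
  push Not at hc
  have h1 : (Finset.univ : Finset Z) ⊆ {i, j} := by
    intro l _
    rw [Finset.mem_insert, Finset.mem_singleton]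
    by_cases hl : l = i
    · exact Or.inl hl
    · exact Or.inr (hc l hl)
  have h2 := Finset.card_le_card h1
  have h3 : ({i, j} : Finset Z).card ≤ 2 := Finset.card_le_two
  rw [Finset.card_univ] at h2
  omega

omit [CharZero K] in
private theorem pz_comm (S : Sys Z Γ) (ρ : Γ →* Module.End K V)
    (hk : 8 ≤ Fintype.card Z) (h : ∀ a b, ρ (S.ep a * S.ep b) = 1) (i j : Z) (hij : i ≠ j)
    (x : Z) : ρ (S.ep x) * ρ (S.R i j) = ρ (S.R i j) * ρ (S.ep x) := by
  obtain ⟨l, hli, hlj⟩ := pz_third hk i j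
  rw [pz_E S ρ h x l, ← map_mul, ← map_mul, S.ep_R l i j hli hlj hij]

omit [CharZero K] in
private theorem pz_conj (S : Sys Z Γ) (ρ : Γ →* Module.End K V)
    (hk : 8 ≤ Fintype.card Z) (h : ∀ a b, ρ (S.ep a * S.ep b) = 1) (i j : Z) (hij : i ≠ j)
    (x : Z) : ρ (S.ep x * S.R i j * S.ep x) = ρ (S.R i j) := by
  rw [map_mul, map_mul, pz_comm S ρ hk h i j hij x, mul_assoc, pz_EE S ρ h x, mul_one]

omit [CharZero K] in
private theorem pz_sq (S : Sys Z Γ) (ρ : Γ →* Module.End K V)
    (hk : 8 ≤ Fintype.card Z) (h : ∀ a b, ρ (S.ep a * S.ep b) = 1) (i j : Z) (hij : i ≠ j) :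
    ρ (S.R i j) * ρ (S.R i j) = 1 := by
  have h1 : ρ ((S.R i j)⁻¹) = ρ (S.R i j) := by
    rw [← S.ep_inv i j hij]
    exact pz_conj S ρ hk h i j hij j
  have h2 : ρ (S.R i j) * ρ ((S.R i j)⁻¹) = 1 := by
    rw [← map_mul, mul_inv_cancel, map_one]
  rwa [h1] at h2

omit [CharZero K] in
private theorem pz_left (S : Sys Z Γ) (ρ : Γ →* Module.End K V)
    (hk : 8 ≤ Fintype.card Z) (h : ∀ a b, ρ (S.ep a * S.ep b) = 1) (i j t : Z) (hij : i ≠ j)
    (hit : i ≠ t) : ρ (S.R i j) * ρ (S.R i t) = ρ (S.R i t) * ρ (S.R i j) := by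
  have h1 := congrArg ρ (S.left i j t hij hit)
  rw [map_mul, map_mul ρ (S.R i t), pz_conj S ρ hk h i j hij i] at h1
  exact h1

omit [CharZero K] in
private theorem pz_move (S : Sys Z Γ) (ρ : Γ →* Module.End K V)
    (hk : 8 ≤ Fintype.card Z) (h : ∀ a b, ρ (S.ep a * S.ep b) = 1) (i j l : Z) (hij : i ≠ j)
    (hil : i ≠ l) (hjl : j ≠ l) :
    ρ (S.R i j) * ρ (S.R j l) = ρ (S.R j l) * (ρ (S.R i l) * ρ (S.R i j)) := by
  have h1 := congrArg ρ (S.tri i j l hij hil hjl)
  rw [map_mul, map_mul, map_mul] at h1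
  have h2 := congrArg ρ (S.comm3 i l j hil hjl hij)
  rw [map_mul, map_mul] at h2
  have h3 := pz_left S ρ hk h i j l hij hil
  have h4 := pz_sq S ρ hk h i l hil
  calc ρ (S.R i j) * ρ (S.R j l)
      = (ρ (S.R i l) * ρ (S.R i l)) * (ρ (S.R i j) * ρ (S.R j l)) := by rw [h4, one_mul]
    _ = ρ (S.R i l) * ((ρ (S.R i l) * ρ (S.R i j)) * ρ (S.R j l)) := by
        rw [mul_assoc, mul_assoc]
    _ = ρ (S.R i l) * (ρ (S.R j l) * ρ (S.R i j)) := by rw [← h3, h1]
    _ = (ρ (S.R i l) * ρ (S.R j l)) * ρ (S.R i j) := by rw [mul_assoc]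
    _ = ρ (S.R j l) * (ρ (S.R i l) * ρ (S.R i j)) := by rw [h2, mul_assoc]

omit [Fintype Z] [CharZero K] in
private theorem pz_other (S : Sys Z Γ) (ρ : Γ →* Module.End K V) (i j l t : Z) (hij : i ≠ j)
    (hil : i ≠ l) (hjl : j ≠ l) (hit : i ≠ t) (htj : t ≠ j) :
    ρ (S.R i t) * ρ (S.R j l) = ρ (S.R j l) * ρ (S.R i t) := by
  by_cases htl : t = l
  · subst htl
    have h2 := congrArg ρ (S.comm3 i t j hit hjl hij)
    rwa [map_mul, map_mul] at h2
  · have h2 := congrArg ρ (S.comm4 i t j l hit hjl hij hil htj htl)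
    rwa [map_mul, map_mul] at h2

/-- toggling one letter -/
private theorem pz_toggle (S : Sys Z Γ) (ρ : Γ →* Module.End K V)
    (hk : 8 ≤ Fintype.card Z) (h : ∀ a b, ρ (S.ep a * S.ep b) = 1) (i : Z)
    (A : Finset {t : Z // t ≠ i}) (l j : {t : Z // t ≠ i}) (hl : l ∈ A) (hjl : j ≠ l)
    (hA : WS (fun t : {t : Z // t ≠ i} => ρ (S.R i t)) A ≠ ⊥) :
    WS (fun t : {t : Z // t ≠ i} => ρ (S.R i t)) (symmDiff A {j}) ≠ ⊥ := by
  obtain ⟨v, hv, hv0⟩ := Submodule.exists_mem_ne_zero_of_ne_bot hA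
  have hv' : ∀ t : {t : Z // t ≠ i}, ρ (S.R i t) v = if t ∈ A then -v else v := hv
  have hjl' : (j : Z) ≠ l := fun hc => hjl (Subtype.ext hc)
  have hne : ρ (S.R j l) v ≠ 0 := by
    intro h0
    have h1 := congrArg (fun f => f v) (pz_sq S ρ hk h j l hjl')
    have h2 : ρ (S.R j l) (ρ (S.R j l) v) = v := h1
    rw [h0, map_zero] at h2
    exact hv0 h2.symm
  refine Submodule.ne_bot_iff _ |>.2 ⟨ρ (S.R j l) v, ?_, hne⟩
  intro t
  change ρ (S.R i t) (ρ (S.R j l) v) = _
  by_cases htj : t = j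
  · subst htj
    have h1 := congrArg (fun f => f v)
      (pz_move S ρ hk h i t l t.2.symm l.2.symm hjl')
    have h2 : ρ (S.R i t) (ρ (S.R t l) v) = ρ (S.R t l) (ρ (S.R i l) (ρ (S.R i t) v)) := h1
    rw [h2, hv' t]
    by_cases htA : t ∈ A
    · have h3 : t ∉ symmDiff A {t} := by
        simp [Finset.mem_symmDiff, htA]
      rw [if_pos htA, if_neg h3, map_neg, hv' l, if_pos hl, neg_neg]
    · have h3 : t ∈ symmDiff A {t} := by
        simp [Finset.mem_symmDiff, htA]
      rw [if_neg htA, if_pos h3, hv' l, if_pos hl, map_neg]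
  · have htj' : (t : Z) ≠ j := fun hc => htj (Subtype.ext hc)
    have h1 := congrArg (fun f => f v)
      (pz_other S ρ i j l t j.2.symm l.2.symm hjl' t.2.symm htj')
    have h2 : ρ (S.R i t) (ρ (S.R j l) v) = ρ (S.R j l) (ρ (S.R i t) v) := h1
    rw [h2, hv' t]
    have h3 : t ∈ symmDiff A {j} ↔ t ∈ A := by
      simp [Finset.mem_symmDiff, htj]
    by_cases htA : t ∈ A
    · rw [if_pos htA, if_pos (h3.2 htA), map_neg]
    · rw [if_neg htA, if_neg (fun hc => htA (h3.1 hc))]

private theorem pz_all (S : Sys Z Γ) (ρ : Γ →* Module.End K V)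
    (hk : 8 ≤ Fintype.card Z) (h : ∀ a b, ρ (S.ep a * S.ep b) = 1) (i : Z)
    (A : Finset {t : Z // t ≠ i}) (l : {t : Z // t ≠ i}) (hl : l ∈ A)
    (hA : WS (fun t : {t : Z // t ≠ i} => ρ (S.R i t)) A ≠ ⊥)
    (s : Finset {t : Z // t ≠ i}) (hs : l ∉ s) :
    WS (fun t : {t : Z // t ≠ i} => ρ (S.R i t)) (symmDiff A s) ≠ ⊥ := by
  induction s using Finset.induction_on with
  | empty =>
    have : symmDiff A (∅ : Finset {t : Z // t ≠ i}) = A := symmDiff_bot A
    rw [this]
    exact hA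
  | insert j s hj ih =>
    have hls : l ∉ s := fun hc => hs (Finset.mem_insert_of_mem hc)
    have hjl : j ≠ l := fun hc => hs (hc ▸ Finset.mem_insert_self j s)
    have h1 : symmDiff A (insert j s) = symmDiff (symmDiff A s) {j} := by
      ext t
      simp only [Finset.mem_symmDiff, Finset.mem_insert, Finset.mem_singleton]
      by_cases htj : t = j
      · subst htj
        simp only [hj]
        tauto
      · simp only [htj]
        tauto
    rw [h1]
    refine pz_toggle S ρ hk h i _ l j ?_ hjl (ih hls)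
    rw [Finset.mem_symmDiff]
    exact Or.inl ⟨hl, hls⟩

private theorem pz_pow (k : ℕ) (hk : 8 ≤ k) : 2 * k ≤ 2 ^ (k - 2) := by
  induction k, hk using Nat.le_induction with
  | base => norm_num
  | succ k hk ih =>
    have e : k + 1 - 2 = (k - 2) + 1 := by omega
    rw [e, pow_succ]
    omega

theorem p_zero [FiniteDimensional K V] (S : Sys Z Γ) (ρ : Γ →* Module.End K V)
    (hk : 8 ≤ Fintype.card Z) (h1 : Module.finrank K V < 2 * Fintype.card Z)
    (h : ∀ a b, ρ (S.ep a * S.ep b) = 1) (i j : Z) (hij : i ≠ j) : ρ (S.R i j) = 1 := by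
  have hbot : ∀ (A : Finset {t : Z // t ≠ i}), A ≠ ∅ →
      WS (fun t : {t : Z // t ≠ i} => ρ (S.R i t)) A = ⊥ := by
    intro A hA
    by_contra hne
    obtain ⟨l, hl⟩ := Finset.nonempty_iff_ne_empty.2 hA
    have hinj : Set.InjOn (fun B : Finset {t : Z // t ≠ i} => insert l B)
        ((Finset.univ.erase l).powerset : Set (Finset {t : Z // t ≠ i})) := by
      intro B hB C hC hBC
      have hB' : l ∉ B := fun hc => by
        have := Finset.mem_powerset.1 hB hc
        exact (Finset.mem_erase.1 this).1 rfl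
      have hC' : l ∉ C := fun hc => by
        have := Finset.mem_powerset.1 hC hc
        exact (Finset.mem_erase.1 this).1 rfl
      have h3 : insert l B = insert l C := hBC
      rw [← Finset.erase_insert hB', h3, Finset.erase_insert hC']
    have h2 := WS_card (T := fun t : {t : Z // t ≠ i} => ρ (S.R i t))
      (((Finset.univ.erase l).powerset).image (fun B => insert l B))
    have h3 : (((Finset.univ.erase l).powerset).image
        (fun B : Finset {t : Z // t ≠ i} => insert l B)).card ≤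
        ∑ A ∈ ((Finset.univ.erase l).powerset).image
          (fun B : Finset {t : Z // t ≠ i} => insert l B),
          Module.finrank K (WS (fun t : {t : Z // t ≠ i} => ρ (S.R i t)) A) := by
      rw [Finset.card_eq_sum_ones]
      refine Finset.sum_le_sum fun B hB => ?_
      obtain ⟨C, _, rfl⟩ := Finset.mem_image.1 hB
      have hlB : l ∈ insert l C := Finset.mem_insert_self l C
      have h4 := pz_all S ρ hk h i A l hl hne (symmDiff A (insert l C)) (by
        rw [Finset.mem_symmDiff]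
        rintro (⟨_, h5⟩ | ⟨_, h5⟩)
        · exact h5 hlB
        · exact h5 hl)
      rw [symmDiff_symmDiff_cancel_left] at h4
      obtain ⟨v, hv, hv0⟩ := Submodule.exists_mem_ne_zero_of_ne_bot h4
      have : Nontrivial (WS (fun t : {t : Z // t ≠ i} => ρ (S.R i t)) (insert l C)) :=
        ⟨⟨⟨v, hv⟩, 0, fun hc => hv0 (congrArg Subtype.val hc)⟩⟩
      exact Module.finrank_pos
    rw [Finset.card_image_of_injOn hinj, Finset.card_powerset,
      Finset.card_erase_of_mem (Finset.mem_univ l), Finset.card_univ] at h3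
    have hcard : Fintype.card {t : Z // t ≠ i} = Fintype.card Z - 1 := by
      rw [Fintype.card_subtype_compl, Fintype.card_subtype_eq]
    rw [hcard] at h3
    have h5 := pz_pow (Fintype.card Z) hk
    have e : Fintype.card Z - 1 - 1 = Fintype.card Z - 2 := by omega
    rw [e] at h3
    omega
  refine LinearMap.ext fun v => ?_
  obtain ⟨w, hw, hv⟩ := WS_span (T := fun t : {t : Z // t ≠ i} => ρ (S.R i t))
    (fun a b => pz_left S ρ hk h i a b a.2.symm b.2.symm)
    (fun a => pz_sq S ρ hk h i a a.2.symm) v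
  have h2 : v = w ∅ := by
    rw [hv]
    refine Finset.sum_eq_single ∅ (fun A _ hA => ?_) (fun hc => absurd (Finset.mem_univ _) hc)
    have h3 := hw A
    rw [hbot A hA] at h3
    exact (Submodule.mem_bot K).1 h3
  have h3 : ρ (S.R i j) (w ∅) = if (⟨j, hij.symm⟩ : {t : Z // t ≠ i}) ∈
      (∅ : Finset {t : Z // t ≠ i}) then -w ∅ else w ∅ := hw ∅ ⟨j, hij.symm⟩
  rw [if_neg (Finset.notMem_empty _)] at h3
  rw [h2, h3]
  rfl

end STAB
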