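import Mathlib
import Pool.Agent.Helper40.STAB.Defs
import Pool.Agent.Helper40.STAB.DecL
import Pool.Agent.Helper40.STAB.PZero
import Pool.Agent.Helper40.STAB.CoordL
import Pool.Agent.Helper40.STAB.ClassR

/-!
# STAB-25 Cls: classification of small representations; the dual of type D

PROOF. `cls`: `dec` (`finrank V < 2 card Z`); first alternative: `p_zero`; second: `coord_exists`, `class_R` for `cj ρ Φ`; if all `cj ρ Φ (R i j) = 1` then `ρ (R i j) = 1`
(`cj_apply`, `Φ` bijective).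
`dual_comp`: `ρ (R i j)⁻¹ (u, x) = (u - x j • b, x + Pi.single i (x j))` (inverse of the formula, `i ≠ j`). `du ρ g f = f ∘ ρ g⁻¹`, so the product applied to `f` is
`f ∘ (ρ (R j l)⁻¹ - 1) ∘ (ρ (R i j)⁻¹ - 1)`, and `(ρ (R i j)⁻¹ - 1) (u, x) = (-x j b, x j e_i)` has `l`-coordinate `0` (`l ≠ i`), so it is killed by
`ρ (R j l)⁻¹ - 1`, which only sees the `l`-coordinate.
`typeD_ne`: at `(0, e_l)`: `(ρ (R j l) - 1) (0, e_l) = (b, -e_j)`, `(ρ (R i j) - 1) (b, -e_j) = (-b, e_i) ≠ 0`.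
-/

set_option autoImplicit false

namespace STAB

variable {Z Γ K V : Type} [Fintype Z] [DecidableEq Z] [Group Γ] [Field K] [CharZero K]
  [AddCommGroup V] [Module K V]

theorem cls [FiniteDimensional K V] (S : Sys Z Γ) (ρ : Γ →* Module.End K V)
    (hk : 8 ≤ Fintype.card Z)
    (hq : Module.finrank K V < Fintype.card Z + Fintype.card Z / 2) :
    (∀ i j, i ≠ j → ρ (S.R i j) = 1) ∨
      ∃ q : ℕ, q + Fintype.card Z = Module.finrank K V ∧
        ∃ Φ : V ≃ₗ[K] ((Fin q → K) × (Z → K)), Coord S (cj ρ Φ) ∧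
          ((∃ c, TypeS S (cj ρ Φ) c) ∨ ∃ b, TypeD S (cj ρ Φ) b) := by
  have h1 : Module.finrank K V < 2 * Fintype.card Z := by omega
  rcases dec S ρ hk h1 with h | ⟨e, he⟩
  · left
    intro i j hij
    exact p_zero S ρ hk h1 h i j hij
  · obtain ⟨q, hqf, Φ, hC⟩ := coord_exists hk he hq
    rcases class_R hk hC with h | h
    · left
      intro i j hij
      have h2 := h i j hij
      apply LinearMap.ext
      intro v
      have h3 := LinearMap.congr_fun h2 (Φ v)
      rw [cj_apply, Φ.symm_apply_apply, Module.End.one_apply] at h3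
      rw [Module.End.one_apply]
      exact Φ.injective h3
    · exact Or.inr ⟨q, hqf, Φ, hC, h⟩

private theorem typeD_inv {q : ℕ} {S : Sys Z Γ} {ρ : Γ →* Module.End K ((Fin q → K) × (Z → K))}
    {b : Fin q → K} (hb : TypeD S ρ b) {i j : Z} (hij : i ≠ j) (u : Fin q → K) (x : Z → K) :
    ρ (S.R i j)⁻¹ (u, x) = (u - x j • b, x + Pi.single i (x j)) := by
  have h1 : ρ (S.R i j) (u - x j • b, x + Pi.single i (x j)) = (u, x) := by
    have h2 : (x + (Pi.single i (x j) : Z → K)) j = x j := by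
      rw [Pi.add_apply, Pi.single_eq_of_ne hij.symm, add_zero]
    rw [hb i j hij, h2, sub_add_cancel, add_sub_cancel_right]
  have h3 := congrArg (ρ (S.R i j)⁻¹) h1
  rw [← Module.End.mul_apply, ← map_mul, inv_mul_cancel, map_one, Module.End.one_apply] at h3
  exact h3.symm

theorem dual_comp {q : ℕ} {S : Sys Z Γ} {ρ : Γ →* Module.End K ((Fin q → K) × (Z → K))}
    {b : Fin q → K} (hb : TypeD S ρ b) {i j l : Z} (hij : i ≠ j) (hil : i ≠ l) (hjl : j ≠ l) :
    (du ρ (S.R i j) - 1) * (du ρ (S.R j l) - 1) = 0 := by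
  apply LinearMap.ext
  intro f
  apply LinearMap.ext
  rintro ⟨u, x⟩
  rw [Module.End.mul_apply]
  obtain ⟨h, hh⟩ : ∃ h, h = (du ρ (S.R j l) - 1) f := ⟨_, rfl⟩
  have hw : ∀ w, h w = f (ρ (S.R j l)⁻¹ w - w) := by
    intro w
    rw [hh, map_sub]
    rfl
  have h1 : ((du ρ (S.R i j) - 1) h) (u, x) = h (ρ (S.R i j)⁻¹ (u, x) - (u, x)) := by
    rw [map_sub]
    rfl
  rw [← hh, h1, hw, typeD_inv hb hij]
  have h2 : ((u - x j • b, x + Pi.single i (x j)) : (Fin q → K) × (Z → K)) - (u, x) =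
      (-(x j • b), Pi.single i (x j)) := by
    refine Prod.ext ?_ ?_
    · change u - x j • b - u = -(x j • b)
      abel
    · change x + Pi.single i (x j) - x = Pi.single i (x j)
      abel
  rw [h2, typeD_inv hb hjl, Pi.single_eq_of_ne (Ne.symm hil), zero_smul, sub_zero, Pi.single_zero,
    add_zero, sub_self, map_zero]
  rfl

theorem typeD_ne {q : ℕ} {S : Sys Z Γ} {ρ : Γ →* Module.End K ((Fin q → K) × (Z → K))}
    {b : Fin q → K} (hb : TypeD S ρ b) {i j l : Z} (hij : i ≠ j) (hil : i ≠ l) (hjl : j ≠ l) :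
    (ρ (S.R i j) - 1) * (ρ (S.R j l) - 1) ≠ 0 := by
  intro h0
  have h1 := LinearMap.congr_fun h0 (0, Pi.single l 1)
  rw [Module.End.mul_apply, LinearMap.sub_apply (ρ (S.R j l)), hb j l hjl, Module.End.one_apply,
    LinearMap.sub_apply, Module.End.one_apply, Pi.single_eq_same] at h1
  have h2 : (((0 : Fin q → K) + (1 : K) • b, Pi.single l 1 - Pi.single j 1) :
      (Fin q → K) × (Z → K)) - (0, Pi.single l 1) = (b, -Pi.single j 1) := by
    refine Prod.ext ?_ ?_
    · change 0 + (1 : K) • b - 0 = b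
      rw [zero_add, one_smul, sub_zero]
    · change (Pi.single l (1 : K) : Z → K) - Pi.single j 1 - Pi.single l 1 = -Pi.single j 1
      abel
  rw [h2, hb i j hij] at h1
  have h3 := congrFun (congrArg Prod.snd h1) i
  change (-(Pi.single j (1 : K) : Z → K)) i -
    (Pi.single i ((-(Pi.single j (1 : K) : Z → K)) j) : Z → K) i -
    (-(Pi.single j (1 : K) : Z → K)) i = 0 at h3
  rw [Pi.single_eq_same, Pi.neg_apply, Pi.neg_apply, Pi.single_eq_same,
    Pi.single_eq_of_ne hij] at h3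
  norm_num at h3

end STAB
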