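import Mathlib
import Pool.Agent.Helper40.STAB.Defs
import Pool.Agent.Helper40.STAB.Chain
import Pool.Agent.Helper40.STAB.Change

/-!
# STAB-10 Connect: `P_A` for one good `A` implies `P_A` for all good `A`

PROOF. `exists_perm`: `I₀.card ≤ Sᶜ.card`; choose `T ⊆ Sᶜ` with `T.card = I₀.card` and a permutation mapping `I₀` onto `T` (extend a bijection:
`Finset.equivOfCardEq`, `Equiv.extendSubtype` or `Equiv.Perm.exists_...`; complements have equal cardinalities).
`small_gen`: `gen_small` for `π ∘ φ` and `S`. `connect`: let `α₁` be another good permutation. `small_gen` gives `I ⊆ (I₀.image α)ᶜ`, `I₁ ⊆ (I₀.image α₁)ᶜ` generating, of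
cardinality `≤ r`. `exists_perm` with `S = I₀.image α ∪ I₀.image α₁ ∪ I ∪ I₁` (`S.card ≤ 4 r`) gives `α₂`. `change` from `α` to `α₂` with `I`, then from `α₂` to `α₁` with `I₁`.
-/

set_option autoImplicit false

namespace STAB

open Helper38.AutF

variable {n r : ℕ} {G : Type} [Group G] {π : FreeGroup (Fin n) →* G} {I₀ : Finset (Fin n)}
  {K : Subgroup (AF n)}

theorem exists_perm (I₀ : Finset (Fin n)) (S : Finset (Fin n)) (h : S.card + I₀.card ≤ n) :
    ∃ α : Equiv.Perm (Fin n), Disjoint (I₀.image α) S := by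
  classical
  have hc : I₀.card ≤ Sᶜ.card := by
    rw [Finset.card_compl, Fintype.card_fin]
    omega
  obtain ⟨T, hT, hTc⟩ := Finset.exists_subset_card_eq hc
  let e : {x // x ∈ I₀} ≃ {x // x ∈ T} := Finset.equivOfCardEq hTc.symm
  refine ⟨Equiv.extendSubtype (p := fun x => x ∈ I₀) (q := fun x => x ∈ T) e, ?_⟩
  rw [Finset.disjoint_left]
  intro x hx hxS
  obtain ⟨y, hy, rfl⟩ := Finset.mem_image.mp hx
  have h1 := Equiv.extendSubtype_mem (p := fun x => x ∈ I₀) (q := fun x => x ∈ T) e y hy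
  exact (Finset.mem_compl.mp (hT h1)) hxS

theorem small_gen (hD : Dat π I₀ r) {φ : AF n} {S : Finset (Fin n)} (h : GenOn π φ S) :
    ∃ I ⊆ S, I.card ≤ r ∧ GenOn π φ I := by
  obtain ⟨I, hI, hIr, hw⟩ := gen_small hD.chain (π.comp φ.toMonoidHom) S
  refine ⟨I, hI, hIr, ?_⟩
  intro g
  obtain ⟨w, hwS, hwg⟩ := h g
  obtain ⟨w', hw'I, hw'⟩ := hw w hwS
  exact ⟨w', hw'I, hw'.trans hwg⟩

theorem genOn_mono {φ : AF n} {S T : Finset (Fin n)} (h : S ⊆ T) (hS : GenOn π φ S) :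
    GenOn π φ T := by
  intro g
  obtain ⟨w, hw, hwg⟩ := hS g
  exact ⟨w, Sy_mono (by exact_mod_cast h) hw, hwg⟩

theorem connect (hD : Dat π I₀ r) (hK : AX π K) (hn : 5 * r ≤ n) {φ : AF n}
    {α : Equiv.Perm (Fin n)} (hα : GenOn π φ (I₀.image α)ᶜ) (hP : PA K I₀ φ α) :
    PP π K I₀ φ := by
  classical
  intro α₁ hα₁
  obtain ⟨I, hI, hIr, hIg⟩ := small_gen hD hα
  obtain ⟨I₁, hI₁, hI₁r, hI₁g⟩ := small_gen hD hα₁
  have hc0 := hD.card
  have hcard : (I₀.image α ∪ I₀.image α₁ ∪ I ∪ I₁).card + I₀.card ≤ n := by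
    have h1 := Finset.card_union_le (I₀.image α ∪ I₀.image α₁ ∪ I) I₁
    have h2 := Finset.card_union_le (I₀.image α ∪ I₀.image α₁) I
    have h3 := Finset.card_union_le (I₀.image α) (I₀.image α₁)
    have h4 : (I₀.image α).card ≤ I₀.card := Finset.card_image_le
    have h5 : (I₀.image α₁).card ≤ I₀.card := Finset.card_image_le
    omega
  obtain ⟨α₂, hα₂⟩ := exists_perm I₀ (I₀.image α ∪ I₀.image α₁ ∪ I ∪ I₁) hcard
  rw [Finset.disjoint_union_right, Finset.disjoint_union_right, Finset.disjoint_union_right] at hα₂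
  obtain ⟨⟨⟨h1, h2⟩, h3⟩, h4⟩ := hα₂
  have hIA : Disjoint I (I₀.image α) := by
    rw [Finset.disjoint_left]
    intro x hx
    exact Finset.mem_compl.mp (hI hx)
  have hIA₁ : Disjoint I₁ (I₀.image α₁) := by
    rw [Finset.disjoint_left]
    intro x hx
    exact Finset.mem_compl.mp (hI₁ hx)
  have hP2 : PA K I₀ φ α₂ := change hD hK h1.symm hIA h3.symm hIg hP
  exact change hD hK h2 h4.symm hIA₁ hI₁g hP2

end STAB
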