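import Mathlib
import Pool.Agent.Helper40.STAB.Defs
import Pool.Agent.Helper40.STAB.Comm

/-!
# STAB-28 JW: the operators `x_i ↦ x_i w`, `i` light, `w` a word in the heavy letters, `π w = 1`, type S

Write `J i = ρ ⟨T i (1, w), _⟩` (`T_mem_Gam'`), `e_l = (0, Pi.single l 1)`, `k = card (ZZ I₀) ≥ 8`.
PROOF. Fix `w`. `T i (1, w)` commutes with `eps a` (`a ≠ i` light); `sg σ * T i (1, w) * (sg σ)⁻¹ = T (σ i) (1, w)` (`σ` a permutation of the light letters; `w` is a word in
`I₀`, fixed: `fix_Sy`, `T_conj`); `R l j * T i (1, w) = T i (1, w) * R l j` for `l, j ≠ i`; `T j (1, w) * R i j = R i j * T i (1, w) * T j (1, w)` for `i ≠ j` (letters: `x_i ↦ x_i x_j w`).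
`comm_a`, `comm_b` with `E = {i}`: `J i e_l = κ_l e_l` (`l ≠ i`), `J i (u, 0) = (P u, Pi.single i (a u))`, `J i e_i = (s, Pi.single i δ)`, with `P, a, s, δ, κ` independent of `i, l`
(even permutations). `κ ≠ 0`; the last relation at `e_l`, `l ≠ i, j` (`ρ (R i j) e_l = e_l`): `κ = κ κ`, so `κ = 1`. Commutation with `R l j` at `e_i`: `ρ (R l j) (s, δ e_i) =
(s, δ e_i + c s e_j)`, and `J i e_i` on the other side: `c s = 0`. The last relation at `e_i`: left `J j (e_i + e_j) = e_i + (s, δ e_j)`, right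
`ρ (R i j) (J i e_i) = ρ (R i j) (s, δ e_i) = (s, δ e_i + (c s + δ) e_j)`: coordinate `i` gives `δ = 1`. So `J i e_i = (s, e_i)` with `c s = 0` and `s` only depends on `w`.
(`s` as a function of `w`: choose it for every `w`; `k ≥ 8` gives a light letter.)
-/

set_option autoImplicit false

namespace STAB

open Helper38.AutF

variable {n r : ℕ} {G : Type} [Group G] {π : FreeGroup (Fin n) →* G} {I₀ : Finset (Fin n)}
  {K : Type} [Field K] [CharZero K] {q : ℕ} {S : Sys (ZZ I₀) (Gam π)}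
  {ρ : Gam π →* Module.End K ((Fin q → K) × (ZZ I₀ → K))} {c : (Fin q → K) →ₗ[K] K}

/-- the property of `s` proved here -/
def IsS (π : FreeGroup (Fin n) →* G) (I₀ : Finset (Fin n))
    (ρ : Gam π →* Module.End K ((Fin q → K) × (ZZ I₀ → K))) (c : (Fin q → K) →ₗ[K] K)
    (s : FreeGroup (Fin n) → (Fin q → K)) : Prop :=
  ∀ w ∈ Sy (I₀ : Set (Fin n)), π w = 1 → c (s w) = 0 ∧
    ∀ (i : ZZ I₀) (p : Sx (i : Fin n)) (h : T (i : Fin n) (1, p) ∈ Gam π),
      (p : FreeGroup (Fin n)) = w →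
      ρ ⟨_, h⟩ (0, Pi.single i 1) = (s w, Pi.single i 1) ∧
      ∀ l, l ≠ i → ρ ⟨_, h⟩ (0, Pi.single l 1) = (0, Pi.single l 1)

private theorem T_ep {i a : Fin n} (hai : a ≠ i) (w : Sx i)
    (hw : (w : FreeGroup (Fin n)) ∈ Sx a) : T i (1, w) * eps a = eps a * T i (1, w) := by
  symm
  refine T_conj (eps a) (eps_ne hai.symm) (fun j hj => ?_) _ _ (map_one _).symm (eps_fix a hw).symm
  by_cases h : j = a
  · subst h
    rw [eps_self]
    exact inv_mem (of_mem_Sx hj)
  · rw [eps_ne h]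
    exact of_mem_Sx hj

private theorem T_R {i j : Fin n} (hij : i ≠ j) (wi : Sx i) (wj : Sx j) (w : FreeGroup (Fin n))
    (h1 : (wi : FreeGroup (Fin n)) = w) (h2 : (wj : FreeGroup (Fin n)) = w) :
    T j (1, wj) * R i j = R i j * T i (1, wi) * T j (1, wj) := by
  have hwi : w ∈ Sx i := h1 ▸ wi.2
  have hwj : w ∈ Sx j := h2 ▸ wj.2
  have hTji : T j (1, wj) (FreeGroup.of i) = FreeGroup.of i := T_ne hij _
  have hTjj : T j (1, wj) (FreeGroup.of j) = FreeGroup.of j * w := by
    rw [T_self]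
    simp [h2]
  have hTii : T i (1, wi) (FreeGroup.of i) = FreeGroup.of i * w := by
    rw [T_self]
    simp [h1]
  have hTij : T i (1, wi) (FreeGroup.of j) = FreeGroup.of j := T_ne hij.symm _
  have hTiw : T i (1, wi) w = w := T_fix i _ hwi
  have hRi : R i j (FreeGroup.of i) = FreeGroup.of i * FreeGroup.of j := R_self hij.symm
  have hRj : R i j (FreeGroup.of j) = FreeGroup.of j := R_ne hij.symm
  have hRw : R i j w = w := R_fix hwi
  refine aut_ext (fun c => ?_)
  rw [MulAut.mul_apply, MulAut.mul_apply, MulAut.mul_apply]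
  by_cases hci : c = i
  · rw [hci, hRi, hTji, hTii, map_mul, map_mul, hTji, hTjj, hRi, hRw, mul_assoc]
  · by_cases hcj : c = j
    · rw [hcj, hRj, hTjj, map_mul, map_mul, hTij, hTiw, hRj, hRw]
    · rw [R_ne hci, T_ne hcj, T_ne hci, R_ne hci]

private theorem exists_third (hk : 8 ≤ Fintype.card (ZZ I₀)) (i l : ZZ I₀) :
    ∃ j : ZZ I₀, j ≠ i ∧ j ≠ l := by
  by_contra hc
  push Not at hc
  have h1 : (Finset.univ : Finset (ZZ I₀)) ⊆ {i, l} := by
    intro j _
    rw [Finset.mem_insert, Finset.mem_singleton]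
    by_cases hj : j = i
    · exact Or.inl hj
    · exact Or.inr (hc j hj)
  have h2 := Finset.card_le_card h1
  have h3 := Finset.card_le_two (a := i) (b := l)
  rw [Finset.card_univ] at h2
  omega

theorem JW (hD : Dat π I₀ r) (hS : Spec π I₀ S) (hk : 8 ≤ Fintype.card (ZZ I₀))
    (hC : Coord S ρ) (hT : TypeS S ρ c) :
    ∃ s : FreeGroup (Fin n) → (Fin q → K), IsS π I₀ ρ c s := by
  have hex : ∀ w : FreeGroup (Fin n), ∃ s : Fin q → K, w ∈ Sy (I₀ : Set (Fin n)) → π w = 1 →
      c s = 0 ∧ ∀ (i : ZZ I₀) (p : Sx (i : Fin n)) (h : T (i : Fin n) (1, p) ∈ Gam π),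
        (p : FreeGroup (Fin n)) = w →
        ρ ⟨_, h⟩ (0, Pi.single i 1) = (s, Pi.single i 1) ∧
        ∀ l, l ≠ i → ρ ⟨_, h⟩ (0, Pi.single l 1) = (0, Pi.single l 1) := by
    intro w
    by_cases hw' : w ∈ Sy (I₀ : Set (Fin n)) ∧ π w = 1
    swap
    · exact ⟨0, fun h1 h2 => absurd ⟨h1, h2⟩ hw'⟩
    obtain ⟨hw, hπ⟩ := hw'
    have hwx : ∀ i : ZZ I₀, w ∈ Sx (i : Fin n) := fun i =>
      Sy_le_Sx (fun h => i.2 (Finset.mem_coe.1 h)) hw
    have hmem : ∀ i : ZZ I₀, T (i : Fin n) (1, ⟨w, hwx i⟩) ∈ Gam π := fun i =>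
      T_mem_Gam' (map_one π) hπ
    obtain ⟨t, ht⟩ : ∃ t : ZZ I₀ → Gam π, ∀ i, t i = ⟨_, hmem i⟩ :=
      ⟨fun i => ⟨_, hmem i⟩, fun i => rfl⟩
    have hval : ∀ {i j : ZZ I₀}, i ≠ j → (i : Fin n) ≠ (j : Fin n) := fun h h' =>
      h (Subtype.ext h')
    have h1 : ∀ i a : ZZ I₀, a ≠ i → t i * S.ep a = S.ep a * t i := by
      intro i a ha
      apply Subtype.ext
      rw [ht, Subgroup.coe_mul, Subgroup.coe_mul, hS.ep]
      exact T_ep (hval ha) _ (hwx a)
    have h2 : ∀ i a b : ZZ I₀, a ≠ i → b ≠ i →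
        t i * (S.ep a * S.ep b) = (S.ep a * S.ep b) * t i := by
      intro i a b ha hb
      rw [← mul_assoc, h1 i a ha, mul_assoc, h1 i b hb, mul_assoc]
    have h4 : ∀ i j : ZZ I₀, i ≠ j → t j * S.R i j = S.R i j * t i * t j := by
      intro i j hij
      apply Subtype.ext
      rw [ht, ht, Subgroup.coe_mul, Subgroup.coe_mul, Subgroup.coe_mul, hS.R i j hij]
      exact T_R (hval hij) _ _ w rfl rfl
    have hg : ∀ i a b : ZZ I₀, a ∉ ({i} : Finset (ZZ I₀)) → b ∉ ({i} : Finset (ZZ I₀)) → a ≠ b →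
        ρ (t i) * ρ (S.ep a * S.ep b) = ρ (S.ep a * S.ep b) * ρ (t i) := by
      intro i a b ha hb _
      rw [← map_mul, ← map_mul, h2 i a b (by simpa using ha) (by simpa using hb)]
    have hE : ∀ i : ZZ I₀, ({i} : Finset (ZZ I₀)).card + 3 ≤ Fintype.card (ZZ I₀) := by
      intro i
      rw [Finset.card_singleton]
      omega
    have hκ : ∀ i l : ZZ I₀, l ≠ i → ∃ κ : K, ∀ x : K,
        ρ (t i) (0, Pi.single l x) = (0, Pi.single l (x * κ)) := by
      intro i l hl
      obtain ⟨κ, hκ⟩ := comm_a hC (hE i) (hg i) (l := l) (by simpa using hl)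
      refine ⟨κ, fun x => ?_⟩
      have h5 : ((0 : Fin q → K), (Pi.single l x : ZZ I₀ → K)) =
          x • ((0 : Fin q → K), (Pi.single l 1 : ZZ I₀ → K)) := by
        refine Prod.ext (smul_zero x).symm ?_
        change (Pi.single l x : ZZ I₀ → K) = x • (Pi.single l 1 : ZZ I₀ → K)
        rw [← Pi.single_smul, smul_eq_mul, mul_one]
      rw [h5, map_smul, hκ]
      refine Prod.ext (smul_zero x) ?_
      change x • (Pi.single l κ : ZZ I₀ → K) = Pi.single l (x * κ)
      rw [← Pi.single_smul, smul_eq_mul]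
    have hinv : ∀ (i : ZZ I₀) v, ρ (t i)⁻¹ (ρ (t i) v) = v := by
      intro i v
      rw [← Module.End.mul_apply, ← map_mul, inv_mul_cancel, map_one, Module.End.one_apply]
    have hRl : ∀ i j l : ZZ I₀, i ≠ j → l ≠ i → ∀ x : K,
        ρ (S.R i j) (0, Pi.single l x) = (0, Pi.single l x) := by
      intro i j l hij hl x
      rw [hT i j hij, map_zero, Pi.single_eq_of_ne hl.symm, add_zero, Pi.single_zero, add_zero]
    have hone : ∀ i l : ZZ I₀, l ≠ i → ∀ x : K,
        ρ (t i) (0, Pi.single l x) = (0, Pi.single l x) := by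
      intro i l hl
      obtain ⟨κ, hκi⟩ := hκ i l hl
      obtain ⟨j, hji, hjl⟩ := exists_third hk i l
      obtain ⟨κ', hκj⟩ := hκ j l hjl.symm
      have h5 := LinearMap.congr_fun (congrArg ρ (h4 i j hji.symm)) (0, Pi.single l 1)
      rw [map_mul, map_mul, map_mul, Module.End.mul_apply, Module.End.mul_apply,
        Module.End.mul_apply, hRl i j l hji.symm hl, hκj, hκi, hRl i j l hji.symm hl] at h5
      have h6 := congrFun (congrArg Prod.snd h5) l
      change (Pi.single l (1 * κ') : ZZ I₀ → K) l = (Pi.single l (1 * κ' * κ) : ZZ I₀ → K) l at h6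
      rw [Pi.single_eq_same, Pi.single_eq_same, one_mul] at h6
      have hκ'0 : κ' ≠ 0 := by
        intro h0
        have h7 := hinv j (0, Pi.single l 1)
        rw [hκj, h0, mul_zero, Pi.single_zero] at h7
        have h8 := congrFun (congrArg Prod.snd (h7.symm.trans
          (map_zero (ρ (t j)⁻¹) : ρ (t j)⁻¹ (0, 0) = 0))) l
        change (Pi.single l (1 : K) : ZZ I₀ → K) l = 0 at h8
        rw [Pi.single_eq_same] at h8
        exact one_ne_zero h8
      have hκ1 : κ = 1 := by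
        have h9 : κ' * κ = κ' * 1 := by rw [mul_one, ← h6]
        exact mul_left_cancel₀ hκ'0 h9
      intro x
      rw [hκi, hκ1, mul_one]
    have hi : ∀ i : ZZ I₀, ∃ (si : Fin q → K) (δ : K),
        ρ (t i) (0, Pi.single i 1) = (si, Pi.single i δ) := by
      intro i
      refine ⟨(ρ (t i) (0, Pi.single i 1)).1, (ρ (t i) (0, Pi.single i 1)).2 i, ?_⟩
      refine Prod.ext rfl ?_
      funext l
      change (ρ (t i) (0, Pi.single i 1)).2 l =
        (Pi.single i ((ρ (t i) (0, Pi.single i 1)).2 i) : ZZ I₀ → K) l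
      by_cases hl : l = i
      · rw [hl, Pi.single_eq_same]
      · rw [Pi.single_eq_of_ne hl]
        refine comm_b hC (hE i) (hg i) 0 (Pi.single i 1) (fun m hm => ?_) (by simpa using hl)
        rw [Pi.single_eq_of_ne (by simpa using hm)]
    choose si δ hsi using hi
    have hrel : ∀ i j : ZZ I₀, i ≠ j → si j = si i ∧ δ i = 1 ∧ δ j = c (si i) + δ i := by
      intro i j hij
      have h5 := LinearMap.congr_fun (congrArg ρ (h4 i j hij)) (0, Pi.single i 1)
      rw [map_mul, map_mul, map_mul, Module.End.mul_apply, Module.End.mul_apply,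
        Module.End.mul_apply, hone j i hij, hsi i, hT i j hij, hT i j hij, map_zero, zero_add,
        Pi.single_eq_same, Pi.single_eq_same] at h5
      have h6 : ((0 : Fin q → K), (Pi.single i 1 : ZZ I₀ → K) + Pi.single j 1) =
          (0, Pi.single i 1) + (0, Pi.single j 1) := by
        rw [Prod.mk_add_mk, add_zero]
      rw [h6, map_add, hone j i hij, hsi j, Prod.mk_add_mk, zero_add] at h5
      refine ⟨congrArg Prod.fst h5, ?_, ?_⟩
      · have h7 := congrFun (congrArg Prod.snd h5) i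
        change (Pi.single i 1 : ZZ I₀ → K) i + (Pi.single j (δ j) : ZZ I₀ → K) i =
          (Pi.single i (δ i) : ZZ I₀ → K) i + (Pi.single j (c (si i) + δ i) : ZZ I₀ → K) i at h7
        rw [Pi.single_eq_same, Pi.single_eq_same, Pi.single_eq_of_ne hij, Pi.single_eq_of_ne hij,
          add_zero, add_zero] at h7
        exact h7.symm
      · have h7 := congrFun (congrArg Prod.snd h5) j
        change (Pi.single i 1 : ZZ I₀ → K) j + (Pi.single j (δ j) : ZZ I₀ → K) j =
          (Pi.single i (δ i) : ZZ I₀ → K) j + (Pi.single j (c (si i) + δ i) : ZZ I₀ → K) j at h7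
        rw [Pi.single_eq_same, Pi.single_eq_same, Pi.single_eq_of_ne hij.symm,
          Pi.single_eq_of_ne hij.symm, zero_add, zero_add] at h7
        exact h7
    have hpos : 0 < Fintype.card (ZZ I₀) := by omega
    obtain ⟨i₀⟩ := Fintype.card_pos_iff.1 hpos
    have hall : ∀ i, si i = si i₀ := by
      intro i
      by_cases h : i = i₀
      · rw [h]
      · exact (hrel i₀ i (Ne.symm h)).1
    have hδ : ∀ i, δ i = 1 := by
      intro i
      obtain ⟨j, hj, _⟩ := exists_third hk i i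
      exact (hrel i j hj.symm).2.1
    refine ⟨si i₀, fun _ _ => ⟨?_, ?_⟩⟩
    · obtain ⟨j, hj, _⟩ := exists_third hk i₀ i₀
      have h5 := (hrel i₀ j hj.symm).2.2
      rw [hδ, hδ] at h5
      have h6 : c (si i₀) + 1 = 0 + 1 := by rw [← h5, zero_add]
      exact add_right_cancel h6
    · intro i p h hp
      obtain rfl : p = ⟨w, hwx i⟩ := Subtype.ext hp
      have h5 : (⟨_, h⟩ : Gam π) = t i := (ht i).symm
      rw [h5]
      refine ⟨?_, fun l hl => hone i l hl 1⟩
      rw [hsi i, hδ i, hall i]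
  choose s hs using hex
  exact ⟨s, fun w hw hπ => hs w hw hπ⟩

end STAB
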