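import Mathlib
import Pool.Agent.Helper40.STAB.Defs
import Pool.Agent.Helper40.STAB.Comm
import Pool.Agent.Helper40.STAB.JW

/-!
# STAB-29 DLw: conjugations `x_i ↦ y⁻¹ x_i y` of a light letter by words in the heavy letters, type S

Write `e_l = (0, Pi.single l 1)`, `dl i y = T i (y, y) ∈ Gam π` (`dl_mem_Gam`), `k = card (ZZ I₀) ≥ 8`.
PROOF. `dl i y` commutes with all `eps a`, `a` light (letters), and `sg σ * dl i y * (sg σ)⁻¹ = dl (σ i) y`. `comm_a` with `E = ∅`: `ρ (dl i y) e_l = κ e_l` for all `l`; by the even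
permutations `κ = ξ y` for `l = i` and `κ = al y` for `l ≠ i`, independent of `i, l` (two pairs `(i, l)`, `(i', l')` of different letters are related by an even
permutation). Nonzero because `ρ (dl i y)` is invertible; multiplicative because `dl i` is a homomorphism (`dl i (y y') = dl i y * dl i y'`; `y ∈ Sy I₀ ≤ Sx i`).
For `i ≠ l` light `dl i y` commutes with `T l (1, w)`; apply to `e_l` (`IsS`: `ρ (T l (1, w)) e_l = (s w, e_l)`): `ρ (dl i y) (s w, 0) + al y e_l = al y (s w, e_l)`.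
-/

set_option autoImplicit false

namespace STAB

open Helper38.AutF

variable {n r : ℕ} {G : Type} [Group G] {π : FreeGroup (Fin n) →* G} {I₀ : Finset (Fin n)}
  {K : Type} [Field K] [CharZero K] {q : ℕ} {S : Sys (ZZ I₀) (Gam π)}
  {ρ : Gam π →* Module.End K ((Fin q → K) × (ZZ I₀ → K))} {c : (Fin q → K) →ₗ[K] K}

/-- the properties of `ξ`, `al` proved here -/
structure IsDL (π : FreeGroup (Fin n) →* G) (I₀ : Finset (Fin n))
    (ρ : Gam π →* Module.End K ((Fin q → K) × (ZZ I₀ → K)))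
    (s : FreeGroup (Fin n) → (Fin q → K)) (ξ al : FreeGroup (Fin n) → K) : Prop where
  xi_ne : ∀ y ∈ Sy (I₀ : Set (Fin n)), ξ y ≠ 0
  al_ne : ∀ y ∈ Sy (I₀ : Set (Fin n)), al y ≠ 0
  xi_mul : ∀ y ∈ Sy (I₀ : Set (Fin n)), ∀ y' ∈ Sy (I₀ : Set (Fin n)), ξ (y * y') = ξ y * ξ y'
  al_mul : ∀ y ∈ Sy (I₀ : Set (Fin n)), ∀ y' ∈ Sy (I₀ : Set (Fin n)), al (y * y') = al y * al y'
  act_self : ∀ (i : ZZ I₀) (y : Sx (i : Fin n)) (h : dl (i : Fin n) y ∈ Gam π),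
    (y : FreeGroup (Fin n)) ∈ Sy (I₀ : Set (Fin n)) →
    ρ ⟨_, h⟩ (0, Pi.single i 1) = (0, Pi.single i (ξ y))
  act_ne : ∀ (i : ZZ I₀) (y : Sx (i : Fin n)) (h : dl (i : Fin n) y ∈ Gam π),
    (y : FreeGroup (Fin n)) ∈ Sy (I₀ : Set (Fin n)) → ∀ l, l ≠ i →
    ρ ⟨_, h⟩ (0, Pi.single l 1) = (0, Pi.single l (al y))
  act_s : ∀ (i : ZZ I₀) (y : Sx (i : Fin n)) (h : dl (i : Fin n) y ∈ Gam π),
    (y : FreeGroup (Fin n)) ∈ Sy (I₀ : Set (Fin n)) → ∀ w ∈ Sy (I₀ : Set (Fin n)), π w = 1 →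
    ρ ⟨_, h⟩ (s w, 0) = (al y • s w, 0)

/-- Conjugation of `x_i ↦ y⁻¹ x_i y`. -/
private theorem conj_dl {φ : AF n} {i i' : Fin n} {y : Sx i} {y' : Sx i'}
    (hi : φ (FreeGroup.of i) = FreeGroup.of i' ∨ φ (FreeGroup.of i) = (FreeGroup.of i')⁻¹)
    (hj : ∀ j, j ≠ i → φ (FreeGroup.of j) ∈ Sx i')
    (hy : φ (y : FreeGroup (Fin n)) = (y' : FreeGroup (Fin n))) :
    φ * dl i y = dl i' y' * φ := by
  refine aut_ext (fun j => ?_)
  rw [MulAut.mul_apply, MulAut.mul_apply]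
  by_cases h : j = i
  · subst h
    rw [dl_self, map_mul, map_mul, map_inv, hy]
    rcases hi with hi | hi
    · rw [hi, dl_self]
    · rw [hi, map_inv, dl_self]
      group
  · rw [dl_fix i y (of_mem_Sx h), dl_fix i' y' (hj j h)]

private theorem eps_of_mem (a : Fin n) {i j : Fin n} (h : j ≠ i) :
    eps a (FreeGroup.of j) ∈ Sx i := by
  by_cases ha : j = a
  · subst ha
    rw [eps_self]
    exact inv_mem (of_mem_Sx h)
  · rw [eps_ne ha]
    exact of_mem_Sx h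

private theorem heavy_mem {I₀ : Finset (Fin n)} (i : ZZ I₀) {y : FreeGroup (Fin n)}
    (hy : y ∈ Sy (I₀ : Set (Fin n))) : y ∈ Sx (i : Fin n) :=
  Sy_le_Sx (fun h => i.2 (by simpa using h)) hy

/-- Commutation with the sign changes. -/
private theorem dl_ep (hS : Spec π I₀ S) {i : ZZ I₀} {y : Sx (i : Fin n)}
    (h : dl (i : Fin n) y ∈ Gam π) (hy : (y : FreeGroup (Fin n)) ∈ Sy (I₀ : Set (Fin n)))
    (a : ZZ I₀) : (⟨_, h⟩ : Gam π) * S.ep a = S.ep a * ⟨_, h⟩ := by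
  apply Subtype.ext
  rw [Subgroup.coe_mul, Subgroup.coe_mul, hS.ep]
  refine (conj_dl ?_ (fun j hj => eps_of_mem _ hj) ?_).symm
  · by_cases ha : (i : Fin n) = (a : Fin n)
    · right
      rw [← ha, eps_self]
    · left
      exact eps_ne ha
  · exact eps_fix _ (heavy_mem a hy)

/-- Conjugation by the permutations. -/
private theorem dl_sg (hS : Spec π I₀ S) (σ : Equiv.Perm (ZZ I₀)) {i : ZZ I₀}
    {y : Sx (i : Fin n)} {y' : Sx ((σ i : ZZ I₀) : Fin n)}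
    (h : dl (i : Fin n) y ∈ Gam π) (h' : dl ((σ i : ZZ I₀) : Fin n) y' ∈ Gam π)
    (hy : (y : FreeGroup (Fin n)) ∈ Sy (I₀ : Set (Fin n)))
    (hyy : (y' : FreeGroup (Fin n)) = y) : S.sg σ * ⟨_, h⟩ = (⟨_, h'⟩ : Gam π) * S.sg σ := by
  apply Subtype.ext
  rw [Subgroup.coe_mul, Subgroup.coe_mul, hS.sg]
  have hσi : Equiv.Perm.ofSubtype σ (i : Fin n) = ((σ i : ZZ I₀) : Fin n) :=
    Equiv.Perm.ofSubtype_apply_coe σ i
  refine conj_dl ?_ (fun j hj => ?_) ?_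
  · left
    rw [pm_of, hσi]
  · rw [pm_of]
    refine of_mem_Sx fun h1 => hj ?_
    rw [← hσi] at h1
    exact (Equiv.Perm.ofSubtype σ).injective h1
  · rw [hyy]
    refine fix_Sy _ (fun c hc => ?_) hy
    rw [pm_of, Equiv.Perm.ofSubtype_apply_of_not_mem σ (by simpa using hc)]

/-- Commutation with the transvections by heavy words. -/
private theorem dl_T {i l : ZZ I₀} (hil : l ≠ i) {y : Sx (i : Fin n)} {w : Sx (l : Fin n)}
    (h : dl (i : Fin n) y ∈ Gam π) (h' : T (l : Fin n) (1, w) ∈ Gam π)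
    (hy : (y : FreeGroup (Fin n)) ∈ Sy (I₀ : Set (Fin n)))
    (hw : (w : FreeGroup (Fin n)) ∈ Sy (I₀ : Set (Fin n))) :
    (⟨_, h'⟩ : Gam π) * ⟨_, h⟩ = (⟨_, h⟩ : Gam π) * ⟨_, h'⟩ := by
  apply Subtype.ext
  rw [Subgroup.coe_mul, Subgroup.coe_mul]
  have hil' : (i : Fin n) ≠ (l : Fin n) := fun h => hil (Subtype.ext h.symm)
  refine conj_dl ?_ (fun j hj => ?_) ?_
  · left
    exact T_ne hil' _
  · by_cases hjl : j = (l : Fin n)
    · rw [hjl, T_self]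
      have h2 : ((w : FreeGroup (Fin n))) ∈ Sx (i : Fin n) := heavy_mem i hw
      have h3 : FreeGroup.of (l : Fin n) ∈ Sx (i : Fin n) := of_mem_Sx hil'.symm
      exact mul_mem (mul_mem (inv_mem (one_mem _)) h3) h2
    · rw [T_ne hjl]
      exact of_mem_Sx hj
  · exact T_fix _ _ (heavy_mem l hy)

/-- Even permutations act transitively on pairs. -/
private theorem exists_even {Z : Type} [Fintype Z] [DecidableEq Z] (hZ : 4 ≤ Fintype.card Z)
    {i l i' l' : Z} (h : i ≠ l) (h' : i' ≠ l') :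
    ∃ σ : Equiv.Perm Z, Equiv.Perm.sign σ = 1 ∧ σ i = i' ∧ σ l = l' := by
  have hne : Equiv.swap i i' l ≠ i' := by
    intro h1
    have h2 : Equiv.swap i i' l = Equiv.swap i i' i := by rw [h1, Equiv.swap_apply_left]
    exact h ((Equiv.swap i i').injective h2).symm
  obtain ⟨σ, hσ⟩ : ∃ σ : Equiv.Perm Z,
      σ = Equiv.swap (Equiv.swap i i' l) l' * Equiv.swap i i' := ⟨_, rfl⟩
  have h1 : σ i = i' := by
    rw [hσ, Equiv.Perm.mul_apply, Equiv.swap_apply_left,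
      Equiv.swap_apply_of_ne_of_ne hne.symm h']
  have h2 : σ l = l' := by
    rw [hσ, Equiv.Perm.mul_apply, Equiv.swap_apply_left]
  by_cases hs : Equiv.Perm.sign σ = 1
  · exact ⟨σ, hs, h1, h2⟩
  · have hcard : 1 < (Finset.univ \ {i', l'} : Finset Z).card := by
      have h3 := Finset.le_card_sdiff ({i', l'} : Finset Z) Finset.univ
      have h4 : ({i', l'} : Finset Z).card ≤ 2 := Finset.card_le_two
      rw [Finset.card_univ] at h3
      omega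
    obtain ⟨a, ha, b, hb, hab⟩ := Finset.one_lt_card.1 hcard
    simp only [Finset.mem_sdiff, Finset.mem_univ, true_and, Finset.mem_insert,
      Finset.mem_singleton, not_or] at ha hb
    refine ⟨Equiv.swap a b * σ, ?_, ?_, ?_⟩
    · rw [map_mul, Equiv.Perm.sign_swap hab, Int.units_ne_iff_eq_neg.1 hs]
      simp
    · rw [Equiv.Perm.mul_apply, h1, Equiv.swap_apply_of_ne_of_ne (Ne.symm ha.1) (Ne.symm hb.1)]
    · rw [Equiv.Perm.mul_apply, h2, Equiv.swap_apply_of_ne_of_ne (Ne.symm ha.2) (Ne.symm hb.2)]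

theorem DLw (hD : Dat π I₀ r) (hS : Spec π I₀ S) (hk : 8 ≤ Fintype.card (ZZ I₀))
    (hC : Coord S ρ) {s : FreeGroup (Fin n) → (Fin q → K)} (hs : IsS π I₀ ρ c s) :
    ∃ ξ al : FreeGroup (Fin n) → K, IsDL π I₀ ρ s ξ al := by
  -- membership
  have hmem : ∀ (i : ZZ I₀) (y : Sx (i : Fin n)), dl (i : Fin n) y ∈ Gam π :=
    fun i y => dl_mem_Gam (hD.light i i.2) y
  -- eigenvectors
  have hκ : ∀ (i : ZZ I₀) (y : Sx (i : Fin n)) (h : dl (i : Fin n) y ∈ Gam π),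
      (y : FreeGroup (Fin n)) ∈ Sy (I₀ : Set (Fin n)) → ∀ l, ∃ κ : K,
      ρ ⟨_, h⟩ (0, Pi.single l 1) = (0, Pi.single l κ) := by
    intro i y h hy l
    refine comm_a hC (E := ∅) (by simp only [Finset.card_empty]; omega) (g := ρ ⟨_, h⟩) ?_
      (Finset.notMem_empty l)
    intro a b _ _ _
    rw [← map_mul, ← map_mul]
    congr 1
    rw [← mul_assoc, dl_ep hS h hy a, mul_assoc, dl_ep hS h hy b, mul_assoc]
  -- even permutations
  have hsg : ∀ (σ : Equiv.Perm (ZZ I₀)), Equiv.Perm.sign σ = 1 → ∀ (l : ZZ I₀) (κ : K),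
      ρ (S.sg σ) (0, Pi.single l κ) = (0, Pi.single (σ l) κ) := by
    intro σ hσ l κ
    rw [hC.even σ hσ]
    congr 1
    funext m
    by_cases hm : m = σ l
    · subst hm
      have h1 : σ⁻¹ (σ l) = l := by simp
      rw [h1, Pi.single_eq_same, Pi.single_eq_same]
    · rw [Pi.single_eq_of_ne hm, Pi.single_eq_of_ne]
      intro h1
      exact hm (by rw [← h1]; simp)
  have hinv : ∀ (σ : Equiv.Perm (ZZ I₀)), Equiv.Perm.sign σ = 1 → ∀ (i l : ZZ I₀)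
      (y : Sx (i : Fin n)) (y' : Sx ((σ i : ZZ I₀) : Fin n)) (h : dl (i : Fin n) y ∈ Gam π)
      (h' : dl ((σ i : ZZ I₀) : Fin n) y' ∈ Gam π) (κ : K),
      (y : FreeGroup (Fin n)) ∈ Sy (I₀ : Set (Fin n)) → (y' : FreeGroup (Fin n)) = y →
      ρ ⟨_, h⟩ (0, Pi.single l 1) = (0, Pi.single l κ) →
      ρ ⟨_, h'⟩ (0, Pi.single (σ l) 1) = (0, Pi.single (σ l) κ) := by
    intro σ hσ i l y y' h h' κ hy hyy h1
    have h2 := congrArg (fun g => ρ g (0, Pi.single l 1)) (dl_sg hS σ h h' hy hyy)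
    simp only [map_mul, Module.End.mul_apply] at h2
    rw [h1, hsg σ hσ, hsg σ hσ] at h2
    exact h2.symm
  obtain ⟨i₀, l₀, hil⟩ : ∃ i₀ l₀ : ZZ I₀, i₀ ≠ l₀ :=
    Fintype.exists_pair_of_one_lt_card (by omega)
  have key : ∀ y : FreeGroup (Fin n), ∃ ξ al : K, y ∈ Sy (I₀ : Set (Fin n)) →
      ∀ (i : ZZ I₀) (y' : Sx (i : Fin n)) (h : dl (i : Fin n) y' ∈ Gam π),
      (y' : FreeGroup (Fin n)) = y → ρ ⟨_, h⟩ (0, Pi.single i 1) = (0, Pi.single i ξ) ∧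
      ∀ l, l ≠ i → ρ ⟨_, h⟩ (0, Pi.single l 1) = (0, Pi.single l al) := by
    intro y
    by_cases hy : y ∈ Sy (I₀ : Set (Fin n))
    swap
    · exact ⟨1, 1, fun h => absurd h hy⟩
    obtain ⟨ξ, hξ⟩ := hκ i₀ ⟨y, heavy_mem i₀ hy⟩ (hmem _ _) hy i₀
    obtain ⟨al, hal⟩ := hκ i₀ ⟨y, heavy_mem i₀ hy⟩ (hmem _ _) hy l₀
    refine ⟨ξ, al, fun _ i y' h hyy => ⟨?_, fun l hl => ?_⟩⟩
    · obtain ⟨m, hm⟩ : ∃ m : ZZ I₀, i ≠ m := by
        obtain ⟨m, hm⟩ := Fintype.exists_ne_of_one_lt_card (show 1 < Fintype.card (ZZ I₀) by omega) i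
        exact ⟨m, hm.symm⟩
      obtain ⟨σ, hσ, h1, h2⟩ := exists_even (by omega) hil hm
      subst h1
      exact hinv σ hσ i₀ i₀ _ y' (hmem _ _) h ξ hy hyy hξ
    · obtain ⟨σ, hσ, h1, h2⟩ := exists_even (by omega) hil hl.symm
      subst h1 h2
      exact hinv σ hσ i₀ l₀ _ y' (hmem _ _) h al hy hyy hal
  choose ξ al hkey using key
  have hne : ∀ (g : Gam π) (l : ZZ I₀), ρ g (0, Pi.single l 1) ≠ 0 := by
    intro g l h
    have h1 : ρ (g⁻¹ * g) (0, Pi.single l 1) = 0 := by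
      rw [map_mul, Module.End.mul_apply, h, map_zero]
    rw [inv_mul_cancel, map_one, Module.End.one_apply] at h1
    have h2 := congrFun (congrArg Prod.snd h1) l
    change (Pi.single l (1 : K) : ZZ I₀ → K) l = 0 at h2
    rw [Pi.single_eq_same] at h2
    exact one_ne_zero h2
  have hsm : ∀ (l : ZZ I₀) (κ : K),
      ((0, Pi.single l κ) : (Fin q → K) × (ZZ I₀ → K)) = κ • (0, Pi.single l 1) := by
    intro l κ
    rw [Prod.smul_mk, smul_zero, ← Pi.single_smul, smul_eq_mul, mul_one]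
  have hxi : ∀ (i : ZZ I₀) (y : Sx (i : Fin n)) (h : dl (i : Fin n) y ∈ Gam π),
      (y : FreeGroup (Fin n)) ∈ Sy (I₀ : Set (Fin n)) →
      ρ ⟨_, h⟩ (0, Pi.single i 1) = (0, Pi.single i (ξ y)) :=
    fun i y h hy => (hkey y hy i y h rfl).1
  have hal : ∀ (i : ZZ I₀) (y : Sx (i : Fin n)) (h : dl (i : Fin n) y ∈ Gam π),
      (y : FreeGroup (Fin n)) ∈ Sy (I₀ : Set (Fin n)) → ∀ l, l ≠ i →
      ρ ⟨_, h⟩ (0, Pi.single l 1) = (0, Pi.single l (al y)) :=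
    fun i y h hy => (hkey y hy i y h rfl).2
  have hmulel : ∀ (y y' : FreeGroup (Fin n)) (hy : y ∈ Sy (I₀ : Set (Fin n)))
      (hy' : y' ∈ Sy (I₀ : Set (Fin n))),
      (⟨_, hmem i₀ ⟨y * y', heavy_mem i₀ (mul_mem hy hy')⟩⟩ : Gam π) =
        ⟨_, hmem i₀ ⟨y, heavy_mem i₀ hy⟩⟩ * ⟨_, hmem i₀ ⟨y', heavy_mem i₀ hy'⟩⟩ := by
    intro y y' hy hy'
    apply Subtype.ext
    rw [Subgroup.coe_mul]
    show dl (i₀ : Fin n) _ = dl (i₀ : Fin n) _ * dl (i₀ : Fin n) _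
    rw [← map_mul]
    rfl
  refine ⟨ξ, al, ?_, ?_, ?_, ?_, hxi, hal, ?_⟩
  · intro y hy h0
    have h1 := hxi i₀ ⟨y, heavy_mem i₀ hy⟩ (hmem _ _) hy
    rw [h0, Pi.single_zero] at h1
    exact hne _ i₀ h1
  · intro y hy h0
    have h1 := hal i₀ ⟨y, heavy_mem i₀ hy⟩ (hmem _ _) hy l₀ hil.symm
    rw [h0, Pi.single_zero] at h1
    exact hne _ l₀ h1
  · intro y hy y' hy'
    have h1 := hxi i₀ ⟨y * y', heavy_mem i₀ (mul_mem hy hy')⟩ (hmem _ _) (mul_mem hy hy')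
    rw [hmulel y y' hy hy', map_mul, Module.End.mul_apply,
      hxi i₀ ⟨y', heavy_mem i₀ hy'⟩ (hmem _ _) hy', hsm, map_smul,
      hxi i₀ ⟨y, heavy_mem i₀ hy⟩ (hmem _ _) hy] at h1
    have h2 := congrFun (congrArg Prod.snd h1) i₀
    simp only [Prod.smul_mk, Pi.smul_apply, Pi.single_eq_same, smul_eq_mul] at h2
    rw [← h2, mul_comm]
  · intro y hy y' hy'
    have h1 := hal i₀ ⟨y * y', heavy_mem i₀ (mul_mem hy hy')⟩ (hmem _ _) (mul_mem hy hy') l₀ hil.symm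
    rw [hmulel y y' hy hy', map_mul, Module.End.mul_apply,
      hal i₀ ⟨y', heavy_mem i₀ hy'⟩ (hmem _ _) hy' l₀ hil.symm, hsm, map_smul,
      hal i₀ ⟨y, heavy_mem i₀ hy⟩ (hmem _ _) hy l₀ hil.symm] at h1
    have h2 := congrFun (congrArg Prod.snd h1) l₀
    simp only [Prod.smul_mk, Pi.smul_apply, Pi.single_eq_same, smul_eq_mul] at h2
    rw [← h2, mul_comm]
  · intro i y h hy w hw hπw
    obtain ⟨l, hl⟩ := Fintype.exists_ne_of_one_lt_card (show 1 < Fintype.card (ZZ I₀) by omega) i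
    have hT : T (l : Fin n) (1, (⟨w, heavy_mem l hw⟩ : Sx (l : Fin n))) ∈ Gam π :=
      T_mem_Gam' (map_one π) hπw
    have h1 := ((hs w hw hπw).2 l ⟨w, heavy_mem l hw⟩ hT rfl).1
    have h2 := congrArg (fun g => ρ g (0, Pi.single l 1)) (dl_T hl h hT hy hw)
    simp only [map_mul, Module.End.mul_apply] at h2
    rw [h1, hal i y h hy l hl, hsm, map_smul, h1] at h2
    have h3 : ((s w, Pi.single l 1) : (Fin q → K) × (ZZ I₀ → K)) =
        (s w, 0) + (0, Pi.single l 1) := by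
      rw [Prod.mk_add_mk, add_zero, zero_add]
    rw [h3, map_add, hal i y h hy l hl, hsm l (al y), smul_add] at h2
    have h4 := add_right_cancel h2
    rw [← h4, Prod.smul_mk, smul_zero]

end STAB
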