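import Mathlib
import Pool.Agent.Helper40.STAB.Defs
import Pool.Agent.Helper40.STAB.JW
import Pool.Agent.Helper40.STAB.DLw

/-!
# STAB-30 Fox: the functionals `g_h` on the vectors `s w` are Fox derivatives

`χ y = al y / ξ y` (multiplicative and nonzero on `Sy I₀`), `e_l = (0, Pi.single l 1)`.
PROOF. (1) EXISTENCE of the crossed homomorphism `D`: let `χ₀ : FreeGroup (Fin n) →* Kˣ` be the lift of `j ↦ χ x_j` (`j ∈ I₀`), `1` otherwise, and `M` the lift to invertible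
upper triangular `2 × 2` matrices `!![χ₀ j, d j; 0, 1]`, `d h = χ x_h`, `d j = 0` for `j ≠ h`; `D w` = the upper right entry. `χ₀ = χ` on `Sy I₀` (closure induction). So
`D (w w') = D w + χ w D w'` on `Sy I₀`, `D 1 = 0`, `D x_h = χ x_h`, `D x_{h'} = 0`.
(2) Fix light letters `i ≠ j`. Call `(z, t)`, `z ∈ Sx i`, `t : K`, a pair if `π z = 1`, and `A = ρ ⟨T i (1, z), _⟩` satisfies `A e_i = (0, e_i + t e_j)`, `A e_j = e_j`, `A (s w, 0) = (s w, 0)` for all
`w ∈ Sy I₀` with `π w = 1`. `(x_j, 1)` is a pair: `T i (1, x_j) = R i j`, type S, `c (s w) = 0`. Pairs multiply: `(z z', t + t')`; inverses `(z⁻¹, -t)`; `(1, 0)`. If `(z, t)` is a pair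
and `y ∈ Sy I₀` then `(y z y⁻¹, χ y t)` is a pair: `T i (1, y z y⁻¹) = dl i y * T i (1, z) * (dl i y)⁻¹` (`dl i y = T i (y, y)`, `T i` a homomorphism), and `IsDL`:
`e_i ↦ ξ⁻¹ e_i ↦ ξ⁻¹ (e_i + t e_j) ↦ e_i + t (al/ξ) e_j`, `e_j ↦ al⁻¹ e_j ↦ e_j`, `(s w, 0)` fixed.
(3) CLAIM: for `w ∈ Sy I₀`, with `H = R h j`, `(H w * w⁻¹, D w)` is a pair (`H w ∈ Sy (I₀ ∪ {j}) ≤ Sx i`, `π (H w) = π w`). Closure induction: `w = x_h`: `H w w⁻¹ = x_h x_j x_h⁻¹`, `t = χ x_h`. `w = x_{h'}`: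
`1`. Product: `H (w w') (w w')⁻¹ = (H w w⁻¹) (w (H w' w'⁻¹) w⁻¹)`. Inverse: `H (w⁻¹) w = (w⁻¹ (H w w⁻¹) w)⁻¹`, `D (w⁻¹) = - χ (w⁻¹) D w`.
(4) Let `w ∈ Sy I₀`, `π w = 1`. `H * T i (1, w) * H⁻¹ = T i (1, H w) = T i (1, H w w⁻¹) * T i (1, w)` (`T_conj`; `H` fixes `x_i` and preserves `Sx i`). Apply `ρ` to `e_i`: right side
`(s w, e_i)` (`IsS`) `↦ (s w, 0) + (0, e_i + D w e_j)`. Left side: `ρ(H)⁻¹ e_i = e_i` (`hg` with `u = 0`), then `(s w, e_i)`, then `(s w, e_i + g (s w) e_j)` (`hg`). So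
`g (s w) = D w`.
-/

set_option autoImplicit false

namespace STAB

open Helper38.AutF

variable {n r : ℕ} {G : Type} [Group G] {π : FreeGroup (Fin n) →* G} {I₀ : Finset (Fin n)}
  {K : Type} [Field K] [CharZero K] {q : ℕ} {S : Sys (ZZ I₀) (Gam π)}
  {ρ : Gam π →* Module.End K ((Fin q → K) × (ZZ I₀ → K))} {c : (Fin q → K) →ₗ[K] K}

section linear

variable {k V : Type} [Field k] [AddCommGroup V] [Module k V]

/-- `A` fixes `ej` and the elements of `V0`, and maps `ei` to `ei + t ej` -/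
private def FA (V0 : Set V) (ei ej : V) (A : Module.End k V) (t : k) : Prop :=
  A ei = ei + t • ej ∧ A ej = ej ∧ ∀ v ∈ V0, A v = v

private theorem FA_one (V0 : Set V) (ei ej : V) : FA V0 ei ej (1 : Module.End k V) 0 :=
  ⟨by rw [zero_smul, add_zero]; rfl, rfl, fun _ _ => rfl⟩

private theorem FA_mul {V0 : Set V} {ei ej : V} {A A' : Module.End k V} {t t' : k}
    (h : FA V0 ei ej A t) (h' : FA V0 ei ej A' t') : FA V0 ei ej (A * A') (t + t') := by
  refine ⟨?_, ?_, fun v hv => ?_⟩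
  · rw [Module.End.mul_apply, h'.1, map_add, map_smul, h.1, h.2.1, add_smul, add_assoc]
  · rw [Module.End.mul_apply, h'.2.1, h.2.1]
  · rw [Module.End.mul_apply, h'.2.2 v hv, h.2.2 v hv]

private theorem FA_inv {V0 : Set V} {ei ej : V} {A B : Module.End k V} {t : k}
    (h : FA V0 ei ej A t) (hBA : B * A = 1) : FA V0 ei ej B (-t) := by
  have h1 : ∀ v, B (A v) = v := fun v => by
    rw [← Module.End.mul_apply, hBA]
    rfl
  have h2 : B ej = ej := by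
    have := h1 ej
    rwa [h.2.1] at this
  refine ⟨?_, h2, fun v hv => ?_⟩
  · have h3 := h1 ei
    rw [h.1, map_add, map_smul, h2] at h3
    rw [neg_smul, ← sub_eq_add_neg, eq_sub_iff_add_eq]
    exact h3
  · have := h1 v
    rwa [h.2.2 v hv] at this

private theorem FA_conj {V0 : Set V} {ei ej : V} {A A' B : Module.End k V} {t x a : k}
    (h : FA V0 ei ej A t) (hAB : A' * B = B * A) (hx : x ≠ 0) (ha : a ≠ 0) (h1 : B ei = x • ei)
    (h2 : B ej = a • ej) (h3 : ∀ v ∈ V0, B v = a • v) : FA V0 ei ej A' (a / x * t) := by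
  have h0 : ∀ v, A' (B v) = B (A v) := fun v => by
    rw [← Module.End.mul_apply, hAB, Module.End.mul_apply]
  refine ⟨?_, ?_, fun v hv => ?_⟩
  · have h4 := h0 ei
    rw [h1, h.1, map_add, map_smul, map_smul, h1, h2] at h4
    have h5 : x • A' ei = x • (ei + (a / x * t) • ej) := by
      rw [h4, smul_add, smul_smul, smul_smul]
      congr 2
      field_simp
    exact smul_right_injective V hx h5
  · have h4 := h0 ej
    rw [h2, map_smul, h.2.1, h2] at h4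
    exact smul_right_injective V ha h4
  · have h4 := h0 v
    rw [h3 v hv, map_smul, h.2.2 v hv, h3 v hv] at h4
    exact smul_right_injective V ha h4

end linear

section crossed

variable {k : Type} [Field k]

/-- the affine map `t ↦ a t + b` -/
private def affp (a : kˣ) (b : k) : Equiv.Perm k where
  toFun t := a * t + b
  invFun t := ↑a⁻¹ * (t - b)
  left_inv t := by
    show ↑a⁻¹ * (↑a * t + b - b) = t
    rw [add_sub_cancel_right, ← mul_assoc, Units.inv_mul, one_mul]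
  right_inv t := by
    show ↑a * (↑a⁻¹ * (t - b)) + b = t
    rw [← mul_assoc, Units.mul_inv, one_mul, sub_add_cancel]

private theorem affp_hom (f : Fin n → kˣ) (d : Fin n → k) (w : FreeGroup (Fin n)) :
    ∀ t : k, FreeGroup.lift (fun j => affp (f j) (d j)) w t =
      (FreeGroup.lift f w : kˣ) * t + FreeGroup.lift (fun j => affp (f j) (d j)) w 0 := by
  induction w using FreeGroup.induction_on with
  | C1 =>
    intro t
    simp
  | of j =>
    intro t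
    simp only [FreeGroup.lift_apply_of]
    show (f j : k) * t + d j = (f j : k) * t + ((f j : k) * 0 + d j)
    rw [mul_zero, zero_add]
  | inv_of j _ =>
    intro t
    rw [map_inv, map_inv, FreeGroup.lift_apply_of, FreeGroup.lift_apply_of]
    show ((f j)⁻¹ : kˣ) * (t - d j) = (((f j)⁻¹ : kˣ) : k) * t + ((f j)⁻¹ : kˣ) * (0 - d j)
    ring
  | mul w w' h h' =>
    intro t
    rw [map_mul, map_mul, Equiv.Perm.mul_apply, Equiv.Perm.mul_apply, h' t, h, Units.val_mul,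
      h (FreeGroup.lift (fun j => affp (f j) (d j)) w' 0)]
    ring

/-- existence of the crossed homomorphism -/
private theorem crossed (f : Fin n → kˣ) (d : Fin n → k) : ∃ D : FreeGroup (Fin n) → k,
    (∀ w w', D (w * w') = D w + (FreeGroup.lift f w : kˣ) * D w') ∧
      ∀ j, D (FreeGroup.of j) = d j := by
  refine ⟨fun w => FreeGroup.lift (fun j => affp (f j) (d j)) w 0, fun w w' => ?_, fun j => ?_⟩
  · show FreeGroup.lift (fun j => affp (f j) (d j)) (w * w') 0 = _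
    rw [map_mul, Equiv.Perm.mul_apply, affp_hom, add_comm]
  · show FreeGroup.lift (fun j => affp (f j) (d j)) (FreeGroup.of j) 0 = d j
    rw [FreeGroup.lift_apply_of]
    show (f j : k) * 0 + d j = d j
    rw [mul_zero, zero_add]

end crossed

private theorem T_mk_mul (i : Fin n) {z z' : FreeGroup (Fin n)} (hz : z ∈ Sx i) (hz' : z' ∈ Sx i) :
    T i (1, ⟨z * z', mul_mem hz hz'⟩) = T i (1, ⟨z, hz⟩) * T i (1, ⟨z', hz'⟩) := by
  rw [← map_mul, Prod.mk_mul_mk, one_mul]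
  rfl

private theorem T_mk_one (i : Fin n) : T i (1, ⟨1, one_mem _⟩) = 1 := map_one (T i)

/-- `(z, t)` is a pair -/
private def FP (ρ : Gam π →* Module.End K ((Fin q → K) × (ZZ I₀ → K)))
    (s : FreeGroup (Fin n) → (Fin q → K)) (i j : ZZ I₀) (z : FreeGroup (Fin n)) (t : K) : Prop :=
  ∃ (hz : z ∈ Sx (i : Fin n)) (hm : T (i : Fin n) (1, ⟨z, hz⟩) ∈ Gam π),
    FA {v | ∃ w ∈ Sy (I₀ : Set (Fin n)), π w = 1 ∧ v = (s w, 0)} (0, Pi.single i 1)
      (0, Pi.single j 1) (ρ ⟨_, hm⟩) t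

omit [CharZero K] in
private theorem FP_one (s : FreeGroup (Fin n) → (Fin q → K)) (i j : ZZ I₀) : FP ρ s i j 1 0 := by
  have hm : T (i : Fin n) (1, ⟨1, one_mem _⟩) ∈ Gam π := by
    rw [T_mk_one]
    exact one_mem _
  refine ⟨one_mem _, hm, ?_⟩
  have e : (⟨_, hm⟩ : Gam π) = 1 := Subtype.ext (T_mk_one _)
  rw [e, map_one]
  exact FA_one _ _ _

omit [CharZero K] in
private theorem FP_mul {s : FreeGroup (Fin n) → (Fin q → K)} {i j : ZZ I₀}
    {z z' : FreeGroup (Fin n)} {t t' : K} (h : FP ρ s i j z t) (h' : FP ρ s i j z' t') :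
    FP ρ s i j (z * z') (t + t') := by
  obtain ⟨hz, hm, h⟩ := h
  obtain ⟨hz', hm', h'⟩ := h'
  have hm'' : T (i : Fin n) (1, ⟨z * z', mul_mem hz hz'⟩) ∈ Gam π := by
    rw [T_mk_mul _ hz hz']
    exact mul_mem hm hm'
  refine ⟨mul_mem hz hz', hm'', ?_⟩
  have e : (⟨_, hm''⟩ : Gam π) = ⟨_, hm⟩ * ⟨_, hm'⟩ := Subtype.ext (T_mk_mul _ hz hz')
  rw [e, map_mul]
  exact FA_mul h h'

omit [CharZero K] in
private theorem FP_inv {s : FreeGroup (Fin n) → (Fin q → K)} {i j : ZZ I₀}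
    {z : FreeGroup (Fin n)} {t : K} (h : FP ρ s i j z t) : FP ρ s i j z⁻¹ (-t) := by
  obtain ⟨hz, hm, h⟩ := h
  have e0 : T (i : Fin n) (1, ⟨z⁻¹, inv_mem hz⟩) = (T (i : Fin n) (1, ⟨z, hz⟩))⁻¹ := by
    rw [← map_inv, Prod.inv_mk, inv_one]
    rfl
  have hm' : T (i : Fin n) (1, ⟨z⁻¹, inv_mem hz⟩) ∈ Gam π := by
    rw [e0]
    exact inv_mem hm
  refine ⟨inv_mem hz, hm', FA_inv h ?_⟩
  have e : (⟨_, hm'⟩ : Gam π) * ⟨_, hm⟩ = 1 := Subtype.ext (by
    show T (i : Fin n) (1, ⟨z⁻¹, inv_mem hz⟩) * T (i : Fin n) (1, ⟨z, hz⟩) = 1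
    rw [e0, inv_mul_cancel])
  rw [← map_mul, e, map_one]

private theorem light_not {z : ZZ I₀} : (z : Fin n) ∉ (I₀ : Set (Fin n)) := by
  rw [Finset.mem_coe]
  exact z.2

omit [CharZero K] in
private theorem single_smul_one {q : ℕ} (l : ZZ I₀) (a : K) :
    ((0, Pi.single l a) : (Fin q → K) × (ZZ I₀ → K)) = a • (0, Pi.single l 1) := by
  rw [Prod.smul_mk, smul_zero]
  congr 1
  funext m
  rw [Pi.smul_apply]
  by_cases hm : m = l
  · subst hm
    rw [Pi.single_eq_same, Pi.single_eq_same, smul_eq_mul, mul_one]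
  · rw [Pi.single_eq_of_ne hm, Pi.single_eq_of_ne hm, smul_zero]

omit [CharZero K] in
private theorem FP_conj (hD : Dat π I₀ r) {s : FreeGroup (Fin n) → (Fin q → K)}
    {ξ al : FreeGroup (Fin n) → K} (hdl : IsDL π I₀ ρ s ξ al) {i j : ZZ I₀} (hij : j ≠ i)
    {y : FreeGroup (Fin n)} (hy : y ∈ Sy (I₀ : Set (Fin n))) {z : FreeGroup (Fin n)} {t : K}
    (h : FP ρ s i j z t) : FP ρ s i j (y * z * y⁻¹) (al y / ξ y * t) := by
  obtain ⟨hz, hm, h⟩ := h
  have hyi : y ∈ Sx (i : Fin n) := Sy_le_Sx light_not hy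
  have hb : dl (i : Fin n) ⟨y, hyi⟩ ∈ Gam π := dl_mem_Gam (hD.light _ i.2) _
  have hz' : y * z * y⁻¹ ∈ Sx (i : Fin n) := mul_mem (mul_mem hyi hz) (inv_mem hyi)
  have e0 : T (i : Fin n) (1, ⟨y * z * y⁻¹, hz'⟩) * dl (i : Fin n) ⟨y, hyi⟩ =
      dl (i : Fin n) ⟨y, hyi⟩ * T (i : Fin n) (1, ⟨z, hz⟩) := by
    rw [dl_apply, ← map_mul, ← map_mul, Prod.mk_mul_mk, Prod.mk_mul_mk, one_mul, mul_one]
    congr 2
    refine Subtype.ext ?_
    show y * z * y⁻¹ * y = y * z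
    rw [inv_mul_cancel_right]
  have hm' : T (i : Fin n) (1, ⟨y * z * y⁻¹, hz'⟩) ∈ Gam π := by
    rw [eq_mul_inv_of_mul_eq e0]
    exact mul_mem (mul_mem hb hm) (inv_mem hb)
  refine ⟨hz', hm', FA_conj (B := ρ ⟨_, hb⟩) h ?_ (hdl.xi_ne y hy) (hdl.al_ne y hy) ?_ ?_ ?_⟩
  · rw [← map_mul, ← map_mul]
    exact congrArg ρ (Subtype.ext e0)
  · rw [hdl.act_self i ⟨y, hyi⟩ hb hy, single_smul_one]
  · rw [hdl.act_ne i ⟨y, hyi⟩ hb hy j hij, single_smul_one]
  · rintro v ⟨w, hw, hw1, rfl⟩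
    rw [hdl.act_s i ⟨y, hyi⟩ hb hy w hw hw1, Prod.smul_mk, smul_zero]

omit [CharZero K] in
private theorem FP_base (hD : Dat π I₀ r) (hS : Spec π I₀ S) (hT : TypeS S ρ c)
    {s : FreeGroup (Fin n) → (Fin q → K)} (hs : IsS π I₀ ρ c s) {i j : ZZ I₀} (hij : j ≠ i) :
    FP ρ s i j (FreeGroup.of (j : Fin n)) 1 := by
  have hij' : (j : Fin n) ≠ (i : Fin n) := fun e => hij (Subtype.ext e)
  have hz : FreeGroup.of (j : Fin n) ∈ Sx (i : Fin n) := of_mem_Sx hij'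
  have e0 : T (i : Fin n) (1, ⟨FreeGroup.of (j : Fin n), hz⟩) = STAB.R (i : Fin n) (j : Fin n) := by
    rw [STAB.R]
    congr 2
    exact Subtype.ext (lx_ne hij').symm
  have hm : T (i : Fin n) (1, ⟨FreeGroup.of (j : Fin n), hz⟩) ∈ Gam π := by
    rw [e0]
    exact R_mem_Gam _ (hD.light _ j.2)
  refine ⟨hz, hm, ?_⟩
  have e : (⟨_, hm⟩ : Gam π) = S.R i j := Subtype.ext (by
    rw [hS.R i j hij.symm]
    exact e0)
  rw [e]
  refine ⟨?_, ?_, ?_⟩
  · rw [hT i j hij.symm, map_zero, Pi.single_eq_same, zero_add, one_smul, Prod.mk_add_mk, zero_add]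
  · rw [hT i j hij.symm, map_zero, Pi.single_eq_of_ne hij.symm, zero_add, Pi.single_zero, add_zero]
  · rintro v ⟨w, hw, hw1, rfl⟩
    rw [hT i j hij.symm, (hs w hw hw1).1, Pi.zero_apply, add_zero, Pi.single_zero, add_zero]

theorem fox (hD : Dat π I₀ r) (hS : Spec π I₀ S) (hk : 8 ≤ Fintype.card (ZZ I₀))
    (hT : TypeS S ρ c) {s : FreeGroup (Fin n) → (Fin q → K)} (hs : IsS π I₀ ρ c s)
    {ξ al : FreeGroup (Fin n) → K} (hdl : IsDL π I₀ ρ s ξ al) {h : Fin n} (hh : h ∈ I₀)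
    {g : (Fin q → K) →ₗ[K] K}
    (hg : ∀ (j : ZZ I₀) (hm : R h (j : Fin n) ∈ Gam π) (u : Fin q → K)
      (x : ZZ I₀ → K), ρ ⟨R h (j : Fin n), hm⟩ (u, x) = (u, x + Pi.single j (g u))) :
    ∃ D : FreeGroup (Fin n) → K,
      (∀ w ∈ Sy (I₀ : Set (Fin n)), ∀ w' ∈ Sy (I₀ : Set (Fin n)),
        D (w * w') = D w + (al w / ξ w) * D w') ∧
      D (FreeGroup.of h) = al (FreeGroup.of h) / ξ (FreeGroup.of h) ∧
      (∀ h' ∈ I₀, h' ≠ h → D (FreeGroup.of h') = 0) ∧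
      ∀ w ∈ Sy (I₀ : Set (Fin n)), π w = 1 → g (s w) = D w := by
  classical
  -- light letters
  have : Nontrivial (ZZ I₀) := Fintype.one_lt_card_iff_nontrivial.1 (by omega)
  obtain ⟨i, j, hij0⟩ := exists_pair_ne (ZZ I₀)
  have hij : j ≠ i := hij0.symm
  -- the crossed homomorphism
  have hne : ∀ y ∈ Sy (I₀ : Set (Fin n)), al y / ξ y ≠ 0 := fun y hy =>
    div_ne_zero (hdl.al_ne y hy) (hdl.xi_ne y hy)
  obtain ⟨f, hf⟩ : ∃ f : Fin n → Kˣ, ∀ m ∈ I₀,
      (f m : K) = al (FreeGroup.of m) / ξ (FreeGroup.of m) := by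
    refine ⟨fun m => if hm : m ∈ I₀ then
      Units.mk0 _ (hne (FreeGroup.of m) (of_mem_Sy (Finset.mem_coe.2 hm))) else 1, fun m hm => ?_⟩
    simp only [dif_pos hm, Units.val_mk0]
  obtain ⟨D, hD1, hD2⟩ := crossed f
    (fun m => if m = h then al (FreeGroup.of h) / ξ (FreeGroup.of h) else 0)
  have hmul : ∀ y ∈ Sy (I₀ : Set (Fin n)), ∀ y' ∈ Sy (I₀ : Set (Fin n)),
      al (y * y') / ξ (y * y') = al y / ξ y * (al y' / ξ y') := by
    intro y hy y' hy'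
    rw [hdl.al_mul y hy y' hy', hdl.xi_mul y hy y' hy', mul_div_mul_comm]
  have hone : al 1 / ξ 1 = 1 := by
    have h1 := hmul 1 (one_mem _) 1 (one_mem _)
    rw [mul_one] at h1
    exact (mul_eq_left₀ (hne 1 (one_mem _))).1 h1.symm
  have hchi : ∀ w ∈ Sy (I₀ : Set (Fin n)), ((FreeGroup.lift f w : Kˣ) : K) = al w / ξ w := by
    intro w hw
    refine Subgroup.closure_induction (p := fun w _ =>
      ((FreeGroup.lift f w : Kˣ) : K) = al w / ξ w) ?_ ?_ ?_ ?_ hw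
    · rintro _ ⟨m, hm, rfl⟩
      rw [FreeGroup.lift_apply_of, hf m (Finset.mem_coe.1 hm)]
    · rw [map_one, hone, Units.val_one]
    · intro x y hx hy ihx ihy
      rw [map_mul, Units.val_mul, ihx, ihy]
      exact (hmul x hx y hy).symm
    · intro x hx ih
      have h1 := hmul x⁻¹ (inv_mem hx) x hx
      rw [inv_mul_cancel, hone] at h1
      rw [map_inv, Units.val_inv_eq_inv_val, ih]
      exact (eq_inv_of_mul_eq_one_left h1.symm).symm
  have hD3 : ∀ w ∈ Sy (I₀ : Set (Fin n)), ∀ w' ∈ Sy (I₀ : Set (Fin n)),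
      D (w * w') = D w + (al w / ξ w) * D w' := by
    intro w hw w' _
    rw [hD1, hchi w hw]
  have hD0 : D 1 = 0 := by
    have h1 := hD3 1 (one_mem _) 1 (one_mem _)
    rw [mul_one, hone, one_mul] at h1
    exact left_eq_add.1 h1
  refine ⟨D, hD3, by rw [hD2, if_pos rfl], fun h' _ hh' => by rw [hD2, if_neg hh'], ?_⟩
  -- the automorphism `H`
  obtain ⟨H, hH⟩ : ∃ H : AF n, H = R h (j : Fin n) := ⟨_, rfl⟩
  have hHm : H ∈ Gam π := by
    rw [hH]
    exact R_mem_Gam _ (hD.light _ j.2)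
  have hhj : (j : Fin n) ≠ h := fun e => j.2 (e ▸ hh)
  have hhi : (i : Fin n) ≠ h := fun e => i.2 (e ▸ hh)
  have hij' : (j : Fin n) ≠ (i : Fin n) := fun e => hij (Subtype.ext e)
  have hHh : H (FreeGroup.of h) = FreeGroup.of h * FreeGroup.of (j : Fin n) := by
    rw [hH, R_self hhj]
  have hHne : ∀ m, m ≠ h → H (FreeGroup.of m) = FreeGroup.of m := by
    intro m hm
    rw [hH, R_ne hm]
  have claim : ∀ w ∈ Sy (I₀ : Set (Fin n)), FP ρ s i j (H w * w⁻¹) (D w) := by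
    intro w hw
    refine Subgroup.closure_induction (p := fun w _ => FP ρ s i j (H w * w⁻¹) (D w))
      ?_ ?_ ?_ ?_ hw
    · rintro _ ⟨m, hm, rfl⟩
      by_cases hmh : m = h
      · subst hmh
        rw [hHh, hD2, if_pos rfl]
        have h1 := FP_conj hD hdl hij (of_mem_Sy hm) (FP_base hD hS hT hs hij)
        rwa [mul_one] at h1
      · rw [hHne m hmh, hD2, if_neg hmh, mul_inv_cancel]
        exact FP_one s i j
    · rw [map_one, inv_one, mul_one, hD0]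
      exact FP_one s i j
    · intro x y hx hy ihx ihy
      have h1 := FP_mul ihx (FP_conj hD hdl hij hx ihy)
      rw [hD3 x hx y hy]
      have e : H (x * y) * (x * y)⁻¹ = H x * x⁻¹ * (x * (H y * y⁻¹) * x⁻¹) := by
        rw [map_mul]
        group
      rw [e]
      exact h1
    · intro x hx ih
      have h1 := FP_inv (FP_conj hD hdl hij (inv_mem hx) ih)
      have e : H x⁻¹ * x⁻¹⁻¹ = (x⁻¹ * (H x * x⁻¹) * x⁻¹⁻¹)⁻¹ := by
        rw [map_inv]
        group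
      have e2 : D x⁻¹ = -(al x⁻¹ / ξ x⁻¹ * D x) := by
        have h2 := hD3 x⁻¹ (inv_mem hx) x hx
        rw [inv_mul_cancel, hD0] at h2
        exact eq_neg_of_add_eq_zero_left h2.symm
      rw [e, e2]
      exact h1
  intro w hw hw1
  obtain ⟨hz, hm, hA⟩ := claim w hw
  have hwi : w ∈ Sx (i : Fin n) := Sy_le_Sx light_not hw
  have hTw : T (i : Fin n) (1, ⟨w, hwi⟩) ∈ Gam π := T_mem_Gam' (map_one π) hw1
  obtain ⟨s1, s2⟩ := (hs w hw hw1).2 i ⟨w, hwi⟩ hTw rfl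
  have e1 : H * T (i : Fin n) (1, ⟨w, hwi⟩) =
      T (i : Fin n) (1, ⟨H w * w⁻¹, hz⟩) * T (i : Fin n) (1, ⟨w, hwi⟩) * H := by
    rw [← T_mk_mul]
    refine T_conj H (hHne _ hhi) (fun m hm => ?_) _ _ (map_one H).symm ?_
    · by_cases hmh : m = h
      · subst hmh
        rw [hHh]
        exact mul_mem (of_mem_Sx hm) (of_mem_Sx hij')
      · rw [hHne m hmh]
        exact of_mem_Sx hm
    · show H w * w⁻¹ * w = H w
      rw [inv_mul_cancel_right]
  have e2 : (⟨H, hHm⟩ : Gam π) * ⟨_, hTw⟩ = ⟨_, hm⟩ * ⟨_, hTw⟩ * ⟨H, hHm⟩ := Subtype.ext e1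
  have hgH : ∀ (u : Fin q → K) (x : ZZ I₀ → K),
      ρ ⟨H, hHm⟩ (u, x) = (u, x + Pi.single j (g u)) := by
    subst hH
    exact fun u x => hg j hHm u x
  have e3 := congrArg (fun A => ρ A (0, Pi.single i 1)) e2
  simp only [map_mul, Module.End.mul_apply] at e3
  rw [s1, hgH, hgH, map_zero, Pi.single_zero, add_zero, s1] at e3
  have e4 : ((s w, Pi.single i 1) : (Fin q → K) × (ZZ I₀ → K)) =
      (s w, 0) + (0, Pi.single i 1) := by
    rw [Prod.mk_add_mk, add_zero, zero_add]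
  rw [e4, map_add, hA.2.2 _ ⟨w, hw, hw1, rfl⟩, hA.1] at e3
  have e5 := congrFun (congrArg Prod.snd e3) j
  simpa [Pi.single_eq_of_ne hij] using e5

end STAB
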