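import Mathlib
import Pool.Agent.Helper40.STAB.Defs
import Pool.Agent.Helper40.STAB.Comm

/-!
# STAB-27 Heavy: the transvections of a heavy letter by light letters, type S

Write `H j = ρ ⟨R h j, _⟩` (`R h j ∈ Gam π` for `j` light: `R_mem_Gam`, `hD.light`), `e_l = (0, Pi.single l 1)`, `k = card (ZZ I₀) ≥ 8`. Elements of `Gam π` are equal if
they are equal in `AF n` (`Subtype.ext`); relations are checked on letters.
PROOF. `R h j` commutes with `eps a`, `a ≠ j` light, and for `σ` a permutation of the light letters `sg σ * R h j * (sg σ)⁻¹ = R h (σ j)`;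
`eps j * R h j * eps j = (R h j)⁻¹`, so `(ep j * ep l) * R h j * (ep j * ep l) = (R h j)⁻¹` for `l ≠ j`; for `j ≠ l`: `R j l * R h j = R h j * R h l * R j l` and `R j l * R h l = R h l * R j l`.
`comm_a`, `comm_b` with `E = {j}`: `H j e_l = κ_l e_l` (`l ≠ j`), `H j (u, 0) = (P u, Pi.single j (g u))`, `H j e_j = (b, Pi.single j δ)`; by the even permutations
(`hC.even`) `P, g, b, δ, κ` do not depend on `j, l`. `κ ≠ 0`; at `e_s` (`s ≠ j, l`, fixed by `ρ (R j l)`) `κ = κ κ`: `κ = 1`. From `R j l * R h l = R h l * R j l` (type S: `ρ (R j l) (u, x) =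
(u, x + (c u + x j) e_l)`) at `e_j`: `ρ (R j l) (H l e_j) = e_j + e_l` and `H l (e_j + e_l) = e_j + (b, δ e_l)`: `b = 0`, `δ = 1`. At `(u, 0)`: `c (P u) = c u`.
`H j` composed with its conjugate by `ep j * ep l` is `1`: at `(u, 0)`: `P P u = u`, `g (P u) = g u`. From `R j l * R h j = R h j * R h l * R j l` at `(u, 0)`:
left `ρ (R j l) (P u, g u e_j) = (P u, g u e_j + (c (P u) + g u) e_l)`; right: `H j (H l (u, c u e_l)) = H j (P u, (g u + c u) e_l) = (P P u, g (P u) e_j + (g u + c u) e_l)`. So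
`P u = P P u = u`. Hence `H j (u, x) = (u, x + Pi.single j (g u))`.
-/

set_option autoImplicit false

namespace STAB

open Helper38.AutF

section Lin

variable {Z Γ K : Type} [Fintype Z] [DecidableEq Z] [Group Γ] [Field K] [CharZero K] {q : ℕ}
  {S : Sys Z Γ} {ρ : Γ →* Module.End K ((Fin q → K) × (Z → K))} {c : (Fin q → K) →ₗ[K] K}

omit [Fintype Z] [DecidableEq Z] [CharZero K] in
private theorem hv_apply (a b : Γ) (v : (Fin q → K) × (Z → K)) : ρ (a * b) v = ρ a (ρ b v) := by
  rw [map_mul]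
  rfl

omit [Fintype Z] [DecidableEq Z] [CharZero K] in
private theorem hv_inj (a : Γ) {v w : (Fin q → K) × (Z → K)} (h : ρ a v = ρ a w) : v = w := by
  have h1 := congrArg (ρ a⁻¹) h
  rw [← hv_apply, ← hv_apply, inv_mul_cancel, map_one] at h1
  exact h1

private theorem hv_pick (hk : 8 ≤ Fintype.card Z) (a b : Z) : ∃ j, j ≠ a ∧ j ≠ b := by
  by_contra hcon
  push Not at hcon
  have h1 : (Finset.univ : Finset Z) ⊆ {a, b} := by
    intro j _
    rw [Finset.mem_insert, Finset.mem_singleton]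
    by_cases hj : j = a
    · exact Or.inl hj
    · exact Or.inr (hcon j hj)
  have h2 := Finset.card_le_card h1
  have h3 : ({a, b} : Finset Z).card ≤ 2 := Finset.card_le_two
  rw [Finset.card_univ] at h2
  omega

private theorem hv_lin (hk : 8 ≤ Fintype.card Z) (hC : Coord S ρ) (hT : TypeS S ρ c) (r : Z → Γ)
    (ha : ∀ j a b, a ≠ j → b ≠ j → a ≠ b → r j * (S.ep a * S.ep b) = (S.ep a * S.ep b) * r j)
    (hc : ∀ j l, l ≠ j → r j * ((S.ep j * S.ep l) * (r j * (S.ep j * S.ep l))) = 1)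
    (hd : ∀ j l, j ≠ l → S.R j l * r j = r j * (r l * S.R j l))
    (he : ∀ j l, j ≠ l → S.R j l * r l = r l * S.R j l) :
    ∃ g : (Fin q → K) →ₗ[K] K, ∀ (j : Z) (u : Fin q → K) (x : Z → K),
      ρ (r j) (u, x) = (u, x + Pi.single j (g u)) := by
  classical
  have hE : ∀ j : Z, ({j} : Finset Z).card + 3 ≤ Fintype.card Z := by
    intro j
    rw [Finset.card_singleton]
    omega
  have hg : ∀ j : Z, ∀ a b, a ∉ ({j} : Finset Z) → b ∉ ({j} : Finset Z) → a ≠ b →
      ρ (r j) * ρ (S.ep a * S.ep b) = ρ (S.ep a * S.ep b) * ρ (r j) := by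
    intro j a b h1 h2 h3
    rw [← map_mul, ← map_mul, ha j a b (by simpa using h1) (by simpa using h2) h3]
  have hsplit : ∀ (j : Z) (u : Fin q → K) (x : Z → K),
      ρ (r j) (u, x) = ρ (r j) (u, 0) + ρ (r j) (0, x) := by
    intro j u x
    rw [← map_add]
    simp
  -- the coordinates
  set P : Z → (Fin q → K) →ₗ[K] (Fin q → K) := fun j =>
    LinearMap.fst K (Fin q → K) (Z → K) ∘ₗ ρ (r j) ∘ₗ LinearMap.inl K (Fin q → K) (Z → K) with hP
  set gg : Z → (Fin q → K) →ₗ[K] K := fun j =>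
    LinearMap.proj j ∘ₗ LinearMap.snd K (Fin q → K) (Z → K) ∘ₗ ρ (r j) ∘ₗ
      LinearMap.inl K (Fin q → K) (Z → K) with hgg
  have h0 : ∀ j u, ρ (r j) (u, 0) = (P j u, Pi.single j (gg j u)) := by
    intro j u
    refine Prod.ext rfl ?_
    funext l
    by_cases hl : l = j
    · subst hl
      change _ = (Pi.single l (gg l u) : Z → K) l
      rw [Pi.single_eq_same]
      rfl
    · change _ = (Pi.single j (gg j u) : Z → K) l
      rw [Pi.single_eq_of_ne hl]
      exact comm_b hC (hE j) (hg j) u 0 (fun _ _ => rfl) (by simpa using hl)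
  -- light vectors are fixed
  have hκ : ∀ j l, l ≠ j → ∃ κ : K, ρ (r j) (0, Pi.single l 1) = (0, Pi.single l κ) := by
    intro j l hl
    exact comm_a hC (hE j) (hg j) (by simpa using hl)
  have hsc : ∀ (j s : Z) (κ κ' : K), ρ (r j) (0, Pi.single s 1) = (0, Pi.single s κ) →
      ρ (r j) (0, Pi.single s κ') = (0, Pi.single s (κ' * κ)) := by
    intro j s κ κ' h
    have h1 : ((0, Pi.single s κ') : (Fin q → K) × (Z → K)) = κ' • (0, Pi.single s 1) := by
      rw [Prod.smul_mk, smul_zero, ← Pi.single_smul, smul_eq_mul, mul_one]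
    rw [h1, map_smul, h, Prod.smul_mk, smul_zero, ← Pi.single_smul, smul_eq_mul]
  have h2 : ∀ l s, s ≠ l → ρ (r l) (0, Pi.single s 1) = (0, Pi.single s 1) := by
    intro l s hs
    obtain ⟨j, hjl, hjs⟩ := hv_pick hk l s
    obtain ⟨κ, h3⟩ := hκ j s hjs.symm
    obtain ⟨κ', h4⟩ := hκ l s hs
    have hκ0 : κ ≠ 0 := by
      intro h5
      rw [h5, Pi.single_zero] at h3
      have h6 : ρ (r j) (0, Pi.single s 1) = ρ (r j) 0 := by
        rw [h3, map_zero]
        rfl
      have h7 := congrArg (fun v : (Fin q → K) × (Z → K) => v.2 s) (hv_inj (r j) h6)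
      simp at h7
    have h5 := congrArg (fun t => ρ t (0, Pi.single s 1)) (hd j l hjl)
    simp only [hv_apply] at h5
    rw [h3, hT j l hjl, hT j l hjl, Pi.single_eq_of_ne hjs, Pi.single_eq_of_ne hjs, map_zero,
      add_zero, Pi.single_zero, add_zero, add_zero, h4, hsc j s κ κ' h3] at h5
    have h6 := congrArg (fun v : (Fin q → K) × (Z → K) => v.2 s) h5
    simp only [Pi.single_eq_same] at h6
    have h7 : κ' = 1 := by
      have h8 : (κ' - 1) * κ = 0 := by
        rw [sub_mul, one_mul, ← h6, sub_self]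
      rcases mul_eq_zero.1 h8 with h9 | h9
      · exact sub_eq_zero.1 h9
      · exact absurd h9 hκ0
    rw [h4, h7]
  have h3 : ∀ l, ρ (r l) (0, Pi.single l 1) = (0, Pi.single l 1) := by
    intro l
    obtain ⟨j, hjl, _⟩ := hv_pick hk l l
    have h5 := congrArg (fun t => ρ t (0, Pi.single j 1)) (he j l hjl)
    simp only [hv_apply] at h5
    rw [h2 l j hjl, hT j l hjl, Pi.single_eq_same, map_zero, zero_add] at h5
    have h6 : ((0, Pi.single j 1 + Pi.single l 1) : (Fin q → K) × (Z → K)) =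
        (0, Pi.single j 1) + (0, Pi.single l 1) := by
      rw [Prod.mk_add_mk, add_zero]
    rw [h6, map_add, h2 l j hjl] at h5
    exact (add_left_cancel h5).symm
  have h4 : ∀ (l : Z) (x : Z → K), ρ (r l) (0, x) = (0, x) := by
    intro l x
    have h5 : ((0, x) : (Fin q → K) × (Z → K)) = ∑ s, x s • (0, Pi.single s 1) := by
      refine Prod.ext ?_ ?_
      · rw [Prod.fst_sum]
        simp
      · rw [Prod.snd_sum]
        funext t
        simp [Pi.single_apply]
    rw [h5, map_sum]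
    refine Finset.sum_congr rfl fun s _ => ?_
    rw [map_smul]
    by_cases hs : s = l
    · rw [hs, h3]
    · rw [h2 l s hs]
  have h5 : ∀ (l : Z) (u : Fin q → K) (x : Z → K),
      ρ (r l) (u, x) = (P l u, Pi.single l (gg l u) + x) := by
    intro l u x
    rw [hsplit, h0, h4, Prod.mk_add_mk, add_zero]
  have h6 : ∀ l u, c (P l u) = c u := by
    intro l u
    obtain ⟨j, hjl, _⟩ := hv_pick hk l l
    have h7 := congrArg (fun t => ρ t (u, 0)) (he j l hjl)
    simp only [hv_apply] at h7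
    rw [h5, hT j l hjl, hT j l hjl, h5] at h7
    have h8 := congrArg (fun v : (Fin q → K) × (Z → K) => v.2 l) h7
    simp only [Pi.add_apply, Pi.single_eq_same, Pi.zero_apply, add_zero, zero_add,
      Pi.single_eq_of_ne hjl] at h8
    exact add_left_cancel h8
  have h7 : ∀ j u, P j (P j u) = u := by
    intro j u
    obtain ⟨l, hlj, _⟩ := hv_pick hk j j
    have h8 := congrArg (fun t => ρ t (u, 0)) (hc j l hlj)
    simp only [hv_apply] at h8
    rw [← hv_apply (S.ep j) (S.ep l), ← hv_apply (S.ep j) (S.ep l), hC.ep2 j l hlj.symm, h5,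
      hC.ep2 j l hlj.symm, h5, map_one] at h8
    exact congrArg Prod.fst h8
  have h8 : ∀ j l, j ≠ l → ∀ u, P j u = P j (P l u) ∧ gg j u = gg l u := by
    intro j l hjl u
    have h9 := congrArg (fun t => ρ t (u, 0)) (hd j l hjl)
    simp only [hv_apply] at h9
    rw [h5, hT j l hjl, hT j l hjl, h5, h5] at h9
    have h12 := congrArg Prod.fst h9
    simp only at h12
    refine ⟨h12, ?_⟩
    have h10 := congrArg (fun v : (Fin q → K) × (Z → K) => v.2 l) h9
    simp only [Pi.add_apply, Pi.single_eq_same, Pi.zero_apply, add_zero, zero_add,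
      Pi.single_eq_of_ne hjl.symm, h6] at h10
    have h11 : c u + gg j u = c u + gg l u := by
      rw [h10]
      ring
    exact add_left_cancel h11
  have h9 : ∀ l u, P l u = u := by
    intro l u
    obtain ⟨j, hjl, _⟩ := hv_pick hk l l
    have h10 := congrArg (P j) (h8 j l hjl u).1
    rw [h7, h7] at h10
    exact h10.symm
  have hne : Nonempty Z := by
    rw [← Fintype.card_pos_iff]
    omega
  obtain ⟨j0⟩ := hne
  refine ⟨gg j0, fun j u x => ?_⟩
  rw [h5, h9, add_comm]
  by_cases hj : j = j0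
  · rw [hj]
  · rw [(h8 j j0 hj u).2]

end Lin

private theorem hv_a {n : ℕ} {h j a : Fin n} (ha : a ≠ h) (haj : a ≠ j) (hj : j ≠ h) :
    eps a * R h j = R h j * eps a := by
  refine aut_ext fun m => ?_
  rw [MulAut.mul_apply, MulAut.mul_apply]
  by_cases hm : m = h
  · subst hm
    rw [R_self hj, map_mul, eps_ne ha.symm, eps_ne haj.symm, R_self hj]
  · by_cases hma : m = a
    · subst hma
      rw [R_ne hm, eps_self, map_inv, R_ne hm]
    · rw [R_ne hm, eps_ne hma, R_ne hm]

private theorem hv_c {n : ℕ} {h j : Fin n} (hj : j ≠ h) :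
    R h j * (eps j * (R h j * eps j)) = 1 := by
  refine aut_ext fun m => ?_
  rw [MulAut.mul_apply, MulAut.mul_apply, MulAut.mul_apply]
  by_cases hm : m = h
  · subst hm
    rw [eps_ne hj.symm, R_self hj, map_mul, eps_ne hj.symm, eps_self, map_mul, R_self hj, map_inv,
      R_ne hj]
    simp
  · by_cases hma : m = j
    · subst hma
      rw [eps_self, map_inv, R_ne hm, map_inv, eps_self, inv_inv, R_ne hm]
      rfl
    · rw [eps_ne hma, R_ne hm, eps_ne hma, R_ne hm]
      rfl

private theorem hv_d {n : ℕ} {h j l : Fin n} (hj : j ≠ h) (hl : l ≠ h) (hjl : j ≠ l) :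
    R j l * R h j = R h j * (R h l * R j l) := by
  refine aut_ext fun m => ?_
  rw [MulAut.mul_apply, MulAut.mul_apply, MulAut.mul_apply]
  by_cases hm : m = h
  · subst hm
    rw [R_self hj, map_mul, R_ne hj.symm, R_self hjl.symm, R_self hl, map_mul, R_self hj,
      R_ne hl, mul_assoc]
  · by_cases hma : m = j
    · subst hma
      rw [R_ne hm, R_self hjl.symm, map_mul, R_ne hm, R_ne hl, map_mul, R_ne hm, R_ne hl]
    · rw [R_ne hm, R_ne hma, R_ne hm, R_ne hm]

private theorem hv_e {n : ℕ} {h j l : Fin n} (hj : j ≠ h) (hl : l ≠ h) (hjl : j ≠ l) :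
    R j l * R h l = R h l * R j l := by
  refine aut_ext fun m => ?_
  rw [MulAut.mul_apply, MulAut.mul_apply]
  by_cases hm : m = h
  · subst hm
    rw [R_self hl, map_mul, R_ne hj.symm, R_ne hjl.symm, R_self hl]
  · by_cases hma : m = j
    · subst hma
      rw [R_ne hm, R_self hjl.symm, map_mul, R_ne hm, R_ne hl]
    · rw [R_ne hm, R_ne hma, R_ne hm]

variable {n r : ℕ} {G : Type} [Group G] {π : FreeGroup (Fin n) →* G} {I₀ : Finset (Fin n)}
  {K : Type} [Field K] [CharZero K] {q : ℕ} {S : Sys (ZZ I₀) (Gam π)}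
  {ρ : Gam π →* Module.End K ((Fin q → K) × (ZZ I₀ → K))} {c : (Fin q → K) →ₗ[K] K}

theorem heavy (hD : Dat π I₀ r) (hS : Spec π I₀ S) (hk : 8 ≤ Fintype.card (ZZ I₀))
    (hC : Coord S ρ) (hT : TypeS S ρ c) {h : Fin n} (hh : h ∈ I₀) :
    ∃ g : (Fin q → K) →ₗ[K] K, ∀ (j : ZZ I₀) (hm : R h (j : Fin n) ∈ Gam π) (u : Fin q → K)
      (x : ZZ I₀ → K), ρ ⟨R h (j : Fin n), hm⟩ (u, x) = (u, x + Pi.single j (g u)) := by
  have hne : ∀ j : ZZ I₀, (j : Fin n) ≠ h := by
    rintro ⟨j, hj⟩ rfl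
    exact hj hh
  have hcoe : ∀ {j l : ZZ I₀}, j ≠ l → (j : Fin n) ≠ l := fun h1 h2 => h1 (Subtype.ext h2)
  set t : ZZ I₀ → Gam π := fun j => ⟨R h (j : Fin n), R_mem_Gam h (hD.light j j.2)⟩ with ht
  have hcomm : ∀ j a : ZZ I₀, a ≠ j → S.ep a * t j = t j * S.ep a := by
    intro j a haj
    apply Subtype.ext
    rw [Subgroup.coe_mul, Subgroup.coe_mul, hS.ep]
    exact hv_a (hne a) (hcoe haj) (hne j)
  have hinv : ∀ j : ZZ I₀, t j * (S.ep j * (t j * S.ep j)) = 1 := by
    intro j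
    apply Subtype.ext
    rw [Subgroup.coe_mul, Subgroup.coe_mul, Subgroup.coe_mul, hS.ep]
    exact hv_c (hne j)
  have k1 : ∀ j a b, a ≠ j → b ≠ j → a ≠ b → t j * (S.ep a * S.ep b) = (S.ep a * S.ep b) * t j := by
    intro j a b haj hbj _
    rw [mul_assoc, hcomm j b hbj, ← mul_assoc, ← mul_assoc, hcomm j a haj]
  have k2 : ∀ j l, l ≠ j → t j * ((S.ep j * S.ep l) * (t j * (S.ep j * S.ep l))) = 1 := by
    intro j l hlj
    have h1 : (S.ep j * S.ep l) * (t j * (S.ep j * S.ep l)) = S.ep j * (t j * S.ep j) := by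
      calc (S.ep j * S.ep l) * (t j * (S.ep j * S.ep l))
          = S.ep j * ((S.ep l * t j) * (S.ep j * S.ep l)) := by simp only [mul_assoc]
        _ = S.ep j * ((t j * S.ep l) * (S.ep l * S.ep j)) := by
            rw [hcomm j l hlj, S.ep_comm j l]
        _ = S.ep j * (t j * ((S.ep l * S.ep l) * S.ep j)) := by simp only [mul_assoc]
        _ = S.ep j * (t j * S.ep j) := by rw [S.ep_sq, one_mul]
    rw [h1]
    exact hinv j
  have k3 : ∀ j l, j ≠ l → S.R j l * t j = t j * (t l * S.R j l) := by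
    intro j l hjl
    apply Subtype.ext
    rw [Subgroup.coe_mul, Subgroup.coe_mul, Subgroup.coe_mul, hS.R j l hjl]
    exact hv_d (hne j) (hne l) (hcoe hjl)
  have k4 : ∀ j l, j ≠ l → S.R j l * t l = t l * S.R j l := by
    intro j l hjl
    apply Subtype.ext
    rw [Subgroup.coe_mul, Subgroup.coe_mul, hS.R j l hjl]
    exact hv_e (hne j) (hne l) (hcoe hjl)
  obtain ⟨g, hg⟩ := hv_lin hk hC hT t k1 k2 k3 k4
  exact ⟨g, fun j hm u x => hg j u x⟩

end STAB
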