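import Mathlib
import Pool.Agent.Helper40.STAB.Defs
import Pool.Agent.Helper40.STAB.Heavy
import Pool.Agent.Helper40.STAB.JW
import Pool.Agent.Helper40.STAB.DLw
import Pool.Agent.Helper40.STAB.Fox

/-!
# STAB-31 CountS: type S is impossible for `q ≤ d - 2`

PROOF. For `h ∈ I₀` take `g h` (`heavy`), `s` (`JW`), `ξ, al` (`DLw`), `D h` (`fox`); `χ = al / ξ`, multiplicative and nonzero on `Sy I₀`. `N = Nat.card G ≠ 0`: `π (u ^ N) = 1`
for every `u` (`pow_card_eq_one'`). If `u ∈ Sy I₀`, `χ u = 1` then `D h (u ^ N) = N * D h u` (induction). So `g h (s (u ^ N)) = N * D h u`.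
Case 1: `χ x_h = 1` for all `h ∈ I₀`. The vectors `s (x_h ^ N)`, `h ∈ I₀`, satisfy `g h' (s (x_h ^ N)) = N * D h' x_h = N` if `h' = h`, `0` otherwise. So they are linearly
independent: `I₀.card ≤ q` (`LinearIndependent.fintype_card_le_finrank`), contradiction.
Case 2: `χ x_{h₁} ≠ 1`. For `h ∈ I₀ \ {h₁}` let `u h = x_{h₁} x_h x_{h₁}⁻¹ x_h⁻¹`: `χ (u h) = 1` (`χ w⁻¹ = (χ w)⁻¹`) and, with `D (w⁻¹) = - (χ w)⁻¹ D w` (from `D 1 = 0`):
`D h (u h) = χ x_{h₁} χ x_h - χ x_h = χ x_h (χ x_{h₁} - 1) ≠ 0`, `D h' (u h) = 0` for `h' ∈ I₀`, `h' ≠ h, h₁`. So the vectors `s (u h ^ N)`, `h ∈ I₀ \ {h₁}`, are independent: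
`I₀.card - 1 ≤ q`, contradiction to `hq`.
-/

set_option autoImplicit false

namespace STAB

open Helper38.AutF

variable {n r : ℕ} {G : Type} [Group G] {π : FreeGroup (Fin n) →* G} {I₀ : Finset (Fin n)}
  {K : Type} [Field K] [CharZero K] {q : ℕ} {S : Sys (ZZ I₀) (Gam π)}
  {ρ : Gam π →* Module.End K ((Fin q → K) × (ZZ I₀ → K))} {c : (Fin q → K) →ₗ[K] K}

private theorem cs_card_le {ι : Type} [Fintype ι] [DecidableEq ι] {K : Type} [Field K] {q : ℕ}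
    (v : ι → Fin q → K) (g : ι → (Fin q → K) →ₗ[K] K) (h1 : ∀ i, g i (v i) ≠ 0)
    (h2 : ∀ i j, i ≠ j → g i (v j) = 0) : Fintype.card ι ≤ q := by
  have h3 : LinearIndependent K v := by
    rw [Fintype.linearIndependent_iff]
    intro a ha i
    have h4 := congrArg (g i) ha
    rw [map_sum, map_zero, Finset.sum_eq_single i] at h4
    · rw [map_smul, smul_eq_mul] at h4
      exact (mul_eq_zero.1 h4).resolve_right (h1 i)
    · intro j _ hj
      rw [map_smul, h2 i j hj.symm, smul_zero]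
    · intro h
      exact absurd (Finset.mem_univ i) h
  have h5 := h3.fintype_card_le_finrank
  rwa [Module.finrank_fin_fun] at h5

private theorem cs_chi_one {W : Subgroup (FreeGroup (Fin n))} {χ : FreeGroup (Fin n) → K}
    (hne : ∀ w ∈ W, χ w ≠ 0) (hmul : ∀ w ∈ W, ∀ w' ∈ W, χ (w * w') = χ w * χ w') : χ 1 = 1 := by
  have h1 := hmul 1 (one_mem W) 1 (one_mem W)
  rw [mul_one] at h1
  have h2 := hne 1 (one_mem W)
  have h3 : χ 1 * (χ 1 - 1) = 0 := by rw [mul_sub, mul_one, ← h1, sub_self]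
  exact sub_eq_zero.1 ((mul_eq_zero.1 h3).resolve_left h2)

private theorem cs_D_one {W : Subgroup (FreeGroup (Fin n))} {χ D : FreeGroup (Fin n) → K}
    (hne : ∀ w ∈ W, χ w ≠ 0) (hmul : ∀ w ∈ W, ∀ w' ∈ W, χ (w * w') = χ w * χ w')
    (hD : ∀ w ∈ W, ∀ w' ∈ W, D (w * w') = D w + χ w * D w') : D 1 = 0 := by
  have h1 := hD 1 (one_mem W) 1 (one_mem W)
  rw [mul_one, cs_chi_one hne hmul, one_mul] at h1
  have h2 : D 1 + D 1 = D 1 := h1.symm
  simpa using h2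

private theorem cs_chi_inv {W : Subgroup (FreeGroup (Fin n))} {χ : FreeGroup (Fin n) → K}
    (hne : ∀ w ∈ W, χ w ≠ 0) (hmul : ∀ w ∈ W, ∀ w' ∈ W, χ (w * w') = χ w * χ w')
    {w : FreeGroup (Fin n)} (hw : w ∈ W) : χ w⁻¹ = (χ w)⁻¹ := by
  have h1 := hmul w hw w⁻¹ (inv_mem hw)
  rw [mul_inv_cancel, cs_chi_one hne hmul] at h1
  exact eq_inv_of_mul_eq_one_right h1.symm

private theorem cs_D_inv {W : Subgroup (FreeGroup (Fin n))} {χ D : FreeGroup (Fin n) → K}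
    (hne : ∀ w ∈ W, χ w ≠ 0) (hmul : ∀ w ∈ W, ∀ w' ∈ W, χ (w * w') = χ w * χ w')
    (hD : ∀ w ∈ W, ∀ w' ∈ W, D (w * w') = D w + χ w * D w')
    {w : FreeGroup (Fin n)} (hw : w ∈ W) : D w⁻¹ = -((χ w)⁻¹ * D w) := by
  have h1 := hD w hw w⁻¹ (inv_mem hw)
  rw [mul_inv_cancel, cs_D_one hne hmul hD] at h1
  have h2 := hne w hw
  have h3 : χ w * D w⁻¹ = - D w := by linear_combination -h1
  have h4 : D w⁻¹ = (χ w)⁻¹ * (χ w * D w⁻¹) := by rw [← mul_assoc, inv_mul_cancel₀ h2, one_mul]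
  rw [h4, h3, mul_neg]

private theorem cs_pow {W : Subgroup (FreeGroup (Fin n))} {χ D : FreeGroup (Fin n) → K}
    (hne : ∀ w ∈ W, χ w ≠ 0) (hmul : ∀ w ∈ W, ∀ w' ∈ W, χ (w * w') = χ w * χ w')
    (hD : ∀ w ∈ W, ∀ w' ∈ W, D (w * w') = D w + χ w * D w')
    {w : FreeGroup (Fin n)} (hw : w ∈ W) (h1 : χ w = 1) (m : ℕ) :
    χ (w ^ m) = 1 ∧ D (w ^ m) = m * D w := by
  induction m with
  | zero =>
    refine ⟨by rw [pow_zero]; exact cs_chi_one hne hmul, ?_⟩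
    rw [pow_zero, cs_D_one hne hmul hD]
    simp
  | succ m ih =>
    refine ⟨by rw [pow_succ, hmul _ (pow_mem hw m) _ hw, ih.1, h1, one_mul], ?_⟩
    rw [pow_succ, hD _ (pow_mem hw m) _ hw, ih.1, ih.2]
    push_cast
    ring

private theorem cs_comm {W : Subgroup (FreeGroup (Fin n))} {χ D : FreeGroup (Fin n) → K}
    (hne : ∀ w ∈ W, χ w ≠ 0) (hmul : ∀ w ∈ W, ∀ w' ∈ W, χ (w * w') = χ w * χ w')
    (hD : ∀ w ∈ W, ∀ w' ∈ W, D (w * w') = D w + χ w * D w')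
    {x y : FreeGroup (Fin n)} (hx : x ∈ W) (hy : y ∈ W) (h0 : D x = 0) :
    x * (y * (x⁻¹ * y⁻¹)) ∈ W ∧ χ (x * (y * (x⁻¹ * y⁻¹))) = 1 ∧
      D (x * (y * (x⁻¹ * y⁻¹))) = (χ x - 1) * D y := by
  have hxi := inv_mem hx
  have hyi := inv_mem hy
  have h3 := mul_mem hxi hyi
  have h4 := mul_mem hy h3
  have hx0 := hne x hx
  have hy0 := hne y hy
  refine ⟨mul_mem hx h4, ?_, ?_⟩
  · rw [hmul _ hx _ h4, hmul _ hy _ h3, hmul _ hxi _ hyi, cs_chi_inv hne hmul hx,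
      cs_chi_inv hne hmul hy]
    field_simp
  · rw [hD _ hx _ h4, hD _ hy _ h3, hD _ hxi _ hyi, cs_D_inv hne hmul hD hx,
      cs_D_inv hne hmul hD hy, cs_chi_inv hne hmul hx, h0]
    field_simp
    ring

theorem typeS_false [Finite G] (hD : Dat π I₀ r) (hS : Spec π I₀ S)
    (hk : 8 ≤ Fintype.card (ZZ I₀)) (hC : Coord S ρ) (hT : TypeS S ρ c)
    (hq : q + 2 ≤ I₀.card) : False := by
  classical
  obtain ⟨s, hs⟩ := JW hD hS hk hC hT
  obtain ⟨ξ, al, hdl⟩ := DLw hD hS hk hC hs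
  have hg : ∀ h : {h : Fin n // h ∈ I₀}, ∃ g : (Fin q → K) →ₗ[K] K, ∀ (j : ZZ I₀)
      (hm : R (h : Fin n) (j : Fin n) ∈ Gam π) (u : Fin q → K) (x : ZZ I₀ → K),
      ρ ⟨R (h : Fin n) (j : Fin n), hm⟩ (u, x) = (u, x + Pi.single j (g u)) :=
    fun h => heavy hD hS hk hC hT h.2
  choose g hg using hg
  have hf := fun h : {h : Fin n // h ∈ I₀} => fox hD hS hk hT hs hdl h.2 (hg h)
  choose D hD1 hD2 hD3 hD4 using hf
  set W : Subgroup (FreeGroup (Fin n)) := Sy (I₀ : Set (Fin n)) with hW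
  set χ : FreeGroup (Fin n) → K := fun w => al w / ξ w with hχ
  have hne : ∀ w ∈ W, χ w ≠ 0 := fun w hw => div_ne_zero (hdl.al_ne w hw) (hdl.xi_ne w hw)
  have hmul : ∀ w ∈ W, ∀ w' ∈ W, χ (w * w') = χ w * χ w' := by
    intro w hw w' hw'
    show al (w * w') / ξ (w * w') = al w / ξ w * (al w' / ξ w')
    rw [hdl.al_mul w hw w' hw', hdl.xi_mul w hw w' hw', div_mul_div_comm]
  have hN : (Nat.card G : K) ≠ 0 := by
    have : Nat.card G ≠ 0 := Nat.card_pos.ne'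
    exact_mod_cast this
  have hπ : ∀ u : FreeGroup (Fin n), π (u ^ Nat.card G) = 1 := fun u => by
    rw [map_pow]
    exact pow_card_eq_one'
  have hx : ∀ h : {h : Fin n // h ∈ I₀}, FreeGroup.of (h : Fin n) ∈ W := fun h =>
    of_mem_Sy (by exact_mod_cast h.2)
  have key : ∀ (h : {h : Fin n // h ∈ I₀}) (u : FreeGroup (Fin n)), u ∈ W → χ u = 1 →
      g h (s (u ^ Nat.card G)) = Nat.card G * D h u := by
    intro h u hu h1
    rw [hD4 h _ (pow_mem hu _) (hπ u)]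
    exact (cs_pow hne hmul (hD1 h) hu h1 _).2
  by_cases hcase : ∀ h : {h : Fin n // h ∈ I₀}, χ (FreeGroup.of (h : Fin n)) = 1
  · have h1 := cs_card_le (fun h : {h : Fin n // h ∈ I₀} =>
      s (FreeGroup.of (h : Fin n) ^ Nat.card G)) g (fun h => by
        rw [key h _ (hx h) (hcase h), hD2 h]
        have h2 : al (FreeGroup.of (h : Fin n)) / ξ (FreeGroup.of (h : Fin n)) = 1 := hcase h
        rw [h2, mul_one]
        exact hN) (fun h h' hh' => by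
        rw [key h _ (hx h') (hcase h'), hD3 h h' h'.2 (fun e => hh' (Subtype.ext e.symm)),
          mul_zero])
    rw [Fintype.card_coe] at h1
    omega
  · push Not at hcase
    obtain ⟨h₁, hh₁⟩ := hcase
    have hsub : ∀ h : {h : Fin n // h ∈ I₀.erase h₁}, (h : Fin n) ∈ I₀ := fun h =>
      Finset.mem_of_mem_erase h.2
    have hneq : ∀ h : {h : Fin n // h ∈ I₀.erase h₁}, (h : Fin n) ≠ h₁ := fun h =>
      Finset.ne_of_mem_erase h.2
    have hcom : ∀ h h' : {h : Fin n // h ∈ I₀.erase h₁},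
        FreeGroup.of (h₁ : Fin n) * (FreeGroup.of (h' : Fin n) *
          ((FreeGroup.of (h₁ : Fin n))⁻¹ * (FreeGroup.of (h' : Fin n))⁻¹)) ∈ W ∧
        χ (FreeGroup.of (h₁ : Fin n) * (FreeGroup.of (h' : Fin n) *
          ((FreeGroup.of (h₁ : Fin n))⁻¹ * (FreeGroup.of (h' : Fin n))⁻¹))) = 1 ∧
        D ⟨h, hsub h⟩ (FreeGroup.of (h₁ : Fin n) * (FreeGroup.of (h' : Fin n) *
          ((FreeGroup.of (h₁ : Fin n))⁻¹ * (FreeGroup.of (h' : Fin n))⁻¹))) =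
            (χ (FreeGroup.of (h₁ : Fin n)) - 1) * D ⟨h, hsub h⟩ (FreeGroup.of (h' : Fin n)) := by
      intro h h'
      exact cs_comm hne hmul (hD1 ⟨h, hsub h⟩) (hx h₁) (hx ⟨h', hsub h'⟩)
        (hD3 ⟨h, hsub h⟩ h₁ h₁.2 (fun e => hneq h e.symm))
    have h1 := cs_card_le (fun h : {h : Fin n // h ∈ I₀.erase h₁} =>
      s ((FreeGroup.of (h₁ : Fin n) * (FreeGroup.of (h : Fin n) *
        ((FreeGroup.of (h₁ : Fin n))⁻¹ * (FreeGroup.of (h : Fin n))⁻¹))) ^ Nat.card G))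
      (fun h => g ⟨h, hsub h⟩) (fun h => by
        obtain ⟨k1, k2, k3⟩ := hcom h h
        rw [key _ _ k1 k2, k3, hD2 ⟨h, hsub h⟩]
        exact mul_ne_zero hN (mul_ne_zero (sub_ne_zero.2 hh₁) (hne _ (hx ⟨h, hsub h⟩))))
      (fun h h' hh' => by
        obtain ⟨k1, k2, k3⟩ := hcom h h'
        rw [key _ _ k1 k2, k3, hD3 ⟨h, hsub h⟩ h' (hsub h') (fun e => hh' (Subtype.ext e.symm)),
          mul_zero, mul_zero])
    rw [Fintype.card_coe, Finset.card_erase_of_mem h₁.2] at h1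
    omega

end STAB
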