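import Mathlib
import Pool.Agent.Helper40.STAB.Defs
import Pool.Agent.Helper40.STAB.MLem
import Pool.Agent.Helper40.STAB.Sim
import Pool.Agent.Helper40.STAB.QSet
import Pool.Agent.Helper40.STAB.StdL
import Pool.Agent.Helper40.STAB.Connect

/-!
# STAB-11 Redund: redundant moves

PROOF. Let `φ' = φ * T i p`. Since `I` generates for `φ`, choose words `p₀ = (u₀, v₀)`, `u₀, v₀ ∈ Sy I` with the same values under `π φ` as `p.1, p.2`
(`Sy I ≤ Sx i`); `φ T i p ~ φ T i p₀` (`sim_T`), and by `PP_sim` we may assume `p = p₀`. `φ` and `φ'` agree on `Sy I` (`T_fix`), so `I` generates for `φ'`.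
`exists_perm` with `S = insert i I` (`r + 1 + r ≤ n`; use `5 r + 3 ≤ n`) gives `α` with `A = I₀.image α` disjoint from `I` and `i ∉ A`. By `connect` it is enough to
prove `PA K I₀ φ' α` (`GenOn π φ' Aᶜ` by `genOn_mono`). `PA K I₀ φ α` holds by `hP`. Take `w, v` from `std_exists` for `φ`: `η = φ M_A(w) M_{Aᶜ}(v)`, `w` in `Sy I`, `v` in `Sy A`,
`η pm α ∈ Gam π`; `PA_elim`: `η pm α ~ q ∈ QQ`. Put `φ₂ = φ M_A(w)`; every element of `G` is the value under `π φ₂` of a word in `Sy A` (`φ₂ x_{α j} = η x_{α j}` has value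
`π x_j`, `hD.gen`, word `pm α y`). Choose `u₁ ∈ Sy A` with `π (φ₂ u₁) = π (φ₂ u₀)`, `v₁ ∈ Sy A` with `π (φ₂ v₁) = π (φ₂ v₀)`.
`T i (u₀, v₀)` commutes with `M_A(w)` (letters; `i ∉ A`, words in `Sy I`, `i ∉ I`, `I` disjoint from `A`). So
`φ' M_A(w) = φ₂ T i (u₀, v₀) ~ φ₂ T i (u₁, v₁)` (`sim_T`). Let `t = v_i` (in `Sy A`), and `v'` = `v` with `v_i` replaced by `v₁⁻¹ t u₁`. Then
`η' := φ' M_A(w) M_{Aᶜ}(v') ~ φ₂ T i (u₁, v₁) M_{Aᶜ}(v') = φ₂ M_{Aᶜ}(v) T i (u₁, u₁) = η dl i u₁` (check on letters: `x_i ↦ u₁⁻¹ x_i v₁ v₁⁻¹ t u₁ = u₁⁻¹ x_i t u₁`; the words are in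
`Sy A`, fixed by `T i` and `M_{Aᶜ}`). `Std φ' A η'`. `η' pm α ~ η dl i u₁ pm α = η pm α · ((pm α)⁻¹ dl i u₁ pm α) ~ q dl z y` with `z = α⁻¹ i ∉ I₀`, `y = (pm α)⁻¹ u₁ ∈ Sy I₀`
(`T_conj` for `pm α⁻¹`), in `QQ` by `QQ_mul_dl`. So `PA K I₀ φ' α`.
-/

set_option autoImplicit false

namespace STAB

open Helper38.AutF

variable {n r : ℕ} {G : Type} [Group G] {π : FreeGroup (Fin n) →* G} {I₀ : Finset (Fin n)}
  {K : Subgroup (AF n)}

theorem redund (hD : Dat π I₀ r) (hK : AX π K) (hn : 5 * r + 3 ≤ n) {φ : AF n} {i : Fin n}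
    (p : Sx i × Sx i) {I : Finset (Fin n)} (hi : i ∉ I) (hI : I.card ≤ r) (hg : GenOn π φ I)
    (hP : PP π K I₀ φ) : PP π K I₀ (φ * T i p) := by
  classical
  obtain ⟨u₀, hu₀, hu₀'⟩ := hg (π (φ p.1))
  obtain ⟨v₀, hv₀, hv₀'⟩ := hg (π (φ p.2))
  have hIi : (I : Set (Fin n)) ⊆ {i}ᶜ := by
    intro j hj
    simp only [Set.mem_compl_iff, Set.mem_singleton_iff]
    rintro rfl
    exact hi (Finset.mem_coe.1 hj)
  set p₀ : Sx i × Sx i := (⟨u₀, Sy_mono hIi hu₀⟩, ⟨v₀, Sy_mono hIi hv₀⟩) with hp₀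
  have s0 : Sim K (φ * T i p₀) (φ * T i p) := sim_T hK φ i p₀ p hu₀' hv₀'
  refine PP_sim hK s0 ?_
  obtain ⟨α, hα⟩ := exists_perm I₀ (insert i I) (by
    have h1 := Finset.card_insert_le i I
    have h2 := hD.card
    omega)
  set A := I₀.image α with hA
  have hiA : i ∉ A := fun h => Finset.disjoint_left.1 hα h (Finset.mem_insert_self i I)
  have hAI : Disjoint I A := by
    rw [Finset.disjoint_left]
    intro j hj hj'
    exact Finset.disjoint_left.1 hα hj' (Finset.mem_insert_of_mem hj)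
  have hIA : I ⊆ Aᶜ := by
    intro j hj
    rw [Finset.mem_compl]
    exact fun h => Finset.disjoint_left.1 hAI hj h
  have hIA' : (I : Set (Fin n)) ⊆ (A : Set (Fin n))ᶜ := by
    intro j hj
    have := hIA (Finset.mem_coe.1 hj)
    simpa using this
  have hAi : (A : Set (Fin n)) ⊆ {i}ᶜ := by
    intro j hj
    simp only [Set.mem_compl_iff, Set.mem_singleton_iff]
    rintro rfl
    exact hiA (Finset.mem_coe.1 hj)
  have hg' : GenOn π (φ * T i p₀) I := by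
    intro g
    obtain ⟨x, hx, hx'⟩ := hg g
    refine ⟨x, hx, ?_⟩
    rw [MulAut.mul_apply, T_fix _ _ (Sy_mono hIi hx)]
    exact hx'
  refine connect hD hK (by omega) (genOn_mono hIA hg') (α := α) ?_
  have hPA := hP α (genOn_mono hIA hg)
  obtain ⟨w, v, hw, hv, hwI, hη⟩ := std_exists hD φ α hAI hg
  obtain ⟨q, hq, hqη⟩ := PA_elim hD hK hPA ⟨w, v, hw, hv, rfl⟩ hη
  rw [← hA] at hw hv hη hqη
  have hvA : ∀ j, v j ∈ Sy (A : Set (Fin n)) := fun j => by simpa using hv.1 j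
  have hgen : ∀ g : G, ∃ x ∈ Sy (A : Set (Fin n)), π ((φ * Mm A 1 w : AF n) x) = g := by
    intro g
    obtain ⟨y, hy, hy'⟩ := hD.gen g
    have h1 : pm α y ∈ Sy (A : Set (Fin n)) := by
      have := pm_Sy α hy
      rwa [hA, Finset.coe_image]
    refine ⟨pm α y, h1, ?_⟩
    have h2 := hη y
    rw [MulAut.mul_apply, MulAut.mul_apply, Mm_fix (Ok.one _) hv (by simpa using h1)] at h2
    rw [h2]
    exact hy'
  obtain ⟨u₁, hu₁, hu₁'⟩ := hgen (π ((φ * Mm A 1 w : AF n) u₀))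
  obtain ⟨v₁, hv₁, hv₁'⟩ := hgen (π ((φ * Mm A 1 w : AF n) v₀))
  set p₁ : Sx i × Sx i := (⟨u₁, Sy_mono hAi hu₁⟩, ⟨v₁, Sy_mono hAi hv₁⟩) with hp₁
  have ecomm : T i p₀ * Mm A 1 w = Mm A 1 w * T i p₀ := by
    refine aut_ext (fun j => ?_)
    rw [MulAut.mul_apply, MulAut.mul_apply]
    by_cases hj : j = i
    · subst hj
      rw [Mm_of_not (Ok.one _) hw hiA, T_self, map_mul, map_mul, map_inv,
        Mm_of_not (Ok.one _) hw hiA, Mm_fix (Ok.one _) hw (Sy_mono hIA' hu₀),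
        Mm_fix (Ok.one _) hw (Sy_mono hIA' hv₀)]
    · rw [Mm_of (Ok.one _) hw, T_ne hj, Mm_of (Ok.one _) hw, map_mul, map_mul, T_ne hj,
        T_fix _ _ (Sy_mono hIi (hwI j))]
      simp
  have s1 : Sim K (φ * Mm A 1 w * T i p₀) (φ * Mm A 1 w * T i p₁) :=
    sim_T hK (φ * Mm A 1 w) i p₀ p₁ hu₁'.symm hv₁'.symm
  set v' : Fin n → FreeGroup (Fin n) := Function.update v i (v₁⁻¹ * v i * u₁) with hv'
  have hv'i : v' i = v₁⁻¹ * v i * u₁ := by rw [hv', Function.update_self]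
  have hv'j : ∀ j, j ≠ i → v' j = v j := fun j hj => by rw [hv', Function.update_of_ne hj]
  have hv'A : ∀ j, v' j ∈ Sy (A : Set (Fin n)) := by
    intro j
    by_cases hj : j = i
    · subst hj
      rw [hv'i]
      exact mul_mem (mul_mem (inv_mem hv₁) (hvA _)) hu₁
    · rw [hv'j j hj]
      exact hvA j
  have okv' : Ok Aᶜ v' := by
    refine ⟨fun j => by simpa using hv'A j, fun j hj => ?_⟩
    have hji : j ≠ i := by
      rintro rfl
      exact hj (Finset.mem_compl.2 hiA)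
    rw [hv'j j hji]
    exact hv.2 j hj
  have eid : T i p₁ * Mm Aᶜ 1 v' = Mm Aᶜ 1 v * T i (p₁.1, p₁.1) := by
    refine aut_ext (fun j => ?_)
    rw [MulAut.mul_apply, MulAut.mul_apply]
    by_cases hj : j = i
    · subst hj
      have e9 : Mm Aᶜ 1 v (p₁.1 : FreeGroup (Fin n)) = p₁.1 :=
        Mm_fix (Ok.one _) hv (by simpa using hu₁)
      have e8 : (p₁.1 : FreeGroup (Fin n)) = u₁ := rfl
      have e7 : (p₁.2 : FreeGroup (Fin n)) = v₁ := rfl
      have e6 : Mm Aᶜ 1 v (FreeGroup.of j) = FreeGroup.of j * v j := by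
        rw [Mm_of (Ok.one _) hv]
        simp
      rw [Mm_of (Ok.one _) okv', map_mul, map_mul, T_self, T_self, map_mul, map_mul, map_inv,
        map_inv, hv'i, T_fix _ _ (Sy_mono hAi (mul_mem (mul_mem (inv_mem hv₁)
          (hvA j)) hu₁))]
      simp only [Pi.one_apply, inv_one, one_mul, map_one, e9, e6]
      rw [e8, e7]
      group
    · rw [Mm_of (Ok.one _) okv', T_ne hj, Mm_of (Ok.one _) hv, map_mul, map_mul, T_ne hj,
        hv'j j hj, T_fix _ _ (Sy_mono hAi (hvA j))]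
      simp
  set η' : AF n := φ * T i p₀ * Mm A 1 w * Mm Aᶜ 1 v' with hη'
  have s2 : Sim K η' (φ * Mm A 1 w * Mm Aᶜ 1 v * T i (p₁.1, p₁.1)) := by
    have h := s1.mul (Mm Aᶜ 1 v')
    have e1 : φ * Mm A 1 w * T i p₀ * Mm Aᶜ 1 v' = η' := by
      rw [hη', mul_assoc φ (T i p₀), ecomm]
      group
    have e2 : φ * Mm A 1 w * T i p₁ * Mm Aᶜ 1 v' =
        φ * Mm A 1 w * Mm Aᶜ 1 v * T i (p₁.1, p₁.1) := by
      rw [mul_assoc (φ * Mm A 1 w), eid]
      group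
    rwa [e1, e2] at h
  -- conjugation by the permutation
  have hz : α⁻¹ i ∉ I₀ := by
    intro h
    apply hiA
    have := Finset.mem_image_of_mem α h
    simpa [hA] using this
  have hyI : (pm α)⁻¹ u₁ ∈ Sy (I₀ : Set (Fin n)) := by
    have h1 : (pm α : AF n)⁻¹ = pm α⁻¹ := (map_inv pm α).symm
    rw [h1]
    have h2 := pm_Sy α⁻¹ hu₁
    have h3 : (α⁻¹ : Equiv.Perm (Fin n)) '' (A : Set (Fin n)) = (I₀ : Set (Fin n)) := by
      rw [hA, Finset.coe_image, ← Set.image_comp]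
      convert Set.image_id _
      funext x
      simp
    rwa [h3] at h2
  have hyz : (pm α)⁻¹ u₁ ∈ Sx (α⁻¹ i) := Sy_mono (fun j hj => by
    simp only [Set.mem_compl_iff, Set.mem_singleton_iff]
    rintro rfl
    exact hz (Finset.mem_coe.1 hj)) hyI
  set y : Sx (α⁻¹ i) := ⟨(pm α)⁻¹ u₁, hyz⟩ with hy
  have epm : T i (p₁.1, p₁.1) * pm α = pm α * dl (α⁻¹ i) y := by
    refine aut_ext (fun j => ?_)
    rw [MulAut.mul_apply, MulAut.mul_apply, pm_of]
    by_cases hj : α j = i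
    · have hj' : j = α⁻¹ i := by rw [← hj]; simp
      subst hj'
      have e9 : α (α⁻¹ i) = i := by simp
      rw [dl_self, map_mul, map_mul, map_inv, pm_of, hy, e9, T_self]
      simp only [MulAut.apply_inv_self]
      rfl
    · have hj' : j ≠ α⁻¹ i := by
        rintro rfl
        exact hj (by simp)
      rw [T_ne hj, dl_apply, T_ne hj', pm_of]
  refine ⟨η', q * dl (α⁻¹ i) y, ⟨w, v', hw, okv', rfl⟩, QQ_mul_dl hq hz y hyI, ?_⟩
  have h1 := hqη.mul (dl (α⁻¹ i) y)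
  have h2 : φ * Mm A 1 w * Mm Aᶜ 1 v * pm α * dl (α⁻¹ i) y =
      φ * Mm A 1 w * Mm Aᶜ 1 v * T i (p₁.1, p₁.1) * pm α := by
    rw [mul_assoc _ (pm α), ← epm]
    group
  rw [h2] at h1
  exact h1.trans (s2.symm.mul (pm α))

end STAB
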