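import Mathlib
import Pool.Agent.Helper40.STAB.Defs
import Pool.Agent.Helper40.STAB.Chain
import Pool.Agent.Helper40.STAB.Sim
import Pool.Agent.Helper40.STAB.StdL
import Pool.Agent.Helper40.STAB.Connect
import Pool.Agent.Helper40.STAB.Redund

/-!
# STAB-12 Move: all moves

PROOF of `move`. `gen_small` for `π ∘ φ` and `S = {i}ᶜ`: `J ⊆ {i}ᶜ`, `J.card ≤ r`, every value of a word without `x_i` is a value of a word in `J`. By
`sim_T`, `PP_sim` we may assume `p.1, p.2 ∈ Sy J`. Choose a letter `e ∉ insert i J` (`r + 1 < n`) and `w ∈ Sy J` with `π (φ w) = (π (φ x_e))⁻¹`.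
`GenOn π φ (insert i J)`: every element of `G` is `π (φ y)` for some word `y` (`π ∘ φ` is onto by `hD.gen`); every letter `c ≠ i` has the same value as a
word in `J`, so replacing letters (the endomorphism `x_i ↦ x_i`, `x_c ↦` that word) gives a word in `insert i J` with the same value.
(1) `φ₁ = φ T e (1, w x_i)`: `e` is not in `insert i J`, `small_gen` gives `I ⊆ insert i J` of cardinality `≤ r`, generating, `e ∉ I`: `redund` gives `PP φ₁`.
(2) `φ₂ = φ₁ T i p`. `GenOn π φ₁ (insert e J)`: `π (φ₁ x_e) = π (φ x_e) π (φ w) π (φ x_i) = π (φ x_i)`, and `φ₁ = φ` on `Sy J` and on `x_i`; replace `x_i` by `x_e` in a word of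
`insert i J`. `i ∉ insert e J`. `small_gen`, `redund`: `PP φ₂`.
(3) `φ T i p = φ₂ T e (1, (w p.1 x_i p.2⁻¹)⁻¹)`: `T i p` fixes `x_e` and preserves `Sx e` (`T_mem_Sti`), so `(T i p)⁻¹ T e (1, w x_i) T i p = T e (1, (T i p)⁻¹ (w x_i))
= T e (1, w p.1 x_i p.2⁻¹)` (`Sti_conj`), `φ₂ = φ T i p T e (1, w p.1 x_i p.2⁻¹)`. `GenOn π φ₂ (insert i J)`: `π (φ₂ x_i) = π(φ₁ p.1)⁻¹ π (φ x_i) π (φ₁ p.2)` and `φ₂ = φ` on `Sy J`; in a word of
`insert i J` replace `x_i` by `p.1 x_i p.2⁻¹`. `e ∉ insert i J`: `redund` gives `PP (φ T i p)`.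
`PP_SA`: `Subgroup.closure_induction_right` (or induction on `g` with `φ ↦ φ g`): prove for all `g ∈ SA n`: `∀ φ, PP φ → PP (φ * g)`; `(T i p)⁻¹ = T i p⁻¹`.
-/

set_option autoImplicit false

namespace STAB

open Helper38.AutF

variable {n r : ℕ} {G : Type} [Group G] {π : FreeGroup (Fin n) →* G} {I₀ : Finset (Fin n)}
  {K : Subgroup (AF n)}

private theorem surj_all (hD : Dat π I₀ r) (φ : AF n) (g : G) : ∃ y, π (φ y) = g := by
  obtain ⟨w, -, hw⟩ := hD.gen g
  refine ⟨φ⁻¹ w, ?_⟩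
  rw [MulAut.apply_inv_self]
  exact hw

private theorem genOn_of_letters (hD : Dat π I₀ r) {φ : AF n} {S : Finset (Fin n)}
    (h : ∀ c, ∃ w ∈ Sy (S : Set (Fin n)), π (φ w) = π (φ (FreeGroup.of c))) : GenOn π φ S := by
  choose f hf hf' using h
  intro g
  obtain ⟨y, hy⟩ := surj_all hD φ g
  refine ⟨FreeGroup.lift f y, ?_, ?_⟩
  · have h1 : (⊤ : Subgroup (FreeGroup (Fin n))) ≤
        (Sy (S : Set (Fin n))).comap (FreeGroup.lift f) := by
      rw [← FreeGroup.closure_range_of, Subgroup.closure_le]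
      rintro _ ⟨c, rfl⟩
      change FreeGroup.lift f (FreeGroup.of c) ∈ Sy (S : Set (Fin n))
      rw [FreeGroup.lift_apply_of]
      exact hf c
    exact h1 (Subgroup.mem_top y)
  · rw [← hy]
    have h2 : (π.comp φ.toMonoidHom).comp (FreeGroup.lift f) = π.comp φ.toMonoidHom := by
      refine FreeGroup.ext_hom _ _ (fun c => ?_)
      rw [MonoidHom.comp_apply, FreeGroup.lift_apply_of]
      exact hf' c
    exact DFunLike.congr_fun h2 y

/-- the reduced form of `move`: the words are in the letters of a small set `J` -/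
private theorem move_aux (hD : Dat π I₀ r) (hK : AX π K) (hn : 5 * r + 3 ≤ n) {φ : AF n}
    {i : Fin n} {J : Finset (Fin n)} (hiJ : i ∉ J) (hJ : J.card ≤ r)
    (hw : ∀ w ∈ Sx i, ∃ w' ∈ Sy (J : Set (Fin n)), π (φ w') = π (φ w))
    (p : Sx i × Sx i) (hp1 : (p.1 : FreeGroup (Fin n)) ∈ Sy (J : Set (Fin n)))
    (hp2 : (p.2 : FreeGroup (Fin n)) ∈ Sy (J : Set (Fin n))) (hP : PP π K I₀ φ) :
    PP π K I₀ (φ * T i p) := by
  classical
  -- a free letter `e`
  obtain ⟨e, he⟩ : ∃ e : Fin n, e ∉ insert i J := by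
    by_contra hcon
    push Not at hcon
    have h1 : (Finset.univ : Finset (Fin n)) ⊆ insert i J := fun c _ => hcon c
    have h2 := Finset.card_le_card h1
    rw [Finset.card_univ, Fintype.card_fin] at h2
    have h3 := Finset.card_insert_le i J
    omega
  rw [Finset.mem_insert, not_or] at he
  obtain ⟨hei, heJ⟩ := he
  have hJi : Sy (J : Set (Fin n)) ≤ Sx i := Sy_le_Sx (by simpa using hiJ)
  have hJe : Sy (J : Set (Fin n)) ≤ Sx e := Sy_le_Sx (by simpa using heJ)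
  have hJS : ∀ a : Fin n, Sy (J : Set (Fin n)) ≤ Sy ((insert a J : Finset (Fin n)) : Set (Fin n)) :=
    fun a => Sy_mono (by rw [Finset.coe_insert]; exact Set.subset_insert _ _)
  have haS : ∀ a : Fin n,
      FreeGroup.of a ∈ Sy ((insert a J : Finset (Fin n)) : Set (Fin n)) :=
    fun a => of_mem_Sy (by simp)
  obtain ⟨w, hwJ, hwv⟩ := hw (FreeGroup.of e)⁻¹ (inv_mem (of_mem_Sx hei))
  rw [map_inv, map_inv] at hwv
  have hxie : FreeGroup.of i ∈ Sx e := of_mem_Sx (Ne.symm hei)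
  have hxei : FreeGroup.of e ∈ Sx i := of_mem_Sx hei
  -- (1)
  have hG0 : GenOn π φ (insert i J) := by
    refine genOn_of_letters hD fun c => ?_
    by_cases hc : c = i
    · rw [hc]
      exact ⟨_, haS i, rfl⟩
    · obtain ⟨w', h1, h2⟩ := hw _ (of_mem_Sx hc)
      exact ⟨w', hJS i h1, h2⟩
  set q0 : Sx e × Sx e := (1, ⟨w * FreeGroup.of i, mul_mem (hJe hwJ) hxie⟩) with hq0
  set φ₁ : AF n := φ * T e q0 with hφ₁
  have hP1 : PP π K I₀ φ₁ := by
    obtain ⟨I, hI, hIr, hIg⟩ := small_gen hD hG0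
    refine redund hD hK hn q0 (fun h => ?_) hIr hIg hP
    have := hI h
    rw [Finset.mem_insert] at this
    rcases this with h1 | h1
    · exact hei h1
    · exact heJ h1
  have h1fix : ∀ y ∈ Sx e, φ₁ y = φ y := by
    intro y hy
    rw [hφ₁, MulAut.mul_apply, T_fix _ _ hy]
  have h1e : π (φ₁ (FreeGroup.of e)) = π (φ (FreeGroup.of i)) := by
    rw [hφ₁, MulAut.mul_apply, T_self, hq0]
    simp only [OneMemClass.coe_one, inv_one, one_mul, map_mul]
    rw [hwv, mul_inv_cancel_left]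
  -- (2)
  have hG1 : GenOn π φ₁ (insert e J) := by
    refine genOn_of_letters hD fun c => ?_
    by_cases hc : c = e
    · rw [hc]
      exact ⟨_, haS e, rfl⟩
    · by_cases hci : c = i
      · refine ⟨_, haS e, ?_⟩
        rw [hci, h1e, h1fix _ hxie]
      · obtain ⟨w', h1, h2⟩ := hw _ (of_mem_Sx hci)
        refine ⟨w', hJS e h1, ?_⟩
        rw [h1fix _ (hJe h1), h1fix _ (of_mem_Sx hc), h2]
  set φ₂ : AF n := φ₁ * T i p with hφ₂
  have hP2 : PP π K I₀ φ₂ := by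
    obtain ⟨I, hI, hIr, hIg⟩ := small_gen hD hG1
    refine redund hD hK hn p (fun h => ?_) hIr hIg hP1
    have := hI h
    rw [Finset.mem_insert] at this
    rcases this with h1 | h1
    · exact hei h1.symm
    · exact hiJ h1
  have h2fix : ∀ y ∈ Sx i, φ₂ y = φ₁ y := by
    intro y hy
    rw [hφ₂, MulAut.mul_apply, T_fix _ _ hy]
  have h2i : φ₂ (FreeGroup.of i) = (φ p.1)⁻¹ * φ (FreeGroup.of i) * φ p.2 := by
    rw [hφ₂, MulAut.mul_apply, T_self, map_mul, map_mul, map_inv, h1fix _ (hJe hp1),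
      h1fix _ hxie, h1fix _ (hJe hp2)]
  -- (3)
  have hG2 : GenOn π φ₂ (insert i J) := by
    refine genOn_of_letters hD fun c => ?_
    by_cases hc : c = i
    · rw [hc]
      exact ⟨_, haS i, rfl⟩
    · by_cases hce : c = e
      · refine ⟨(p.1 : FreeGroup (Fin n)) * FreeGroup.of i * (p.2 : FreeGroup (Fin n))⁻¹,
          mul_mem (mul_mem (hJS i hp1) (haS i)) (inv_mem (hJS i hp2)), ?_⟩
        rw [hce, h2fix _ hxei, h1e, map_mul φ₂, map_mul φ₂, map_inv φ₂, h2i, h2fix _ p.1.2,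
          h1fix _ (hJe hp1), h2fix _ p.2.2, h1fix _ (hJe hp2)]
        congr 1
        group
      · obtain ⟨w', h1, h2⟩ := hw _ (of_mem_Sx hc)
        refine ⟨w', hJS i h1, ?_⟩
        rw [h2fix _ (hJi h1), h1fix _ (hJe h1), h2fix _ (of_mem_Sx hc), h1fix _ (of_mem_Sx hce), h2]
  set q1 : Sx e × Sx e := (1, ⟨w * ((p.1 : FreeGroup (Fin n)) * FreeGroup.of i *
    (p.2 : FreeGroup (Fin n))⁻¹), mul_mem (hJe hwJ) (mul_mem (mul_mem (hJe hp1) hxie)
      (inv_mem (hJe hp2)))⟩) with hq1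
  have hcomm : T e q0 * T i p = T i p * T e q1 := by
    have hσ : (T i p)⁻¹ ∈ Sti e := inv_mem (T_mem_Sti (Ne.symm hei) p (hJe hp1) (hJe hp2))
    have h3 := Sti_conj (T i p)⁻¹ hσ q0
    have h4 : (act (T i p)⁻¹ hσ q0.1, act (T i p)⁻¹ hσ q0.2) = q1 := by
      refine Prod.ext ?_ (Subtype.ext ?_)
      · rw [hq0, hq1]
        exact map_one _
      · rw [act_coe, hq0, hq1, ← map_inv]
        change T i p⁻¹ (w * FreeGroup.of i) = _
        rw [map_mul, T_fix _ _ (hJi hwJ), T_self]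
        simp
    rw [h4, inv_inv] at h3
    rw [← h3]
    group
  have hfin : φ * T i p = φ₂ * T e q1⁻¹ := by
    rw [hφ₂, hφ₁, mul_assoc φ, hcomm, map_inv]
    group
  rw [hfin]
  obtain ⟨I, hI, hIr, hIg⟩ := small_gen hD hG2
  refine redund hD hK hn q1⁻¹ (fun h => ?_) hIr hIg hP2
  have := hI h
  rw [Finset.mem_insert] at this
  rcases this with h1 | h1
  · exact hei h1
  · exact heJ h1

theorem move (hD : Dat π I₀ r) (hK : AX π K) (hn : 5 * r + 3 ≤ n) {φ : AF n} {i : Fin n}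
    (p : Sx i × Sx i) (hP : PP π K I₀ φ) : PP π K I₀ (φ * T i p) := by
  classical
  obtain ⟨J, hJi, hJr, hJw⟩ := gen_small hD.chain (π.comp φ.toMonoidHom) ({i}ᶜ : Finset (Fin n))
  have hiJ : i ∉ J := fun h => by
    have := hJi h
    simp at this
  have hw : ∀ w ∈ Sx i, ∃ w' ∈ Sy (J : Set (Fin n)), π (φ w') = π (φ w) := by
    intro w hw
    refine hJw w ?_
    rw [Finset.coe_compl, Finset.coe_singleton]
    exact hw
  have hJS : Sy (J : Set (Fin n)) ≤ Sx i := Sy_le_Sx (by simpa using hiJ)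
  obtain ⟨u, hu, hu'⟩ := hw _ p.1.2
  obtain ⟨v, hv, hv'⟩ := hw _ p.2.2
  refine PP_sim hK (sim_T hK φ i (⟨u, hJS hu⟩, ⟨v, hJS hv⟩) p hu' hv') ?_
  exact move_aux hD hK hn hiJ hJr hw _ hu hv hP

theorem PP_SA (hD : Dat π I₀ r) (hK : AX π K) (hn : 5 * r + 3 ≤ n) (h1 : PP π K I₀ 1)
    {φ : AF n} (hφ : φ ∈ SA n) : PP π K I₀ φ := by
  unfold SA at hφ
  refine Subgroup.closure_induction_right (p := fun x _ => PP π K I₀ x) h1 ?_ ?_ hφ
  · rintro x - y ⟨i, p, rfl⟩ hx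
    exact move hD hK hn p hx
  · rintro x - y ⟨i, p, rfl⟩ hx
    rw [← map_inv]
    exact move hD hK hn p⁻¹ hx

end STAB
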