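import Mathlib
import Pool.Agent.Helper40.STAB.Defs
import Pool.Agent.Helper40.STAB.QSet
import Pool.Agent.Helper34.TOR.Niel3

/-!
# STAB-14 SAfin: `⟨transvections⟩` has finite index in `Aut(F_n)`

PROOF. `TOR.nielsen n : TOR.GN n = ⊤` (`Helper34/TOR/Niel3.lean`, `NDefs.lean`): `Aut(F_n)` is generated by `TOR.R i j` (`i ≠ j`), `TOR.pm σ`, `Helper38.AutF.eps a`. These
agree with `STAB.R`, `STAB.pm`, `STAB.eps` (`aut_ext` or `rfl`). For a signed permutation `τ` (`IsSg τ`): `τ * T i p * τ⁻¹ ∈ SA n`: `τ x_i = x_c^{±1}`; if `τ x_i = x_c` it is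
`T c (τ p.1, τ p.2)`, if `τ x_i = x_c⁻¹` it is `T c (τ p.2, τ p.1)` (letters; `τ` maps `Sx i` to `Sx c`). So the set `{s * τ | s ∈ SA n, IsSg τ}` is closed under
right multiplication by the generators and their inverses (`(s τ) T i p = s (τ T i p τ⁻¹) τ`; `IsSg.mul`), hence it is everything
(`Subgroup.closure_induction_right`). So the finitely many (`isSg_finite`) signed permutations represent all left cosets... precisely: `φ = s τ`, so
`φ⁻¹ = τ⁻¹ s⁻¹ ∈ τ⁻¹ SA`: the map `τ ↦ τ⁻¹ SA` from the finite set of signed permutations to `AF n ⧸ SA n` is onto; the index is finite.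
-/

set_option autoImplicit false

namespace STAB

open Helper38.AutF
open scoped Pointwise

private theorem sf_of_ne_inv {n : ℕ} (i j : Fin n) : FreeGroup.of i ≠ (FreeGroup.of j)⁻¹ := by
  intro h
  have h1 := congrArg (FreeGroup.lift (fun _ : Fin n => Multiplicative.ofAdd (1 : ℤ))) h
  rw [map_inv, FreeGroup.lift_apply_of, FreeGroup.lift_apply_of, ← ofAdd_neg] at h1
  have h2 : (1 : ℤ) = -1 := Multiplicative.ofAdd.injective h1
  omega

/-- a signed permutation maps the words without `x_i` to the words without `x_c` -/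
private theorem sf_Sx {n : ℕ} {τ : AF n} (hτ : IsSg τ) {i c : Fin n}
    (hc : τ (FreeGroup.of i) = FreeGroup.of c ∨ τ (FreeGroup.of i) = (FreeGroup.of c)⁻¹)
    {w : FreeGroup (Fin n)} (hw : w ∈ Sx i) : τ w ∈ Sx c := by
  refine map_Sy τ (Sx c) (fun j hj => ?_) hw
  have hji : j ≠ i := by simpa using hj
  obtain ⟨d, hd⟩ := hτ j
  have hdc : d ≠ c := by
    intro h
    subst h
    have h1 : τ (FreeGroup.of j) = τ (FreeGroup.of i) ∨
        τ (FreeGroup.of j) = τ (FreeGroup.of i)⁻¹ := by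
      rw [map_inv]
      rcases hd with hd | hd <;> rcases hc with hc | hc <;> rw [hd, hc] <;> simp
    rcases h1 with h1 | h1
    · exact hji (FreeGroup.of_injective (τ.injective h1))
    · exact sf_of_ne_inv j i (τ.injective h1)
  rcases hd with hd | hd
  · rw [hd]; exact of_mem_Sx hdc
  · rw [hd]; exact inv_mem (of_mem_Sx hdc)

private theorem sf_T_mem {n : ℕ} (i : Fin n) (p : Sx i × Sx i) : T i p ∈ SA n :=
  Subgroup.subset_closure ⟨i, p, rfl⟩

private theorem sf_conj_T {n : ℕ} {τ : AF n} (hτ : IsSg τ) (i : Fin n) (p : Sx i × Sx i) :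
    τ * T i p * τ⁻¹ ∈ SA n := by
  obtain ⟨c, hc⟩ := hτ i
  have m1 := sf_Sx hτ hc p.1.2
  have m2 := sf_Sx hτ hc p.2.2
  have hfix : ∀ (q : Sx c × Sx c) (j : Fin n), j ≠ i →
      T c q (τ (FreeGroup.of j)) = τ (FreeGroup.of j) := by
    intro q j hj
    exact T_fix c q (sf_Sx hτ hc (of_mem_Sx hj))
  rcases hc with hc | hc
  · have key : τ * T i p = T c (⟨_, m1⟩, ⟨_, m2⟩) * τ := by
      refine aut_ext (fun j => ?_)
      rw [MulAut.mul_apply, MulAut.mul_apply]
      by_cases hj : j = i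
      · subst hj
        rw [T_self, hc, T_self, map_mul, map_mul, map_inv, hc]
      · rw [T_ne hj, hfix _ j hj]
    rw [key, mul_inv_cancel_right]
    exact sf_T_mem _ _
  · have key : τ * T i p = T c (⟨_, m2⟩, ⟨_, m1⟩) * τ := by
      refine aut_ext (fun j => ?_)
      rw [MulAut.mul_apply, MulAut.mul_apply]
      by_cases hj : j = i
      · subst hj
        rw [T_self, hc, map_inv, T_self, map_mul, map_mul, map_inv, hc]
        group
      · rw [T_ne hj, hfix _ j hj]
    rw [key, mul_inv_cancel_right]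
    exact sf_T_mem _ _

private theorem sf_conj {n : ℕ} {τ : AF n} (hτ : IsSg τ) {h : AF n} (hh : h ∈ SA n) :
    τ * h * τ⁻¹ ∈ SA n := by
  have h1 : SA n ≤ (SA n).comap (MulAut.conj τ).toMonoidHom := by
    unfold SA
    rw [Subgroup.closure_le]
    rintro _ ⟨i, p, rfl⟩
    exact sf_conj_T hτ i p
  exact h1 hh

private theorem sf_norm {n : ℕ} {τ : AF n} (hτ : IsSg τ) : τ ∈ Subgroup.normalizer (SA n : Set (AF n)) := by
  rw [Subgroup.mem_normalizer_iff]
  intro h
  refine ⟨fun hh => sf_conj hτ hh, fun hh => ?_⟩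
  have h1 := sf_conj hτ.inv hh
  have h2 : τ⁻¹ * (τ * h * τ⁻¹) * τ⁻¹⁻¹ = h := by group
  rwa [h2] at h1

private theorem sf_pm {n : ℕ} (σ : Equiv.Perm (Fin n)) : IsSg (TOR.pm σ : AF n) := isSg_pm σ

private theorem sf_eps {n : ℕ} (a : Fin n) : IsSg (Helper38.AutF.eps a : AF n) := by
  intro z
  refine ⟨z, ?_⟩
  rw [Helper38.AutF.eps_apply]
  by_cases h : z = a
  · subst h
    right
    exact Helper38.AutF.epsHom_self z
  · left
    exact Helper38.AutF.epsHom_ne h

/-- the group of signed permutations -/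
private def sf_W (n : ℕ) : Subgroup (AF n) where
  carrier := {τ | IsSg τ}
  mul_mem' := fun ha hb => IsSg.mul ha hb
  one_mem' := IsSg.one
  inv_mem' := fun ha => IsSg.inv ha

theorem SA_index (n : ℕ) : (SA n).index ≠ 0 := by
  have hnorm : (SA n).Normal := by
    rw [← Subgroup.normalizer_eq_top_iff, eq_top_iff, ← TOR.nielsen n]
    unfold TOR.GN
    rw [Subgroup.closure_le]
    rintro φ ((⟨i, j, _, rfl⟩ | ⟨σ, rfl⟩) | ⟨a, rfl⟩)
    · exact Subgroup.le_normalizer (sf_T_mem i _)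
    · exact sf_norm (sf_pm σ)
    · exact sf_norm (sf_eps a)
  have htop : SA n ⊔ sf_W n = ⊤ := by
    rw [eq_top_iff, ← TOR.nielsen n]
    unfold TOR.GN
    rw [Subgroup.closure_le]
    rintro φ ((⟨i, j, _, rfl⟩ | ⟨σ, rfl⟩) | ⟨a, rfl⟩)
    · exact (le_sup_left : SA n ≤ SA n ⊔ sf_W n) (sf_T_mem i _)
    · exact (le_sup_right : sf_W n ≤ SA n ⊔ sf_W n) (sf_pm σ)
    · exact (le_sup_right : sf_W n ≤ SA n ⊔ sf_W n) (sf_eps a)
  have : Finite (sf_W n) := (isSg_finite (n := n)).to_subtype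
  have hsurj : Function.Surjective (fun w : sf_W n => (QuotientGroup.mk (w : AF n) : AF n ⧸ SA n)) := by
    intro q
    obtain ⟨φ, rfl⟩ := QuotientGroup.mk_surjective q
    have h1 : φ ∈ sf_W n ⊔ SA n := by rw [sup_comm, htop]; trivial
    have h2 : φ ∈ ((sf_W n : Set (AF n)) * (SA n : Set (AF n))) := by
      rw [← Subgroup.mul_normal (sf_W n) (SA n)]
      exact h1
    obtain ⟨w, hw, s, hs, rfl⟩ := Set.mem_mul.1 h2
    refine ⟨⟨w, hw⟩, ?_⟩
    simp only
    rw [QuotientGroup.eq]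
    rw [inv_mul_cancel_left]
    exact hs
  have : Finite (AF n ⧸ SA n) := Finite.of_surjective _ hsurj
  exact Subgroup.index_ne_zero_of_finite

end STAB
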