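import Mathlib
import Pool.Agent.Helper40.STAB.Defs
import Pool.Agent.Helper40.STAB.MLem
import Pool.Agent.Helper40.STAB.Sim
import Pool.Agent.Helper40.STAB.QSet
import Pool.Agent.Helper40.STAB.StdL
import Pool.Agent.Helper40.STAB.Connect

/-!
# STAB-13 Start: the base case and the conclusion for `φ ∈ Γ`

PROOF. `start`: `exists_perm` with `S = I₀` gives `α` with `A = I₀.image α` disjoint from `I₀`. Let `w (α j) = x_j`, `v j = x_{α j}⁻¹` (`j ∈ I₀`), `1` elsewhere;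
`η₁ = Mm A 1 w * Mm Aᶜ 1 v` (`Std 1 A η₁`): `x_j ↦ x_j (x_{α j} x_j)⁻¹ = x_{α j}⁻¹`, `x_{α j} ↦ x_{α j} x_j`, other letters fixed. `ρ₁ = Mm I₀ u 1`, `u j = x_{α j}⁻¹` (`j ∈ I₀`):
`x_j ↦ x_{α j} x_j`. `s = ρ₁⁻¹ η₁`: `x_j ↦ x_{α j}⁻¹`, `x_{α j} ↦ x_j`, other letters fixed: a signed permutation; `τ = s * pm α`: `τ x_j = s x_{α j} = x_j` (`j ∈ I₀`).
`η₁ * pm α = ρ₁ * τ`. `ρ₁ ∈ K` by `sim_Mm` (`φ = 1`, `π x_{α j} = 1` by `hD.light`, since `α j ∉ I₀`): `Sim K (1 * Mm I₀ 1 1) (1 * Mm I₀ u 1)`.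
`η₁ * pm α ∈ Gam π` because `ρ₁ ∈ K ≤ Gam π` and `τ ∈ QQ` (`sg_mem_QQ`, `QQ_le`).
`PP_one`: `PA K I₀ 1 α` with `η₁`, `q = τ`; `GenOn π 1 Aᶜ` since `I₀ ⊆ Aᶜ`; `connect`.
`finish`: `PP π K I₀ φ`, `φ ∈ Gam π`: `GenOn π φ Aᶜ` (`π (φ w) = π w`), so `PA K I₀ φ α`; `Std φ A (φ * η₁)` and `φ * η₁ * pm α ∈ Gam π`, so by `PA_elim` `φ * η₁ * pm α = φ ρ₁ τ` is
`κ q` with `κ ∈ K`, `q ∈ QQ`; `φ = κ (q τ⁻¹) ρ₁⁻¹` and `q τ⁻¹ ∈ QQ` (`QQ_mul_sg`, `IsSg.inv`).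
-/

set_option autoImplicit false

namespace STAB

open Helper38.AutF

variable {n r : ℕ} {G : Type} [Group G] {π : FreeGroup (Fin n) →* G} {I₀ : Finset (Fin n)}
  {K : Subgroup (AF n)}

private theorem start_ex (hD : Dat π I₀ r) (hK : AX π K) (α : Equiv.Perm (Fin n))
    (hα : Disjoint (I₀.image α) I₀) :
    ∃ (η₁ ρ₁ τ : AF n), Std 1 (I₀.image α) η₁ ∧ ρ₁ ∈ K ∧ IsSg τ ∧
      (∀ j ∈ I₀, τ (FreeGroup.of j) = FreeGroup.of j) ∧ η₁ * pm α = ρ₁ * τ := by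
  classical
  have hmem : ∀ j, j ∈ I₀ → α j ∈ I₀.image α := fun j hj => Finset.mem_image_of_mem _ hj
  have hmem' : ∀ j, α j ∈ I₀.image α → j ∈ I₀ := fun j hj => by
    obtain ⟨i, hi, hij⟩ := Finset.mem_image.mp hj
    rwa [← α.injective hij]
  have hdis : ∀ j, j ∈ I₀.image α → j ∉ I₀ := fun j hj => Finset.disjoint_left.mp hα hj
  let w : Fin n → FreeGroup (Fin n) := fun a =>
    if a ∈ I₀.image α then FreeGroup.of (α.symm a) else 1
  let u : Fin n → FreeGroup (Fin n) := fun j => if j ∈ I₀ then (FreeGroup.of (α j))⁻¹ else 1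
  have hw_in : ∀ z, z ∈ I₀ → w (α z) = FreeGroup.of z := fun z hz => by
    simp only [w, if_pos (hmem z hz), Equiv.symm_apply_apply]
  have hu_in : ∀ z, z ∈ I₀ → u z = (FreeGroup.of (α z))⁻¹ := fun z hz => by
    simp only [u, if_pos hz]
  have hu_out : ∀ z, z ∉ I₀ → u z = 1 := fun z hz => by simp only [u, if_neg hz]
  have hw_out : ∀ z, z ∉ I₀.image α → w z = 1 := fun z hz => by simp only [w, if_neg hz]
  have okw : Ok (I₀.image α) w := by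
    refine ⟨fun i => ?_, hw_out⟩
    by_cases hi : i ∈ I₀.image α
    · obtain ⟨j, hj, rfl⟩ := Finset.mem_image.mp hi
      rw [hw_in j hj]
      refine of_mem_Sy ?_
      intro h
      exact hdis j (Finset.mem_coe.mp h) hj
    · rw [hw_out i hi]; exact one_mem _
  have okv : Ok (I₀.image α)ᶜ u := by
    refine ⟨fun i => ?_, fun i hi => ?_⟩
    · by_cases hi : i ∈ I₀
      · rw [hu_in i hi]
        refine inv_mem (of_mem_Sy ?_)
        have := hmem i hi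
        simpa using this
      · rw [hu_out i hi]; exact one_mem _
    · have hi' : i ∈ I₀.image α := by simpa using hi
      exact hu_out i (hdis i hi')
  have oku : Ok I₀ u := by
    refine ⟨fun i => ?_, hu_out⟩
    by_cases hi : i ∈ I₀
    · rw [hu_in i hi]
      refine inv_mem (of_mem_Sy ?_)
      have := hdis _ (hmem i hi)
      simpa using this
    · rw [hu_out i hi]; exact one_mem _
  have okone := Ok.one (I₀.image α)
  have okone' := Ok.one (I₀.image α)ᶜ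
  have okI := Ok.one I₀
  set η₁ : AF n := Mm (I₀.image α) 1 w * Mm (I₀.image α)ᶜ 1 u with hη
  set ρ₁ : AF n := Mm I₀ u 1 with hρ
  have hρ_in : ∀ z, z ∈ I₀ → ρ₁ (FreeGroup.of z) = FreeGroup.of (α z) * FreeGroup.of z := by
    intro z hz
    rw [hρ, Mm_of oku okI, hu_in z hz]; simp
  have hρ_out : ∀ z, z ∉ I₀ → ρ₁ (FreeGroup.of z) = FreeGroup.of z := by
    intro z hz
    rw [hρ, Mm_of_not oku okI hz]
  have hη1 : ∀ z, z ∈ I₀ → η₁ (FreeGroup.of z) = (FreeGroup.of (α z))⁻¹ := by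
    intro z hz
    have hz' : z ∉ I₀.image α := fun h => hdis z h hz
    rw [hη, MulAut.mul_apply, Mm_of okone' okv, hu_in z hz]
    simp only [map_mul, map_inv, Pi.one_apply, inv_one, one_mul]
    rw [Mm_of_not okone okw hz', Mm_of okone okw, hw_in z hz]
    simp
  have hη2 : ∀ z, z ∈ I₀ → η₁ (FreeGroup.of (α z)) = FreeGroup.of (α z) * FreeGroup.of z := by
    intro z hz
    have hz' : α z ∉ (I₀.image α)ᶜ := by simpa using hmem z hz
    rw [hη, MulAut.mul_apply, Mm_of_not okone' okv hz', Mm_of okone okw, hw_in z hz]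
    simp
  have hη3 : ∀ z, z ∉ I₀ → z ∉ I₀.image α → η₁ (FreeGroup.of z) = FreeGroup.of z := by
    intro z hz hz'
    rw [hη, MulAut.mul_apply, Mm_of okone' okv, hu_out z hz]
    simp only [Pi.one_apply, inv_one, one_mul, mul_one]
    rw [Mm_of_not okone okw hz']
  have hinv : ∀ {x y : FreeGroup (Fin n)}, ρ₁ y = x → ρ₁⁻¹ x = y := by
    intro x y h
    rw [← h, MulAut.inv_apply_self]
  have hτ1 : ∀ z, z ∈ I₀ → (ρ₁⁻¹ * (η₁ * pm α)) (FreeGroup.of z) = FreeGroup.of z := by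
    intro z hz
    rw [MulAut.mul_apply, MulAut.mul_apply, pm_of, hη2 z hz]
    exact hinv (hρ_in z hz)
  refine ⟨η₁, ρ₁, ρ₁⁻¹ * (η₁ * pm α), ⟨w, u, okw, okv, ?_⟩, ?_, ?_, hτ1, ?_⟩
  · rw [one_mul]
  · have h := sim_Mm hK (1 : AF n) okI okI oku okI (fun i => ?_) (fun i => rfl)
    · unfold Sim at h
      rw [Mm_one, one_mul, one_mul, inv_one, mul_one] at h
      exact h
    · by_cases hi : i ∈ I₀
      · rw [hu_in i hi]
        change π 1 = π (FreeGroup.of (α i))⁻¹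
        rw [map_one, map_inv, hD.light _ (hdis _ (hmem i hi)), inv_one]
      · rw [hu_out i hi]; rfl
  · intro z
    by_cases hz : z ∈ I₀
    · exact ⟨z, Or.inl (hτ1 z hz)⟩
    · by_cases hc : α z ∈ I₀
      · refine ⟨α (α z), Or.inr ?_⟩
        rw [MulAut.mul_apply, MulAut.mul_apply, pm_of, hη1 _ hc]
        refine hinv ?_
        rw [map_inv, hρ_out _ (hdis _ (hmem _ hc))]
      · refine ⟨α z, Or.inl ?_⟩
        rw [MulAut.mul_apply, MulAut.mul_apply, pm_of, hη3 _ hc (fun h => hz (hmem' z h))]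
        exact hinv (hρ_out _ hc)
  · rw [mul_inv_cancel_left]

theorem start (hD : Dat π I₀ r) (hK : AX π K) (hn : 5 * r + 3 ≤ n) :
    ∃ (α : Equiv.Perm (Fin n)) (η₁ ρ₁ τ : AF n), Disjoint (I₀.image α) I₀ ∧
      Std 1 (I₀.image α) η₁ ∧ ρ₁ ∈ K ∧ IsSg τ ∧
      (∀ j ∈ I₀, τ (FreeGroup.of j) = FreeGroup.of j) ∧ η₁ * pm α = ρ₁ * τ ∧
      η₁ * pm α ∈ Gam π := by
  obtain ⟨α, hα⟩ := exists_perm I₀ I₀ (by have := hD.card; omega)
  obtain ⟨η₁, ρ₁, τ, h1, h2, h3, h4, h5⟩ := start_ex hD hK α hα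
  refine ⟨α, η₁, ρ₁, τ, hα, h1, h2, h3, h4, h5, ?_⟩
  rw [h5]
  exact mul_mem (hK.le h2) (QQ_le hD (sg_mem_QQ h3 h4))

private theorem sub_compl {α : Equiv.Perm (Fin n)} (h : Disjoint (I₀.image α) I₀) :
    I₀ ⊆ (I₀.image α)ᶜ := by
  intro z hz
  rw [Finset.mem_compl]
  exact fun h' => Finset.disjoint_left.mp h h' hz

theorem PP_one (hD : Dat π I₀ r) (hK : AX π K) (hn : 5 * r + 3 ≤ n) : PP π K I₀ 1 := by
  obtain ⟨α, η₁, ρ₁, τ, hα, h1, h2, h3, h4, h5, -⟩ := start hD hK hn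
  refine connect hD hK (by omega) (genOn_mono (sub_compl hα) hD.gen) (α := α) ?_
  refine ⟨η₁, τ, h1, sg_mem_QQ h3 h4, ?_⟩
  unfold Sim
  rw [h5, mul_inv_cancel_right]
  exact h2

theorem finish (hD : Dat π I₀ r) (hK : AX π K) (hn : 5 * r + 3 ≤ n) {φ : AF n}
    (hφ : φ ∈ Gam π) (hP : PP π K I₀ φ) :
    ∃ q ∈ QQ I₀, ∃ κ ∈ K, ∃ κ' ∈ K, φ = κ * q * κ' := by
  obtain ⟨α, η₁, ρ₁, τ, hα, ⟨w, v, hw, hv, hη⟩, h2, h3, h4, h5, h6⟩ := start hD hK hn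
  have hg : GenOn π φ (I₀.image α)ᶜ := by
    refine genOn_mono (sub_compl hα) (fun g => ?_)
    obtain ⟨y, hy, hyg⟩ := hD.gen g
    exact ⟨y, hy, by rw [mem_Gam.mp hφ, ← hyg]; rfl⟩
  have hstd : Std φ (I₀.image α) (φ * η₁) := ⟨w, v, hw, hv, by
    rw [hη, one_mul, mul_assoc]⟩
  have hmem : φ * η₁ * pm α ∈ Gam π := by
    rw [mul_assoc]; exact mul_mem hφ h6
  obtain ⟨q, hq, hs⟩ := PA_elim hD hK (hP α hg) hstd hmem
  have hτ : ∀ j ∈ I₀, τ⁻¹ (FreeGroup.of j) = FreeGroup.of j := by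
    intro j hj
    have h := congrArg (τ⁻¹ : AF n) (h4 j hj)
    rw [MulAut.inv_apply_self] at h
    exact h.symm
  refine ⟨q * τ⁻¹, QQ_mul_sg hq h3.inv hτ, φ * η₁ * pm α * q⁻¹, hs, ρ₁⁻¹, inv_mem h2, ?_⟩
  have h7 : φ * η₁ * pm α = φ * (ρ₁ * τ) := by rw [mul_assoc, h5]
  rw [h7]
  group

end STAB
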