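import Mathlib
import Pool.Agent.Helper40.STAB.Defs
import Pool.Agent.Helper40.STAB.A1
import Pool.Agent.Helper40.STAB.Sim
import Pool.Agent.Helper40.STAB.QSet
import Pool.Agent.Helper40.STAB.Move
import Pool.Agent.Helper40.STAB.Start
import Pool.Agent.Helper40.STAB.SAfin

/-!
# STAB-15 GroupMain: the group theoretic half of the theorem

`K = f.ker.map (Gam π).subtype`: `κ ∈ K` iff there is `h : κ ∈ Gam π` with `f ⟨κ, h⟩ = 1`.
PROOF. `QQ_range_finite`: `q = Mm I₀ᶜ u u * τ`; `f (q) = f (Mm I₀ᶜ u u) f (τ)` (both are in `Gam π`, `QQ_le`, `sg_mem_QQ`). There are finitely many `τ` (`isSg_finite`).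
`f (Mm I₀ᶜ u u)` depends only on the function `i ↦ π (u i)` (`sim_Mm` with `φ = 1`: if `π (u i) = π (u' i)` for all `i` then `Mm I₀ᶜ u' u' (Mm I₀ᶜ u u)⁻¹ ∈ K`), and there are
finitely many functions `Fin n → G`.
`group_main`: `K ≤ Gam π`, normalised by `Gam π`, contains `R p q` (`hf`, `R_mem_Gam`), so `AX π K` (`ax_of`). `PP_one`, `PP_SA`: `PP φ` for `φ ∈ SA n`. For `φ ∈ Gam π ⊓ SA n`:
`finish` gives `f φ = f q`, `q ∈ QQ`. So `f` has finite range on `(SA n).subgroupOf (Gam π)`, which has finite index in `Gam π` (`SA_index`,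
`Subgroup.index_ne_zero...`/`relIndex_ne_zero`); a homomorphism with finite image on a subgroup of finite index has finite image (the image of
the subgroup is a finite subgroup of finite index in the range).
-/

set_option autoImplicit false

namespace STAB

open Helper38.AutF

variable {n r : ℕ} {G : Type} [Group G] {π : FreeGroup (Fin n) →* G} {I₀ : Finset (Fin n)}

private theorem ker_eq {L : Type} [Group L] (f : Gam π →* L) {q q' : AF n} (h : q ∈ Gam π)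
    (h' : q' ∈ Gam π) (hs : Sim (f.ker.map (Gam π).subtype) q q') : f ⟨q, h⟩ = f ⟨q', h'⟩ := by
  obtain ⟨k, hk, hk'⟩ := hs
  have h1 : (⟨q', h'⟩ : Gam π) = k * ⟨q, h⟩ := by
    apply Subtype.ext
    change q' = (k : AF n) * q
    have h2 : (k : AF n) = q' * q⁻¹ := hk'
    rw [h2, inv_mul_cancel_right]
  have h3 : f k = 1 := hk
  rw [h1, map_mul, h3, one_mul]

private theorem ker_one {L : Type} [Group L] (f : Gam π →* L) {κ : AF n}
    (hκ : κ ∈ f.ker.map (Gam π).subtype) (h : κ ∈ Gam π) : f ⟨κ, h⟩ = 1 := by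
  obtain ⟨k, hk, rfl⟩ := hκ
  exact hk

theorem QQ_range_finite [Finite G] {L : Type} [Group L] (hD : Dat π I₀ r) (f : Gam π →* L)
    (hK : AX π (f.ker.map (Gam π).subtype)) :
    {y : L | ∃ (q : AF n) (h : q ∈ Gam π), q ∈ QQ I₀ ∧ y = f ⟨q, h⟩}.Finite := by
  have hfin : (Set.univ ×ˢ {τ : AF n | IsSg τ} : Set ((Fin n → G) × AF n)).Finite :=
    Set.Finite.prod Set.finite_univ isSg_finite
  refine (Set.Finite.biUnion (t := fun ct : (Fin n → G) × AF n =>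
    {y : L | ∃ (u : Fin n → FreeGroup (Fin n)) (q : AF n) (h : q ∈ Gam π), Ok I₀ᶜ u ∧
      q = Mm I₀ᶜ u u * ct.2 ∧ (∀ i, π (u i) = ct.1 i) ∧ y = f ⟨q, h⟩}) hfin
      (fun ct _ => Set.Subsingleton.finite ?_)).subset ?_
  · rintro y ⟨u, q, h, hu, hq, hc, rfl⟩ y' ⟨u', q', h', hu', hq', hc', rfl⟩
    have h1 : Sim (f.ker.map (Gam π).subtype) (1 * Mm I₀ᶜ u u) (1 * Mm I₀ᶜ u' u') :=
      sim_Mm hK 1 hu hu hu' hu' (fun i => (hc i).trans (hc' i).symm)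
        (fun i => (hc i).trans (hc' i).symm)
    have h2 := h1.mul ct.2
    rw [one_mul, one_mul, ← hq, ← hq'] at h2
    exact ker_eq f h h' h2
  · rintro y ⟨q, h, ⟨u, τ, hu, hτ, hτ2, hq⟩, rfl⟩
    exact Set.mem_biUnion (x := ((fun i => π (u i)), τ)) ⟨Set.mem_univ _, hτ⟩
      ⟨u, q, h, hu, hq, fun i => rfl, rfl⟩

theorem group_main [Finite G] {L : Type} [Group L] (hD : Dat π I₀ r) (hn : 5 * r + 3 ≤ n)
    (f : Gam π →* L)
    (hf : ∀ (p q : Fin n) (h : R p q ∈ Gam π), p ∉ I₀ → q ∉ I₀ → p ≠ q → f ⟨R p q, h⟩ = 1) :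
    (Set.range f).Finite := by
  have hK1 : f.ker.map (Gam π).subtype ≤ Gam π := Subgroup.map_subtype_le _
  have hK2 : ∀ γ ∈ Gam π, ∀ κ ∈ f.ker.map (Gam π).subtype,
      γ * κ * γ⁻¹ ∈ f.ker.map (Gam π).subtype := by
    rintro γ hγ _ ⟨k, hk, rfl⟩
    exact ⟨⟨γ, hγ⟩ * k * ⟨γ, hγ⟩⁻¹, f.normal_ker.conj_mem k hk _, rfl⟩
  have hK3 : ∀ p q, p ∉ I₀ → q ∉ I₀ → p ≠ q → R p q ∈ f.ker.map (Gam π).subtype := by
    intro p q hp hq hpq
    have h := R_mem_Gam p (hD.light q hq)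
    exact ⟨⟨R p q, h⟩, hf p q h hp hq hpq, rfl⟩
  have hK : AX π (f.ker.map (Gam π).subtype) := ax_of hD hK1 hK2 hK3 (by omega)
  have hsub : f '' ((SA n).subgroupOf (Gam π) : Set (Gam π)) ⊆
      {y : L | ∃ (q : AF n) (h : q ∈ Gam π), q ∈ QQ I₀ ∧ y = f ⟨q, h⟩} := by
    rintro _ ⟨φ, hφ, rfl⟩
    have hφ' : (φ : AF n) ∈ SA n := hφ
    obtain ⟨q, hq, κ, hκ, κ', hκ', he⟩ := finish hD hK hn φ.2
      (PP_SA hD hK hn (PP_one hD hK hn) hφ')
    have hqG : q ∈ Gam π := QQ_le hD hq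
    refine ⟨q, hqG, hq, ?_⟩
    have h1 : φ = ⟨κ, hK1 hκ⟩ * ⟨q, hqG⟩ * ⟨κ', hK1 hκ'⟩ := Subtype.ext he
    rw [h1, map_mul, map_mul, ker_one f hκ, ker_one f hκ', one_mul, mul_one]
  have hfin : (f '' ((SA n).subgroupOf (Gam π) : Set (Gam π))).Finite :=
    (QQ_range_finite hD f hK).subset hsub
  haveI : (SA n).FiniteIndex := ⟨SA_index n⟩
  haveI : ((SA n).subgroupOf (Gam π)).FiniteIndex := inferInstance
  haveI : Finite (Gam π ⧸ (SA n).subgroupOf (Gam π)) := Subgroup.finite_quotient_of_finiteIndex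
  refine (Set.Finite.image2 (fun a b : L => a * b⁻¹)
    (Set.finite_range (fun q : Gam π ⧸ (SA n).subgroupOf (Gam π) => f q.out)) hfin).subset ?_
  rintro _ ⟨g, rfl⟩
  obtain ⟨h, hh⟩ := QuotientGroup.mk_out_eq_mul ((SA n).subgroupOf (Gam π)) g
  refine ⟨_, ⟨(g : Gam π ⧸ (SA n).subgroupOf (Gam π)), rfl⟩, _, ⟨h, h.2, rfl⟩, ?_⟩
  change f ((g : Gam π ⧸ (SA n).subgroupOf (Gam π)).out) * (f h)⁻¹ = f g
  rw [hh, map_mul, mul_inv_cancel_right]

end STAB
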