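import Mathlib
import Pool.Agent.Helper40.STAB.Defs
import Pool.Agent.Helper40.STAB.Chain

/-!
# STAB-33 NormL: normalisation and the index of `Γ(π)`

PROOF. `exists_norm`: `gen_small` for `π` and `S = univ` gives `I₀`, `I₀.card ≤ r`, such that every value `π w` is a value of a word in `Sy I₀` (`Sy univ = ⊤`: `FreeGroup.closure_range_of`).
For `z ∉ I₀` let `w z ∈ Sy I₀` with `π (w z) = (π x_z)⁻¹`, `w j = 1` for `j ∈ I₀`; `α = Mm I₀ᶜ 1 w` (`Ok I₀ᶜ w`). `π (α x_z) = 1` for `z ∉ I₀`; `α` fixes the words in `I₀`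
(`Mm_fix`), so `GenOn (π ∘ α) 1 I₀` (`π` onto).
`Gam_index`: `φ ↦ π ∘ φ⁻¹`... precisely: the map `AF n ⧸ Gam π → (Fin n → G)`, `φ ↦ (j ↦ π (φ⁻¹ x_j))` is well defined and injective on left cosets:
`π ∘ φ⁻¹ = π ∘ ψ⁻¹` iff `π ∘ φ⁻¹ ∘ ψ = π` iff `φ⁻¹ ψ ∈ Gam π`. The target is finite.
-/

set_option autoImplicit false

namespace STAB

open Helper38.AutF

variable {n r : ℕ} {G : Type} [Group G]

theorem exists_norm (hG : ChainLE G r) (π : FreeGroup (Fin n) →* G)
    (hπ : Function.Surjective π) :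
    ∃ (α : AF n) (I₀ : Finset (Fin n)), Dat (π.comp α.toMonoidHom) I₀ r := by
  classical
  obtain ⟨I₀, -, hI, hw⟩ := gen_small hG π Finset.univ
  have htop : ∀ x : FreeGroup (Fin n), x ∈ Sy ((Finset.univ : Finset (Fin n)) : Set (Fin n)) := by
    intro x
    unfold Sy
    rw [Finset.coe_univ, Set.image_univ, FreeGroup.closure_range_of]
    exact Subgroup.mem_top x
  have hgen : ∀ g : G, ∃ w ∈ Sy (I₀ : Set (Fin n)), π w = g := by
    intro g
    obtain ⟨x, hx⟩ := hπ g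
    obtain ⟨w', hw', h2⟩ := hw x (htop x)
    exact ⟨w', hw', h2.trans hx⟩
  choose c hc1 hc2 using hgen
  have hset : (((I₀ᶜ : Finset (Fin n)) : Set (Fin n))ᶜ) = (I₀ : Set (Fin n)) := by
    rw [Finset.coe_compl, compl_compl]
  have hok : Ok I₀ᶜ (fun z => if z ∈ I₀ then 1 else c (π (FreeGroup.of z))⁻¹) := by
    constructor
    · intro i
      rw [hset]
      by_cases hi : i ∈ I₀
      · simp only [hi, if_true]
        exact one_mem _
      · simp only [hi, if_false]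
        exact hc1 _
    · intro i hi
      have hi' : i ∈ I₀ := by simpa using hi
      simp only [hi', if_true]
  refine ⟨Mm I₀ᶜ 1 (fun z => if z ∈ I₀ then 1 else c (π (FreeGroup.of z))⁻¹), I₀,
    ⟨hG, fun g => ?_, fun z hz => ?_, hI⟩⟩
  · refine ⟨c g, hc1 g, ?_⟩
    change π (Mm I₀ᶜ 1 (fun z => if z ∈ I₀ then 1 else c (π (FreeGroup.of z))⁻¹)
      ((1 : AF n) (c g))) = g
    rw [MulAut.one_apply, Mm_fix (Ok.one _) hok (by rw [hset]; exact hc1 g), hc2]
  · change π (Mm I₀ᶜ 1 (fun z => if z ∈ I₀ then 1 else c (π (FreeGroup.of z))⁻¹)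
      (FreeGroup.of z)) = 1
    rw [Mm_of (Ok.one _) hok]
    simp only [hz, if_false, Pi.one_apply, inv_one, one_mul, map_mul, hc2, mul_inv_cancel]

theorem Gam_index [Finite G] (π : FreeGroup (Fin n) →* G) : (Gam π).index ≠ 0 := by
  have key : ∀ φ ψ : AF n, (∀ j, π (φ⁻¹ (FreeGroup.of j)) = π (ψ⁻¹ (FreeGroup.of j))) →
      φ⁻¹ * ψ ∈ Gam π := by
    intro φ ψ h x
    have h1 : π.comp (φ⁻¹ : AF n).toMonoidHom = π.comp (ψ⁻¹ : AF n).toMonoidHom :=
      FreeGroup.ext_hom _ _ h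
    have h2 : π (φ⁻¹ (ψ x)) = π (ψ⁻¹ (ψ x)) := DFunLike.congr_fun h1 (ψ x)
    rw [MulAut.mul_apply, h2, MulAut.inv_apply_self]
  have hfin : Finite (AF n ⧸ Gam π) := by
    refine Finite.of_injective
      (fun q : AF n ⧸ Gam π => fun j : Fin n => π ((q.out)⁻¹ (FreeGroup.of j)))
      (fun q q' h => ?_)
    have h1 := key q.out q'.out (fun j => congrFun h j)
    rw [← QuotientGroup.out_eq' q, ← QuotientGroup.out_eq' q']
    exact QuotientGroup.eq.2 h1
  exact Subgroup.index_ne_zero_of_finite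

end STAB
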