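import Mathlib
import Pool.Agent.Helper40.STAB.Defs

/-!
# STAB-26 SysG: the relations between sign changes, permutations and transvections of light letters

PROOF. `ep z = eps z`, `sg σ = pm (Equiv.Perm.ofSubtype σ)` (both are homomorphisms), `R i j = STAB.R i j` (all in `Gam π`: `eps_mem_Gam`, `pm_mem_Gam`
(`ofSubtype σ` fixes `I₀` and permutes the light letters, all mapped to `1`), `R_mem_Gam`). All relations are checked in `AF n` on letters (`aut_ext`,
`eps_self, eps_ne, pm_of, R_self, R_ne`): `sg_ep`: `pm σ eps_i (pm σ)⁻¹ = eps_{σ i}` (write as `pm σ eps_i = eps_{σ i} pm σ`); `sg_R` the same; `ep_inv`: `eps_j R_ij eps_j`: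
`x_i ↦ x_i x_j⁻¹`, i.e. `(R i j) * (eps_j R_ij eps_j) = 1`; `tri`: `R_jl R_ij`: `x_i ↦ x_i x_j x_l`, `x_j ↦ x_j x_l`, and `R_ij R_il R_jl`:
`x_j ↦ R_ij (R_il (x_j x_l)) = x_j x_l`, `x_i ↦ R_ij (x_i x_l) = x_i x_j x_l`; `left`: `eps_i R_ij eps_i`: `x_i ↦ x_j⁻¹ x_i`, which commutes with `x_i ↦ x_i x_t`.
For `R : Z → Z → Γ` with `i = j` use `STAB.R i i` (it is `1`, but nothing is required).
-/

set_option autoImplicit false

namespace STAB

open Helper38.AutF

variable {n r : ℕ} {G : Type} [Group G] {π : FreeGroup (Fin n) →* G} {I₀ : Finset (Fin n)}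

private theorem r_eps_comm (i j : Fin n) : eps i * eps j = eps j * eps i := by
  refine aut_ext fun c => ?_
  rw [MulAut.mul_apply, MulAut.mul_apply]
  by_cases h1 : c = i
  · subst h1
    by_cases h2 : c = j
    · subst h2
      rfl
    · rw [eps_ne h2, eps_self, map_inv, eps_ne h2]
  · by_cases h2 : c = j
    · subst h2
      rw [eps_self, map_inv, eps_ne h1, eps_self]
    · rw [eps_ne h2, eps_ne h1, eps_ne h2]

private theorem r_sg_ep (σ : Equiv.Perm (Fin n)) (i : Fin n) :
    pm σ * eps i * (pm σ)⁻¹ = eps (σ i) := by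
  rw [mul_inv_eq_iff_eq_mul]
  refine aut_ext fun c => ?_
  rw [MulAut.mul_apply, MulAut.mul_apply, pm_of]
  by_cases h1 : c = i
  · subst h1
    rw [eps_self, map_inv, pm_of, eps_self]
  · have h2 : σ c ≠ σ i := fun h => h1 (σ.injective h)
    rw [eps_ne h1, eps_ne h2, pm_of]

private theorem r_sg_R (σ : Equiv.Perm (Fin n)) (i j : Fin n) (hij : i ≠ j) :
    pm σ * R i j * (pm σ)⁻¹ = R (σ i) (σ j) := by
  rw [mul_inv_eq_iff_eq_mul]
  refine aut_ext fun c => ?_
  rw [MulAut.mul_apply, MulAut.mul_apply, pm_of]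
  by_cases h1 : c = i
  · subst h1
    have h2 : σ j ≠ σ c := fun h => hij (σ.injective h).symm
    rw [R_self hij.symm, map_mul, pm_of, pm_of, R_self h2]
  · have h2 : σ c ≠ σ i := fun h => h1 (σ.injective h)
    rw [R_ne h1, R_ne h2, pm_of]

private theorem r_ep_R (l i j : Fin n) (hli : l ≠ i) (hlj : l ≠ j) (hij : i ≠ j) :
    eps l * R i j = R i j * eps l := by
  refine aut_ext fun c => ?_
  rw [MulAut.mul_apply, MulAut.mul_apply]
  by_cases h1 : c = i
  · subst h1
    rw [R_self hij.symm, map_mul, eps_ne hli.symm, eps_ne hlj.symm, R_self hij.symm]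
  · rw [R_ne h1]
    by_cases h2 : c = l
    · subst h2
      rw [eps_self, map_inv, R_ne h1]
    · rw [eps_ne h2, R_ne h1]

private theorem r_ep_inv (i j : Fin n) (hij : i ≠ j) :
    eps j * R i j * eps j = (R i j)⁻¹ := by
  rw [eq_inv_iff_mul_eq_one]
  refine aut_ext fun c => ?_
  rw [MulAut.mul_apply, MulAut.mul_apply, MulAut.mul_apply, MulAut.one_apply]
  by_cases h1 : c = i
  · subst h1
    rw [R_self hij.symm, map_mul, map_mul, map_mul, eps_ne hij, eps_self, map_inv, map_inv,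
      R_ne hij.symm, R_self hij.symm, map_mul, eps_ne hij, eps_self, inv_inv]
    group
  · rw [R_ne h1]
    by_cases h2 : c = j
    · subst h2
      rw [eps_self, map_inv, map_inv, R_ne h1, eps_self, inv_inv]
    · rw [eps_ne h2, R_ne h1, eps_ne h2]

private theorem r_comm4 (i j s t : Fin n) (hij : i ≠ j) (hst : s ≠ t) (his : i ≠ s) (hit : i ≠ t)
    (hjs : j ≠ s) : R i j * R s t = R s t * R i j := by
  refine aut_ext fun c => ?_
  rw [MulAut.mul_apply, MulAut.mul_apply]
  by_cases h1 : c = i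
  · subst h1
    rw [R_ne his, R_self hij.symm, map_mul, R_ne his, R_ne hjs]
  · rw [R_ne h1]
    by_cases h2 : c = s
    · subst h2
      rw [R_self hst.symm, map_mul, R_ne his.symm, R_ne hit.symm]
    · rw [R_ne h2, R_ne h1]

private theorem r_tri (i j l : Fin n) (hij : i ≠ j) (hil : i ≠ l) (hjl : j ≠ l) :
    R j l * R i j = R i j * R i l * R j l := by
  refine aut_ext fun c => ?_
  rw [MulAut.mul_apply, MulAut.mul_apply, MulAut.mul_apply]
  by_cases h1 : c = i
  · subst h1
    rw [R_self hij.symm, map_mul, R_ne hij, R_self hjl.symm, R_self hil.symm, map_mul,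
      R_self hij.symm, R_ne hil.symm, mul_assoc]
  · rw [R_ne h1]
    by_cases h2 : c = j
    · subst h2
      rw [R_self hjl.symm, map_mul, map_mul, R_ne hij.symm, R_ne hil.symm, R_ne hij.symm,
        R_ne hil.symm]
    · rw [R_ne h2, R_ne h1, R_ne h1]

private theorem r_left (i j t : Fin n) (hij : i ≠ j) (hit : i ≠ t) :
    (eps i * R i j * eps i) * R i t = R i t * (eps i * R i j * eps i) := by
  refine aut_ext fun c => ?_
  simp only [MulAut.mul_apply]
  by_cases h1 : c = i
  · subst h1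
    rw [R_self hit.symm, eps_self]
    simp only [map_mul, map_inv]
    rw [eps_ne hit.symm, eps_self, R_self hij.symm]
    simp only [map_mul, map_inv]
    rw [R_ne hit.symm, R_self hij.symm, eps_ne hit.symm]
    simp only [map_mul, map_inv]
    rw [eps_self, eps_ne hij.symm]
    simp only [mul_inv_rev, inv_inv, map_mul, map_inv]
    rw [R_self hit.symm, R_ne hij.symm, mul_assoc]
  · rw [R_ne h1, eps_ne h1, R_ne h1, eps_ne h1, R_ne h1]

private theorem light_pm (hD : Dat π I₀ r) (σ : Equiv.Perm (ZZ I₀)) :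
    pm (Equiv.Perm.ofSubtype σ) ∈ Gam π := by
  refine pm_mem_Gam fun j => ?_
  by_cases hj : j ∉ I₀
  · have h1 : Equiv.Perm.ofSubtype σ j = ((σ ⟨j, hj⟩ : ZZ I₀) : Fin n) :=
      Equiv.Perm.ofSubtype_apply_of_mem σ hj
    rw [h1, hD.light _ (σ ⟨j, hj⟩).2, hD.light _ hj]
  · rw [Equiv.Perm.ofSubtype_apply_of_not_mem σ hj]

private theorem ofS (σ : Equiv.Perm (ZZ I₀)) (z : ZZ I₀) :
    Equiv.Perm.ofSubtype σ (z : Fin n) = ((σ z : ZZ I₀) : Fin n) :=
  Equiv.Perm.ofSubtype_apply_coe σ z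

theorem sys_exists (hD : Dat π I₀ r) : ∃ S : Sys (ZZ I₀) (Gam π), Spec π I₀ S := by
  have hne : ∀ {a b : ZZ I₀}, a ≠ b → (a : Fin n) ≠ (b : Fin n) :=
    fun h h' => h (Subtype.ext h')
  refine ⟨{ ep := fun z => ⟨eps (z : Fin n), eps_mem_Gam (hD.light _ z.2)⟩
            sg := (pm.comp Equiv.Perm.ofSubtype).codRestrict (Gam π) (light_pm hD)
            R := fun i j => ⟨STAB.R (i : Fin n) (j : Fin n), R_mem_Gam _ (hD.light _ j.2)⟩
            ep_sq := fun i => Subtype.ext (eps_sq _)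
            ep_comm := fun i j => Subtype.ext (r_eps_comm _ _)
            sg_ep := fun σ i => Subtype.ext ?_
            sg_R := fun σ i j hij => Subtype.ext ?_
            ep_R := fun l i j h1 h2 h3 => Subtype.ext (r_ep_R _ _ _ (hne h1) (hne h2) (hne h3))
            ep_inv := fun i j h => Subtype.ext (r_ep_inv _ _ (hne h))
            comm4 := fun i j s t h1 h2 h3 h4 h5 _ =>
              Subtype.ext (r_comm4 _ _ _ _ (hne h1) (hne h2) (hne h3) (hne h4) (hne h5))
            comm3 := fun i j s h1 h2 h3 => Subtype.ext (r_comm4 _ _ _ _ (hne h1) (hne h2) (hne h3)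
              (hne h1) (hne h2).symm)
            tri := fun i j l h1 h2 h3 => Subtype.ext (r_tri _ _ _ (hne h1) (hne h2) (hne h3))
            left := fun i j t h1 h2 => Subtype.ext (r_left _ _ _ (hne h1) (hne h2)) },
          ⟨fun _ => rfl, fun _ => rfl, fun _ _ _ => rfl⟩⟩
  · change pm (Equiv.Perm.ofSubtype σ) * eps (i : Fin n) * (pm (Equiv.Perm.ofSubtype σ))⁻¹ =
      eps ((σ i : ZZ I₀) : Fin n)
    rw [r_sg_ep, ofS]
  · change pm (Equiv.Perm.ofSubtype σ) * STAB.R (i : Fin n) (j : Fin n) *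
      (pm (Equiv.Perm.ofSubtype σ))⁻¹ = STAB.R ((σ i : ZZ I₀) : Fin n) ((σ j : ZZ I₀) : Fin n)
    rw [r_sg_R _ _ _ (hne hij), ofS, ofS]

end STAB
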