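import Mathlib
import Pool.Agent.Helper40.STAB.Defs
import Pool.Agent.Helper40.STAB.Cls
import Pool.Agent.Helper40.STAB.SysG
import Pool.Agent.Helper40.STAB.CountS

/-!
# STAB-32 RepMain: representations of dimension at most `n - 2` kill the light transvections

PROOF. `k = card (ZZ I₀) = n - I₀.card ≥ 4 r + 8`, `d = I₀.card ≤ r`, `m = finrank V ≤ n - 2 = k + d - 2 < k + k / 2`. `S` from `sys_exists`. `cls S ρ`: if all `ρ (S.R i j) = 1` we are done
(`Spec.R`). Otherwise `q + k = m`, so `q + 2 ≤ d`. Type S: `typeS_false` for `cj ρ Φ`. Type D: let `ρ' = cj ρ Φ` on `W = (Fin q → K) × (ZZ I₀ → K)` and `ρ* = du ρ'` on `Dual K W`,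
`finrank = m` (`Subspace.dual_finrank_eq`). `cls S ρ*`: (a) all `ρ* (S.R i j) = 1`: then `f (ρ' (S.R i j)⁻¹ v) = f v` for all `f`, so `ρ' (S.R i j) = 1` (`Module.forall_dual_apply_eq_zero_iff`
or `Module.dual...injective`), which contradicts `typeD_ne` (`0 * 0 = 0`; three different letters). (b) type S for `cj ρ* Φ'`: `typeS_false` (`q' + k = m`). (c) type D for
`cj ρ* Φ'`: `typeD_ne` says that `(cj ρ* Φ' (R i j) - 1) * (cj ρ* Φ' (R j l) - 1) ≠ 0`, but it is the conjugate by `Φ'` of `(ρ* (R i j) - 1) * (ρ* (R j l) - 1) = 0` (`dual_comp`).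
-/

set_option autoImplicit false

namespace STAB

open Helper38.AutF

variable {n r : ℕ} {G : Type} [Group G] {π : FreeGroup (Fin n) →* G} {I₀ : Finset (Fin n)}

private theorem cj_comp_zero {Γ K V W : Type} [Group Γ] [Field K] [AddCommGroup V] [Module K V]
    [AddCommGroup W] [Module K W] (ρ : Γ →* Module.End K V) (Φ : V ≃ₗ[K] W) (a b : Γ)
    (h : (ρ a - 1) * (ρ b - 1) = 0) : (cj ρ Φ a - 1) * (cj ρ Φ b - 1) = 0 := by
  ext w
  have h1 : ∀ (g : Γ) (w : W), (cj ρ Φ g - 1) w = Φ ((ρ g - 1) (Φ.symm w)) := by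
    intro g w
    rw [LinearMap.sub_apply, cj_apply, LinearMap.sub_apply, map_sub, Module.End.one_apply,
      Module.End.one_apply, LinearEquiv.apply_symm_apply]
  rw [Module.End.mul_apply, h1, h1, LinearEquiv.symm_apply_apply, ← Module.End.mul_apply, h,
    LinearMap.zero_apply, map_zero, LinearMap.zero_apply]

private theorem du_one {Γ K V : Type} [Group Γ] [Field K] [AddCommGroup V] [Module K V]
    (ρ : Γ →* Module.End K V) (g : Γ) (h : du ρ g = 1) : ρ g = 1 := by
  have h1 : ρ g⁻¹ = 1 := by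
    ext v
    rw [Module.End.one_apply]
    have h2 : ∀ f : Module.Dual K V, f (ρ g⁻¹ v - v) = 0 := by
      intro f
      have h3 := congrArg (fun F : Module.End K (Module.Dual K V) => F f v) h
      change du ρ g f v = f v at h3
      rw [du_apply] at h3
      rw [map_sub, h3, sub_self]
    exact sub_eq_zero.mp ((Module.forall_dual_apply_eq_zero_iff K _).mp h2)
  have h2 : ρ g * ρ g⁻¹ = 1 := by rw [← map_mul, mul_inv_cancel, map_one]
  rwa [h1, mul_one] at h2

theorem rep_main [Finite G] (hD : Dat π I₀ r) (hn : 5 * r + 8 ≤ n) {K V : Type} [Field K]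
    [CharZero K] [AddCommGroup V] [Module K V] [FiniteDimensional K V]
    (ρ : Gam π →* Module.End K V) (hV : Module.finrank K V + 2 ≤ n) (p q : Fin n)
    (h : R p q ∈ Gam π) (hp : p ∉ I₀) (hq : q ∉ I₀) (hpq : p ≠ q) : ρ ⟨R p q, h⟩ = 1 := by
  classical
  obtain ⟨S, hS⟩ := sys_exists hD
  have hcard : Fintype.card (ZZ I₀) = n - I₀.card := by
    have h1 : Fintype.card {z : Fin n // z ∉ I₀} =
        Fintype.card (Fin n) - Fintype.card {z : Fin n // z ∈ I₀} :=
      Fintype.card_subtype_compl _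
    rw [Fintype.card_fin] at h1
    have h2 : Fintype.card {z : Fin n // z ∈ I₀} = I₀.card := Fintype.card_coe I₀
    rw [h2] at h1
    convert h1
  have hd := hD.card
  have hdn : I₀.card ≤ n := by omega
  have hk : 8 ≤ Fintype.card (ZZ I₀) := by omega
  have hm : Module.finrank K V < Fintype.card (ZZ I₀) + Fintype.card (ZZ I₀) / 2 := by omega
  have hone : (∀ i j : ZZ I₀, i ≠ j → ρ (S.R i j) = 1) → ρ ⟨R p q, h⟩ = 1 := by
    intro h1
    have hne : (⟨p, hp⟩ : ZZ I₀) ≠ ⟨q, hq⟩ := fun h2 => hpq (congrArg Subtype.val h2)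
    have h2 : S.R ⟨p, hp⟩ ⟨q, hq⟩ = ⟨R p q, h⟩ := Subtype.ext (hS.R _ _ hne)
    rw [← h2]
    exact h1 _ _ hne
  obtain ⟨i, j, l, hij, hil, hjl⟩ : ∃ i j l : ZZ I₀, i ≠ j ∧ i ≠ l ∧ j ≠ l :=
    Fintype.two_lt_card_iff.mp (by omega)
  rcases cls S ρ hk hm with h1 | ⟨q', hq', Φ, hC, hT | hT⟩
  · exact hone h1
  · obtain ⟨c, hc⟩ := hT
    exact (typeS_false hD hS hk hC hc (by omega)).elim
  · obtain ⟨b, hb⟩ := hT
    exfalso
    have hfin : Module.finrank K (Module.Dual K ((Fin q' → K) × (ZZ I₀ → K))) =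
        Module.finrank K V := by
      rw [Subspace.dual_finrank_eq]
      exact (LinearEquiv.finrank_eq Φ).symm
    rcases cls S (du (cj ρ Φ)) hk (by rw [hfin]; exact hm) with h2 | ⟨q2, hq2, Φ', hC', hT' | hT'⟩
    · have e1 := du_one _ _ (h2 i j hij)
      have e2 := typeD_ne hb hij hil hjl
      rw [e1, sub_self, zero_mul] at e2
      exact e2 rfl
    · obtain ⟨c, hc⟩ := hT'
      exact typeS_false hD hS hk hC' hc (by omega)
    · obtain ⟨b', hb'⟩ := hT'
      exact typeD_ne hb' hij hil hjl (cj_comp_zero _ Φ' _ _ (dual_comp hb hij hil hjl))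

end STAB
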