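import Mathlib
import Pool.Agent.Helper40.STAB.Defs
import Pool.Agent.Helper40.STAB.Chain
import Pool.Agent.Helper40.STAB.NormL
import Pool.Agent.Helper40.STAB.GroupMain
import Pool.Agent.Helper40.STAB.RepMain

/-!
# STAB-34 Final: the theorem

PROOF. `main_field`: replace `G` by the range `G' = π.range` (`π' = π.rangeRestrict`, `Gam π' = Gam π`, `chainLE_of_injective` with the inclusion, `G'` finite). `exists_norm` for `π'`:
`α`, `I₀`, `Dat (π' ∘ α) I₀ r`; put `π₁ = π'.comp α.toMonoidHom`. `φ ∈ Gam π₁` implies `α * φ * α⁻¹ ∈ Gam π' ≤ H`; let `f₁ : Gam π₁ →* GL (Fin m) K`, `f₁ φ = f (α φ α⁻¹)`. The representation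
`ρ : Gam π₁ →* Module.End K (Fin m → K)` of `f₁` (`Matrix.GeneralLinearGroup.toLin`/`Matrix.toLin'`, injective) kills `R p q` (`rep_main`, `finrank = m`, `m + 2 ≤ n`), so
`f₁ (R p q) = 1`, and `group_main` gives that the range of `f₁` is finite. Every element of `Gam π'` is `α φ α⁻¹` with `φ ∈ Gam π₁`, so `f` has finite range on `Gam π'`
(as a subgroup of `H`), which has finite index in `H` (`Gam_index`). A homomorphism with finite image on a subgroup of finite index has finite image.
`main_domain`: compose with the injective map `GL (Fin m) R → GL (Fin m) (FractionRing R)` (`Matrix.GeneralLinearGroup.map`, `IsFractionRing.injective`;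
`FractionRing R` has characteristic zero).
-/

set_option autoImplicit false

namespace STAB

open Helper38.AutF

private theorem finite_range_of_sub {H L : Type*} [Group H] [Group L] (f : H →* L)
    (N : Subgroup H) [N.FiniteIndex] (hN : (f '' (N : Set H)).Finite) : (Set.range f).Finite := by
  have h1 : (Set.range (fun c : H ⧸ N => f c.out)).Finite := Set.finite_range _
  refine (h1.mul hN).subset ?_
  rintro _ ⟨h, rfl⟩
  refine Set.mem_mul.2 ⟨f (h : H ⧸ N).out, ⟨(h : H ⧸ N), rfl⟩,
    f ((h : H ⧸ N).out⁻¹ * h), ⟨_, ?_, rfl⟩, ?_⟩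
  · exact QuotientGroup.eq.1 (QuotientGroup.out_eq' (h : H ⧸ N))
  · rw [← map_mul, mul_inv_cancel_left]

theorem main_field (n m r : ℕ) (hn : 5 * r + 8 ≤ n) (hm : m + 2 ≤ n) (G : Type) [Group G]
    [Finite G] (hG : ∀ s : LTSeries (Subgroup G), s.length ≤ r)
    (π : FreeGroup (Fin n) →* G) (H : Subgroup (MulAut (FreeGroup (Fin n))))
    (hH : ∀ φ : MulAut (FreeGroup (Fin n)), (∀ x, π (φ x) = π x) → φ ∈ H)
    (K : Type) [Field K] [CharZero K] (f : H →* Matrix.GeneralLinearGroup (Fin m) K) :
    (Set.range f).Finite := by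
  classical
  have hG' : ChainLE π.range r :=
    chainLE_of_injective π.range.subtype Subtype.coe_injective hG
  obtain ⟨α, I₀, hD⟩ := exists_norm hG' π.rangeRestrict (MonoidHom.rangeRestrict_surjective π)
  set π₁ : FreeGroup (Fin n) →* π.range := π.rangeRestrict.comp α.toMonoidHom with hπ₁
  have hval : ∀ x, ((π₁ x : π.range) : G) = π (α x) := fun x => rfl
  have hmem : ∀ φ ∈ Gam π₁, α * φ * α⁻¹ ∈ H := by
    intro φ hφ
    apply hH
    intro x
    have h := congrArg (Subtype.val) (hφ (α⁻¹ x))
    rw [hval, hval, MulAut.apply_inv_self] at h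
    exact h
  let f₁ : Gam π₁ →* Matrix.GeneralLinearGroup (Fin m) K :=
    { toFun := fun φ => f ⟨α * φ * α⁻¹, hmem φ φ.2⟩
      map_one' := by
        have : (⟨α * ((1 : Gam π₁) : AF n) * α⁻¹, hmem _ (1 : Gam π₁).2⟩ : H) = 1 := by
          apply Subtype.ext
          simp
        rw [this, map_one]
      map_mul' := fun a b => by
        rw [← map_mul]
        congr 1
        apply Subtype.ext
        simp only [Subgroup.coe_mul]
        group }
  have hf₁ : ∀ φ : Gam π₁, f₁ φ = f ⟨α * φ * α⁻¹, hmem φ φ.2⟩ := fun φ => rfl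
  let ρ : Gam π₁ →* Module.End K (Fin m → K) :=
    ((Matrix.toLinAlgEquiv' : Matrix (Fin m) (Fin m) K ≃ₐ[K] _) :
      Matrix (Fin m) (Fin m) K →* Module.End K (Fin m → K)).comp
      ((Units.coeHom (Matrix (Fin m) (Fin m) K)).comp f₁)
  have hρ : ∀ φ : Gam π₁, ρ φ = 1 → f₁ φ = 1 := by
    intro φ h
    apply Units.ext
    have h1 : Matrix.toLinAlgEquiv' ((f₁ φ : Matrix.GeneralLinearGroup (Fin m) K) :
        Matrix (Fin m) (Fin m) K) = 1 := h
    have h2 := congrArg (Matrix.toLinAlgEquiv' : Matrix (Fin m) (Fin m) K ≃ₐ[K] _).symm h1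
    rw [AlgEquiv.symm_apply_apply, map_one] at h2
    exact h2
  have h1 : (Set.range f₁).Finite := by
    refine group_main hD (by omega) f₁ (fun p q h hp hq hpq => ?_)
    apply hρ
    refine rep_main hD hn ρ ?_ p q h hp hq hpq
    rw [Module.finrank_fin_fun]
    exact hm
  have hidx : (Gam π).index ≠ 0 := Gam_index π
  have hfi : (Gam π).FiniteIndex := ⟨hidx⟩
  have hfi' : ((Gam π).subgroupOf H).FiniteIndex := inferInstance
  refine finite_range_of_sub f ((Gam π).subgroupOf H) (h1.subset ?_)
  rintro _ ⟨x, hx, rfl⟩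
  have hx' : (x : AF n) ∈ Gam π := hx
  have hy : α⁻¹ * (x : AF n) * α ∈ Gam π₁ := by
    intro y
    apply Subtype.ext
    rw [hval, hval, MulAut.mul_apply, MulAut.mul_apply, MulAut.apply_inv_self]
    exact hx' (α y)
  refine ⟨⟨_, hy⟩, ?_⟩
  rw [hf₁]
  congr 1
  apply Subtype.ext
  simp only
  group

theorem main_domain (n m r : ℕ) (hn : 5 * r + 8 ≤ n) (hm : m + 2 ≤ n) (G : Type) [Group G]
    [Finite G] (hG : ∀ s : LTSeries (Subgroup G), s.length ≤ r)
    (π : FreeGroup (Fin n) →* G) (H : Subgroup (MulAut (FreeGroup (Fin n))))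
    (hH : ∀ φ : MulAut (FreeGroup (Fin n)), (∀ x, π (φ x) = π x) → φ ∈ H)
    (R : Type) [CommRing R] [IsDomain R] [CharZero R]
    (f : H →* Matrix.GeneralLinearGroup (Fin m) R) : (Set.range f).Finite := by
  let K := FractionRing R
  have hinj : Function.Injective (algebraMap R K) := IsFractionRing.injective R K
  have hK : CharZero K := charZero_of_injective_algebraMap hinj
  let κ : Matrix.GeneralLinearGroup (Fin m) R →* Matrix.GeneralLinearGroup (Fin m) K :=
    Matrix.GeneralLinearGroup.map (algebraMap R K)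
  have hκ : Function.Injective κ := by
    intro a b hab
    apply Units.ext
    ext i j
    have h := congrArg (fun A : Matrix.GeneralLinearGroup (Fin m) K =>
      (A : Matrix (Fin m) (Fin m) K) i j) hab
    exact hinj (by simpa [κ] using h)
  have h := main_field n m r hn hm G hG π H hH K (κ.comp f)
  have h2 : Set.range (κ.comp f) = κ '' Set.range f := by
    rw [← Set.range_comp]
    rfl
  rw [h2] at h
  exact h.of_finite_image hκ.injOn

end STAB
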